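import Pool.Agent.RLW.Defs

/-!
# RLW (MP_f7beb7_gt): frozen statements of the modules, with proofs

Notation: `δ x = infDist x K`, `ν = nu K`, `P = npt K`.
-/

set_option autoImplicit false

open MeasureTheory Metric Set
open scoped BigOperators Pointwise RealInnerProductSpace NNReal Topology

namespace RLW

/-! ### the distance to a convex body -/

/-- [NPT] nearest points. `mem`, `dst`: the choice in `npt` is possible by compactness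
(`IsCompact.exists_infDist_eq_dist`). `var`: `norm_eq_iInf_iff_real_inner_le_zero`, or directly: for
`z ∈ K`, `0 ≤ θ ≤ 1`, `‖x - P x - θ (z - P x)‖ ≥ ‖x - P x‖`. `lip`: add `var` for `(x, P y)` and
`(y, P x)`: `‖P x - P y‖ ^ 2 ≤ ⟪x - y, P x - P y⟫`. -/
structure St_NPT : Prop where
  mem : ∀ (n : ℕ) (K : Set (E n)) (x : E n), CB K → npt K x ∈ K
  dst : ∀ (n : ℕ) (K : Set (E n)) (x : E n), CB K → ‖x - npt K x‖ = infDist x K
  var : ∀ (n : ℕ) (K : Set (E n)) (x z : E n), CB K → z ∈ K →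
    ⟪x - npt K x, z - npt K x⟫ ≤ 0
  lip : ∀ (n : ℕ) (K : Set (E n)) (x y : E n), CB K → ‖npt K x - npt K y‖ ≤ ‖x - y‖

/-- [NUB] the unit normal. `pos`: `K` is closed. `sub`: `δ y = ‖y - P y‖ ≥ ⟪ν x, y - P y⟫ =
⟪ν x, y - x⟫ + ⟪ν x, x - P x⟫ + ⟪ν x, P x - P y⟫`, the second term is `δ x`, the third is `≥ 0` by
`St_NPT.var`. `lip`: `ν x - ν y = (δ x)⁻¹ ((x - P x) - (y - P y)) + ((δ x)⁻¹ - (δ y)⁻¹) (y - P y)`,
the first term has norm `≤ 2 ‖x - y‖ / a`, the second `≤ |δ x - δ y| / δ x ≤ ‖x - y‖ / a`. `der`: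
`0 ≤ δ y - δ x - ⟪ν x, y - x⟫ ≤ ⟪ν y - ν x, y - x⟫` by `sub` (twice), and `lip` near `x`. -/
structure St_NUB : Prop where
  pos : ∀ (n : ℕ) (K : Set (E n)) (x : E n), CB K → x ∉ K → 0 < infDist x K
  unit : ∀ (n : ℕ) (K : Set (E n)) (x : E n), CB K → x ∉ K → ‖nu K x‖ = 1
  sub : ∀ (n : ℕ) (K : Set (E n)) (x y : E n), CB K → x ∉ K →
    infDist x K + ⟪nu K x, y - x⟫ ≤ infDist y K
  lip : ∀ (n : ℕ) (K : Set (E n)) (x y : E n) (a : ℝ), CB K → 0 < a → a ≤ infDist x K →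
    a ≤ infDist y K → ‖nu K x - nu K y‖ ≤ 3 / a * ‖x - y‖
  der : ∀ (n : ℕ) (K : Set (E n)) (x : E n), CB K → x ∉ K →
    HasFDerivAt (fun y => infDist y K) (innerSL ℝ (nu K x)) x

/-- [HES] second derivatives. `ae`: `ν` is Lipschitz on the open sets `{δ > 1 / (k + 1)}`:
`LipschitzOnWith.ae_differentiableWithinAt_of_mem`. `sym`: `second_derivative_symmetric_of_eventually`
for `δ` (`St_NUB.der` near `x`, the derivative of `y ↦ innerSL ℝ (ν y)` is `innerSL ℝ ∘ H`). `psd`: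
`⟪ν (x + t v) - ν x, t v⟫ ≥ 0` (`St_NUB.sub` twice), divide by `t ^ 2`. `ker`: differentiate
`‖ν y‖ ^ 2 = 1`: `⟪H v, ν x⟫ = 0` for all `v`, then `sym`. -/
structure St_HES : Prop where
  ae : ∀ (n : ℕ) (K : Set (E n)), CB K → ∀ᵐ x : E n, x ∉ K → DifferentiableAt ℝ (nu K) x
  sym : ∀ (n : ℕ) (K : Set (E n)) (x : E n) (H : E n →L[ℝ] E n), CB K → x ∉ K →
    HasFDerivAt (nu K) H x → ∀ v w, ⟪H v, w⟫ = ⟪v, H w⟫
  psd : ∀ (n : ℕ) (K : Set (E n)) (x : E n) (H : E n →L[ℝ] E n), CB K → x ∉ K →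
    HasFDerivAt (nu K) H x → ∀ v, 0 ≤ ⟪H v, v⟫
  ker : ∀ (n : ℕ) (K : Set (E n)) (x : E n) (H : E n →L[ℝ] E n), CB K → x ∉ K →
    HasFDerivAt (nu K) H x → H (nu K x) = 0

/-! ### the divergence theorem -/

/-- [IBP] line derivatives of Lipschitz functions with compact support have integral zero:
`LipschitzWith.integral_lineDeriv_mul_eq` with the constant function one. Integrability: the line
derivative is bounded by the Lipschitz constant and vanishes outside of the (compact) support;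
measurability: `measurable_lineDeriv`. -/
def St_IBP : Prop := ∀ (n : ℕ) (f : E n → ℝ) (C : ℝ≥0) (v : E n), LipschitzWith C f →
  HasCompactSupport f → Integrable (fun x => lineDeriv ℝ f x v) ∧ ∫ x, lineDeriv ℝ f x v = 0

/-- [CTS] functions `φ (δ x) h (ν x)` with `φ` supported in `[a, b]`, `a > 0`, are continuous (at
points of `Kᶜ` because `ν` is continuous there with values in the sphere; near points with
`δ x < a` the function is zero) with compact support (contained in `{δ ≤ b}`, which is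
`cthickening b K`, compact). -/
def St_CTS : Prop := ∀ (n : ℕ) (K : Set (E n)) (φ : ℝ → ℝ) (h : E n → ℝ) (a b : ℝ), CB K →
  0 < a → Continuous φ → (∀ s, s ∉ Ioo a b → φ s = 0) → ContinuousOn h (sphere 0 1) →
  Continuous (fun x => φ (infDist x K) * h (nu K x)) ∧
  HasCompactSupport (fun x => φ (infDist x K) * h (nu K x)) ∧
  Integrable (fun x => φ (infDist x K) * h (nu K x))

/-- [LIZ] the field `w (δ) G (ν)` is Lipschitz. On `{δ ≥ a}` it is a product of bounded Lipschitz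
functions (`w` is Lipschitz: `w1` is bounded; `G ∘ ν` by `St_NUB.lip`; `G` is bounded on the
sphere); if `δ x ≥ a` and `δ y < a` then `|f x - f y| = |f x| ≤ M w (δ x) = M |w (δ x) - w (δ y)|`. -/
def St_LIZ : Prop := ∀ (n : ℕ) (K : Set (E n)) (a b : ℝ) (w w1 w2 : ℝ → ℝ) (G : E n → E n)
  (G' : E n → E n →L[ℝ] E n) (j : Fin n), CB K → Tst a b w w1 w2 → Fld G G' →
  (∃ C : ℝ≥0, LipschitzWith C fun x => w (infDist x K) * G (nu K x) j) ∧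
  HasCompactSupport fun x => w (infDist x K) * G (nu K x) j

/-- [DEZ] the divergence of `w (δ) G (ν)`. If `δ x < a` all functions vanish near `x`. If not, `x ∉ K`;
for almost all `x` the field `ν` has a derivative `H` at `x` (`St_HES`), and the derivative of
`w (δ) G (ν) j` in the direction `e_j` is `w1 (δ x) (ν x) j G (ν x) j + w (δ x) (G' (ν x) (H e_j)) j`;
use `Fld.pos`. -/
def St_DEZ : Prop := ∀ (n : ℕ) (K : Set (E n)) (a b : ℝ) (w w1 w2 : ℝ → ℝ) (G : E n → E n)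
  (G' : E n → E n →L[ℝ] E n), CB K → Tst a b w w1 w2 → Fld G G' →
  ∀ᵐ x : E n, w1 (infDist x K) * ⟪nu K x, G (nu K x)⟫ ≤
    ∑ j, lineDeriv ℝ (fun y => w (infDist y K) * G (nu K y) j) x (EuclideanSpace.single j 1)

/-- [DIV] from `St_IBP`, `St_CTS`, `St_LIZ`, `St_DEZ` (`integral_mono_ae`). -/
def St_DIV : Prop := ∀ (n : ℕ) (K : Set (E n)) (a b : ℝ) (w w1 w2 : ℝ → ℝ) (G : E n → E n)
  (G' : E n → E n →L[ℝ] E n), CB K → Tst a b w w1 w2 → Fld G G' →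
  ∫ x, w1 (infDist x K) * ⟪nu K x, G (nu K x)⟫ ≤ 0

/-! ### integrals of functions of the distance, lines -/

/-- [LAY] `φ (δ x) = - ∫ s in a..b, φ' s * 1 (δ x ≤ s)`, Fubini, `{x | δ x ≤ s} = cthickening s K =
K + closedBall 0 s` (`IsCompact.cthickening_eq_add_closedBall`). `n = 0` is allowed. -/
def St_LAY : Prop := ∀ (n : ℕ) (K : Set (E n)) (a b : ℝ) (φ φ' : ℝ → ℝ), CB K → 0 < a → a < b →
  (∀ s, HasDerivAt φ (φ' s) s) → Continuous φ' → (∀ s, s ∉ Ioo a b → φ s = 0) →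
  ∫ x : E n, φ (infDist x K) = -∫ s in a..b, φ' s * vo K s

/-- [PRC] the projection is a convex body; distances on lines: `infDist y (prj i '' K)` is the
minimum of `s ↦ infDist (ins i s y) K` (`‖ins i s y - z‖ ^ 2 = (s - z i) ^ 2 + ‖y - prj i z‖ ^ 2`). -/
structure St_PRC : Prop where
  cb : ∀ (n : ℕ) (i : Fin (n + 1)) (K : Set (E (n + 1))), CB K → CB (prj i '' K)
  le : ∀ (n : ℕ) (i : Fin (n + 1)) (K : Set (E (n + 1))) (s : ℝ) (y : E n), CB K →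
    infDist y (prj i '' K) ≤ infDist (ins i s y) K
  eq : ∀ (n : ℕ) (i : Fin (n + 1)) (K : Set (E (n + 1))) (y : E n), CB K →
    ∃ s : ℝ, infDist (ins i s y) K = infDist y (prj i '' K)

/-- [SLC] one line. Let `h s = δ (ins i s y)` and `s0` as in `St_PRC.eq`. The function
`k s = w (h s)` is differentiable with the derivative `w1 (h s) * ν (ins i s y) i` (if `h s < a` it is
zero near `s`; else `St_NUB.der`), continuous derivative with compact support. `ν i ≥ 0` for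
`s > s0` and `ν i ≤ 0` for `s < s0` (if `h s > 0`): `St_NUB.sub` with `y = ins i s0 y` gives
`ν i * (s - s0) ≥ h s - h s0 ≥ 0`. So the integral over `(s0, ∞)` is `0 - k s0` and over
`(-∞, s0)` it is `- (k s0 - 0)`. -/
def St_SLC : Prop := ∀ (n : ℕ) (i : Fin (n + 1)) (K : Set (E (n + 1))) (a b : ℝ)
  (w w1 w2 : ℝ → ℝ) (y : E n), CB K → Tst a b w w1 w2 →
  ∫ s : ℝ, w1 (infDist (ins i s y) K) * |nu K (ins i s y) i| = -2 * w (infDist y (prj i '' K))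

/-- [FUB] Fubini for `E (n + 1)` (`volume_preserving_piFinSuccAbove` and
`EuclideanSpace.volume_preserving_...`). -/
def St_FUB : Prop := ∀ (n : ℕ) (i : Fin (n + 1)) (F : E (n + 1) → ℝ), Integrable F →
  ∫ x, F x = ∫ y : E n, ∫ s : ℝ, F (ins i s y)

/-- [SLI] from `St_FUB`, `St_SLC`, `St_LAY` (dimension `n`, `φ = w`), `St_PRC.cb`, `St_CTS`
(integrability, `h u = |u i|`). -/
def St_SLI : Prop := ∀ (n : ℕ) (i : Fin (n + 1)) (K : Set (E (n + 1))) (a b : ℝ)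
  (w w1 w2 : ℝ → ℝ), CB K → Tst a b w w1 w2 →
  ∫ x : E (n + 1), w1 (infDist x K) * |nu K x i| = 2 * ∫ s in a..b, w1 s * vo (prj i '' K) s

/-! ### the vector field -/

/-- [SGN] regularised signs exist: `s1 x = max 0 (3 / (2 η) * (1 - (x / η) ^ 2))`,
`s x = ∫ y in 0..x, s1 y`, `Φ x = ∫ y in 0..x, s y`; `s x = 1` for `x ≥ η`, `s` odd and
monotone, `Φ` even; `Φ x ≤ x s x` since `s` is monotone; `|x| - x s x` and `x s x - Φ x` are `≤ η`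
(for `|x| ≤ η` both are `≤ |x|`; the second is constant for `x ≥ η`). -/
def St_SGN : Prop := ∀ η : ℝ, 0 < η → ∃ s s1 Φ : ℝ → ℝ, Sg η s s1 Φ

/-- [LMB] properties of `lam` (`lam (cos d) = d / sin d`). `pos`: `2 / π * d ≤ sin d`
(`Real.mul_le_sin`), `cl`: `d cos d ≤ sin d`; `idn` is the definition of `lam1`; `anti` from the sign of
`lam1` (`cl`). -/
structure St_LMB : Prop where
  der : ∀ c : ℝ, -1 < c → c < 1 → HasDerivAt lam (lam1 c) c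
  cts : ∀ c : ℝ, -1 < c → c < 1 → ContinuousAt lam1 c
  pos : ∀ c : ℝ, 0 ≤ c → c < 1 → 0 < lam c ∧ lam c ≤ Real.pi / 2
  cl : ∀ c : ℝ, 0 ≤ c → c < 1 → c * lam c ≤ 1
  idn : ∀ c : ℝ, -1 < c → c < 1 → 1 - c * lam c = -lam1 c * (1 - c ^ 2)
  neg : ∀ c : ℝ, 0 ≤ c → c < 1 → lam1 c ≤ 0
  anti : ∀ c c' : ℝ, 0 ≤ c → c ≤ c' → c' < 1 → lam c' ≤ lam c
  cos : ∀ t : ℝ, 0 < t → t ≤ Real.pi / 2 → lam (Real.cos t) * Real.sin t = t

/-- [CQB] bounds for `cq`: `0 ≤ Φ x ≤ |x|`, Cauchy-Schwarz. `kp`: the terms `k ≠ j` give at most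
`√(∑ q k ^ 2 - q j ^ 2)`, the term `j` at most `q j η`. -/
structure St_CQB : Prop where
  nn : ∀ (n : ℕ) (η : ℝ) (s s1 Φ : ℝ → ℝ) (q τ : Fin n → ℝ) (u : E n), Sg η s s1 Φ →
    Adm η q τ → ‖u‖ ≤ 1 → 0 ≤ cq Φ q u ∧ cq Φ q u ≤ √(∑ j, q j ^ 2) ∧ cq Φ q u < 1
  kp : ∀ (n : ℕ) (η : ℝ) (s s1 Φ : ℝ → ℝ) (q τ : Fin n → ℝ) (u : E n) (j : Fin n),
    Sg η s s1 Φ → Adm η q τ → ‖u‖ = 1 → |u j| ≤ η → cq Φ q u ≤ kp η q j

/-- [CR1] the derivative of `fld`. On the closed unit ball `0 ≤ cq ≤ √(∑ q ^ 2) < 1` (`St_CQB`), so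
`fld` is differentiable there with the derivative `fldD` (`St_LMB.der`, `Sg.dΦ`, `Sg.ds`); the
derivative is bounded on the ball (`lam`, `lam1` are bounded on `[0, √(∑ q ^ 2)]`, `s`, `s1` are
bounded), so `fld` is Lipschitz on the convex ball
(`Convex.lipschitzOnWith_of_nnnorm_hasFDerivWithin_le`). -/
def St_CR1 : Prop := ∀ (n : ℕ) (η : ℝ) (s s1 Φ : ℝ → ℝ) (q τ : Fin n → ℝ), Sg η s s1 Φ →
  Adm η q τ → ∃ G' : E n → E n →L[ℝ] E n,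
    (∀ u ∈ closedBall (0 : E n) 1, HasFDerivAt (fld s Φ q τ) (G' u) u) ∧
    (∀ u ∈ closedBall (0 : E n) 1, ∀ v j, G' u v j = fldD s s1 Φ q τ u v j) ∧
    ∃ C : ℝ≥0, LipschitzOnWith C (fld s Φ q τ) (sphere 0 1)

/-- [TRC] `⟪v, H v⟫ ≤ ‖v‖ ^ 2 tr H` for nonnegative symmetric `H`: with `h j k = (H e_k) j`:
`|h j k| ≤ √(h j j h k k)`, so `⟪v, H v⟫ ≤ (∑ |v j| √(h j j)) ^ 2`, Cauchy-Schwarz. -/
def St_TRC : Prop := ∀ (n : ℕ) (H : E n →L[ℝ] E n) (v : E n), (∀ v w, ⟪H v, w⟫ = ⟪v, H w⟫) →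
  (∀ v, 0 ≤ ⟪H v, v⟫) → ⟪H v, v⟫ ≤ ‖v‖ ^ 2 * ∑ j, (H (EuclideanSpace.single j 1)) j

/-- [CR2] positivity. Write `c = cq Φ q u`, `L = lam c`, `g k = q k * s (u k)`, `h j k = (H e_k) j`
(symmetric). The sum is `(1 - c L) tr H + (-L - c lam1 c) ⟪g, H u⟫ + ∑ j, s1 (u j) h j j (L q j - τ j) +
lam1 c ⟪g, H g⟫`. The second term is zero. In the third `s1 (u j) = 0` unless `|u j| < η`, and then
`c ≤ kp η q j < 1` (`St_CQB.kp`), so `L q j ≥ lam (kp η q j) q j ≥ τ j`; `h j j ≥ 0`. The first term is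
`- lam1 c (1 - c ^ 2) tr H` (`St_LMB.idn`), `lam1 c ≤ 0`; with `g' = g - ⟪g, u⟫ u`:
`⟪g, H g⟫ = ⟪g', H g'⟫ ≤ ‖g'‖ ^ 2 tr H` (`St_TRC`), `‖g'‖ ^ 2 = ‖g‖ ^ 2 - ⟪g, u⟫ ^ 2 ≤ 1 - c ^ 2`, since
`‖g‖ ^ 2 ≤ ∑ q ^ 2 ≤ 1` and `⟪g, u⟫ = ∑ q j s (u j) u j ≥ ∑ q j Φ (u j) = c ≥ 0`. -/
def St_CR2 : Prop := ∀ (n : ℕ) (η : ℝ) (s s1 Φ : ℝ → ℝ) (q τ : Fin n → ℝ) (u : E n)
  (H : E n →L[ℝ] E n), Sg η s s1 Φ → Adm η q τ → ‖u‖ = 1 → (∀ v w, ⟪H v, w⟫ = ⟪v, H w⟫) →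
  (∀ v, 0 ≤ ⟪H v, v⟫) → H u = 0 →
  0 ≤ ∑ j, fldD s s1 Φ q τ u (H (EuclideanSpace.single j 1)) j

/-- [CRT] from `St_CR1`, `St_CR2`. -/
def St_CRT : Prop := ∀ (n : ℕ) (η : ℝ) (s s1 Φ : ℝ → ℝ) (q τ : Fin n → ℝ), Sg η s s1 Φ →
  Adm η q τ → ∃ G' : E n → E n →L[ℝ] E n, Fld (fld s Φ q τ) G'

/-- [VAL] the normal part of `fld`: `⟪u, fld u⟫ = 1 + L (∑ q j s (u j) u j - c) - ∑ τ j s (u j) u j`,
`0 ≤ s (u j) u j - Φ (u j) ≤ η`, `0 ≤ |u j| - s (u j) u j ≤ η`, `0 ≤ L ≤ π / 2` (`St_LMB.pos`). -/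
def St_VAL : Prop := ∀ (n : ℕ) (η : ℝ) (s s1 Φ : ℝ → ℝ) (q τ : Fin n → ℝ) (u : E n),
  Sg η s s1 Φ → Adm η q τ → ‖u‖ = 1 →
  |⟪u, fld s Φ q τ u⟫ - (1 - ∑ j, τ j * |u j|)| ≤ η * (Real.pi / 2 * ∑ j, q j + ∑ j, τ j)

/-! ### assembly -/

/-- [ANA] By `St_DIV` for `G = fld` (`St_CRT`): `0 ≥ ∫ w1 (δ) ⟪ν, G (ν)⟫`; by `St_VAL` the right side is
at least `∫ w1 (δ) - ∑ j, τ j ∫ w1 (δ) |ν j| - η (...) ∫ |w1 (δ)|`; then `St_LAY` (`φ = w1`) and `St_SLI`.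
Integrability: `St_CTS` (`h = 1`, `h u = |u j|`, `h u = ⟪u, fld u⟫`, continuous on the sphere because `fld`
is Lipschitz there; outside of `{δ > 0}` the factor `w1 (δ)` is zero). -/
def St_ANA : Prop := ∀ (n : ℕ) (K : Set (E (n + 1))) (a b : ℝ) (w w1 w2 : ℝ → ℝ) (η : ℝ)
  (s s1 Φ : ℝ → ℝ) (q τ : Fin (n + 1) → ℝ), CB K → Tst a b w w1 w2 → Sg η s s1 Φ →
  Adm η q τ → 0 ≤ (∫ x in a..b, w2 x * vo K x) +
    2 * ∑ j, τ j * (∫ x in a..b, w1 x * vo (prj j '' K) x) +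
    η * (Real.pi / 2 * ∑ j, q j + ∑ j, τ j) * ∫ x, |w1 (infDist x K)|

/-- [ADM] the parameters: for `0 < ε < 1`, `η = ε / 2`, `q j = (1 - ε) sin (t j)`,
`τ j = q j lam (kp η q j)`: admissible (`kp η q j ≤ (1 - ε) (1 + ε / 2) < 1`), `q j ≤ 1`, `τ j ≤ π / 2`
(`St_LMB.pos`), and `τ j → t j` for `ε → 0` (if `t j = 0` then `τ j = 0`; else `kp η q j → cos (t j) < 1`
and `lam` is continuous there, `St_LMB.cos`). -/
def St_ADM : Prop := ∀ (n : ℕ) (t : Fin n → ℝ), (∀ j, 0 ≤ t j ∧ t j ≤ Real.pi / 2) →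
  ∑ j, Real.sin (t j) ^ 2 = 1 → ∀ θ : ℝ, 0 < θ → ∃ (η : ℝ) (q τ : Fin n → ℝ), Adm η q τ ∧
    η < θ ∧ (∀ j, q j ≤ 1) ∧ (∀ j, τ j ≤ Real.pi / 2) ∧ ∀ j, |τ j - t j| < θ

/-- [LIM] from `St_ANA`, `St_SGN`, `St_ADM` (`θ → 0`). -/
def St_LIM : Prop := ∀ (n : ℕ) (K : Set (E (n + 1))) (a b : ℝ) (w w1 w2 : ℝ → ℝ)
  (t : Fin (n + 1) → ℝ), CB K → Tst a b w w1 w2 → (∀ j, 0 ≤ t j ∧ t j ≤ Real.pi / 2) →
  ∑ j, Real.sin (t j) ^ 2 = 1 →
  0 ≤ (∫ x in a..b, w2 x * vo K x) + 2 * ∑ j, t j * (∫ x in a..b, w1 x * vo (prj j '' K) x)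

/-- [PO1] `D = f'' - g'`. Partial integration: `0 ≤ ∫ w D` for all test functions `w`. If `D 0 < 0`
then `D < 0` on some `[0, b]`; take `a = b / 2` and a test function with integral `> 0`, e.g.
`w x = ((x - a) (b - x)) ^ 3` on `(a, b)`, zero outside (or a `ContDiffBump`). -/
def St_PO1 : Prop := ∀ f g : Polynomial ℝ, (∀ (a b : ℝ) (w w1 w2 : ℝ → ℝ), Tst a b w w1 w2 →
  0 ≤ (∫ x in a..b, w2 x * f.eval x) + ∫ x in a..b, w1 x * g.eval x) →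
  g.derivative.eval 0 ≤ f.derivative.derivative.eval 0

/-- [KAP] balls -/
def St_KAP : Prop := kap 0 = 1 ∧ kap 1 = 2 ∧ kap 2 = Real.pi ∧ ∀ k, 0 < kap k

/-- [POL] from `St_LIM`, `St_PO1`, `St_KAP`: `f x = ∑ j, kap (n + 1 - j) V j x ^ (n + 1 - j)`,
`g x = 2 ∑ j, t j g_j x`; `f'' 0 = 2 kap 2 V (n - 1) = 2 π V (n - 1)`, `g' 0 = 2 ∑ t j kap 1 W j (n - 1)`. -/
def St_POL : Prop := ∀ (n : ℕ) (K : Set (E (n + 1))) (V : ℕ → ℝ) (W : Fin (n + 1) → ℕ → ℝ)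
  (t : Fin (n + 1) → ℝ), 1 ≤ n → CB K → IsIV K V → (∀ j, IsIV (prj j '' K) (W j)) →
  (∀ j, 0 ≤ t j ∧ t j ≤ Real.pi / 2) → ∑ j, Real.sin (t j) ^ 2 = 1 →
  2 / Real.pi * ∑ j, t j * W j (n - 1) ≤ V (n - 1)

/-- [MON] `V (n - 1) ≥ 0` in dimension `n ≥ 1`: `t ↦ vo K t` is monotone, its derivative at `0` is
`kap 1 * V (n - 1)`. (`CB K` is used for finite volumes.) -/
def St_MON : Prop := ∀ (n : ℕ) (K : Set (E n)) (V : ℕ → ℝ), 1 ≤ n → CB K → IsIV K V →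
  0 ≤ V (n - 1)

/-- [JEN] With `x j = sin (t j)`: `t sin t ≥ α + β (sin t) ^ 2` on `[0, π / 2]` with equality at
`t0 = arcsin (1 / √n)`, `β = (t0 / sin t0 + 1 / cos t0) / 2` (`n ≥ 2`; `n = 1` is an equality): the
derivative of `t sin t - β (sin t) ^ 2` is `sin t cos t (r t - r t0)` with
`r t = 1 / cos t + t / sin t` increasing on `(0, π / 2)`. Sum over `j`. -/
def St_JEN : Prop := ∀ (n : ℕ) (x : Fin n → ℝ), 1 ≤ n → (∀ j, 0 ≤ x j) → ∑ j, x j ^ 2 = 1 →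
  √n * Real.arcsin (1 / √n) ≤ ∑ j, x j * Real.arcsin (x j)

/-- [INE] the inequality. `p j = W j (n - 1) ≥ 0` (`St_MON`, `St_PRC.cb`); if `∑ p j ^ 2 = S ^ 2 > 0`:
`St_POL` with `t j = arcsin (p j / S)`, `St_JEN`. -/
def St_INE : Prop := ∀ (n : ℕ) (K : Set (E (n + 1))) (V : ℕ → ℝ) (W : Fin (n + 1) → ℕ → ℝ),
  1 ≤ n → CB K → IsIV K V → (∀ j, IsIV (prj j '' K) (W j)) →
  cst (n + 1) * ∑ j, W j (n - 1) ^ 2 ≤ V (n - 1) ^ 2

end RLW
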