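import Mathlib
import Pool.Agent.RLW.St

/-!
# RLW [ADM]: admissible parameters exist
-/

set_option autoImplicit false

open MeasureTheory Metric Set
open scoped BigOperators Pointwise RealInnerProductSpace NNReal Topology

namespace RLW

private lemma adm_cos (n : ℕ) (t : Fin n → ℝ) (ht : ∀ j, 0 ≤ t j ∧ t j ≤ Real.pi / 2)
    (j : Fin n) : 0 ≤ Real.cos (t j) ∧ 0 ≤ Real.sin (t j) := by
  have hpi := Real.pi_pos
  refine ⟨Real.cos_nonneg_of_mem_Icc ⟨by linarith [(ht j).1], (ht j).2⟩,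
    Real.sin_nonneg_of_nonneg_of_le_pi (ht j).1 (by linarith [(ht j).2])⟩

private lemma adm_kp (n : ℕ) (t : Fin n → ℝ) (ht : ∀ j, 0 ≤ t j ∧ t j ≤ Real.pi / 2)
    (hs : ∑ j, Real.sin (t j) ^ 2 = 1) (ε : ℝ) (h1 : ε < 1) (j : Fin n) :
    kp (ε / 2) (fun j => (1 - ε) * Real.sin (t j)) j =
      (1 - ε) * Real.cos (t j) + (1 - ε) * Real.sin (t j) * (ε / 2) := by
  unfold kp
  have e : ∑ k, ((1 - ε) * Real.sin (t k)) ^ 2 - ((1 - ε) * Real.sin (t j)) ^ 2 =
      ((1 - ε) * Real.cos (t j)) ^ 2 := by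
    have : ∑ k, ((1 - ε) * Real.sin (t k)) ^ 2 = (1 - ε) ^ 2 := by
      calc ∑ k, ((1 - ε) * Real.sin (t k)) ^ 2 = ∑ k, (1 - ε) ^ 2 * Real.sin (t k) ^ 2 :=
            Finset.sum_congr rfl fun k _ => by ring
        _ = (1 - ε) ^ 2 := by rw [← Finset.mul_sum, hs, mul_one]
    rw [this]
    have := Real.sin_sq_add_cos_sq (t j)
    nlinarith
  rw [e, Real.sqrt_sq (mul_nonneg (by linarith) (adm_cos n t ht j).1)]

private lemma adm_lim (h_LMB : St_LMB) (n : ℕ) (t : Fin n → ℝ)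
    (ht : ∀ j, 0 ≤ t j ∧ t j ≤ Real.pi / 2) (j : Fin n) :
    Filter.Tendsto (fun ε : ℝ => (1 - ε) * Real.sin (t j) *
      lam ((1 - ε) * Real.cos (t j) + (1 - ε) * Real.sin (t j) * (ε / 2))) (𝓝 0) (𝓝 (t j)) := by
  have hpi := Real.pi_pos
  rcases eq_or_lt_of_le (ht j).1 with h | h
  · rw [← h]
    simp
  · have hc1 : Real.cos (t j) < 1 := by
      have := Real.cos_lt_cos_of_nonneg_of_le_pi_div_two le_rfl (ht j).2 h
      rwa [Real.cos_zero] at this
    have hc0 : -1 < Real.cos (t j) := by linarith [(adm_cos n t ht j).1]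
    have hl : ContinuousAt lam (Real.cos (t j)) := (h_LMB.der _ hc0 hc1).continuousAt
    have hin : Filter.Tendsto (fun ε : ℝ => (1 - ε) * Real.cos (t j) +
        (1 - ε) * Real.sin (t j) * (ε / 2)) (𝓝 0) (𝓝 (Real.cos (t j))) := by
      have hc : Continuous (fun ε : ℝ => (1 - ε) * Real.cos (t j) +
        (1 - ε) * Real.sin (t j) * (ε / 2)) := by fun_prop
      have := hc.tendsto 0
      simpa using this
    have h1 : Filter.Tendsto (fun ε : ℝ => (1 - ε) * Real.sin (t j)) (𝓝 0)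
        (𝓝 (Real.sin (t j))) := by
      have hc : Continuous (fun ε : ℝ => (1 - ε) * Real.sin (t j)) := by fun_prop
      have := hc.tendsto 0
      simpa using this
    have h2 := h1.mul (hl.tendsto.comp hin)
    have e : Real.sin (t j) * lam (Real.cos (t j)) = t j := by
      rw [mul_comm]
      exact h_LMB.cos (t j) h (ht j).2
    rw [e] at h2
    exact h2

theorem thm_ADM (h_LMB : St_LMB) : St_ADM := by
  intro n t ht hs θ hθ
  have hpi := Real.pi_pos
  have hev : ∀ᶠ ε : ℝ in 𝓝[>] 0, (∀ j, |(1 - ε) * Real.sin (t j) *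
      lam ((1 - ε) * Real.cos (t j) + (1 - ε) * Real.sin (t j) * (ε / 2)) - t j| < θ) ∧
      ε < 1 ∧ ε < θ ∧ 0 < ε := by
    refine Filter.Eventually.and (Filter.eventually_all.2 fun j => ?_)
      (Filter.Eventually.and ?_ (Filter.Eventually.and ?_ ?_))
    · have := nhdsWithin_le_nhds (s := Ioi (0 : ℝ))
        ((Metric.tendsto_nhds.1 (adm_lim h_LMB n t ht j)) θ hθ)
      filter_upwards [this] with ε hε
      rwa [Real.dist_eq] at hε
    · exact nhdsWithin_le_nhds (Iio_mem_nhds one_pos)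
    · exact nhdsWithin_le_nhds (Iio_mem_nhds hθ)
    · exact self_mem_nhdsWithin
  obtain ⟨ε, h1, h2, h3, h4⟩ := hev.exists
  have hkp := adm_kp n t ht hs ε h2
  have hk0 : ∀ j, 0 ≤ kp (ε / 2) (fun j => (1 - ε) * Real.sin (t j)) j := by
    intro j
    rw [hkp j]
    have := adm_cos n t ht j
    have h1ε : 0 ≤ 1 - ε := by linarith
    have a1 := mul_nonneg h1ε this.1
    have a2 := mul_nonneg (mul_nonneg h1ε this.2) (by linarith : 0 ≤ ε / 2)
    linarith
  have hk1 : ∀ j, kp (ε / 2) (fun j => (1 - ε) * Real.sin (t j)) j < 1 := by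
    intro j
    rw [hkp j]
    have hc := Real.cos_le_one (t j)
    have hsn := Real.sin_le_one (t j)
    have h1ε : 0 < 1 - ε := by linarith
    have a1 : (1 - ε) * Real.cos (t j) ≤ (1 - ε) * 1 := mul_le_mul_of_nonneg_left hc h1ε.le
    have a2 : (1 - ε) * Real.sin (t j) * (ε / 2) ≤ (1 - ε) * 1 * (ε / 2) :=
      mul_le_mul_of_nonneg_right (mul_le_mul_of_nonneg_left hsn h1ε.le) (by linarith)
    nlinarith
  refine ⟨ε / 2, fun j => (1 - ε) * Real.sin (t j), fun j => (1 - ε) * Real.sin (t j) *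
    lam (kp (ε / 2) (fun j => (1 - ε) * Real.sin (t j)) j), ?_, by linarith, ?_, ?_, ?_⟩
  · refine ⟨by linarith, fun j => mul_nonneg (by linarith) (adm_cos n t ht j).2, ?_, hk1,
      fun j => ?_, fun j => le_rfl⟩
    · have : ∑ k, ((1 - ε) * Real.sin (t k)) ^ 2 = (1 - ε) ^ 2 := by
        calc ∑ k, ((1 - ε) * Real.sin (t k)) ^ 2 = ∑ k, (1 - ε) ^ 2 * Real.sin (t k) ^ 2 :=
              Finset.sum_congr rfl fun k _ => by ring
          _ = (1 - ε) ^ 2 := by rw [← Finset.mul_sum, hs, mul_one]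
      rw [this]
      nlinarith
    · exact mul_nonneg (mul_nonneg (by linarith) (adm_cos n t ht j).2)
        (h_LMB.pos _ (hk0 j) (hk1 j)).1.le
  · intro j
    have a := Real.sin_le_one (t j)
    have b := (adm_cos n t ht j).2
    show (1 - ε) * Real.sin (t j) ≤ 1
    nlinarith
  · intro j
    have a := Real.sin_le_one (t j)
    have b := (adm_cos n t ht j).2
    have c := h_LMB.pos _ (hk0 j) (hk1 j)
    have d : (1 - ε) * Real.sin (t j) ≤ 1 := by nlinarith
    calc (1 - ε) * Real.sin (t j) * lam (kp (ε / 2) (fun j => (1 - ε) * Real.sin (t j)) j)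
        ≤ 1 * (Real.pi / 2) := mul_le_mul d c.2 c.1.le zero_le_one
      _ = Real.pi / 2 := one_mul _
  · intro j
    show |(1 - ε) * Real.sin (t j) *
      lam (kp (ε / 2) (fun j => (1 - ε) * Real.sin (t j)) j) - t j| < θ
    rw [hkp j]
    exact h1 j

end RLW
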