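import Pool.Agent.RLW.St

/-!
# RLW (MP_f7beb7_gt): module ANA, the integral inequality
-/

set_option autoImplicit false

open MeasureTheory Metric Set
open scoped BigOperators Pointwise RealInnerProductSpace NNReal Topology

namespace RLW

private theorem ana_norm_nu {n : ℕ} {K : Set (E n)} (hK : CB K) {x : E n}
    (hx : 0 < infDist x K) : ‖nu K x‖ = 1 := by
  have hex : ∃ y ∈ K, dist x y = infDist x K := by
    obtain ⟨y, hy, h⟩ := hK.cpt.exists_infDist_eq_dist hK.ne x
    exact ⟨y, hy, h.symm⟩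
  have h2 : dist x (npt K x) = infDist x K := by
    unfold npt
    rw [dif_pos hex]
    exact hex.choose_spec.2
  unfold nu
  rw [norm_smul, ← dist_eq_norm, h2, norm_inv, Real.norm_eq_abs, abs_of_pos hx,
    inv_mul_cancel₀ hx.ne']

/-- [ANA] -/
theorem thm_ANA (h_DIV : St_DIV) (h_CRT : St_CRT) (h_VAL : St_VAL) (h_LAY : St_LAY)
    (h_SLI : St_SLI) (h_CTS : St_CTS) (h_CR1 : St_CR1) : St_ANA := by
  intro n K a b w w1 w2 η s s1 Φ q τ hK hT hS hA
  obtain ⟨G', hF⟩ := h_CRT (n + 1) η s s1 Φ q τ hS hA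
  have hw1c : Continuous w1 := continuous_iff_continuousAt.2 fun x => (hT.d2 x).continuousAt
  have hw1z : ∀ x, x ∉ Ioo a b → w1 x = 0 := fun x hx => (hT.z x hx).2.1
  have h1 := h_DIV (n + 1) K a b w w1 w2 _ G' hK hT hF
  set G := fld s Φ q τ with hG
  set C : ℝ := Real.pi / 2 * ∑ j, q j + ∑ j, τ j with hC
  obtain ⟨L, hL⟩ := hF.lip
  have hGc : ContinuousOn (fun u : E (n + 1) => ⟪u, G u⟫) (sphere 0 1) :=
    continuousOn_id.inner hL.continuousOn
  have i1 : Integrable (fun x => w1 (infDist x K) * ⟪nu K x, G (nu K x)⟫) :=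
    (h_CTS (n + 1) K w1 (fun u => ⟪u, G u⟫) a b hK hT.a0 hw1c hw1z hGc).2.2
  have i2 : Integrable (fun x : E (n + 1) => w1 (infDist x K)) := by
    have := (h_CTS (n + 1) K w1 (fun _ => (1 : ℝ)) a b hK hT.a0 hw1c hw1z continuousOn_const).2.2
    simpa using this
  have i3 : ∀ j, Integrable (fun x : E (n + 1) => w1 (infDist x K) * |nu K x j|) := by
    intro j
    refine (h_CTS (n + 1) K w1 (fun u => |u j|) a b hK hT.a0 hw1c hw1z ?_).2.2
    exact (by fun_prop : Continuous fun u : E (n + 1) => |u j|).continuousOn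
  have i4 : Integrable (fun x : E (n + 1) => |w1 (infDist x K)|) := i2.abs
  have e2 : ∫ x : E (n + 1), w1 (infDist x K) = -∫ s in a..b, w2 s * vo K s :=
    h_LAY (n + 1) K a b w1 w2 hK hT.a0 hT.ab hT.d2 hT.c2 hw1z
  have e3 : ∀ j, ∫ x : E (n + 1), w1 (infDist x K) * |nu K x j| =
      2 * ∫ s in a..b, w1 s * vo (prj j '' K) s :=
    fun j => h_SLI n j K a b w w1 w2 hK hT
  have i5 : Integrable (fun x : E (n + 1) => ∑ j, τ j * (w1 (infDist x K) * |nu K x j|)) :=
    integrable_finsetSum _ fun j _ => (i3 j).const_mul (τ j)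
  have e5 : ∫ x : E (n + 1), ∑ j, τ j * (w1 (infDist x K) * |nu K x j|) =
      2 * ∑ j, τ j * ∫ s in a..b, w1 s * vo (prj j '' K) s := by
    rw [integral_finsetSum _ fun j _ => (i3 j).const_mul (τ j), Finset.mul_sum]
    refine Finset.sum_congr rfl fun j _ => ?_
    rw [integral_const_mul, e3 j]
    ring
  have hpt : ∀ x : E (n + 1), w1 (infDist x K) - ∑ j, τ j * (w1 (infDist x K) * |nu K x j|) -
      η * C * |w1 (infDist x K)| ≤ w1 (infDist x K) * ⟪nu K x, G (nu K x)⟫ := by
    intro x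
    by_cases hx : infDist x K ∈ Ioo a b
    · have hpos : 0 < infDist x K := hT.a0.trans hx.1
      have hv := h_VAL (n + 1) η s s1 Φ q τ (nu K x) hS hA (ana_norm_nu hK hpos)
      rw [← hG, ← hC] at hv
      have hs : ∑ j, τ j * (w1 (infDist x K) * |nu K x j|) =
          w1 (infDist x K) * ∑ j, τ j * |nu K x j| := by
        rw [Finset.mul_sum]
        exact Finset.sum_congr rfl fun j _ => by ring
      rw [hs]
      have h3 : |w1 (infDist x K) *
          (⟪nu K x, G (nu K x)⟫ - (1 - ∑ j, τ j * |nu K x j|))| ≤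
          |w1 (infDist x K)| * (η * C) := by
        rw [abs_mul]
        exact mul_le_mul_of_nonneg_left hv (abs_nonneg _)
      have h4 := (abs_le.1 h3).1
      nlinarith [h4]
    · rw [hw1z _ hx]
      simp
  have hmono := integral_mono ((i2.sub i5).sub (i4.const_mul (η * C))) i1 hpt
  have hsub : ∫ x : E (n + 1), (w1 (infDist x K) -
      ∑ j, τ j * (w1 (infDist x K) * |nu K x j|) - η * C * |w1 (infDist x K)|) =
      (-∫ s in a..b, w2 s * vo K s) -
        2 * ∑ j, τ j * (∫ s in a..b, w1 s * vo (prj j '' K) s) -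
        η * C * ∫ x : E (n + 1), |w1 (infDist x K)| := by
    rw [← e2, ← e5, ← integral_const_mul, ← integral_sub i2 i5]
    exact integral_sub (i2.sub i5) (i4.const_mul (η * C))
  have hfin : (-∫ s in a..b, w2 s * vo K s) -
        2 * ∑ j, τ j * (∫ s in a..b, w1 s * vo (prj j '' K) s) -
        η * C * ∫ x : E (n + 1), |w1 (infDist x K)| ≤ 0 := by
    rw [← hsub]
    exact le_trans hmono h1
  linarith

end RLW
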