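import Pool.Agent.RLW.St

/-!
# RLW (MP_f7beb7_gt), part B: the cross-polytopes give equality

Laplace transforms: for `K_r = oc n r` and `L l = ∫ r in 0..∞, exp (-l r) ∫ x, exp (-(δ_r x) ^ 2)` the
Steiner formula gives `L l = ∑ j, V j √π ^ (n - j) j! / l ^ (j + 1)`; the change of variables `r ↔ θ`,
`r = ∑ i, (|x i| - θ)_+`, for fixed `x`, gives
`L l = 2 ^ n / l ^ (n + 1) + ∫ θ, n (2 exp (-θ ^ 2) / l) (2 exp (-θ ^ 2) / l + ∫ y in -θ..θ, exp (-y ^ 2)) ^ (n - 1)`.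
-/

set_option autoImplicit false

open MeasureTheory Metric Set
open scoped BigOperators Pointwise RealInnerProductSpace NNReal Topology

namespace RLW

/-- the regular coordinate cross-polytope with centre `0` -/
def oc (n : ℕ) (r : ℝ) : Set (E n) := {x | ∑ i, |x i| ≤ r}

/-- the regular coordinate cross-polytope with centre `a` -/
def oct (n : ℕ) (a : E n) (r : ℝ) : Set (E n) := {x | ∑ i, |x i - a i| ≤ r}

/-- `∫ y in -θ..θ, exp (-y ^ 2)` -/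
noncomputable def Er (θ : ℝ) : ℝ := ∫ y in (-θ)..θ, Real.exp (-y ^ 2)

open Classical in
/-- the density after the change of variables -/
noncomputable def dn {n : ℕ} (l : ℝ) (x : E n) (θ : ℝ) : ℝ :=
  (∑ i, if θ < |x i| then (1 : ℝ) else 0) *
    ∏ k, Real.exp (-l * max (|x k| - θ) 0 - min |x k| θ ^ 2)

/-- the integral of `dn l x θ` over `x` -/
noncomputable def dI (n : ℕ) (l θ : ℝ) : ℝ :=
  n * (2 * Real.exp (-θ ^ 2) / l) * (2 * Real.exp (-θ ^ 2) / l + Er θ) ^ (n - 1)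

/-- [OCB] `cb`: closed and bounded (`|x i| ≤ r`), convex; `prj`: `ins i 0 y`; `sc`: `x ↦ r⁻¹ x`;
`tr`: `oct` is a translate. -/
structure St_OCB : Prop where
  cb : ∀ (n : ℕ) (r : ℝ), 0 ≤ r → CB (oc n r)
  prj : ∀ (n : ℕ) (i : Fin (n + 1)) (r : ℝ), prj i '' oc (n + 1) r = oc n r
  sc : ∀ (n : ℕ) (r : ℝ), 0 < r → oc n r = r • oc n 1
  tr : ∀ (n : ℕ) (a : E n) (r : ℝ), oct n a r = (fun x => a + x) '' oc n r

/-- [ODS] the distance. With `r = ∑ i, max (|x i| - θ) 0` the nearest point is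
`y i = sign (x i) * max (|x i| - θ) 0` (it is in `oc n r`, and `‖x - y‖ ^ 2` is the right side). For
`z ∈ oc n r`: `⟪x - y, z - y⟫ ≤ 0`, since `(x - y) i = sign (x i) * min |x i| θ`, so
`⟪x - y, z⟫ ≤ θ ∑ |z i| ≤ θ r = ⟪x - y, y⟫`; so `‖x - z‖ ^ 2 ≥ ‖x - y‖ ^ 2`. -/
def St_ODS : Prop := ∀ (n : ℕ) (x : E n) (θ : ℝ), 0 ≤ θ →
  infDist x (oc n (∑ i, max (|x i| - θ) 0)) ^ 2 = ∑ i, min |x i| θ ^ 2

/-- [OCC] the distance to `oc n r` is Lipschitz in both variables. For `r ≤ r'`: `oc n r ⊆ oc n r'`;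
if `y ∈ oc n r'` then `(r / r') • y ∈ oc n r` and `‖y - (r / r') • y‖ ≤ (1 - r / r') ‖y‖ ≤ r' - r`
(`‖y‖ ≤ ∑ |y i| ≤ r'`). -/
def St_OCC : Prop := ∀ (n : ℕ) (x x' : E n) (r r' : ℝ), 0 ≤ r → 0 ≤ r' →
  |infDist x (oc n r) - infDist x' (oc n r')| ≤ ‖x - x'‖ + |r - r'|

/-- [WIL] `exp (-δ ^ 2) = ∫ s in Ioi δ, 2 s exp (-s ^ 2)`, Tonelli, `vo K s = ∑ kap (n - j) V j s ^ (n - j)`,
`∫ s in Ioi 0, 2 s ^ (k + 1) exp (-s ^ 2) = Γ (k / 2 + 1)` and `kap k * Γ (k / 2 + 1) = √π ^ k`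
(`EuclideanSpace.volume_closedBall`; `k = 0` separately). -/
def St_WIL : Prop := ∀ (n : ℕ) (K : Set (E n)) (V : ℕ → ℝ), CB K → IsIV K V →
  Integrable (fun x : E n => Real.exp (-infDist x K ^ 2)) ∧
  ∫ x : E n, Real.exp (-infDist x K ^ 2) =
    ∑ j ∈ Finset.range (n + 1), V j * √Real.pi ^ (n - j)

/-- [SCV] scaling: `r • K + closedBall 0 t = r • (K + closedBall 0 (t / r))`, `Measure.addHaar_smul`.
Translations: the volume is translation invariant. -/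
structure St_SCV : Prop where
  sc : ∀ (n : ℕ) (K : Set (E n)) (V : ℕ → ℝ) (r : ℝ), 0 < r → IsIV K V →
    IsIV (r • K) fun j => r ^ j * V j
  tr : ∀ (n : ℕ) (K : Set (E n)) (V : ℕ → ℝ) (a : E n), IsIV ((fun x => a + x) '' K) V →
    IsIV K V

/-- [LP1] from `St_WIL`, `St_SCV`, `St_OCB`; `∫ r in Ioi 0, r ^ j exp (-l r) = j! / l ^ (j + 1)`. -/
def St_LP1 : Prop := ∀ (n : ℕ) (V : ℕ → ℝ) (l : ℝ), IsIV (oc n 1) V → 0 < l →
  ∫⁻ r in Ioi (0 : ℝ), ∫⁻ x : E n, ENNReal.ofReal (Real.exp (-l * r - infDist x (oc n r) ^ 2)) =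
    ENNReal.ofReal (∑ j ∈ Finset.range (n + 1), V j * √Real.pi ^ (n - j) * j.factorial / l ^ (j + 1))

/-- [ONE] one variable. Let `S = ∑ |x i|`. For `r ≥ S` the distance is zero: the first term. For
`r ∈ [0, S]`: `intervalIntegral.integral_comp_mul_deriv'''` for `f θ = ∑ i, max (|x i| - θ) 0` on
`[0, S]` (right derivative `-∑ i, if θ < |x i| then 1 else 0`; `f 0 = S`, `f S = 0`) and
`g r = exp (-l r - infDist x (oc n r) ^ 2)` (continuous on `Ici 0` by `St_OCC`), `St_ODS`. For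
`θ > S` the density is zero. -/
def St_ONE : Prop := ∀ (n : ℕ) (x : E n) (l : ℝ), 0 < l →
  ∫⁻ r in Ioi (0 : ℝ), ENNReal.ofReal (Real.exp (-l * r - infDist x (oc n r) ^ 2)) =
    ENNReal.ofReal (Real.exp (-l * ∑ i, |x i|) / l) +
      ∫⁻ θ in Ioi (0 : ℝ), ENNReal.ofReal (dn l x θ)

/-- [PRD] integrals of products (`integral_fintype_prod_volume_eq_prod` and
`EuclideanSpace.volume_preserving_...`); on the line `∫ x, exp (-l max (|x| - θ) 0 - min |x| θ ^ 2) =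
2 exp (-θ ^ 2) / l + Er θ`, the part `|x| > θ` is `2 exp (-θ ^ 2) / l`. -/
structure St_PRD : Prop where
  a : ∀ (n : ℕ) (l : ℝ), 0 < l →
    ∫⁻ x : E n, ENNReal.ofReal (Real.exp (-l * ∑ i, |x i|) / l) = ENNReal.ofReal (2 ^ n / l ^ (n + 1))
  b : ∀ (n : ℕ) (l θ : ℝ), 0 < l → 0 < θ →
    ∫⁻ x : E n, ENNReal.ofReal (dn l x θ) = ENNReal.ofReal (dI n l θ)

/-- [LP2] from `St_ONE`, `St_PRD`, `St_OCC` (measurability), Tonelli (twice). -/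
def St_LP2 : Prop := ∀ (n : ℕ) (l : ℝ), 0 < l →
  ∫⁻ r in Ioi (0 : ℝ), ∫⁻ x : E n, ENNReal.ofReal (Real.exp (-l * r - infDist x (oc n r) ^ 2)) =
    ENNReal.ofReal (2 ^ n / l ^ (n + 1)) + ∫⁻ θ in Ioi (0 : ℝ), ENNReal.ofReal (dI n l θ)

/-- [COE] from `St_LP1`, `St_LP2`: with `y = 1 / l` both sides are polynomials in `y`:
`∑ j ∈ range (n + 1), V j √π ^ (n - j) j! y ^ (j + 1) =
2 ^ n y ^ (n + 1) + ∑ m ∈ range n, n (n - 1).choose m (2 y) ^ (m + 1) I m`,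
`I m = ∫ θ in Ioi 0, exp (-(m + 1) θ ^ 2) Er θ ^ (n - 1 - m)` (`0 ≤ Er θ ≤ √π`; integrable), for all
`y > 0`. (The value in `ofReal` on the left side may be used because the right side is positive.)
Compare the coefficients for `m = n - 1` and `m = n - 2`. -/
structure St_COE : Prop where
  a : ∀ (n : ℕ) (V : ℕ → ℝ), IsIV (oc (n + 1) 1) V →
    V n * √Real.pi * n.factorial =
      (n + 1) * 2 ^ (n + 1) * ∫ θ in Ioi (0 : ℝ), Real.exp (-(n + 1) * θ ^ 2)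
  b : ∀ (n : ℕ) (V : ℕ → ℝ), IsIV (oc (n + 2) 1) V →
    V n * Real.pi * n.factorial =
      (n + 2) * (n + 1) * 2 ^ (n + 1) * ∫ θ in Ioi (0 : ℝ), Real.exp (-(n + 1) * θ ^ 2) * Er θ

/-- [JIN] `Er θ = θ ∫ z in -1..1, exp (-θ ^ 2 z ^ 2)`, Fubini,
`∫ θ in Ioi 0, θ exp (-(m + z ^ 2) θ ^ 2) = 1 / (2 (m + z ^ 2))`, and
`∫ z in -1..1, 1 / (2 (m + z ^ 2)) = arctan (1 / √m) / √m = arcsin (1 / √(m + 1)) / √m`. -/
def St_JIN : Prop := ∀ m : ℝ, 0 < m →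
  ∫ θ in Ioi (0 : ℝ), Real.exp (-m * θ ^ 2) * Er θ = Real.arcsin (1 / √(m + 1)) / √m

/-- [OVV] from `St_COE`, `St_JIN`, `integral_gaussian_Ioi`. -/
structure St_OVV : Prop where
  a : ∀ (n : ℕ) (V : ℕ → ℝ), IsIV (oc (n + 1) 1) V →
    V n = 2 ^ n * √(n + 1) / n.factorial
  b : ∀ (n : ℕ) (V : ℕ → ℝ), IsIV (oc (n + 2) 1) V →
    V n = 2 ^ (n + 1) * (n + 2) * √(n + 1) * Real.arcsin (1 / √(n + 2)) / (Real.pi * n.factorial)

/-- [OEQ] from `St_OVV`, `St_OCB`, `St_SCV` (`r⁻¹ • oc n r = oc n 1`; `prj` commutes with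
translations). With `n = k + 1`: `V k = r ^ k 2 ^ (k + 1) (k + 2) √(k + 1) arcsin (1 / √(k + 2)) / (π k!)`,
`W j k = r ^ k 2 ^ k √(k + 1) / k!`, and `cst (k + 2) = 4 (k + 2) / π ^ 2 * arcsin (1 / √(k + 2)) ^ 2`. -/
def St_OEQ : Prop := ∀ (n : ℕ) (a : E (n + 1)) (r : ℝ) (V : ℕ → ℝ) (W : Fin (n + 1) → ℕ → ℝ),
  1 ≤ n → 0 < r → IsIV (oct (n + 1) a r) V → (∀ j, IsIV (prj j '' oct (n + 1) a r) (W j)) →
  V (n - 1) ^ 2 = cst (n + 1) * ∑ j, W j (n - 1) ^ 2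

end RLW
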