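import Mathlib
import Pool.Agent.RLW.StB

/-!
# RLW (MP_f7beb7_gt), module COE: comparison of coefficients
-/

set_option autoImplicit false

open MeasureTheory Metric Set
open scoped BigOperators Pointwise RealInnerProductSpace NNReal Topology

namespace RLW

/-! ### the error function -/

private theorem coe_Er_cont : Continuous Er := by
  have hc : Continuous fun t : ℝ => Real.exp (-t ^ 2) := by fun_prop
  have h1 : Er = fun θ => (∫ y in (0 : ℝ)..θ, Real.exp (-y ^ 2)) -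
      ∫ y in (0 : ℝ)..(-θ), Real.exp (-y ^ 2) := by
    funext θ
    unfold Er
    rw [intervalIntegral.integral_interval_sub_left (hc.intervalIntegrable _ _)
      (hc.intervalIntegrable _ _)]
  rw [h1]
  have h2 : Continuous fun θ : ℝ => ∫ y in (0 : ℝ)..θ, Real.exp (-y ^ 2) :=
    intervalIntegral.continuous_primitive (fun a b => hc.intervalIntegrable a b) 0
  exact h2.sub (h2.comp continuous_neg)

private theorem coe_Er_nonneg {θ : ℝ} (h : 0 ≤ θ) : 0 ≤ Er θ :=
  intervalIntegral.integral_nonneg (by linarith) fun t _ => (Real.exp_pos _).le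

private theorem coe_gauss (c : ℝ) (hc : 0 < c) :
    Integrable fun t : ℝ => Real.exp (-c * t ^ 2) := integrable_exp_neg_mul_sq hc

private theorem coe_Er_le {θ : ℝ} (h : 0 ≤ θ) : Er θ ≤ ∫ y : ℝ, Real.exp (-y ^ 2) := by
  unfold Er
  have hi : Integrable fun t : ℝ => Real.exp (-t ^ 2) := by
    have h1 := coe_gauss 1 one_pos
    simpa using h1
  rw [intervalIntegral.integral_of_le (by linarith)]
  exact setIntegral_le_integral hi (Filter.Eventually.of_forall fun t => (Real.exp_pos _).le)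

/-- the integrals -/
private noncomputable def coeI (N m : ℕ) : ℝ :=
  ∫ θ in Ioi (0 : ℝ), Real.exp (-(m + 1) * θ ^ 2) * Er θ ^ (N - m)

private theorem coe_int (N m : ℕ) :
    IntegrableOn (fun θ => Real.exp (-(m + 1) * θ ^ 2) * Er θ ^ (N - m)) (Ioi 0) := by
  have h1 : IntegrableOn (fun θ : ℝ => Real.exp (-(m + 1) * θ ^ 2)) (Ioi 0) :=
    (coe_gauss ((m : ℝ) + 1) (by positivity)).integrableOn
  refine Integrable.mul_bdd (c := (∫ y : ℝ, Real.exp (-y ^ 2)) ^ (N - m)) h1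
    (coe_Er_cont.pow _).aestronglyMeasurable ?_
  refine (ae_restrict_iff' measurableSet_Ioi).mpr (Filter.Eventually.of_forall fun θ hθ => ?_)
  have hθ' : 0 ≤ θ := (show 0 < θ from hθ).le
  rw [norm_pow, Real.norm_eq_abs, abs_of_nonneg (coe_Er_nonneg hθ')]
  exact pow_le_pow_left₀ (coe_Er_nonneg hθ') (coe_Er_le hθ') _

private theorem coeI_nonneg (N m : ℕ) : 0 ≤ coeI N m := by
  refine setIntegral_nonneg measurableSet_Ioi fun θ hθ => ?_
  have hθ' : 0 ≤ θ := (show 0 < θ from hθ).le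
  exact mul_nonneg (Real.exp_pos _).le (pow_nonneg (coe_Er_nonneg hθ') _)

private theorem coe_dI (N : ℕ) (l θ : ℝ) : dI (N + 1) l θ =
    ∑ m ∈ Finset.range (N + 1), ((N + 1 : ℕ) * (N.choose m : ℝ) * (2 / l) ^ (m + 1)) *
      (Real.exp (-(m + 1) * θ ^ 2) * Er θ ^ (N - m)) := by
  unfold dI
  rw [Nat.add_sub_cancel, add_pow, Finset.mul_sum]
  refine Finset.sum_congr rfl fun m _ => ?_
  have h1 : Real.exp (-((m : ℝ) + 1) * θ ^ 2) = Real.exp (-θ ^ 2) ^ (m + 1) := by
    rw [← Real.exp_nat_mul]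
    congr 1
    push_cast
    ring
  rw [h1, div_pow, div_pow, mul_pow]
  ring

private theorem coe_lint (N : ℕ) (l : ℝ) (hl : 0 < l) :
    ∫⁻ θ in Ioi (0 : ℝ), ENNReal.ofReal (dI (N + 1) l θ) = ENNReal.ofReal
      (∑ m ∈ Finset.range (N + 1), ((N + 1 : ℕ) * (N.choose m : ℝ) * (2 / l) ^ (m + 1)) *
        coeI N m) := by
  have hi : ∀ m ∈ Finset.range (N + 1), IntegrableOn (fun θ =>
      ((N + 1 : ℕ) * (N.choose m : ℝ) * (2 / l) ^ (m + 1)) *
        (Real.exp (-(m + 1) * θ ^ 2) * Er θ ^ (N - m))) (Ioi 0) := fun m _ =>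
    (coe_int N m).const_mul _
  have h1 : ∀ θ, dI (N + 1) l θ = ∑ m ∈ Finset.range (N + 1),
      ((N + 1 : ℕ) * (N.choose m : ℝ) * (2 / l) ^ (m + 1)) *
        (Real.exp (-(m + 1) * θ ^ 2) * Er θ ^ (N - m)) := coe_dI N l
  simp only [h1]
  rw [← ofReal_integral_eq_lintegral_ofReal (integrable_finsetSum _ hi)]
  · congr 1
    rw [integral_finsetSum _ hi]
    refine Finset.sum_congr rfl fun m _ => ?_
    rw [integral_const_mul]
    rfl
  · refine (ae_restrict_iff' measurableSet_Ioi).mpr (Filter.Eventually.of_forall fun θ hθ => ?_)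
    have hθ' : 0 ≤ θ := (show 0 < θ from hθ).le
    refine Finset.sum_nonneg fun m _ => ?_
    have := coe_Er_nonneg hθ'
    positivity

private theorem coe_real (h_LP1 : St_LP1) (h_LP2 : St_LP2) (N : ℕ) (V : ℕ → ℝ)
    (hV : IsIV (oc (N + 1) 1) V) (l : ℝ) (hl : 0 < l) :
    ∑ j ∈ Finset.range (N + 1 + 1),
      V j * √Real.pi ^ (N + 1 - j) * j.factorial / l ^ (j + 1) =
    2 ^ (N + 1) / l ^ (N + 1 + 1) + ∑ m ∈ Finset.range (N + 1),
      ((N + 1 : ℕ) * (N.choose m : ℝ) * (2 / l) ^ (m + 1)) * coeI N m := by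
  have h1 := h_LP1 (N + 1) V l hV hl
  rw [h_LP2 (N + 1) l hl, coe_lint N l hl, ← ENNReal.ofReal_add (by positivity)
    (Finset.sum_nonneg fun m _ => mul_nonneg (by positivity) (coeI_nonneg N m))] at h1
  have h2 : 0 < 2 ^ (N + 1) / l ^ (N + 1 + 1) + ∑ m ∈ Finset.range (N + 1),
      ((N + 1 : ℕ) * (N.choose m : ℝ) * (2 / l) ^ (m + 1)) * coeI N m := by
    have h3 : 0 ≤ ∑ m ∈ Finset.range (N + 1),
      ((N + 1 : ℕ) * (N.choose m : ℝ) * (2 / l) ^ (m + 1)) * coeI N m :=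
      Finset.sum_nonneg fun m _ => mul_nonneg (by positivity) (coeI_nonneg N m)
    have h4 : 0 < (2 : ℝ) ^ (N + 1) / l ^ (N + 1 + 1) := by positivity
    linarith
  have h5 : 0 ≤ ∑ j ∈ Finset.range (N + 1 + 1),
      V j * √Real.pi ^ (N + 1 - j) * j.factorial / l ^ (j + 1) := by
    by_contra hcon
    push Not at hcon
    rw [ENNReal.ofReal_of_nonpos hcon.le, ENNReal.ofReal_eq_zero] at h1
    exact absurd h1 (not_le.mpr h2)
  exact ((ENNReal.ofReal_eq_ofReal_iff h2.le h5).mp h1).symm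

/-! ### polynomials -/

private theorem coe_coeff (c : ℕ → ℝ) (N n : ℕ) (hn : n < N) :
    (∑ j ∈ Finset.range N, Polynomial.C (c j) * Polynomial.X ^ (j + 1)).coeff (n + 1) = c n := by
  rw [Polynomial.finsetSum_coeff, Finset.sum_eq_single n]
  · rw [Polynomial.coeff_C_mul_X_pow, if_pos rfl]
  · intro j _ hj
    rw [Polynomial.coeff_C_mul_X_pow, if_neg (fun h => hj (by omega))]
  · intro h
    exact absurd (Finset.mem_range.mpr hn) h

private theorem coe_gen (h_LP1 : St_LP1) (h_LP2 : St_LP2) (N : ℕ) (V : ℕ → ℝ)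
    (hV : IsIV (oc (N + 1) 1) V) (n : ℕ) (hn : n ≤ N) :
    V n * √Real.pi ^ (N + 1 - n) * n.factorial =
      (N + 1 : ℕ) * (N.choose n : ℝ) * 2 ^ (n + 1) * coeI N n := by
  let p : Polynomial ℝ := ∑ j ∈ Finset.range (N + 1 + 1),
    Polynomial.C (V j * √Real.pi ^ (N + 1 - j) * j.factorial) * Polynomial.X ^ (j + 1)
  let q : Polynomial ℝ := ∑ m ∈ Finset.range (N + 1),
    Polynomial.C ((N + 1 : ℕ) * (N.choose m : ℝ) * 2 ^ (m + 1) * coeI N m) *
      Polynomial.X ^ (m + 1)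
  have hev : ∀ y : ℝ, 0 < y →
      p.eval y = (Polynomial.C (2 ^ (N + 1)) * Polynomial.X ^ (N + 1 + 1) + q).eval y := by
    intro y hy
    have h1 := coe_real h_LP1 h_LP2 N V hV y⁻¹ (inv_pos.mpr hy)
    simp only [p, q, Polynomial.eval_add, Polynomial.eval_finsetSum, Polynomial.eval_mul,
      Polynomial.eval_C, Polynomial.eval_pow, Polynomial.eval_X]
    have e1 : ∀ j : ℕ, V j * √Real.pi ^ (N + 1 - j) * j.factorial / y⁻¹ ^ (j + 1) =
        V j * √Real.pi ^ (N + 1 - j) * j.factorial * y ^ (j + 1) := by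
      intro j
      rw [inv_pow, div_inv_eq_mul]
    have e2 : ∀ m : ℕ, ((N + 1 : ℕ) * (N.choose m : ℝ) * (2 / y⁻¹) ^ (m + 1)) * coeI N m =
        (N + 1 : ℕ) * (N.choose m : ℝ) * 2 ^ (m + 1) * coeI N m * y ^ (m + 1) := by
      intro m
      rw [div_inv_eq_mul, mul_pow]
      ring
    have e3 : (2 : ℝ) ^ (N + 1) / y⁻¹ ^ (N + 1 + 1) = 2 ^ (N + 1) * y ^ (N + 1 + 1) := by
      rw [inv_pow, div_inv_eq_mul]
    simp only [e1, e2, e3] at h1
    exact h1
  have hpq : p = Polynomial.C (2 ^ (N + 1)) * Polynomial.X ^ (N + 1 + 1) + q := by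
    refine Polynomial.eq_of_infinite_eval_eq _ _ ?_
    refine Set.Infinite.mono (s := Ioi (0 : ℝ)) (fun y hy => ?_) (Set.Ioi_infinite 0)
    exact hev y hy
  have h1 : p.coeff (n + 1) =
      (Polynomial.C (2 ^ (N + 1)) * Polynomial.X ^ (N + 1 + 1) + q).coeff (n + 1) := by
    rw [hpq]
  rw [Polynomial.coeff_add, Polynomial.coeff_C_mul_X_pow, if_neg (by omega), zero_add] at h1
  have h2 : p.coeff (n + 1) = V n * √Real.pi ^ (N + 1 - n) * n.factorial :=
    coe_coeff (fun j => V j * √Real.pi ^ (N + 1 - j) * j.factorial) _ n (by omega)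
  have h3 : q.coeff (n + 1) = (N + 1 : ℕ) * (N.choose n : ℝ) * 2 ^ (n + 1) * coeI N n :=
    coe_coeff (fun m => (N + 1 : ℕ) * (N.choose m : ℝ) * 2 ^ (m + 1) * coeI N m) _ n (by omega)
  rw [← h2, h1, h3]

theorem thm_COE (h_LP1 : St_LP1) (h_LP2 : St_LP2) : St_COE where
  a := by
    intro n V hV
    have h1 := coe_gen h_LP1 h_LP2 n V hV n le_rfl
    rw [Nat.choose_self, Nat.add_sub_cancel_left, pow_one] at h1
    rw [h1]
    unfold coeI
    simp only [Nat.sub_self, pow_zero, mul_one]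
    push_cast
    ring
  b := by
    intro n V hV
    have h1 := coe_gen h_LP1 h_LP2 (n + 1) V hV n (by omega)
    have h2 : n + 1 + 1 - n = 2 := by omega
    have h3 : n + 1 - n = 1 := by omega
    rw [Nat.choose_succ_self_right, h2, Real.sq_sqrt Real.pi_pos.le] at h1
    rw [h1]
    unfold coeI
    simp only [h3, pow_one]
    push_cast
    ring

end RLW
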