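import Mathlib
import Pool.Agent.RLW.St

/-!
# RLW, module CQB: bounds for `cq`
-/

set_option autoImplicit false

open MeasureTheory Metric Set
open scoped BigOperators Pointwise RealInnerProductSpace NNReal

namespace RLW

private theorem CQB_le {η : ℝ} {s s1 Φ : ℝ → ℝ} (h : Sg η s s1 Φ) (x : ℝ) : Φ x ≤ |x| :=
  (h.Φs x).trans (h.xs x)

private theorem CQB_norm {n : ℕ} (u : E n) : ∑ j, (u j) ^ 2 = ‖u‖ ^ 2 := by
  rw [EuclideanSpace.norm_sq_eq]
  exact Finset.sum_congr rfl fun j _ => by rw [Real.norm_eq_abs, sq_abs]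

theorem thm_CQB : St_CQB where
  nn := by
    intro n η s s1 Φ q τ u hs ha hu
    have h0 : 0 ≤ cq Φ q u := Finset.sum_nonneg fun j _ => mul_nonneg (ha.q0 j) (hs.Φn _)
    have h1 : cq Φ q u ≤ ∑ j, q j * |u j| :=
      Finset.sum_le_sum fun j _ => mul_le_mul_of_nonneg_left (CQB_le hs _) (ha.q0 j)
    have h2 : ∑ j, q j * |u j| ≤ √(∑ j, q j ^ 2) * √(∑ j, |u j| ^ 2) :=
      Real.sum_mul_le_sqrt_mul_sqrt Finset.univ q fun j => |u j|
    have h3 : √(∑ j, |u j| ^ 2) ≤ 1 := by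
      have e : ∑ j, |u j| ^ 2 = ‖u‖ ^ 2 := by
        rw [← CQB_norm]
        exact Finset.sum_congr rfl fun j _ => sq_abs _
      rw [e, Real.sqrt_sq (norm_nonneg _)]
      exact hu
    have h4 : √(∑ j, q j ^ 2) * √(∑ j, |u j| ^ 2) ≤ √(∑ j, q j ^ 2) :=
      mul_le_of_le_one_right (Real.sqrt_nonneg _) h3
    have h5 : √(∑ j, q j ^ 2) < 1 := by
      rw [Real.sqrt_lt' one_pos]
      simpa using ha.q1
    exact ⟨h0, h1.trans (h2.trans h4), (h1.trans (h2.trans h4)).trans_lt h5⟩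
  kp := by
    intro n η s s1 Φ q τ u j hs ha hu huj
    classical
    have h1 : cq Φ q u ≤ ∑ k, q k * |u k| :=
      Finset.sum_le_sum fun k _ => mul_le_mul_of_nonneg_left (CQB_le hs _) (ha.q0 k)
    have e1 : ∑ k, q k * |u k| = (∑ k ∈ Finset.univ.erase j, q k * |u k|) + q j * |u j| :=
      (Finset.sum_erase_add _ _ (Finset.mem_univ j)).symm
    have e2 : ∑ k, q k ^ 2 = (∑ k ∈ Finset.univ.erase j, q k ^ 2) + q j ^ 2 :=
      (Finset.sum_erase_add _ _ (Finset.mem_univ j)).symm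
    have e3 : ∑ k ∈ Finset.univ.erase j, q k ^ 2 = ∑ k, q k ^ 2 - q j ^ 2 := by linarith
    have h2 : ∑ k ∈ Finset.univ.erase j, q k * |u k| ≤
        √(∑ k ∈ Finset.univ.erase j, q k ^ 2) * √(∑ k ∈ Finset.univ.erase j, |u k| ^ 2) :=
      Real.sum_mul_le_sqrt_mul_sqrt (Finset.univ.erase j) q fun k => |u k|
    have h3 : √(∑ k ∈ Finset.univ.erase j, |u k| ^ 2) ≤ 1 := by
      have e : ∑ k, |u k| ^ 2 = ‖u‖ ^ 2 := by
        rw [← CQB_norm]
        exact Finset.sum_congr rfl fun k _ => sq_abs _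
      have e4 : ∑ k ∈ Finset.univ.erase j, |u k| ^ 2 ≤ ∑ k, |u k| ^ 2 :=
        Finset.sum_le_sum_of_subset_of_nonneg (Finset.erase_subset _ _)
          fun k _ _ => sq_nonneg _
      rw [e, hu] at e4
      have e5 : ∑ k ∈ Finset.univ.erase j, |u k| ^ 2 ≤ 1 := by simpa using e4
      exact Real.sqrt_le_one.2 e5
    have h4 : √(∑ k ∈ Finset.univ.erase j, q k ^ 2) *
        √(∑ k ∈ Finset.univ.erase j, |u k| ^ 2) ≤ √(∑ k ∈ Finset.univ.erase j, q k ^ 2) :=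
      mul_le_of_le_one_right (Real.sqrt_nonneg _) h3
    have h5 : q j * |u j| ≤ q j * η := mul_le_mul_of_nonneg_left huj (ha.q0 j)
    unfold RLW.kp
    rw [← e3]
    linarith

end RLW
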