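import Pool.Agent.RLW.St

/-!
# RLW [CR1]: the derivative of the vector field `fld`
-/

set_option autoImplicit false

open MeasureTheory Metric Set
open scoped BigOperators Pointwise RealInnerProductSpace NNReal Topology

namespace RLW

private theorem cr1_repr {n : ℕ} (x : E n) :
    x = ∑ j, x j • (EuclideanSpace.single j (1 : ℝ) : E n) := by
  ext k
  simp [Finset.sum_apply, Pi.single_apply]

private theorem cr1_norm {n : ℕ} (x : E n) : ‖x‖ ≤ ∑ j, |x j| := by
  conv_lhs => rw [cr1_repr x]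
  refine (norm_sum_le _ _).trans (Finset.sum_le_sum fun j _ => ?_)
  rw [norm_smul]
  simp

private theorem cr1_abs {n : ℕ} (x : E n) (j : Fin n) : |x j| ≤ ‖x‖ := by
  have := PiLp.norm_apply_le x j
  simpa using this

/-- the derivative as a linear map -/
private noncomputable def cr1_G {n : ℕ} (s s1 Φ : ℝ → ℝ) (q τ : Fin n → ℝ) (u : E n) :
    E n →L[ℝ] E n :=
  LinearMap.toContinuousLinearMap
    { toFun := fun v => WithLp.toLp 2 fun j => fldD s s1 Φ q τ u v j
      map_add' := by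
        intro v w
        ext j
        simp only [fldD, PiLp.add_apply, mul_add, Finset.sum_add_distrib]
        ring
      map_smul' := by
        intro a v
        ext j
        have h : ∑ k, q k * s (u k) * (a * v k) = a * ∑ k, q k * s (u k) * v k := by
          rw [Finset.mul_sum]
          exact Finset.sum_congr rfl fun k _ => by ring
        simp only [fldD, PiLp.smul_apply, smul_eq_mul, RingHom.id_apply, h]
        ring }

private theorem cr1_G_apply {n : ℕ} (s s1 Φ : ℝ → ℝ) (q τ : Fin n → ℝ) (u v : E n) (j : Fin n) :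
    cr1_G s s1 Φ q τ u v j = fldD s s1 Φ q τ u v j := rfl

private theorem cr1_der {n : ℕ} (η : ℝ) (s s1 Φ : ℝ → ℝ) (q τ : Fin n → ℝ) (h_LMB : St_LMB)
    (hS : Sg η s s1 Φ) (u : E n) (hc0 : 0 ≤ cq Φ q u) (hc1 : cq Φ q u < 1) :
    HasFDerivAt (fld s Φ q τ) (cr1_G s s1 Φ q τ u) u := by
  rw [← hasFDerivWithinAt_univ, hasFDerivWithinAt_euclidean]
  intro j
  rw [hasFDerivWithinAt_univ]
  have hx : ∀ k : Fin n, HasFDerivAt (fun x : E n => x k) (EuclideanSpace.proj (𝕜 := ℝ) k) u :=
    fun k => (EuclideanSpace.proj (𝕜 := ℝ) k).hasFDerivAt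
  have hcq : HasFDerivAt (fun x : E n => cq Φ q x)
      (∑ k, q k • (s (u k) • (EuclideanSpace.proj (𝕜 := ℝ) k : E n →L[ℝ] ℝ))) u := by
    unfold cq
    refine HasFDerivAt.fun_sum fun k _ => ?_
    exact ((hS.dΦ (u k)).comp_hasFDerivAt u (hx k)).const_mul (q k)
  have hlam := (h_LMB.der (cq Φ q u) (by linarith) hc1).comp_hasFDerivAt u hcq
  have hs := (hS.ds (u j)).comp_hasFDerivAt u (hx j)
  have h1 := ((hasFDerivAt_const (1 : ℝ) u).sub (hcq.mul hlam)).mul (hx j)
  have h2 := hs.mul ((hlam.mul_const (q j)).sub (hasFDerivAt_const (τ j) u))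
  have h3 := h1.add h2
  refine HasFDerivAt.congr_fderiv (h3.congr_of_eventuallyEq ?_) ?_
  · exact Filter.Eventually.of_forall fun x => rfl
  · ext v
    have hv : ∑ k, q k * (s (u k) * v k) = ∑ k, q k * s (u k) * v k :=
      Finset.sum_congr rfl fun k _ => by ring
    show _ = fldD s s1 Φ q τ u v j
    simp only [fldD, ← hv]
    simp
    ring

theorem thm_CR1 (h_LMB : St_LMB) (h_CQB : St_CQB) : St_CR1 := by
  intro n η s s1 Φ q τ hS hA
  have hcb : ∀ u ∈ closedBall (0 : E n) 1, 0 ≤ cq Φ q u ∧ cq Φ q u ≤ √(∑ j, q j ^ 2) ∧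
      cq Φ q u < 1 := fun u hu => h_CQB.nn n η s s1 Φ q τ u hS hA (by simpa using hu)
  have hder : ∀ u ∈ closedBall (0 : E n) 1, HasFDerivAt (fld s Φ q τ) (cr1_G s s1 Φ q τ u) u :=
    fun u hu => cr1_der η s s1 Φ q τ h_LMB hS u (hcb u hu).1 (hcb u hu).2.2
  refine ⟨cr1_G s s1 Φ q τ, hder, fun u _ v j => rfl, ?_⟩
  set r := √(∑ j, q j ^ 2) with hr
  have hr1 : r < 1 := by
    rw [hr, Real.sqrt_lt' one_pos]
    simpa using hA.q1
  obtain ⟨M, hM⟩ : ∃ M, ∀ c ∈ Icc (0 : ℝ) r, |lam1 c| ≤ M := by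
    have h := (isCompact_Icc (a := (0 : ℝ)) (b := r)).exists_bound_of_continuousOn (f := lam1)
      (fun c hc => (h_LMB.cts c (by linarith [hc.1]) (by linarith [hc.2])).continuousWithinAt)
    simpa using h
  obtain ⟨C1, hC1⟩ := hS.s1b
  set Q := ∑ k, q k with hQ
  have hQ0 : 0 ≤ Q := Finset.sum_nonneg fun k _ => hA.q0 k
  set A := Real.pi / 2 with hAA
  have hA0 : 0 ≤ A := by positivity
  set K : Fin n → ℝ := fun j => (1 + A) + (A + |M|) * Q + |C1| * (A * q j + τ j) +
    |M| * Q * q j with hK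
  have hK0 : ∀ j, 0 ≤ K j := by
    intro j
    have h1 := hA.q0 j
    have h2 := hA.τ0 j
    simp only [hK]
    positivity
  have hbound : ∀ u ∈ closedBall (0 : E n) 1, ∀ v j, |fldD s s1 Φ q τ u v j| ≤ K j * ‖v‖ := by
    intro u hu v j
    obtain ⟨h0, hle, h1⟩ := hcb u hu
    set c := cq Φ q u with hc
    have hu1 : ‖u‖ ≤ 1 := by simpa using hu
    have hL := h_LMB.pos c h0 h1
    have hl1 : |lam1 c| ≤ |M| := (hM c ⟨h0, hle⟩).trans (le_abs_self M)
    have hlA : |lam c| ≤ A := by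
      rw [abs_of_pos hL.1]
      exact hL.2
    have hcL : |c * lam c| ≤ A := by
      rw [abs_mul, abs_of_nonneg h0]
      calc c * |lam c| ≤ 1 * A := mul_le_mul h1.le hlA (abs_nonneg _) zero_le_one
        _ = A := one_mul A
    have hc1 : |c * lam1 c| ≤ |M| := by
      rw [abs_mul, abs_of_nonneg h0]
      calc c * |lam1 c| ≤ 1 * |M| := mul_le_mul h1.le hl1 (abs_nonneg _) zero_le_one
        _ = |M| := one_mul _
    have hvj := cr1_abs v j
    have huj : |u j| ≤ 1 := (cr1_abs u j).trans hu1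
    have hsj := hS.sb (u j)
    have hn := norm_nonneg v
    have hsum : |∑ k, q k * s (u k) * v k| ≤ Q * ‖v‖ := by
      refine (Finset.abs_sum_le_sum_abs _ _).trans ?_
      rw [hQ, Finset.sum_mul]
      refine Finset.sum_le_sum fun k _ => ?_
      rw [abs_mul, abs_mul, abs_of_nonneg (hA.q0 k)]
      have h5 := hS.sb (u k)
      have h6 := cr1_abs v k
      have h7 := hA.q0 k
      calc q k * |s (u k)| * |v k| ≤ q k * 1 * ‖v‖ := by gcongr
        _ = q k * ‖v‖ := by ring
    have hs1 : |s1 (u j)| ≤ |C1| := by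
      rw [abs_of_nonneg (hS.s1n _)]
      exact (hC1 _).trans (le_abs_self _)
    have hq := hA.q0 j
    have hτ := hA.τ0 j
    have t1 : |(1 - c * lam c) * v j| ≤ (1 + A) * ‖v‖ := by
      rw [abs_mul]
      refine mul_le_mul ?_ hvj (abs_nonneg _) (by positivity)
      refine (abs_sub _ _).trans ?_
      rw [abs_one]
      linarith
    have t2 : |(-lam c - c * lam1 c) * (∑ k, q k * s (u k) * v k) * u j| ≤
        (A + |M|) * Q * ‖v‖ := by
      rw [abs_mul, abs_mul]
      have h8 : |-lam c - c * lam1 c| ≤ A + |M| := by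
        refine (abs_sub _ _).trans ?_
        rw [abs_neg]
        linarith
      calc |-lam c - c * lam1 c| * |∑ k, q k * s (u k) * v k| * |u j|
          ≤ (A + |M|) * (Q * ‖v‖) * 1 := by gcongr
        _ = (A + |M|) * Q * ‖v‖ := by ring
    have t3 : |s1 (u j) * v j * (lam c * q j - τ j)| ≤ |C1| * (A * q j + τ j) * ‖v‖ := by
      rw [abs_mul, abs_mul]
      have h8 : |lam c * q j - τ j| ≤ A * q j + τ j := by
        refine (abs_sub _ _).trans ?_
        rw [abs_mul, abs_of_nonneg hq, abs_of_nonneg hτ]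
        gcongr
      calc |s1 (u j)| * |v j| * |lam c * q j - τ j| ≤ |C1| * ‖v‖ * (A * q j + τ j) := by gcongr
        _ = |C1| * (A * q j + τ j) * ‖v‖ := by ring
    have t4 : |s (u j) * (lam1 c * (∑ k, q k * s (u k) * v k) * q j)| ≤
        |M| * Q * q j * ‖v‖ := by
      rw [abs_mul, abs_mul, abs_mul, abs_of_nonneg hq]
      calc |s (u j)| * (|lam1 c| * |∑ k, q k * s (u k) * v k| * q j)
          ≤ 1 * (|M| * (Q * ‖v‖) * q j) := by gcongr
        _ = |M| * Q * q j * ‖v‖ := by ring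
    have h9 : fldD s s1 Φ q τ u v j = (1 - c * lam c) * v j +
        (-lam c - c * lam1 c) * (∑ k, q k * s (u k) * v k) * u j +
        s1 (u j) * v j * (lam c * q j - τ j) +
        s (u j) * (lam1 c * (∑ k, q k * s (u k) * v k) * q j) := rfl
    rw [h9]
    refine (abs_add_le _ _).trans ?_
    have h10 := abs_add_le ((1 - c * lam c) * v j +
        (-lam c - c * lam1 c) * (∑ k, q k * s (u k) * v k) * u j)
        (s1 (u j) * v j * (lam c * q j - τ j))
    have h11 := abs_add_le ((1 - c * lam c) * v j)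
        ((-lam c - c * lam1 c) * (∑ k, q k * s (u k) * v k) * u j)
    simp only [hK]
    nlinarith
  have hop : ∀ u ∈ closedBall (0 : E n) 1, ‖cr1_G s s1 Φ q τ u‖₊ ≤
      (∑ j, K j).toNNReal := by
    intro u hu
    rw [← NNReal.coe_le_coe, coe_nnnorm,
      Real.coe_toNNReal _ (Finset.sum_nonneg fun j _ => hK0 j)]
    refine ContinuousLinearMap.opNorm_le_bound _ (Finset.sum_nonneg fun j _ => hK0 j) fun v => ?_
    refine (cr1_norm _).trans ?_
    rw [Finset.sum_mul]
    exact Finset.sum_le_sum fun j _ => hbound u hu v j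
  refine ⟨(∑ j, K j).toNNReal, ?_⟩
  have hlip := (convex_closedBall (0 : E n) 1).lipschitzOnWith_of_nnnorm_hasFDerivWithin_le
    (fun u hu => (hder u hu).hasFDerivWithinAt) hop
  exact hlip.mono sphere_subset_closedBall

end RLW
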