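import Pool.Agent.RLW.St

/-!
# RLW [CR2]: positivity of the trace
-/

set_option autoImplicit false

open MeasureTheory Metric Set
open scoped BigOperators Pointwise RealInnerProductSpace NNReal Topology

namespace RLW

private theorem cr2_inner {n : ℕ} (x y : E n) : ⟪x, y⟫ = ∑ k, x k * y k := by
  simp [PiLp.inner_apply, mul_comm]

private theorem cr2_repr {n : ℕ} (x : E n) :
    x = ∑ j, x j • (EuclideanSpace.single j (1 : ℝ) : E n) := by
  ext k
  simp [Finset.sum_apply, Pi.single_apply]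

private theorem cr2_bil {n : ℕ} (H : E n →L[ℝ] E n) (x y : E n) :
    ∑ j, x j * ∑ k, y k * (H (EuclideanSpace.single j 1)) k = ⟪y, H x⟫ := by
  conv_rhs => rw [cr2_repr x]
  rw [map_sum, inner_sum]
  refine Finset.sum_congr rfl fun j _ => ?_
  rw [map_smul, inner_smul_right, cr2_inner]

theorem thm_CR2 (h_LMB : St_LMB) (h_CQB : St_CQB) (h_TRC : St_TRC) : St_CR2 := by
  intro n η s s1 Φ q τ u H hS hA hu hsym hpsd hker
  obtain ⟨hc0, -, hc1⟩ := h_CQB.nn n η s s1 Φ q τ u hS hA hu.le
  set c := cq Φ q u with hc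
  set L := lam c with hL
  set g : E n := WithLp.toLp 2 fun k => q k * s (u k) with hg
  have hgk : ∀ k, g k = q k * s (u k) := fun k => rfl
  have hjj : ∀ j, 0 ≤ (H (EuclideanSpace.single j 1)) j := by
    intro j
    have h1 := hpsd (EuclideanSpace.single j 1)
    rw [cr2_inner] at h1
    simpa [Pi.single_apply] using h1
  set T := ∑ j, (H (EuclideanSpace.single j 1)) j with hT
  have hT0 : 0 ≤ T := Finset.sum_nonneg fun j _ => hjj j
  -- the sum
  have hsum : ∑ j, fldD s s1 Φ q τ u (H (EuclideanSpace.single j 1)) j =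
      (1 - c * L) * T + (-L - c * lam1 c) * ⟪g, H u⟫ +
        (∑ j, s1 (u j) * (H (EuclideanSpace.single j 1)) j * (L * q j - τ j)) +
        lam1 c * ⟪g, H g⟫ := by
    rw [← cr2_bil H u g, ← cr2_bil H g g, hT, Finset.mul_sum, Finset.mul_sum, Finset.mul_sum,
      ← Finset.sum_add_distrib, ← Finset.sum_add_distrib, ← Finset.sum_add_distrib]
    refine Finset.sum_congr rfl fun j _ => ?_
    simp only [fldD, ← hc, ← hL, hgk]
    ring
  rw [hsum, hker, inner_zero_right, mul_zero, add_zero]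
  -- the third term
  have h3 : 0 ≤ ∑ j, s1 (u j) * (H (EuclideanSpace.single j 1)) j * (L * q j - τ j) := by
    refine Finset.sum_nonneg fun j _ => ?_
    rcases le_total η |u j| with h | h
    · rw [hS.s1z _ h, zero_mul, zero_mul]
    · refine mul_nonneg (mul_nonneg (hS.s1n _) (hjj j)) ?_
      have h1 := h_CQB.kp n η s s1 Φ q τ u j hS hA hu h
      have h2 := h_LMB.anti c (kp η q j) hc0 h1 (hA.kp1 j)
      have h4 := hA.τ1 j
      have h5 := mul_le_mul_of_nonneg_left h2 (hA.q0 j)
      rw [mul_comm L]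
      linarith
  -- the vector g'
  set g' : E n := g - ⟪g, u⟫ • u with hg'
  have huu : ⟪u, u⟫ = 1 := by rw [real_inner_self_eq_norm_sq, hu]; norm_num
  have hHg : ⟪g, H g⟫ = ⟪H g', g'⟫ := by
    have h1 : H g' = H g := by rw [hg', map_sub, map_smul, hker, smul_zero, sub_zero]
    rw [h1, hg', inner_sub_right, inner_smul_right, hsym g u, hker, inner_zero_right, mul_zero,
      sub_zero, real_inner_comm]
  have hng : ‖g'‖ ^ 2 ≤ 1 - c ^ 2 := by
    have h1 : ‖g'‖ ^ 2 = ‖g‖ ^ 2 - ⟪g, u⟫ ^ 2 := by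
      rw [← real_inner_self_eq_norm_sq, ← real_inner_self_eq_norm_sq, hg', inner_sub_left,
        inner_sub_right, inner_sub_right, inner_smul_left, inner_smul_left, inner_smul_right,
        inner_smul_right, huu, real_inner_comm g u]
      simp
      ring
    have h2 : ‖g‖ ^ 2 ≤ 1 := by
      rw [← real_inner_self_eq_norm_sq, cr2_inner]
      refine le_trans (Finset.sum_le_sum fun j _ => ?_) hA.q1.le
      rw [hgk]
      have h5 := hS.sb (u j)
      have h6 : s (u j) ^ 2 ≤ 1 := by
        rw [← sq_abs]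
        exact pow_le_one₀ (abs_nonneg _) h5
      nlinarith [sq_nonneg (q j)]
    have h3 : c ≤ ⟪g, u⟫ := by
      rw [hc, cq, cr2_inner]
      refine Finset.sum_le_sum fun j _ => ?_
      rw [hgk, mul_assoc]
      refine mul_le_mul_of_nonneg_left ?_ (hA.q0 j)
      rw [mul_comm (s (u j))]
      exact hS.Φs _
    rw [h1]
    nlinarith
  have h4 : ⟪H g', g'⟫ ≤ (1 - c ^ 2) * T :=
    (h_TRC n H g' hsym hpsd).trans (mul_le_mul_of_nonneg_right hng hT0)
  have h5 := h_LMB.idn c (by linarith) hc1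
  have h6 := h_LMB.neg c hc0 hc1
  rw [hHg, h5]
  have h7 : 0 ≤ -lam1 c * ((1 - c ^ 2) * T - ⟪H g', g'⟫) :=
    mul_nonneg (by linarith) (by linarith)
  nlinarith

end RLW
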