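import Mathlib
import Pool.Agent.RLW.St

/-!
# RLW [CRT]: the field satisfies `Fld`
-/

set_option autoImplicit false

open MeasureTheory Metric Set
open scoped BigOperators Pointwise RealInnerProductSpace NNReal Topology

namespace RLW

theorem thm_CRT (h_CR1 : St_CR1) (h_CR2 : St_CR2) : St_CRT := by
  intro n η s s1 Φ q τ hS hA
  obtain ⟨G', h1, h2, h3⟩ := h_CR1 n η s s1 Φ q τ hS hA
  refine ⟨G', ?_⟩
  refine ⟨h3, fun u hu => h1 u (sphere_subset_closedBall hu), ?_⟩
  intro u hu H hsym hpos hHu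
  have hu' : ‖u‖ = 1 := by simpa using hu
  have h := h_CR2 n η s s1 Φ q τ u H hS hA hu' hsym hpos hHu
  refine h.trans_eq (Finset.sum_congr rfl fun j _ => ?_)
  exact (h2 u (sphere_subset_closedBall hu) _ j).symm

end RLW
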