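import Pool.Agent.RLW.St

/-!
# RLW [CTS]: functions of the distance and the normal are continuous with compact support
-/

set_option autoImplicit false

open MeasureTheory Metric Set
open scoped BigOperators Pointwise RealInnerProductSpace NNReal Topology

namespace RLW

private theorem CTS_nmem {n : ℕ} {K : Set (E n)} {x : E n} (h : 0 < infDist x K) : x ∉ K := by
  intro hx
  rw [infDist_zero_of_mem hx] at h
  exact lt_irrefl _ h

private theorem CTS_nu {n : ℕ} {K : Set (E n)} (h2 : St_NUB) (hK : CB K) {x : E n}
    (hx : 0 < infDist x K) : ContinuousAt (nu K) x := by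
  set c := infDist x K / 2 with hc
  have hc0 : 0 < c := by positivity
  have hcx : c < infDist x K := by
    rw [hc]
    linarith
  have hev : ∀ᶠ y in 𝓝 x, c < infDist y K :=
    (continuous_infDist_pt K).continuousAt.eventually (lt_mem_nhds hcx)
  rw [ContinuousAt, tendsto_iff_norm_sub_tendsto_zero]
  have hz : Filter.Tendsto (fun y => 3 / c * ‖y - x‖) (𝓝 x) (𝓝 0) := by
    have h3 : ContinuousAt (fun y => 3 / c * ‖y - x‖) x := by fun_prop
    have h4 := h3.tendsto
    simpa using h4
  refine squeeze_zero' (Filter.Eventually.of_forall fun y => norm_nonneg _) ?_ hz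
  filter_upwards [hev] with y hy
  exact h2.lip n K y x c hK hc0 hy.le hcx.le

theorem thm_CTS (h_NPT : St_NPT) (h_NUB : St_NUB) : St_CTS := by
  intro n K φ h a b hK ha hφ hz hh
  have hcont : Continuous (fun x => φ (infDist x K) * h (nu K x)) := by
    rw [continuous_iff_continuousAt]
    intro x
    by_cases hx : infDist x K < a
    · have hev : ∀ᶠ y in 𝓝 x, infDist y K < a :=
        (continuous_infDist_pt K).continuousAt.eventually (gt_mem_nhds hx)
      have he : (fun x => φ (infDist x K) * h (nu K x)) =ᶠ[𝓝 x] fun _ => 0 := by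
        filter_upwards [hev] with y hy
        rw [hz _ (fun h => absurd h.1 (not_lt.2 hy.le)), zero_mul]
      exact continuousAt_const.congr he.symm
    · have hx0 : 0 < infDist x K := ha.trans_le (not_lt.1 hx)
      have h1 : ContinuousAt (nu K) x := CTS_nu h_NUB hK hx0
      have hev : ∀ᶠ y in 𝓝 x, 0 < infDist y K :=
        (continuous_infDist_pt K).continuousAt.eventually (lt_mem_nhds hx0)
      have h2 : Filter.Tendsto (nu K) (𝓝 x) (𝓝[sphere 0 1] (nu K x)) := by
        rw [tendsto_nhdsWithin_iff]
        refine ⟨h1, ?_⟩
        filter_upwards [hev] with y hy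
        rw [mem_sphere_zero_iff_norm]
        exact h_NUB.unit n K y hK (CTS_nmem hy)
      have h3 : nu K x ∈ sphere (0 : E n) 1 := by
        rw [mem_sphere_zero_iff_norm]
        exact h_NUB.unit n K x hK (CTS_nmem hx0)
      have h4 : ContinuousAt (fun x => h (nu K x)) x := (hh _ h3).tendsto.comp h2
      exact ((hφ.comp (continuous_infDist_pt K)).continuousAt).mul h4
  have hsup : HasCompactSupport (fun x => φ (infDist x K) * h (nu K x)) := by
    refine HasCompactSupport.of_support_subset_isCompact (K := cthickening b K)
      hK.cpt.cthickening ?_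
    intro x hx
    have h1 : infDist x K ∈ Ioo a b := by
      by_contra hcon
      exact hx (by
        show φ (infDist x K) * h (nu K x) = 0
        rw [hz _ hcon, zero_mul])
    obtain ⟨y, hy, hd⟩ := hK.cpt.exists_infDist_eq_dist hK.ne x
    exact mem_cthickening_of_dist_le x y b K hy (hd ▸ h1.2.le)
  exact ⟨hcont, hsup, hcont.integrable_of_hasCompactSupport hsup⟩

end RLW
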