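import Mathlib
import Pool.Agent.RLW.St

/-!
# RLW, module DEZ: the divergence of `w (δ) G (ν)` almost everywhere
-/

set_option autoImplicit false

open MeasureTheory Metric Set Filter
open scoped BigOperators Pointwise RealInnerProductSpace NNReal Topology

namespace RLW

theorem thm_DEZ (h_HES : St_HES) (h_NUB : St_NUB) : St_DEZ := by
  intro n K a b w w1 w2 G G' hK hT hG
  filter_upwards [h_HES.ae n K hK] with x hx
  by_cases hxa : infDist x K < a
  · -- all functions vanish near `x`
    have h1 : w1 (infDist x K) = 0 := (hT.z _ fun h => absurd h.1 (not_lt.2 hxa.le)).2.1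
    have h2 : ∀ᶠ y in 𝓝 x, infDist y K < a :=
      (continuous_infDist_pt K).continuousAt.eventually (gt_mem_nhds hxa)
    have h3 : ∀ j : Fin n, lineDeriv ℝ (fun y => w (infDist y K) * G (nu K y) j) x
        (EuclideanSpace.single j 1) = 0 := by
      intro j
      have h4 : (fun y => w (infDist y K) * G (nu K y) j) =ᶠ[𝓝 x] fun _ => (0 : ℝ) := by
        filter_upwards [h2] with y hy
        rw [(hT.z _ fun h => absurd h.1 (not_lt.2 hy.le)).1, zero_mul]
      rw [h4.lineDeriv_eq]
      simp [lineDeriv]
    rw [h1, zero_mul, Finset.sum_eq_zero fun j _ => h3 j]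
  · push Not at hxa
    have hxK : x ∉ K := by
      intro h
      rw [infDist_zero_of_mem h] at hxa
      exact absurd hxa (not_le.2 hT.a0)
    obtain ⟨H, hH⟩ := hx hxK
    have hu : ‖nu K x‖ = 1 := h_NUB.unit n K x hK hxK
    have hus : nu K x ∈ sphere (0 : E n) 1 := by
      rw [mem_sphere_zero_iff_norm]
      exact hu
    have hδ : HasFDerivAt (fun y => infDist y K) (innerSL ℝ (nu K x)) x := h_NUB.der n K x hK hxK
    have hwδ : HasFDerivAt (fun y => w (infDist y K)) (w1 (infDist x K) • innerSL ℝ (nu K x)) x :=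
      (hT.d1 (infDist x K)).comp_hasFDerivAt x hδ
    have hGν : HasFDerivAt (fun y => G (nu K y)) ((G' (nu K x)).comp H) x :=
      (hG.der _ hus).comp x hH
    have h3 : ∀ j : Fin n, lineDeriv ℝ (fun y => w (infDist y K) * G (nu K y) j) x
        (EuclideanSpace.single j 1) =
        w1 (infDist x K) * (nu K x j * G (nu K x) j) +
          w (infDist x K) * G' (nu K x) (H (EuclideanSpace.single j 1)) j := by
      intro j
      have h4 : HasFDerivAt (fun y => G (nu K y) j)
          ((EuclideanSpace.proj j : E n →L[ℝ] ℝ).comp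
            ((G' (nu K x)).comp H)) x :=
        (EuclideanSpace.proj j : E n →L[ℝ] ℝ).hasFDerivAt.comp x hGν
      have h5 := (hwδ.mul h4).hasLineDerivAt (EuclideanSpace.single j (1 : ℝ))
      refine h5.lineDeriv.trans ?_
      have h7 : ∀ v : E n, (EuclideanSpace.proj j : E n →L[ℝ] ℝ) v = v j := fun v => rfl
      simp only [add_apply, smul_apply,
        ContinuousLinearMap.comp_apply, smul_eq_mul, innerSL_apply_apply, h7]
      have h6 : ⟪nu K x, EuclideanSpace.single j (1 : ℝ)⟫ = nu K x j := by
        rw [EuclideanSpace.inner_single_right]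
        simp
      rw [h6]
      ring
    have h4 : ⟪nu K x, G (nu K x)⟫ = ∑ j, nu K x j * G (nu K x) j := by
      rw [PiLp.inner_apply]
      exact Finset.sum_congr rfl fun j _ => by
        simp [mul_comm]
    have h5 : 0 ≤ ∑ j, G' (nu K x) (H (EuclideanSpace.single j 1)) j :=
      hG.pos _ hus H (h_HES.sym n K x H hK hxK hH) (h_HES.psd n K x H hK hxK hH)
        (h_HES.ker n K x H hK hxK hH)
    rw [Finset.sum_congr rfl fun j _ => h3 j, Finset.sum_add_distrib, ← Finset.mul_sum,
      ← Finset.mul_sum, ← h4]
    have h6 := mul_nonneg (hT.nn (infDist x K)) h5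
    linarith

end RLW
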