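import Pool.Agent.RLW.St

/-!
# RLW, module DIV: the divergence inequality
-/

set_option autoImplicit false

open MeasureTheory Metric Set
open scoped BigOperators Pointwise RealInnerProductSpace NNReal Topology

namespace RLW

theorem thm_DIV (h_IBP : St_IBP) (h_CTS : St_CTS) (h_LIZ : St_LIZ) (h_DEZ : St_DEZ) :
    St_DIV := by
  intro n K a b w w1 w2 G G' hK hw hG
  have hint : Integrable (fun x : E n => w1 (infDist x K) * ⟪nu K x, G (nu K x)⟫) := by
    obtain ⟨C, hC⟩ := hG.lip
    have hh : ContinuousOn (fun u : E n => (⟪u, G u⟫ : ℝ)) (sphere 0 1) :=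
      continuousOn_id.inner hC.continuousOn
    exact (h_CTS n K w1 (fun u => ⟪u, G u⟫) a b hK hw.a0
      (continuous_iff_continuousAt.2 fun s => (hw.d2 s).continuousAt)
      (fun s hs => (hw.z s hs).2.1) hh).2.2
  have hj : ∀ j : Fin n, Integrable (fun x : E n => lineDeriv ℝ
      (fun y => w (infDist y K) * G (nu K y) j) x (EuclideanSpace.single j 1)) ∧
      ∫ x : E n, lineDeriv ℝ
      (fun y => w (infDist y K) * G (nu K y) j) x (EuclideanSpace.single j 1) = 0 := by
    intro j
    obtain ⟨⟨C, hC⟩, hs⟩ := h_LIZ n K a b w w1 w2 G G' j hK hw hG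
    exact h_IBP n _ C _ hC hs
  have h1 := integral_mono_ae hint (integrable_finsetSum Finset.univ fun j _ => (hj j).1)
    (h_DEZ n K a b w w1 w2 G G' hK hw hG)
  refine h1.trans (le_of_eq ?_)
  rw [integral_finsetSum Finset.univ fun j _ => (hj j).1]
  exact Finset.sum_eq_zero fun j _ => (hj j).2

end RLW
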