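import Mathlib
import Pool.Agent.RLW.St

/-!
# RLW, module FUB: Fubini
-/

set_option autoImplicit false

open MeasureTheory Metric Set Filter
open scoped BigOperators Pointwise RealInnerProductSpace NNReal Topology

namespace RLW

theorem thm_FUB : St_FUB := by
  intro n i F hF
  have hp1 : MeasurePreserving (MeasurableEquiv.toLp 2 (Fin (n + 1) → ℝ)) :=
    PiLp.volume_preserving_toLp (Fin (n + 1))
  have hp0 : MeasurePreserving (MeasurableEquiv.toLp 2 (Fin n → ℝ)) :=
    PiLp.volume_preserving_toLp (Fin n)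
  have hp2 : MeasurePreserving (MeasurableEquiv.piFinSuccAbove (fun _ : Fin (n + 1) => ℝ) i) :=
    volume_preserving_piFinSuccAbove (fun _ : Fin (n + 1) => ℝ) i
  have h1 : ∫ x, F x = ∫ x : Fin (n + 1) → ℝ, F (WithLp.toLp 2 x) :=
    (hp1.integral_comp (MeasurableEquiv.measurableEmbedding _) F).symm
  have h2 : ∫ x : Fin (n + 1) → ℝ, F (WithLp.toLp 2 x) =
      ∫ p : ℝ × (Fin n → ℝ), F (WithLp.toLp 2 (i.insertNth p.1 p.2)) :=
    ((hp2.symm _).integral_comp (MeasurableEquiv.measurableEmbedding _)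
      (fun x : Fin (n + 1) → ℝ => F (WithLp.toLp 2 x))).symm
  have h3 : Integrable (fun p : ℝ × (Fin n → ℝ) => F (WithLp.toLp 2 (i.insertNth p.1 p.2))) := by
    have h4 : Integrable (fun x : Fin (n + 1) → ℝ => F (WithLp.toLp 2 x)) :=
      (hp1.integrable_comp_emb (MeasurableEquiv.measurableEmbedding _)).2 hF
    exact ((hp2.symm _).integrable_comp_emb (MeasurableEquiv.measurableEmbedding _)).2 h4
  rw [h1, h2]
  have h5 : ∫ p : ℝ × (Fin n → ℝ), F (WithLp.toLp 2 (i.insertNth p.1 p.2)) =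
      ∫ y : Fin n → ℝ, ∫ s : ℝ, F (WithLp.toLp 2 (i.insertNth s y)) :=
    integral_prod_symm _ h3
  rw [h5]
  exact (hp0.integral_comp (MeasurableEquiv.measurableEmbedding _)
    (fun y : E n => ∫ s : ℝ, F (ins i s y)))

end RLW
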