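import Mathlib
import Pool.Agent.RLW.St

/-!
# RLW module HES: second derivatives of the distance to a convex body
-/

set_option autoImplicit false

open MeasureTheory Metric Set Filter
open scoped BigOperators Pointwise RealInnerProductSpace NNReal Topology

namespace RLW

/-- the scalar product as a bilinear map -/
private noncomputable def HES_L (n : ℕ) : E n →L[ℝ] E n →L[ℝ] ℝ :=
  LinearMap.toContinuousLinearMap
    { toFun := fun u => innerSL ℝ u
      map_add' := fun u v => map_add _ _ _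
      map_smul' := fun a u => by
        rw [RingHom.id_apply]
        ext v
        simp }

private theorem HES_L_apply (n : ℕ) (u v : E n) : HES_L n u v = ⟪u, v⟫ := rfl

private theorem HES_near {n : ℕ} {K : Set (E n)} {x : E n} (hK : CB K) (hx : x ∉ K) :
    ∀ᶠ y in 𝓝 x, y ∉ K := hK.cpt.isClosed.isOpen_compl.mem_nhds hx

private theorem HES_sym (h : St_NUB) {n : ℕ} {K : Set (E n)} {x : E n} {H : E n →L[ℝ] E n}
    (hK : CB K) (hx : x ∉ K) (hH : HasFDerivAt (nu K) H x) (v w : E n) :
    ⟪H v, w⟫ = ⟪v, H w⟫ := by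
  have h1 : ∀ᶠ y in 𝓝 x, HasFDerivAt (fun y => infDist y K) (HES_L n (nu K y)) y := by
    filter_upwards [HES_near hK hx] with y hy
    exact h.der n K y hK hy
  have h2 : HasFDerivAt (fun y => HES_L n (nu K y)) ((HES_L n).comp H) x :=
    (HES_L n).hasFDerivAt.comp x hH
  have h3 := second_derivative_symmetric_of_eventually h1 h2 v w
  have h4 : ((HES_L n).comp H) v w = ⟪H v, w⟫ := rfl
  have h5 : ((HES_L n).comp H) w v = ⟪H w, v⟫ := rfl
  rw [h4, h5] at h3
  rw [h3, real_inner_comm]

private theorem HES_mono (h : St_NUB) {n : ℕ} {K : Set (E n)} {x y : E n}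
    (hK : CB K) (hx : x ∉ K) (hy : y ∉ K) : 0 ≤ ⟪nu K y - nu K x, y - x⟫ := by
  have h1 := h.sub n K x y hK hx
  have h2 := h.sub n K y x hK hy
  have h3 : ⟪nu K y, x - y⟫ = -⟪nu K y, y - x⟫ := by
    rw [← neg_sub, inner_neg_right]
  rw [inner_sub_left]
  rw [h3] at h2
  linarith

theorem thm_HES (h_NUB : St_NUB) : St_HES where
  ae := by
    intro n K hK
    have h1 : ∀ k : ℕ, ∀ᵐ x : E n, x ∈ {x : E n | 1 / ((k : ℝ) + 1) < infDist x K} →
        DifferentiableAt ℝ (nu K) x := by
      intro k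
      have ho : IsOpen {x : E n | 1 / ((k : ℝ) + 1) < infDist x K} :=
        isOpen_lt continuous_const (continuous_infDist_pt K)
      have hk : (0 : ℝ) < 1 / ((k : ℝ) + 1) := by positivity
      have hl : LipschitzOnWith (Real.toNNReal (3 / (1 / ((k : ℝ) + 1)))) (nu K)
          {x : E n | 1 / ((k : ℝ) + 1) < infDist x K} := by
        apply LipschitzOnWith.of_dist_le_mul
        intro x hx y hy
        rw [dist_eq_norm, dist_eq_norm, Real.coe_toNNReal _ (by positivity)]
        exact h_NUB.lip n K x y _ hK hk (le_of_lt hx) (le_of_lt hy)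
      filter_upwards [hl.ae_differentiableWithinAt_of_mem (μ := (volume : Measure (E n)))]
        with x hx hxk
      exact (hx hxk).differentiableAt (ho.mem_nhds hxk)
    rw [← ae_all_iff] at h1
    filter_upwards [h1] with x hx hxK
    have h2 := h_NUB.pos n K x hK hxK
    obtain ⟨k, hk⟩ := exists_nat_one_div_lt h2
    exact hx k hk
  sym := fun n K x H hK hx hH v w => HES_sym h_NUB hK hx hH v w
  psd := by
    intro n K x H hK hx hH v
    have h1 : HasDerivAt (fun t : ℝ => x + t • v) v 0 := by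
      have := ((hasDerivAt_id (0 : ℝ)).smul_const v).const_add x
      simpa using this
    have h2 : HasDerivAt (fun t : ℝ => nu K (x + t • v)) (H v) 0 := by
      have h3 : HasFDerivAt (nu K) H (x + (0 : ℝ) • v) := by
        rw [zero_smul, add_zero]
        exact hH
      exact h3.comp_hasDerivAt (0 : ℝ) h1
    have h3 : HasDerivAt (fun t : ℝ => ⟪nu K (x + t • v), v⟫) ⟪H v, v⟫ 0 := by
      have := h2.inner ℝ (hasDerivAt_const (0 : ℝ) v)
      simpa using this
    have h4 := h3.tendsto_slope_zero_right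
    refine ge_of_tendsto h4 ?_
    have h5 : ∀ᶠ t : ℝ in 𝓝 0, x + t • v ∉ K := by
      have hc : ContinuousAt (fun t : ℝ => x + t • v) 0 := h1.continuousAt
      have hn : ∀ᶠ y in 𝓝 (x + (0 : ℝ) • v), y ∉ K := by
        rw [zero_smul, add_zero]
        exact HES_near hK hx
      exact hc.eventually (p := fun y => y ∉ K) hn
    filter_upwards [nhdsWithin_le_nhds h5, self_mem_nhdsWithin] with t ht ht0
    have ht0' : (0 : ℝ) < t := ht0
    have h6 := HES_mono h_NUB hK hx ht
    rw [add_sub_cancel_left, inner_smul_right] at h6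
    have h7 : 0 ≤ ⟪nu K (x + t • v) - nu K x, v⟫ := by
      by_contra hcon
      push Not at hcon
      nlinarith
    rw [inner_sub_left] at h7
    have h8 : ⟪nu K (x + (0 + t) • v), v⟫ - ⟪nu K (x + (0 : ℝ) • v), v⟫ =
        ⟪nu K (x + t • v), v⟫ - ⟪nu K x, v⟫ := by
      rw [zero_add, zero_smul, add_zero]
    show 0 ≤ t⁻¹ • (⟪nu K (x + (0 + t) • v), v⟫ - ⟪nu K (x + (0 : ℝ) • v), v⟫)
    rw [h8, smul_eq_mul]
    positivity
  ker := by
    intro n K x H hK hx hH
    have h1 : HasFDerivAt (fun y => ⟪nu K y, nu K y⟫) (0 : E n →L[ℝ] ℝ) x := by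
      have h2 : (fun _ : E n => (1 : ℝ)) =ᶠ[𝓝 x] fun y => ⟪nu K y, nu K y⟫ := by
        filter_upwards [HES_near hK hx] with y hy
        rw [real_inner_self_eq_norm_sq, h_NUB.unit n K y hK hy]
        norm_num
      exact (hasFDerivAt_const (1 : ℝ) x).congr_of_eventuallyEq h2.symm
    have h2 := hH.inner ℝ hH
    have h3 := h1.unique h2
    have h4 : ∀ v, ⟪H (nu K x), v⟫ = 0 := by
      intro v
      have h5 := DFunLike.congr_fun h3 v
      have h6 : (0 : ℝ) = ⟪nu K x, H v⟫ + ⟪H v, nu K x⟫ := h5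
      rw [real_inner_comm (nu K x) (H v)] at h6
      have h7 := HES_sym h_NUB hK hx hH (nu K x) v
      have h8 : ⟪nu K x, H v⟫ = ⟪H v, nu K x⟫ := real_inner_comm _ _
      rw [h7]
      linarith
    exact inner_self_eq_zero.1 (h4 (H (nu K x)))

end RLW
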