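import Mathlib
import Pool.Agent.RLW.St

/-!
# RLW module IBP: integrals of line derivatives of Lipschitz functions with compact support
-/

set_option autoImplicit false

open MeasureTheory Metric Set Filter
open scoped BigOperators Pointwise RealInnerProductSpace NNReal Topology

namespace RLW

private theorem IBP_supp {n : ℕ} (f : E n → ℝ) (v x : E n) (h : x ∉ tsupport f) :
    lineDeriv ℝ f x v = 0 := by
  have h1 : f =ᶠ[𝓝 x] fun _ => 0 := notMem_tsupport_iff_eventuallyEq.1 h
  rw [h1.lineDeriv_eq]
  simp [lineDeriv]

theorem thm_IBP : St_IBP := by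
  intro n f C v hf hc
  constructor
  · have h1 : LocallyIntegrable (fun x => lineDeriv ℝ f x v) (volume : Measure (E n)) :=
      hf.locallyIntegrable_lineDeriv v
    have h2 := h1.integrableOn_isCompact hc.isCompact
    refine (integrableOn_iff_integrable_of_support_subset ?_).1 h2
    intro x hx
    by_contra hcon
    exact hx (IBP_supp f v x hcon)
  · have h1 : LipschitzWith 0 (fun _ : E n => (1 : ℝ)) := LipschitzWith.const 1
    have h2 := h1.integral_lineDeriv_mul_eq (μ := (volume : Measure (E n))) hf hc (-v)
    simp only [neg_neg, mul_one] at h2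
    rw [← h2]
    have h3 : ∀ x : E n, lineDeriv ℝ (fun _ : E n => (1 : ℝ)) x (-v) = 0 := fun x => by
      simp [lineDeriv]
    simp [h3]

end RLW
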