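import Pool.Agent.RLW.St

set_option autoImplicit false

open MeasureTheory Metric Set
open scoped BigOperators

namespace RLW

/-- [INE] the inequality -/
theorem thm_INE (h_POL : St_POL) (h_JEN : St_JEN) (h_MON : St_MON) (h_PRC : St_PRC) :
    St_INE := by
  intro n K V W hn hK hV hW
  have hp : ∀ j, 0 ≤ W j (n - 1) := fun j => h_MON n _ _ hn (h_PRC.cb n j K hK) (hW j)
  have hS0 : 0 ≤ ∑ j, W j (n - 1) ^ 2 := Finset.sum_nonneg fun j _ => sq_nonneg _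
  rcases hS0.eq_or_lt with h0 | hpos
  · rw [← h0, mul_zero]
    exact sq_nonneg _
  set S : ℝ := √(∑ j, W j (n - 1) ^ 2) with hS
  have hSpos : 0 < S := Real.sqrt_pos.mpr hpos
  have hS2 : S ^ 2 = ∑ j, W j (n - 1) ^ 2 := Real.sq_sqrt hS0
  have hx0 : ∀ j, 0 ≤ W j (n - 1) / S := fun j => div_nonneg (hp j) hSpos.le
  have hsum : ∑ j, (W j (n - 1) / S) ^ 2 = 1 := by
    have h1 : ∀ j, (W j (n - 1) / S) ^ 2 = W j (n - 1) ^ 2 / S ^ 2 := fun j => div_pow _ _ _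
    rw [Finset.sum_congr rfl fun j _ => h1 j, ← Finset.sum_div, ← hS2]
    exact div_self (pow_pos hSpos 2).ne'
  have hx1 : ∀ j, W j (n - 1) / S ≤ 1 := by
    intro j
    have h1 : (W j (n - 1) / S) ^ 2 ≤ 1 := by
      rw [← hsum]
      exact Finset.single_le_sum (f := fun j => (W j (n - 1) / S) ^ 2)
        (fun i _ => sq_nonneg _) (Finset.mem_univ j)
    nlinarith [hx0 j]
  have hsin : ∀ j, Real.sin (Real.arcsin (W j (n - 1) / S)) = W j (n - 1) / S := fun j =>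
    Real.sin_arcsin (by linarith [hx0 j]) (hx1 j)
  have h1 := h_POL n K V W (fun j => Real.arcsin (W j (n - 1) / S)) hn hK hV hW
    (fun j => ⟨Real.arcsin_nonneg.mpr (hx0 j), Real.arcsin_le_pi_div_two _⟩)
    (by rw [Finset.sum_congr rfl fun j _ => by rw [hsin j]]; exact hsum)
  have h2 := h_JEN (n + 1) (fun j => W j (n - 1) / S) (by omega) hx0 hsum
  set A : ℝ := Real.arcsin (1 / √((n + 1 : ℕ) : ℝ)) with hA
  have hA0 : 0 ≤ A := Real.arcsin_nonneg.mpr (by positivity)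
  have h3 : ∑ j, Real.arcsin (W j (n - 1) / S) * W j (n - 1) =
      S * ∑ j, W j (n - 1) / S * Real.arcsin (W j (n - 1) / S) := by
    rw [Finset.mul_sum]
    refine Finset.sum_congr rfl fun j _ => ?_
    field_simp
  have hpi := Real.pi_pos
  have h4 : 2 / Real.pi * (S * (√((n + 1 : ℕ) : ℝ) * A)) ≤ V (n - 1) := by
    refine le_trans ?_ h1
    rw [h3]
    have h5 : 0 ≤ 2 / Real.pi := by positivity
    exact mul_le_mul_of_nonneg_left (mul_le_mul_of_nonneg_left h2 hSpos.le) h5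
  have h6 : 0 ≤ 2 / Real.pi * (S * (√((n + 1 : ℕ) : ℝ) * A)) := by positivity
  have h7 : (2 / Real.pi * (S * (√((n + 1 : ℕ) : ℝ) * A))) ^ 2 ≤ V (n - 1) ^ 2 :=
    pow_le_pow_left₀ h6 h4 2
  refine le_trans (le_of_eq ?_) h7
  have h8 : √((n + 1 : ℕ) : ℝ) ^ 2 = ((n + 1 : ℕ) : ℝ) := Real.sq_sqrt (Nat.cast_nonneg _)
  rw [← hS2]
  unfold cst
  rw [← hA]
  calc 4 * ((n + 1 : ℕ) : ℝ) / Real.pi ^ 2 * A ^ 2 * S ^ 2
      = 4 * (√((n + 1 : ℕ) : ℝ) ^ 2) / Real.pi ^ 2 * A ^ 2 * S ^ 2 := by rw [h8]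
    _ = (2 / Real.pi * (S * (√((n + 1 : ℕ) : ℝ) * A))) ^ 2 := by ring

end RLW
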