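import Pool.Agent.RLW.St

/-!
# RLW, module JEN: the sum of `x arcsin x` on the sphere
-/

set_option autoImplicit false

open MeasureTheory Metric Set
open scoped BigOperators Pointwise RealInnerProductSpace NNReal Topology

namespace RLW

private noncomputable def JEN_f (y : ℝ) : ℝ := √y * Real.arcsin (√y)

private theorem JEN_mono {a b : ℝ} (ha : 0 < a) (hab : a ≤ b) (hb : b < 1) :
    Real.arcsin a / a ≤ Real.arcsin b / b := by
  have hpi := Real.pi_pos
  have hb0 : 0 < b := ha.trans_le hab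
  have hta : 0 < Real.arcsin a := Real.arcsin_pos.2 ha
  have htab : Real.arcsin a ≤ Real.arcsin b := Real.arcsin_le_arcsin hab
  have htb : Real.arcsin b ≤ Real.pi / 2 := Real.arcsin_le_pi_div_two b
  have htb0 : 0 < Real.arcsin b := hta.trans_le htab
  have hsa : Real.sin (Real.arcsin a) = a := Real.sin_arcsin (by linarith) (by linarith)
  have hsb : Real.sin (Real.arcsin b) = b := Real.sin_arcsin (by linarith) (by linarith)
  have m0 : (0 : ℝ) ∈ Icc 0 Real.pi := ⟨le_refl 0, hpi.le⟩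
  have mb : Real.arcsin b ∈ Icc 0 Real.pi := ⟨htb0.le, by linarith⟩
  have w1 : 0 ≤ 1 - Real.arcsin a / Real.arcsin b := by
    rw [sub_nonneg]
    exact (div_le_one htb0).2 htab
  have w2 : 0 ≤ Real.arcsin a / Real.arcsin b := (div_pos hta htb0).le
  have w3 : 1 - Real.arcsin a / Real.arcsin b + Real.arcsin a / Real.arcsin b = 1 := by ring
  have hc := strictConcaveOn_sin_Icc.concaveOn.2 m0 mb w1 w2 w3
  simp only [smul_eq_mul, Real.sin_zero, mul_zero, zero_add] at hc
  rw [div_mul_cancel₀ _ htb0.ne', hsa, hsb] at hc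
  rw [div_le_div_iff₀ ha hb0]
  have h1 : Real.arcsin a * b = Real.arcsin b * (Real.arcsin a / Real.arcsin b * b) := by
    field_simp
  rw [h1]
  exact mul_le_mul_of_nonneg_left hc htb0.le

private theorem JEN_der {y : ℝ} (h0 : 0 < y) (h1 : y < 1) :
    HasDerivAt JEN_f (1 / 2 * (Real.arcsin (√y) / √y) + 1 / (2 * √(1 - y))) y := by
  have hs : 0 < √y := Real.sqrt_pos.2 h0
  have hss : √y ^ 2 = y := Real.sq_sqrt h0.le
  have hs1 : √y < 1 := by
    rw [Real.sqrt_lt' one_pos]
    simpa using h1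
  have hq : 0 < √(1 - y) := Real.sqrt_pos.2 (by linarith)
  have d1 : HasDerivAt (fun x : ℝ => √x) (1 / (2 * √y)) y := Real.hasDerivAt_sqrt h0.ne'
  have d2 : HasDerivAt Real.arcsin (1 / √(1 - (√y) ^ 2)) (√y) :=
    Real.hasDerivAt_arcsin (by linarith) hs1.ne
  rw [hss] at d2
  have d3 : HasDerivAt (fun x : ℝ => Real.arcsin (√x)) (1 / √(1 - y) * (1 / (2 * √y))) y :=
    HasDerivAt.comp y d2 d1
  have d4 := d1.mul d3
  have e : 1 / (2 * √y) * Real.arcsin (√y) + √y * (1 / √(1 - y) * (1 / (2 * √y))) =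
      1 / 2 * (Real.arcsin (√y) / √y) + 1 / (2 * √(1 - y)) := by
    field_simp
  rw [e] at d4
  exact d4

private theorem JEN_cvx : ConvexOn ℝ (Icc 0 1) JEN_f := by
  refine MonotoneOn.convexOn_of_deriv (convex_Icc 0 1) ?_ ?_ ?_
  · have : Continuous JEN_f :=
      Real.continuous_sqrt.mul (Real.continuous_arcsin.comp Real.continuous_sqrt)
    exact this.continuousOn
  · rw [interior_Icc]
    intro y hy
    exact (JEN_der hy.1 hy.2).differentiableAt.differentiableWithinAt
  · rw [interior_Icc]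
    intro y hy z hz hyz
    rw [(JEN_der hy.1 hy.2).deriv, (JEN_der hz.1 hz.2).deriv]
    have hs : 0 < √y := Real.sqrt_pos.2 hy.1
    have hz1 : √z < 1 := by
      rw [Real.sqrt_lt' one_pos]
      simpa using hz.2
    have h1 := JEN_mono hs (Real.sqrt_le_sqrt hyz) hz1
    have h2 : 0 < √(1 - z) := Real.sqrt_pos.2 (by linarith [hz.2])
    have h3 : √(1 - z) ≤ √(1 - y) := Real.sqrt_le_sqrt (by linarith)
    have h4 : 1 / (2 * √(1 - y)) ≤ 1 / (2 * √(1 - z)) :=
      one_div_le_one_div_of_le (by positivity) (by linarith)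
    linarith

theorem thm_JEN : St_JEN := by
  intro n x hn hx hs
  have hn0 : (0 : ℝ) < n := by exact_mod_cast hn
  have hle : ∀ j, x j ^ 2 ≤ 1 := by
    intro j
    rw [← hs]
    exact Finset.single_le_sum (f := fun j => x j ^ 2) (fun i _ => sq_nonneg (x i))
      (Finset.mem_univ j)
  have h := JEN_cvx.map_sum_le (t := Finset.univ) (w := fun _ : Fin n => 1 / (n : ℝ))
    (p := fun j => x j ^ 2) (fun _ _ => by positivity) (by
      rw [Finset.sum_const, Finset.card_univ, Fintype.card_fin, nsmul_eq_mul]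
      field_simp) (fun j _ => ⟨sq_nonneg _, hle j⟩)
  simp only [smul_eq_mul] at h
  rw [← Finset.mul_sum, ← Finset.mul_sum, hs, mul_one] at h
  have e1 : ∀ j, JEN_f (x j ^ 2) = x j * Real.arcsin (x j) := by
    intro j
    unfold JEN_f
    rw [Real.sqrt_sq (hx j)]
  have e2 : JEN_f (1 / (n : ℝ)) = 1 / √n * Real.arcsin (1 / √n) := by
    unfold JEN_f
    rw [Real.sqrt_div zero_le_one, Real.sqrt_one]
  rw [e2, Finset.sum_congr rfl fun j _ => e1 j] at h
  have hsn : 0 < √(n : ℝ) := Real.sqrt_pos.2 hn0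
  have hss : √(n : ℝ) * √n = n := Real.mul_self_sqrt hn0.le
  have h5 := mul_le_mul_of_nonneg_left h hn0.le
  rw [← mul_assoc, ← mul_assoc] at h5
  have e3 : (n : ℝ) * (1 / √n) = √n := by
    field_simp
    rw [sq, hss]
  have e4 : (n : ℝ) * (1 / n) = 1 := by field_simp
  rw [e3, e4, one_mul] at h5
  exact h5

end RLW
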