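import Mathlib
import Pool.Agent.RLW.StB

open MeasureTheory Set

namespace RLW

private theorem JIN_int (b : ℝ) (hb : 0 < b) :
    ∫ θ in Ioi (0 : ℝ), θ * Real.exp (-b * θ ^ 2) = 1 / (2 * b) := by
  have hint : IntegrableOn (fun θ : ℝ => θ * Real.exp (-b * θ ^ 2)) (Ioi 0) :=
    (integrable_mul_exp_neg_mul_sq hb).integrableOn
  have hd : ∀ x ∈ Ici (0 : ℝ), HasDerivAt (fun θ : ℝ => -(Real.exp (-b * θ ^ 2) / (2 * b)))
      (x * Real.exp (-b * x ^ 2)) x := by
    intro x _
    have h1 : HasDerivAt (fun θ : ℝ => -b * θ ^ 2) (-b * (2 * x)) x := by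
      have := (hasDerivAt_pow 2 x).const_mul (-b)
      simpa using this
    have h2 := ((h1.exp).div_const (2 * b)).neg
    have h3 : -(Real.exp (-b * x ^ 2) * (-b * (2 * x)) / (2 * b)) = x * Real.exp (-b * x ^ 2) := by
      field_simp
    rw [h3] at h2
    exact h2
  have ht : Filter.Tendsto (fun θ : ℝ => -(Real.exp (-b * θ ^ 2) / (2 * b))) Filter.atTop
      (nhds (-(0 / (2 * b)))) := by
    refine (Filter.Tendsto.div_const ?_ _).neg
    refine Real.tendsto_exp_atBot.comp ?_
    have h1 : Filter.Tendsto (fun θ : ℝ => θ ^ 2) Filter.atTop Filter.atTop :=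
      Filter.tendsto_pow_atTop (by norm_num)
    exact h1.const_mul_atTop_of_neg (by linarith)
  rw [integral_Ioi_of_hasDerivAt_of_tendsto' hd hint ht]
  simp

private theorem JIN_atan (m : ℝ) (hm : 0 < m) :
    ∫ z in (-1 : ℝ)..1, 1 / (2 * (m + z ^ 2)) = Real.arctan (1 / √m) / √m := by
  have hs : 0 < √m := Real.sqrt_pos.2 hm
  have hs2 : √m ^ 2 = m := Real.sq_sqrt hm.le
  have hd : ∀ x ∈ uIcc (-1 : ℝ) 1, HasDerivAt (fun z : ℝ => Real.arctan (z / √m) / (2 * √m))
      (1 / (2 * (m + x ^ 2))) x := by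
    intro x _
    have h1 : HasDerivAt (fun z : ℝ => z / √m) (1 / √m) x := (hasDerivAt_id x).div_const _
    have h2 := (h1.arctan).div_const (2 * √m)
    have hp : 0 < m + x ^ 2 := by positivity
    have h3 : 1 / (1 + (x / √m) ^ 2) * (1 / √m) / (2 * √m) = 1 / (2 * (m + x ^ 2)) := by
      have hne : 1 + (x / √m) ^ 2 = (m + x ^ 2) / m := by
        rw [div_pow, hs2]; field_simp
      rw [hne]
      have : (2 * √m) * √m = 2 * m := by rw [mul_assoc, ← pow_two, hs2]
      have e1 : (1 : ℝ) / ((m + x ^ 2) / m) = m / (m + x ^ 2) := by rw [one_div_div]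
      have e2 : m / (m + x ^ 2) * (1 / √m) / (2 * √m) = m / ((m + x ^ 2) * ((2 * √m) * √m)) := by
        field_simp
      rw [e1, e2, this]
      field_simp
    rw [h3] at h2
    exact h2
  have hc : Continuous (fun x : ℝ => 1 / (2 * (m + x ^ 2))) := by
    refine continuous_const.div (by fun_prop) ?_
    intro x
    have : 0 < m + x ^ 2 := by positivity
    positivity
  rw [intervalIntegral.integral_eq_sub_of_hasDerivAt hd (hc.intervalIntegrable _ _)]
  rw [neg_div, Real.arctan_neg]
  field_simp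
  ring

/-- One-dimensional Gaussian identity: the integral of `exp (-m θ ^ 2) Er θ`. -/
theorem thm_JIN : St_JIN := by
  intro m hm
  have hEr : ∀ θ : ℝ, Er θ = θ * ∫ z in (-1 : ℝ)..1, Real.exp (-(θ * z) ^ 2) := by
    intro θ
    unfold Er
    have := intervalIntegral.mul_integral_comp_mul_left (a := -1) (b := 1)
      (f := fun y : ℝ => Real.exp (-y ^ 2)) (c := θ)
    rw [this]
    simp
  have h1 : ∀ θ : ℝ, Real.exp (-m * θ ^ 2) * Er θ =
      ∫ z in Ioc (-1 : ℝ) 1, θ * Real.exp (-(m + z ^ 2) * θ ^ 2) := by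
    intro θ
    rw [hEr, ← intervalIntegral.integral_of_le (by norm_num), ← intervalIntegral.integral_const_mul,
      ← intervalIntegral.integral_const_mul]
    refine intervalIntegral.integral_congr ?_
    intro z _
    simp only
    have : Real.exp (-(m + z ^ 2) * θ ^ 2) = Real.exp (-m * θ ^ 2) * Real.exp (-(θ * z) ^ 2) := by
      rw [← Real.exp_add]; congr 1; ring
    rw [this]; ring
  simp only [h1]
  have hI : Integrable (Function.uncurry fun (θ z : ℝ) => θ * Real.exp (-(m + z ^ 2) * θ ^ 2))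
      ((volume.restrict (Ioi (0 : ℝ))).prod (volume.restrict (Ioc (-1 : ℝ) 1))) := by
    have hA : Integrable (fun θ : ℝ => θ * Real.exp (-m * θ ^ 2)) (volume.restrict (Ioi (0 : ℝ))) :=
      (integrable_mul_exp_neg_mul_sq hm).restrict
    have hB : Integrable (fun _ : ℝ => (1 : ℝ)) (volume.restrict (Ioc (-1 : ℝ) 1)) :=
      integrable_const 1
    have hAB := hA.mul_prod hB
    refine hAB.mono ?_ ?_
    · exact (by fun_prop : Continuous (Function.uncurry fun (θ z : ℝ) =>
        θ * Real.exp (-(m + z ^ 2) * θ ^ 2))).aestronglyMeasurable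
    · refine Filter.Eventually.of_forall ?_
      rintro ⟨θ, z⟩
      simp only [Function.uncurry, mul_one, norm_mul]
      refine mul_le_mul_of_nonneg_left ?_ (norm_nonneg _)
      rw [Real.norm_eq_abs, Real.norm_eq_abs, Real.abs_exp, Real.abs_exp]
      refine Real.exp_le_exp.2 ?_
      nlinarith [mul_nonneg (sq_nonneg z) (sq_nonneg θ)]
  rw [integral_integral_swap hI]
  have h2 : ∀ z : ℝ, ∫ θ in Ioi (0 : ℝ), θ * Real.exp (-(m + z ^ 2) * θ ^ 2) =
      1 / (2 * (m + z ^ 2)) := fun z => JIN_int _ (by positivity)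
  simp only [h2]
  rw [← intervalIntegral.integral_of_le (by norm_num), JIN_atan m hm, Real.arctan_eq_arcsin]
  congr 2
  have hs : 0 < √m := Real.sqrt_pos.2 hm
  rw [div_div]
  congr 1
  rw [div_pow, one_pow, Real.sq_sqrt hm.le, ← Real.sqrt_mul hm.le]
  congr 1
  field_simp

end RLW
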