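import Mathlib
import Pool.Agent.RLW.St

/-!
# RLW [KAP]: volumes of unit balls
-/

set_option autoImplicit false

open MeasureTheory Metric Set
open scoped BigOperators Pointwise RealInnerProductSpace NNReal Topology

namespace RLW

theorem thm_KAP : St_KAP := by
  refine ⟨?_, ?_, ?_, ?_⟩
  · unfold kap
    rw [volume_euclideanSpace_eq_dirac]
    have : (0 : E 0) ∈ closedBall (0 : E 0) 1 := mem_closedBall_self zero_le_one
    rw [Measure.dirac_apply_of_mem this]
    simp
  · unfold kap
    rw [InnerProductSpace.volume_closedBall_of_dim_odd (k := 0) (by simp)]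
    norm_num
  · unfold kap
    rw [EuclideanSpace.volume_closedBall_fin_two]
    simp [Real.pi_nonneg]
  · intro k
    unfold kap
    refine ENNReal.toReal_pos (measure_closedBall_pos _ _ one_pos).ne' ?_
    exact (isCompact_closedBall _ _).measure_lt_top.ne

end RLW
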