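import Mathlib
import Pool.Agent.RLW.St

/-!
# RLW [LAY]: layer cake for functions of the distance
-/

set_option autoImplicit false

open MeasureTheory Metric Set
open scoped BigOperators Pointwise RealInnerProductSpace NNReal Topology

namespace RLW

private lemma lay_set {n : ℕ} (K : Set (E n)) (hK : CB K) (s : ℝ) (hs : 0 ≤ s) :
    {x | infDist x K ≤ s} = K + closedBall (0 : E n) s := by
  rw [hK.cpt.add_closedBall_zero hs]
  ext x
  rw [mem_ofPred_eq, mem_cthickening_iff, ENNReal.le_ofReal_iff_toReal_le
    (infEDist_ne_top hK.ne) hs]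
  rfl

private lemma lay_one (a b d : ℝ) (φ φ' : ℝ → ℝ) (hab : a < b)
    (hφ : ∀ s, HasDerivAt φ (φ' s) s) (hc : Continuous φ') (hz : ∀ s, s ∉ Ioo a b → φ s = 0) :
    φ d = -∫ s in Ioc a b, (Ici d).indicator φ' s := by
  have hint : ∀ u v : ℝ, IntervalIntegrable φ' volume u v := fun u v => hc.intervalIntegrable u v
  have hf : ∀ u v : ℝ, u ≤ v → ∫ s in Ioc u v, φ' s = φ v - φ u := by
    intro u v huv
    rw [← intervalIntegral.integral_of_le huv]
    exact intervalIntegral.integral_eq_sub_of_hasDerivAt (fun x _ => hφ x) (hint u v)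
  rw [setIntegral_indicator measurableSet_Ici]
  rcases le_or_gt d a with h | h
  · have e : Ioc a b ∩ Ici d = Ioc a b := by
      apply inter_eq_left.2
      intro s hs
      exact h.trans hs.1.le
    rw [e, hf a b hab.le, hz d (fun hd => absurd hd.1 (not_lt.2 h)), hz a (by simp), hz b (by simp)]
    simp
  · rcases le_or_gt d b with h' | h'
    · have e : Ioc a b ∩ Ici d = Icc d b := by
        ext s
        simp only [mem_inter_iff, mem_Ioc, mem_Ici, mem_Icc]
        constructor
        · rintro ⟨⟨_, h2⟩, h3⟩
          exact ⟨h3, h2⟩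
        · rintro ⟨h3, h2⟩
          exact ⟨⟨lt_of_lt_of_le h h3, h2⟩, h3⟩
      rw [e, integral_Icc_eq_integral_Ioc, hf d b h', hz b (by simp)]
      simp
    · have e : Ioc a b ∩ Ici d = ∅ := by
        ext s
        simp only [mem_inter_iff, mem_Ioc, mem_Ici, mem_empty_iff_false, iff_false]
        rintro ⟨⟨_, h2⟩, h3⟩
        linarith
      rw [e, hz d (fun hd => absurd hd.2 (not_lt.2 h'.le))]
      simp

theorem thm_LAY : St_LAY := by
  intro n K a b φ φ' hK ha hab hφ hc hz
  have hm : Measurable fun x : E n => infDist x K := (continuous_infDist_pt K).measurable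
  have hfin : volume {x : E n | infDist x K ≤ b} < ⊤ := by
    rw [lay_set K hK b (by linarith)]
    exact (hK.cpt.add (isCompact_closedBall 0 b)).measure_lt_top
  have hmb : MeasurableSet {x : E n | infDist x K ≤ b} := measurableSet_le hm measurable_const
  have hF : Integrable (({x : E n | infDist x K ≤ b}).indicator fun _ => (1 : ℝ)) :=
    (integrable_indicator_iff hmb).2 (integrableOn_const hfin.ne)
  have hG : Integrable φ' (volume.restrict (Ioc a b)) := by
    have := (hc.intervalIntegrable (μ := volume) a b).1
    exact this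
  have hS : MeasurableSet {z : E n × ℝ | infDist z.1 K ≤ z.2} :=
    measurableSet_le (hm.comp measurable_fst) measurable_snd
  have hI := (hF.mul_prod hG).indicator hS
  have h1 : ∫ x : E n, φ (infDist x K) = -∫ x : E n, ∫ s in Ioc a b,
      ({z : E n × ℝ | infDist z.1 K ≤ z.2}).indicator
        (fun z => ({x : E n | infDist x K ≤ b}).indicator (fun _ => (1 : ℝ)) z.1 * φ' z.2)
        (x, s) := by
    rw [← integral_neg]
    refine integral_congr_ae (Filter.Eventually.of_forall fun x => ?_)
    show φ (infDist x K) = _
    rw [lay_one a b (infDist x K) φ φ' hab hφ hc hz]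
    congr 1
    refine setIntegral_congr_fun measurableSet_Ioc fun s hs => ?_
    by_cases h : infDist x K ≤ s
    · have h' : infDist x K ≤ b := h.trans hs.2
      simp [indicator, h, h']
    · simp [indicator, h]
  have h2 : ∫ s in a..b, φ' s * vo K s = ∫ s in Ioc a b, ∫ x : E n,
      ({z : E n × ℝ | infDist z.1 K ≤ z.2}).indicator
        (fun z => ({x : E n | infDist x K ≤ b}).indicator (fun _ => (1 : ℝ)) z.1 * φ' z.2)
        (x, s) := by
    rw [intervalIntegral.integral_of_le hab.le]
    refine setIntegral_congr_fun measurableSet_Ioc fun s hs => ?_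
    have hs0 : 0 ≤ s := (ha.trans hs.1).le
    have e : (fun x : E n => ({z : E n × ℝ | infDist z.1 K ≤ z.2}).indicator
        (fun z => ({x : E n | infDist x K ≤ b}).indicator (fun _ => (1 : ℝ)) z.1 * φ' z.2)
        (x, s)) = ({x : E n | infDist x K ≤ s}).indicator fun _ => φ' s := by
      funext x
      by_cases h : infDist x K ≤ s
      · have h' : infDist x K ≤ b := h.trans hs.2
        simp [indicator, h, h']
      · simp [indicator, h]
    show φ' s * vo K s = _
    rw [e, integral_indicator_const _ (measurableSet_le hm measurable_const), lay_set K hK s hs0,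
      smul_eq_mul, mul_comm]
    rfl
  rw [h1, h2]
  congr 1
  exact integral_integral_swap hI

end RLW
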