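import Mathlib
import Pool.Agent.RLW.St

/-!
# RLW: module LIM
-/

set_option autoImplicit false

open MeasureTheory Metric Set
open scoped BigOperators Pointwise RealInnerProductSpace NNReal Topology

namespace RLW

theorem thm_LIM (h_ANA : St_ANA) (h_SGN : St_SGN) (h_ADM : St_ADM) : St_LIM := by
  intro n K a b w w1 w2 t hK hw ht hsum
  obtain ⟨A, hA⟩ : ∃ A, A = ∫ x in a..b, w2 x * vo K x := ⟨_, rfl⟩
  obtain ⟨B, hB⟩ : ∃ B : Fin (n + 1) → ℝ, B = fun j => ∫ x in a..b, w1 x * vo (prj j '' K) x :=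
    ⟨_, rfl⟩
  obtain ⟨I, hI⟩ : ∃ I, I = ∫ x, |w1 (infDist x K)| := ⟨_, rfl⟩
  have hI0 : 0 ≤ I := by
    rw [hI]
    exact integral_nonneg fun x => abs_nonneg _
  have hB' : ∀ j, ∫ x in a..b, w1 x * vo (prj j '' K) x = B j := fun j => by rw [hB]
  simp only [← hA, hB']
  have hM : ∀ θ : ℝ, 0 < θ → -(A + 2 * ∑ j, t j * B j) ≤
      θ * (2 * ∑ j, |B j| + Real.pi * (n + 1) * I) := by
    intro θ hθ
    obtain ⟨η, q, τ, had, hη, hq, hτ, hτt⟩ := h_ADM (n + 1) t ht hsum θ hθ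
    obtain ⟨s, s1, Φ, hs⟩ := h_SGN η had.η0
    have h1 := h_ANA n K a b w w1 w2 η s s1 Φ q τ hK hw hs had
    simp only [← hA, hB', ← hI] at h1
    have h2 : ∑ j, τ j * B j ≤ ∑ j, t j * B j + θ * ∑ j, |B j| := by
      rw [Finset.mul_sum, ← Finset.sum_add_distrib]
      refine Finset.sum_le_sum fun j _ => ?_
      have h3 : (τ j - t j) * B j ≤ θ * |B j| := by
        calc (τ j - t j) * B j ≤ |(τ j - t j) * B j| := le_abs_self _
          _ = |τ j - t j| * |B j| := abs_mul _ _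
          _ ≤ θ * |B j| := mul_le_mul_of_nonneg_right (hτt j).le (abs_nonneg _)
      linarith [sub_mul (τ j) (t j) (B j)]
    have hq1 : ∑ j, q j ≤ (n + 1 : ℝ) := by
      calc ∑ j, q j ≤ ∑ _j : Fin (n + 1), (1 : ℝ) := Finset.sum_le_sum fun j _ => hq j
        _ = (n + 1 : ℝ) := by simp
    have hτ1 : ∑ j, τ j ≤ (n + 1 : ℝ) * (Real.pi / 2) := by
      calc ∑ j, τ j ≤ ∑ _j : Fin (n + 1), (Real.pi / 2) := Finset.sum_le_sum fun j _ => hτ j
        _ = (n + 1 : ℝ) * (Real.pi / 2) := by simp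
    have hq0 : 0 ≤ ∑ j, q j := Finset.sum_nonneg fun j _ => had.q0 j
    have hτ0 : 0 ≤ ∑ j, τ j := Finset.sum_nonneg fun j _ => had.τ0 j
    have hpi := Real.pi_pos
    have h4 : η * (Real.pi / 2 * ∑ j, q j + ∑ j, τ j) * I ≤
        θ * (Real.pi * (n + 1)) * I := by
      refine mul_le_mul_of_nonneg_right ?_ hI0
      refine mul_le_mul hη.le ?_ (by positivity) hθ.le
      have h5 : Real.pi / 2 * ∑ j, q j ≤ Real.pi / 2 * (n + 1) :=
        mul_le_mul_of_nonneg_left hq1 (by positivity)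
      linarith
    nlinarith
  by_contra hcon
  push Not at hcon
  set M := 2 * ∑ j, |B j| + Real.pi * (n + 1) * I with hMdef
  have hM0 : 0 ≤ M := by
    have h1 : 0 ≤ ∑ j, |B j| := Finset.sum_nonneg fun j _ => abs_nonneg _
    have hpi := Real.pi_pos
    positivity
  obtain ⟨δ, hδ⟩ : ∃ δ, δ = -(A + 2 * ∑ j, t j * B j) := ⟨_, rfl⟩
  have hδ0 : 0 < δ := by linarith
  have h6 := hM (δ / (2 * (M + 1))) (by positivity)
  rw [← hδ] at h6
  have h7 : δ / (2 * (M + 1)) * M ≤ δ / 2 := by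
    rw [div_mul_eq_mul_div, div_le_div_iff₀ (by positivity) (by norm_num)]
    nlinarith
  linarith

end RLW
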