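import Pool.Agent.RLW.St

/-!
# RLW [LIZ]: the field `w (δ) G (ν)` is Lipschitz with compact support
-/

set_option autoImplicit false

open MeasureTheory Metric Set
open scoped BigOperators Pointwise RealInnerProductSpace NNReal Topology

namespace RLW

private theorem LIZ_nmem {n : ℕ} {K : Set (E n)} {x : E n} (h : 0 < infDist x K) : x ∉ K := by
  intro hx
  rw [infDist_zero_of_mem hx] at h
  exact lt_irrefl _ h

private theorem LIZ_bdd {a b : ℝ} {f : ℝ → ℝ} (hf : Continuous f)
    (hz : ∀ s, s ∉ Ioo a b → f s = 0) : ∃ M : ℝ, 0 ≤ M ∧ ∀ s, |f s| ≤ M := by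
  obtain ⟨M, hM⟩ := (isCompact_Icc (a := a) (b := b)).exists_bound_of_continuousOn
    (hf.continuousOn (s := Icc a b))
  refine ⟨max M 0, le_max_right _ _, fun s => ?_⟩
  by_cases hs : s ∈ Ioo a b
  · exact (hM s ⟨hs.1.le, hs.2.le⟩).trans (le_max_left _ _)
  · rw [hz s hs, abs_zero]
    exact le_max_right _ _

theorem thm_LIZ (h_NPT : St_NPT) (h_NUB : St_NUB) : St_LIZ := by
  intro n K a b w w1 w2 G G' j hK hw hG
  have hwc : Continuous w := continuous_iff_continuousAt.2 fun s => (hw.d1 s).continuousAt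
  have hw1c : Continuous w1 := continuous_iff_continuousAt.2 fun s => (hw.d2 s).continuousAt
  obtain ⟨M, hM0, hM⟩ := LIZ_bdd hwc (fun s hs => (hw.z s hs).1)
  obtain ⟨M1, hM10, hM1⟩ := LIZ_bdd hw1c (fun s hs => (hw.z s hs).2.1)
  have hwl : ∀ s t, |w s - w t| ≤ M1 * |s - t| := by
    intro s t
    have := Convex.norm_image_sub_le_of_norm_hasDerivWithin_le (f := w) (f' := w1) (C := M1)
      (s := univ) (x := t) (y := s) (fun x _ => (hw.d1 x).hasDerivWithinAt)
      (fun x _ => hM1 x) convex_univ (mem_univ _) (mem_univ _)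
    exact this
  obtain ⟨C, hC⟩ := hG.lip
  have hGl : ∀ u ∈ sphere (0 : E n) 1, ∀ v ∈ sphere (0 : E n) 1,
      |G u j - G v j| ≤ C * ‖u - v‖ := by
    intro u hu v hv
    have h1 := hC.dist_le_mul u hu v hv
    rw [dist_eq_norm, dist_eq_norm] at h1
    refine le_trans ?_ h1
    have h2 := PiLp.norm_apply_le (G u - G v) j
    simpa using h2
  have he : (EuclideanSpace.single j (1 : ℝ) : E n) ∈ sphere (0 : E n) 1 := by
    rw [mem_sphere_zero_iff_norm]
    simp
  set Mg : ℝ := |G (EuclideanSpace.single j (1 : ℝ)) j| + 2 * C with hMg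
  have hMg0 : 0 ≤ Mg := by positivity
  have hGb : ∀ u ∈ sphere (0 : E n) 1, |G u j| ≤ Mg := by
    intro u hu
    have h1 := hGl u hu _ he
    have h2 : ‖u - EuclideanSpace.single j (1 : ℝ)‖ ≤ 2 := by
      refine (norm_sub_le _ _).trans ?_
      rw [mem_sphere_zero_iff_norm.1 hu, mem_sphere_zero_iff_norm.1 he]
      norm_num
    have h3 : |G u j| ≤ |G u j - G (EuclideanSpace.single j (1 : ℝ)) j| +
        |G (EuclideanSpace.single j (1 : ℝ)) j| := by
      have := abs_add_le (G u j - G (EuclideanSpace.single j (1 : ℝ)) j)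
        (G (EuclideanSpace.single j (1 : ℝ)) j)
      rwa [sub_add_cancel] at this
    have h4 : (C : ℝ) * ‖u - EuclideanSpace.single j (1 : ℝ)‖ ≤ C * 2 :=
      mul_le_mul_of_nonneg_left h2 C.2
    rw [hMg]
    linarith
  have hsph : ∀ x, a ≤ infDist x K → nu K x ∈ sphere (0 : E n) 1 := by
    intro x hx
    rw [mem_sphere_zero_iff_norm]
    exact h_NUB.unit n K x hK (LIZ_nmem (hw.a0.trans_le hx))
  have hdist : ∀ x y : E n, |infDist x K - infDist y K| ≤ ‖x - y‖ := by
    intro x y
    have h1 := (lipschitz_infDist_pt K).dist_le_mul x y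
    rw [Real.dist_eq, dist_eq_norm] at h1
    simpa using h1
  have hwz : ∀ x : E n, infDist x K < a → w (infDist x K) = 0 := fun x hx =>
    (hw.z _ (fun h => absurd h.1 (not_lt.2 hx.le))).1
  have hCst : 0 ≤ M1 * Mg + M * (C * (3 / a)) := by
    have := hw.a0
    positivity
  -- one of the two points is near `K`
  have hone : ∀ x y : E n, a ≤ infDist x K → infDist y K < a →
      |w (infDist x K) * G (nu K x) j| ≤ M1 * Mg * ‖x - y‖ := by
    intro x y hx hy
    rw [abs_mul]
    have h1 : |w (infDist x K)| ≤ M1 * ‖x - y‖ := by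
      have h2 := hwl (infDist x K) (infDist y K)
      rw [hwz y hy, sub_zero] at h2
      exact h2.trans (mul_le_mul_of_nonneg_left (hdist x y) hM10)
    calc |w (infDist x K)| * |G (nu K x) j| ≤ (M1 * ‖x - y‖) * Mg :=
          mul_le_mul h1 (hGb _ (hsph x hx)) (abs_nonneg _) (by positivity)
      _ = M1 * Mg * ‖x - y‖ := by ring
  refine ⟨⟨⟨M1 * Mg + M * (C * (3 / a)), hCst⟩, LipschitzWith.of_dist_le_mul fun x y => ?_⟩, ?_⟩
  · rw [Real.dist_eq, dist_eq_norm]
    show |w (infDist x K) * G (nu K x) j - w (infDist y K) * G (nu K y) j| ≤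
      (M1 * Mg + M * (C * (3 / a))) * ‖x - y‖
    have ha := hw.a0
    have hN := norm_nonneg (x - y)
    have hbig : M1 * Mg * ‖x - y‖ ≤ (M1 * Mg + M * (C * (3 / a))) * ‖x - y‖ := by
      refine mul_le_mul_of_nonneg_right ?_ hN
      have : 0 ≤ M * (C * (3 / a)) := by positivity
      linarith
    rcases lt_or_ge (infDist x K) a with hx | hx <;> rcases lt_or_ge (infDist y K) a with hy | hy
    · rw [hwz x hx, hwz y hy, zero_mul, zero_mul, sub_zero, abs_zero]
      positivity
    · rw [hwz x hx, zero_mul, zero_sub, abs_neg]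
      refine le_trans ?_ hbig
      have := hone y x hy hx
      rwa [norm_sub_rev] at this
    · rw [hwz y hy, zero_mul, sub_zero]
      exact (hone x y hx hy).trans hbig
    · have h1 : w (infDist x K) * G (nu K x) j - w (infDist y K) * G (nu K y) j =
          (w (infDist x K) - w (infDist y K)) * G (nu K x) j +
            w (infDist y K) * (G (nu K x) j - G (nu K y) j) := by ring
      rw [h1]
      refine (abs_add_le _ _).trans ?_
      rw [abs_mul, abs_mul, add_mul]
      refine add_le_add ?_ ?_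
      · calc |w (infDist x K) - w (infDist y K)| * |G (nu K x) j|
            ≤ (M1 * ‖x - y‖) * Mg :=
              mul_le_mul ((hwl _ _).trans (mul_le_mul_of_nonneg_left (hdist x y) hM10))
                (hGb _ (hsph x hx)) (abs_nonneg _) (by positivity)
          _ = M1 * Mg * ‖x - y‖ := by ring
      · have h2 := hGl _ (hsph x hx) _ (hsph y hy)
        have h3 := h_NUB.lip n K x y a hK ha hx hy
        have h4 : |G (nu K x) j - G (nu K y) j| ≤ C * (3 / a * ‖x - y‖) :=
          h2.trans (mul_le_mul_of_nonneg_left h3 C.2)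
        calc |w (infDist y K)| * |G (nu K x) j - G (nu K y) j|
            ≤ M * (C * (3 / a * ‖x - y‖)) := mul_le_mul (hM _) h4 (abs_nonneg _) hM0
          _ = M * (C * (3 / a)) * ‖x - y‖ := by ring
  · refine HasCompactSupport.of_support_subset_isCompact (K := cthickening b K)
      hK.cpt.cthickening ?_
    intro x hx
    have h1 : infDist x K ∈ Ioo a b := by
      by_contra hcon
      exact hx (by
        show w (infDist x K) * G (nu K x) j = 0
        rw [(hw.z _ hcon).1, zero_mul])
    obtain ⟨y, hy, hd⟩ := hK.cpt.exists_infDist_eq_dist hK.ne x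
    exact mem_cthickening_of_dist_le x y b K hy (hd ▸ h1.2.le)

end RLW
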