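import Pool.Agent.RLW.St

/-!
# RLW, module LMB: calculus of `lam`
-/

set_option autoImplicit false

open MeasureTheory Metric Set
open scoped BigOperators Pointwise RealInnerProductSpace NNReal Topology

namespace RLW

private theorem LMB_p {c : ℝ} (h1 : -1 < c) (h2 : c < 1) : 0 < 1 - c ^ 2 := by
  nlinarith

private theorem LMB_der {c : ℝ} (h1 : -1 < c) (h2 : c < 1) : HasDerivAt lam (lam1 c) c := by
  have hp := LMB_p h1 h2
  have hs : 0 < √(1 - c ^ 2) := Real.sqrt_pos.2 hp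
  have hss : √(1 - c ^ 2) ^ 2 = 1 - c ^ 2 := Real.sq_sqrt hp.le
  have d1 : HasDerivAt Real.arccos (-(1 / √(1 - c ^ 2))) c :=
    Real.hasDerivAt_arccos h1.ne' h2.ne
  have d2 : HasDerivAt (fun x : ℝ => 1 - x ^ 2) (-(2 * c)) c := by
    have := (hasDerivAt_pow 2 c).const_sub 1
    simpa using this
  have d3 : HasDerivAt (fun x : ℝ => √(1 - x ^ 2)) (-(2 * c) / (2 * √(1 - c ^ 2))) c :=
    d2.sqrt hp.ne'
  have d4 := d1.div d3 hs.ne'
  have e : (-(1 / √(1 - c ^ 2)) * √(1 - c ^ 2) - Real.arccos c *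
      (-(2 * c) / (2 * √(1 - c ^ 2)))) / √(1 - c ^ 2) ^ 2 = lam1 c := by
    unfold lam1 lam
    rw [hss]
    congr 1
    field_simp
    ring
  rw [e] at d4
  exact d4

private theorem LMB_mono {a b : ℝ} (ha : 0 < a) (hab : a ≤ b) (hb : b ≤ Real.pi / 2) :
    a / Real.sin a ≤ b / Real.sin b := by
  have hpi := Real.pi_pos
  have hb0 : 0 < b := ha.trans_le hab
  have hsa : 0 < Real.sin a := Real.sin_pos_of_pos_of_lt_pi ha (by linarith)
  have hsb : 0 < Real.sin b := Real.sin_pos_of_pos_of_lt_pi hb0 (by linarith)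
  have m0 : (0 : ℝ) ∈ Icc 0 Real.pi := ⟨le_refl 0, hpi.le⟩
  have mb : b ∈ Icc 0 Real.pi := ⟨hb0.le, by linarith⟩
  have w1 : 0 ≤ 1 - a / b := by
    rw [sub_nonneg]
    exact (div_le_one hb0).2 hab
  have w2 : 0 ≤ a / b := (div_pos ha hb0).le
  have w3 : 1 - a / b + a / b = 1 := by ring
  have hc := strictConcaveOn_sin_Icc.concaveOn.2 m0 mb w1 w2 w3
  simp only [smul_eq_mul, Real.sin_zero, mul_zero, zero_add] at hc
  rw [div_mul_cancel₀ a hb0.ne'] at hc
  rw [div_le_div_iff₀ hsa hsb]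
  have h1 : a * Real.sin b = b * (a / b * Real.sin b) := by
    field_simp
  rw [h1]
  exact mul_le_mul_of_nonneg_left hc hb0.le

private theorem LMB_lam (c : ℝ) :
    lam c = Real.arccos c / Real.sin (Real.arccos c) := by
  unfold lam
  rw [Real.sin_arccos]

private theorem LMB_ac {c : ℝ} (h1 : 0 ≤ c) (h2 : c < 1) :
    0 < Real.arccos c ∧ Real.arccos c ≤ Real.pi / 2 :=
  ⟨Real.arccos_pos.2 h2, Real.arccos_le_pi_div_two.2 h1⟩

private theorem LMB_cl {c : ℝ} (h1 : 0 ≤ c) (h2 : c < 1) : c * lam c ≤ 1 := by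
  obtain ⟨ha, hb⟩ := LMB_ac h1 h2
  rw [LMB_lam c]
  have hs : 0 < Real.sin (Real.arccos c) :=
    Real.sin_pos_of_pos_of_lt_pi ha (by linarith [Real.pi_pos])
  rw [← mul_div_assoc, div_le_one hs]
  rcases h1.eq_or_lt with h | h
  · rw [← h, zero_mul]
    rw [← h] at hs
    exact hs.le
  · have hb2 : Real.arccos c < Real.pi / 2 := Real.arccos_lt_pi_div_two.2 h
    have h3 := (Real.lt_tan ha hb2).le
    rw [Real.tan_eq_sin_div_cos, Real.cos_arccos (by linarith) h2.le, le_div_iff₀ h] at h3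
    linarith

theorem thm_LMB : St_LMB where
  der c h1 h2 := LMB_der h1 h2
  cts c h1 h2 := by
    have h3 : ContinuousAt lam c := (LMB_der h1 h2).continuousAt
    unfold lam1
    refine ContinuousAt.div ((continuousAt_id.mul h3).sub continuousAt_const)
      (continuousAt_const.sub (continuousAt_id.pow 2)) (LMB_p h1 h2).ne'
  pos c h1 h2 := by
    obtain ⟨ha, hb⟩ := LMB_ac h1 h2
    rw [LMB_lam c]
    have hs : 0 < Real.sin (Real.arccos c) :=
      Real.sin_pos_of_pos_of_lt_pi ha (by linarith [Real.pi_pos])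
    refine ⟨div_pos ha hs, ?_⟩
    rw [div_le_iff₀ hs]
    have h3 := Real.mul_le_sin ha.le hb
    have h4 : Real.pi / 2 * (2 / Real.pi * Real.arccos c) ≤
        Real.pi / 2 * Real.sin (Real.arccos c) :=
      mul_le_mul_of_nonneg_left h3 (by positivity)
    have h5 : Real.pi / 2 * (2 / Real.pi * Real.arccos c) = Real.arccos c := by
      field_simp
    linarith
  cl c h1 h2 := LMB_cl h1 h2
  idn c h1 h2 := by
    have hp := LMB_p h1 h2
    unfold lam1
    field_simp
    ring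
  neg c h1 h2 := by
    have hp := LMB_p (by linarith) h2
    unfold lam1
    exact div_nonpos_of_nonpos_of_nonneg (by linarith [LMB_cl h1 h2]) hp.le
  anti c c' h1 h2 h3 := by
    obtain ⟨ha, hb⟩ := LMB_ac h1 (h2.trans_lt h3)
    obtain ⟨ha', hb'⟩ := LMB_ac (h1.trans h2) h3
    rw [LMB_lam c, LMB_lam c']
    exact LMB_mono ha' (Real.arccos_le_arccos h2) hb
  cos t h1 h2 := by
    have hpi := Real.pi_pos
    have hs : 0 < Real.sin t := Real.sin_pos_of_pos_of_lt_pi h1 (by linarith)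
    rw [LMB_lam (Real.cos t),
      Real.arccos_cos h1.le (by linarith), div_mul_cancel₀ _ hs.ne']

end RLW
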