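import Pool.Agent.RLW.StB

/-!
# RLW, module LP2: the Laplace transform, second form (Tonelli)
-/

set_option autoImplicit false

open MeasureTheory Metric Set
open scoped BigOperators Pointwise RealInnerProductSpace NNReal Topology ENNReal

namespace RLW

/-- the distance is continuous in both variables on `r ≥ 0` -/
private lemma lp2_cont (h_OCC : St_OCC) (n : ℕ) :
    ContinuousOn (fun p : ℝ × E n => infDist p.2 (oc n p.1)) (Ioi (0 : ℝ) ×ˢ univ) := by
  rw [Metric.continuousOn_iff]
  intro p hp ε hε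
  refine ⟨ε / 2, by positivity, fun q hq hd => ?_⟩
  have hp0 : (0 : ℝ) ≤ p.1 := le_of_lt hp.1
  have hq0 : (0 : ℝ) ≤ q.1 := le_of_lt hq.1
  have h := h_OCC n q.2 p.2 q.1 p.1 hq0 hp0
  rw [Prod.dist_eq, max_lt_iff] at hd
  rw [Real.dist_eq]
  have h1 : |q.1 - p.1| < ε / 2 := by
    have := hd.1
    rwa [Real.dist_eq] at this
  have h2 : ‖q.2 - p.2‖ < ε / 2 := by
    have := hd.2
    rwa [dist_eq_norm] at this
  linarith

private lemma lp2_meas1 (h_OCC : St_OCC) (n : ℕ) (l : ℝ) :
    AEMeasurable (fun p : ℝ × E n =>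
      ENNReal.ofReal (Real.exp (-l * p.1 - infDist p.2 (oc n p.1) ^ 2)))
      ((volume.restrict (Ioi (0 : ℝ))).prod (volume : Measure (E n))) := by
  have hr : (volume.restrict (Ioi (0 : ℝ))).prod (volume : Measure (E n)) =
      ((volume : Measure ℝ).prod (volume : Measure (E n))).restrict (Ioi (0 : ℝ) ×ˢ univ) := by
    rw [← Measure.prod_restrict, Measure.restrict_univ]
  rw [hr]
  refine AEMeasurable.ennreal_ofReal ?_
  refine ContinuousOn.aemeasurable ?_ (measurableSet_Ioi.prod MeasurableSet.univ)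
  refine Real.continuous_exp.comp_continuousOn ?_
  refine ContinuousOn.sub ?_ ((lp2_cont h_OCC n).pow 2)
  exact (continuous_const.mul continuous_fst).continuousOn

private lemma lp2_meas2 (n : ℕ) (l : ℝ) :
    Measurable (fun p : E n × ℝ => ENNReal.ofReal (dn l p.1 p.2)) := by
  refine Measurable.ennreal_ofReal ?_
  unfold dn
  refine Measurable.mul ?_ ?_
  · refine Finset.measurable_sum _ fun i _ => ?_
    refine Measurable.ite ?_ measurable_const measurable_const
    refine measurableSet_lt measurable_snd ?_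
    have : Continuous (fun p : E n × ℝ => |p.1 i|) := by fun_prop
    exact this.measurable
  · have : Continuous (fun p : E n × ℝ => ∏ k, Real.exp (-l * max (|p.1 k| - p.2) 0 -
        min |p.1 k| p.2 ^ 2)) := by fun_prop
    exact this.measurable

theorem thm_LP2 (h_ONE : St_ONE) (h_PRD : St_PRD) (h_OCC : St_OCC) : St_LP2 := by
  intro n l hl
  rw [lintegral_lintegral_swap (lp2_meas1 h_OCC n l)]
  have h1 : (∫⁻ x : E n, ∫⁻ r in Ioi (0 : ℝ),
      ENNReal.ofReal (Real.exp (-l * r - infDist x (oc n r) ^ 2))) =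
      ∫⁻ x : E n, (ENNReal.ofReal (Real.exp (-l * ∑ i, |x i|) / l) +
        ∫⁻ θ in Ioi (0 : ℝ), ENNReal.ofReal (dn l x θ)) :=
    lintegral_congr fun x => h_ONE n x l hl
  rw [h1, lintegral_add_left, h_PRD.a n l hl]
  · congr 1
    rw [lintegral_lintegral_swap]
    · refine setLIntegral_congr_fun measurableSet_Ioi fun θ hθ => ?_
      exact h_PRD.b n l θ hl hθ
    · exact (lp2_meas2 n l).aemeasurable
  · refine Measurable.ennreal_ofReal ?_
    have : Continuous (fun x : E n => Real.exp (-l * ∑ i, |x i|) / l) := by fun_prop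
    exact this.measurable

end RLW
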