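import Pool.Agent.RLW.St

/-!
# RLW, module MON: the coefficient of `t` in Steiner's polynomial is not negative
-/

set_option autoImplicit false

open MeasureTheory Metric Set
open scoped Topology Pointwise

namespace RLW

theorem thm_MON (h_KAP : St_KAP) : St_MON := by
  intro n K V hn hK hV
  have hk1 : kap 1 = 2 := h_KAP.2.1
  set P : ℝ → ℝ := fun t => ∑ j ∈ Finset.range (n + 1), kap (n - j) * V j * t ^ (n - j) with hP
  have hd : HasDerivAt P (∑ j ∈ Finset.range (n + 1),
      kap (n - j) * V j * (((n - j : ℕ) : ℝ) * (0 : ℝ) ^ (n - j - 1))) 0 := by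
    have h1 := HasDerivAt.fun_sum (u := Finset.range (n + 1)) (x := (0 : ℝ))
      (A := fun j t => kap (n - j) * V j * t ^ (n - j))
      (A' := fun j => kap (n - j) * V j * (((n - j : ℕ) : ℝ) * (0 : ℝ) ^ (n - j - 1)))
      (fun j _ => (hasDerivAt_pow (n - j) (0 : ℝ)).const_mul _)
    exact h1
  have hs : (∑ j ∈ Finset.range (n + 1),
      kap (n - j) * V j * (((n - j : ℕ) : ℝ) * (0 : ℝ) ^ (n - j - 1))) = 2 * V (n - 1) := by
    rw [Finset.sum_eq_single (n - 1)]
    · have h1 : n - (n - 1) = 1 := by omega
      rw [h1, hk1]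
      norm_num
    · intro j hj hj1
      rcases Nat.lt_or_ge (n - j) 1 with h | h
      · have h2 : n - j = 0 := by omega
        rw [h2]
        norm_num
      · have h2 : n - j - 1 ≠ 0 := by
          have := Finset.mem_range.1 hj
          omega
        rw [zero_pow h2, mul_zero, mul_zero]
    · intro h
      exact absurd (Finset.mem_range.2 (by omega)) h
  rw [hs] at hd
  have hm : ∀ t : ℝ, 0 < t → P 0 ≤ P t := by
    intro t ht
    have h1 := hV 0 le_rfl
    have h2 := hV t ht.le
    have h3 : (volume (K + closedBall (0 : E n) 0)).toReal ≤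
        (volume (K + closedBall (0 : E n) t)).toReal := by
      refine ENNReal.toReal_mono ?_ (measure_mono ?_)
      · exact (hK.cpt.add (isCompact_closedBall 0 t)).measure_lt_top.ne
      · exact Set.add_subset_add_left (closedBall_subset_closedBall ht.le)
    rw [h1, h2] at h3
    exact h3
  have hw := (hd.hasDerivWithinAt (s := Ioi 0))
  rw [hasDerivWithinAt_iff_tendsto_slope' (by simp)] at hw
  have h0 : (0 : ℝ) ≤ 2 * V (n - 1) := by
    refine ge_of_tendsto hw ?_
    filter_upwards [self_mem_nhdsWithin] with t ht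
    rw [slope_def_field]
    exact div_nonneg (sub_nonneg.2 (hm t ht)) (by rw [sub_zero]; exact (mem_Ioi.1 ht).le)
  linarith

end RLW
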