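import Mathlib
import Pool.Agent.RLW.St

/-!
# RLW [NUB]: the unit normal is the gradient of the distance
-/

set_option autoImplicit false

open MeasureTheory Metric Set
open scoped BigOperators Pointwise RealInnerProductSpace NNReal Topology

namespace RLW

private lemma nub_pos {n : ℕ} (K : Set (E n)) (x : E n) (hK : CB K) (hx : x ∉ K) :
    0 < infDist x K :=
  (hK.cpt.isClosed.notMem_iff_infDist_pos hK.ne).1 hx

private lemma nub_unit (h_NPT : St_NPT) {n : ℕ} (K : Set (E n)) (x : E n) (hK : CB K)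
    (hx : x ∉ K) : ‖nu K x‖ = 1 := by
  have hp := nub_pos K x hK hx
  unfold nu
  rw [norm_smul, h_NPT.dst n K x hK, norm_inv, Real.norm_of_nonneg hp.le,
    inv_mul_cancel₀ hp.ne']

private lemma nub_sub (h_NPT : St_NPT) {n : ℕ} (K : Set (E n)) (x y : E n) (hK : CB K)
    (hx : x ∉ K) : infDist x K + ⟪nu K x, y - x⟫ ≤ infDist y K := by
  have hp := nub_pos K x hK hx
  have h1 : ⟪nu K x, y - npt K y⟫ ≤ infDist y K := by
    have := real_inner_le_norm (nu K x) (y - npt K y)
    rw [nub_unit h_NPT K x hK hx, h_NPT.dst n K y hK, one_mul] at this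
    exact this
  have h2 : ⟪nu K x, x - npt K x⟫ = infDist x K := by
    unfold nu
    rw [real_inner_smul_left, real_inner_self_eq_norm_sq, h_NPT.dst n K x hK]
    field_simp
  have h3 : ⟪nu K x, npt K y - npt K x⟫ ≤ 0 := by
    unfold nu
    rw [real_inner_smul_left]
    exact mul_nonpos_of_nonneg_of_nonpos (inv_nonneg.2 hp.le)
      (h_NPT.var n K x (npt K y) hK (h_NPT.mem n K y hK))
  have h4 : y - npt K y = (y - x) + (x - npt K x) - (npt K y - npt K x) := by abel
  rw [h4, inner_sub_right, inner_add_right, h2] at h1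
  linarith

private lemma nub_lip (h_NPT : St_NPT) {n : ℕ} (K : Set (E n)) (x y : E n) (a : ℝ) (hK : CB K)
    (ha : 0 < a) (hx : a ≤ infDist x K) (hy : a ≤ infDist y K) :
    ‖nu K x - nu K y‖ ≤ 3 / a * ‖x - y‖ := by
  have hpx : 0 < infDist x K := lt_of_lt_of_le ha hx
  have hpy : 0 < infDist y K := lt_of_lt_of_le ha hy
  have e : nu K x - nu K y = (infDist x K)⁻¹ • ((x - y) - (npt K x - npt K y)) +
      ((infDist x K)⁻¹ - (infDist y K)⁻¹) • (y - npt K y) := by
    unfold nu
    module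
  have h1 : ‖(infDist x K)⁻¹ • ((x - y) - (npt K x - npt K y))‖ ≤ 2 / a * ‖x - y‖ := by
    rw [norm_smul, norm_inv, Real.norm_of_nonneg hpx.le]
    have h := norm_sub_le (x - y) (npt K x - npt K y)
    have h' := h_NPT.lip n K x y hK
    calc (infDist x K)⁻¹ * ‖(x - y) - (npt K x - npt K y)‖
        ≤ a⁻¹ * (2 * ‖x - y‖) := by
          apply mul_le_mul (inv_anti₀ ha hx) (by linarith) (norm_nonneg _) (inv_nonneg.2 ha.le)
      _ = 2 / a * ‖x - y‖ := by ring
  have h2 : ‖((infDist x K)⁻¹ - (infDist y K)⁻¹) • (y - npt K y)‖ ≤ 1 / a * ‖x - y‖ := by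
    rw [norm_smul, h_NPT.dst n K y hK]
    have e2 : ((infDist x K)⁻¹ - (infDist y K)⁻¹) * infDist y K =
        (infDist x K)⁻¹ * (infDist y K - infDist x K) := by
      field_simp
    have e3 : ‖((infDist x K)⁻¹ - (infDist y K)⁻¹)‖ * infDist y K =
        (infDist x K)⁻¹ * |infDist y K - infDist x K| := by
      have : ‖((infDist x K)⁻¹ - (infDist y K)⁻¹)‖ * infDist y K =
          ‖((infDist x K)⁻¹ - (infDist y K)⁻¹) * infDist y K‖ := by
        rw [norm_mul, Real.norm_of_nonneg hpy.le]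
      rw [this, e2, norm_mul, norm_inv, Real.norm_of_nonneg hpx.le, Real.norm_eq_abs]
    rw [e3]
    have h3 : |infDist y K - infDist x K| ≤ ‖x - y‖ := by
      have := (lipschitz_infDist_pt K).dist_le_mul y x
      rw [NNReal.coe_one, one_mul, Real.dist_eq, dist_comm, dist_eq_norm] at this
      exact this
    calc (infDist x K)⁻¹ * |infDist y K - infDist x K|
        ≤ a⁻¹ * ‖x - y‖ := by
          apply mul_le_mul (inv_anti₀ ha hx) h3 (abs_nonneg _) (inv_nonneg.2 ha.le)
      _ = 1 / a * ‖x - y‖ := by ring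
  calc ‖nu K x - nu K y‖ ≤ 2 / a * ‖x - y‖ + 1 / a * ‖x - y‖ := by
        rw [e]
        exact (norm_add_le _ _).trans (add_le_add h1 h2)
    _ = 3 / a * ‖x - y‖ := by ring

private lemma nub_der (h_NPT : St_NPT) {n : ℕ} (K : Set (E n)) (x : E n) (hK : CB K)
    (hx : x ∉ K) : HasFDerivAt (fun y => infDist y K) (innerSL ℝ (nu K x)) x := by
  have hp := nub_pos K x hK hx
  rw [hasFDerivAt_iff_isLittleO]
  have hev : ∀ᶠ y in 𝓝 x, infDist x K / 2 < infDist y K :=
    (continuous_infDist_pt K).continuousAt.eventually_const_lt (by linarith)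
  have hO : (fun y => infDist y K - infDist x K - (innerSL ℝ (nu K x)) (y - x)) =O[𝓝 x]
      fun y => ‖y - x‖ ^ 2 := by
    refine Asymptotics.IsBigO.of_bound (3 / (infDist x K / 2)) ?_
    filter_upwards [hev] with y hy
    have hyK : y ∉ K := fun h => by
      have := infDist_zero_of_mem h
      linarith
    have h1 := nub_sub h_NPT K x y hK hx
    have h2 := nub_sub h_NPT K y x hK hyK
    have h3 := nub_lip h_NPT K y x (infDist x K / 2) hK (by linarith) hy.le (by linarith)
    have h4 : ⟪nu K y, x - y⟫ = -⟪nu K y, y - x⟫ := by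
      rw [← inner_neg_right, neg_sub]
    have h5 : ⟪nu K y - nu K x, y - x⟫ ≤ ‖nu K y - nu K x‖ * ‖y - x‖ := real_inner_le_norm _ _
    rw [inner_sub_left] at h5
    have h6 : ‖nu K y - nu K x‖ * ‖y - x‖ ≤ 3 / (infDist x K / 2) * ‖y - x‖ * ‖y - x‖ :=
      mul_le_mul_of_nonneg_right h3 (norm_nonneg _)
    rw [innerSL_apply_apply, Real.norm_eq_abs, Real.norm_eq_abs, abs_of_nonneg, abs_of_nonneg]
    · nlinarith
    · positivity
    · linarith
  refine hO.trans_isLittleO ?_
  have h := Asymptotics.isLittleO_norm_pow_id (E' := E n) one_lt_two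
  have ht : Filter.Tendsto (fun y : E n => y - x) (𝓝 x) (𝓝 0) := by
    have : ContinuousAt (fun y : E n => y - x) x := by fun_prop
    simpa [ContinuousAt] using this
  exact h.comp_tendsto ht

theorem thm_NUB (h_NPT : St_NPT) : St_NUB where
  pos := fun _ K x hK hx => nub_pos K x hK hx
  unit := fun _ K x hK hx => nub_unit h_NPT K x hK hx
  sub := fun _ K x y hK hx => nub_sub h_NPT K x y hK hx
  lip := fun _ K x y a hK ha hx hy => nub_lip h_NPT K x y a hK ha hx hy
  der := fun _ K x hK hx => nub_der h_NPT K x hK hx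

end RLW
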