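import Mathlib
import Pool.Agent.RLW.StB

/-!
# RLW (MP_f7beb7_gt), module OCB: the cross-polytopes are convex bodies
-/

set_option autoImplicit false

open MeasureTheory Metric Set
open scoped BigOperators Pointwise RealInnerProductSpace NNReal Topology

namespace RLW

private theorem OCB_norm {n : ℕ} (x : E n) : ‖x‖ ≤ ∑ i, |x i| := by
  have h1 : x = ∑ i, EuclideanSpace.single i (x i) := by
    ext j
    rw [WithLp.ofLp_sum, Finset.sum_apply, Finset.sum_eq_single j]
    · simp
    · intro b _ hb
      simp [hb.symm]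
    · intro h
      exact absurd (Finset.mem_univ j) h
  calc ‖x‖ = ‖∑ i, EuclideanSpace.single i (x i)‖ := by rw [← h1]
    _ ≤ ∑ i, ‖(EuclideanSpace.single i (x i) : E n)‖ := norm_sum_le _ _
    _ = ∑ i, |x i| := by
        refine Finset.sum_congr rfl fun i _ => ?_
        simp

private theorem OCB_mem {n : ℕ} {r : ℝ} {x : E n} : x ∈ oc n r ↔ ∑ i, |x i| ≤ r := Iff.rfl

private theorem OCB_cb (n : ℕ) (r : ℝ) (hr : 0 ≤ r) : CB (oc n r) where
  cpt := by
    apply Metric.isCompact_of_isClosed_isBounded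
    · apply isClosed_le _ continuous_const
      fun_prop
    · refine (Metric.isBounded_closedBall (x := (0 : E n)) (r := r)).subset ?_
      intro x hx
      rw [mem_closedBall, dist_zero_right]
      exact (OCB_norm x).trans hx
  cvx := by
    intro x hx y hy a b ha hb hab
    rw [OCB_mem] at hx hy ⊢
    calc ∑ i, |(a • x + b • y) i| ≤ ∑ i, (a * |x i| + b * |y i|) := by
          refine Finset.sum_le_sum fun i _ => ?_
          have h1 : (a • x + b • y) i = a * x i + b * y i := by simp
          rw [h1]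
          refine (abs_add_le _ _).trans ?_
          rw [abs_mul, abs_mul, abs_of_nonneg ha, abs_of_nonneg hb]
      _ = a * ∑ i, |x i| + b * ∑ i, |y i| := by
          rw [Finset.sum_add_distrib, Finset.mul_sum, Finset.mul_sum]
      _ ≤ a * r + b * r := add_le_add (mul_le_mul_of_nonneg_left hx ha)
          (mul_le_mul_of_nonneg_left hy hb)
      _ = r := by rw [← add_mul, hab, one_mul]
  ne := by
    refine ⟨0, ?_⟩
    rw [OCB_mem]
    simpa using hr

private theorem OCB_prj (n : ℕ) (i : Fin (n + 1)) (r : ℝ) : prj i '' oc (n + 1) r = oc n r := by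
  ext y
  constructor
  · rintro ⟨x, hx, rfl⟩
    rw [OCB_mem] at hx ⊢
    rw [Fin.sum_univ_succAbove _ i] at hx
    have h1 : ∑ j, |(prj i x) j| = ∑ j : Fin n, |x (i.succAbove j)| := rfl
    rw [h1]
    linarith [abs_nonneg (x i)]
  · intro hy
    refine ⟨ins i 0 y, ?_, ?_⟩
    · rw [OCB_mem] at hy ⊢
      rw [Fin.sum_univ_succAbove _ i]
      have h1 : (ins i 0 y) i = 0 := by
        show i.insertNth (α := fun _ => ℝ) 0 (fun j => y j) i = 0
        rw [Fin.insertNth_apply_same]
      have h2 : ∀ j : Fin n, (ins i 0 y) (i.succAbove j) = y j := by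
        intro j
        show i.insertNth (α := fun _ => ℝ) 0 (fun j => y j) (i.succAbove j) = y j
        rw [Fin.insertNth_apply_succAbove]
      rw [h1, abs_zero, zero_add]
      refine le_trans (le_of_eq ?_) hy
      refine Finset.sum_congr rfl fun j _ => ?_
      rw [h2]
    · ext j
      show i.insertNth (α := fun _ => ℝ) 0 (fun j => y j) (i.succAbove j) = y j
      rw [Fin.insertNth_apply_succAbove]

private theorem OCB_sc (n : ℕ) (r : ℝ) (hr : 0 < r) : oc n r = r • oc n 1 := by
  ext x
  rw [Set.mem_smul_set_iff_inv_smul_mem₀ hr.ne', OCB_mem, OCB_mem]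
  have h1 : ∑ i, |(r⁻¹ • x) i| = r⁻¹ * ∑ i, |x i| := by
    rw [Finset.mul_sum]
    refine Finset.sum_congr rfl fun i _ => ?_
    have h2 : (r⁻¹ • x) i = r⁻¹ * x i := by simp
    rw [h2, abs_mul, abs_of_pos (inv_pos.2 hr)]
  rw [h1, inv_mul_le_iff₀ hr, mul_one]

private theorem OCB_tr (n : ℕ) (a : E n) (r : ℝ) : oct n a r = (fun x => a + x) '' oc n r := by
  ext x
  constructor
  · intro hx
    refine ⟨x - a, ?_, by simp⟩
    exact hx
  · rintro ⟨y, hy, rfl⟩
    rw [OCB_mem] at hy
    show ∑ i, |(a + y) i - a i| ≤ r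
    refine le_trans (le_of_eq ?_) hy
    refine Finset.sum_congr rfl fun i _ => ?_
    have h1 : (a + y) i - a i = y i := by simp
    rw [h1]

theorem thm_OCB : St_OCB where
  cb := OCB_cb
  prj := OCB_prj
  sc := OCB_sc
  tr := OCB_tr

end RLW
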