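import Mathlib
import Pool.Agent.RLW.StB

/-!
# RLW, module OCC: the distance to the cross-polytope is Lipschitz in both variables
-/

set_option autoImplicit false

open MeasureTheory Metric Set Filter
open scoped BigOperators Pointwise RealInnerProductSpace NNReal Topology

namespace RLW

private theorem OCC_zero {n : ℕ} {r : ℝ} (hr : 0 ≤ r) : (0 : E n) ∈ oc n r := by
  show ∑ i, |(0 : E n) i| ≤ r
  simpa using hr

private theorem OCC_norm {n : ℕ} (y : E n) : ‖y‖ ≤ ∑ i, |y i| := by
  have h0 : (0 : ℝ) ≤ ∑ i, |y i| := Finset.sum_nonneg fun i _ => abs_nonneg _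
  rw [EuclideanSpace.norm_eq]
  refine Real.sqrt_le_iff.2 ⟨h0, ?_⟩
  have h1 : ∀ i ∈ (Finset.univ : Finset (Fin n)), ‖y i‖ ^ 2 ≤ |y i| * ∑ i, |y i| := by
    intro i _
    rw [Real.norm_eq_abs, sq]
    exact mul_le_mul_of_nonneg_left
      (Finset.single_le_sum (f := fun i => |y i|) (fun i _ => abs_nonneg _) (Finset.mem_univ i))
      (abs_nonneg _)
  calc ∑ i, ‖y i‖ ^ 2 ≤ ∑ i, |y i| * ∑ i, |y i| := Finset.sum_le_sum h1
    _ = (∑ i, |y i|) ^ 2 := by rw [← Finset.sum_mul, sq]

private theorem OCC_mono {n : ℕ} {r r' : ℝ} (x : E n) (hr : 0 ≤ r) (h : r ≤ r') :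
    infDist x (oc n r') ≤ infDist x (oc n r) :=
  infDist_le_infDist_of_subset (fun y (hy : ∑ i, |y i| ≤ r) => hy.trans h) ⟨0, OCC_zero hr⟩

private theorem OCC_le {n : ℕ} {r r' : ℝ} (x : E n) (hr : 0 ≤ r) (h : r ≤ r') :
    infDist x (oc n r) ≤ infDist x (oc n r') + (r' - r) := by
  rw [← sub_le_iff_le_add]
  have hne : (oc n r').Nonempty := ⟨0, OCC_zero (hr.trans h)⟩
  rw [le_infDist hne]
  intro y hy
  rw [sub_le_iff_le_add]
  have hy' : ∑ i, |y i| ≤ r' := hy
  rcases (hr.trans h).eq_or_lt with h0 | h0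
  · have h1 : r = 0 := le_antisymm (h.trans h0.ge) hr
    have h2 : y ∈ oc n r := by
      show ∑ i, |y i| ≤ r
      rw [h1, h0]
      exact hy'
    have h3 := infDist_le_dist_of_mem (x := x) h2
    linarith
  · have hq0 : 0 ≤ r / r' := div_nonneg hr h0.le
    have hq1 : r / r' ≤ 1 := (div_le_one h0).2 h
    have h2 : (r / r') • y ∈ oc n r := by
      show ∑ i, |((r / r') • y) i| ≤ r
      have h3 : ∀ i, |((r / r') • y) i| = r / r' * |y i| := by
        intro i
        rw [PiLp.smul_apply, smul_eq_mul, abs_mul, abs_of_nonneg hq0]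
      rw [Finset.sum_congr rfl fun i _ => h3 i, ← Finset.mul_sum]
      calc r / r' * ∑ i, |y i| ≤ r / r' * r' := mul_le_mul_of_nonneg_left hy' hq0
        _ = r := div_mul_cancel₀ r h0.ne'
    have h4 : dist y ((r / r') • y) ≤ r' - r := by
      rw [dist_eq_norm]
      have h5 : y - (r / r') • y = (1 - r / r') • y := by
        rw [sub_smul, one_smul]
      rw [h5, norm_smul, Real.norm_eq_abs, abs_of_nonneg (by linarith)]
      calc (1 - r / r') * ‖y‖ ≤ (1 - r / r') * r' :=
            mul_le_mul_of_nonneg_left ((OCC_norm y).trans hy') (by linarith)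
        _ = r' - r := by
            rw [sub_mul, one_mul, div_mul_cancel₀ r h0.ne']
    have h6 := infDist_le_dist_of_mem (x := x) h2
    have h7 := dist_triangle x y ((r / r') • y)
    linarith

theorem thm_OCC : St_OCC := by
  have key : ∀ (n : ℕ) (x : E n) (r r' : ℝ), 0 ≤ r → r ≤ r' →
      |infDist x (oc n r) - infDist x (oc n r')| ≤ |r - r'| := by
    intro n x r r' hr h
    have h1 := OCC_mono x hr h
    have h2 := OCC_le x hr h
    rw [abs_of_nonneg (by linarith), abs_sub_comm r r', abs_of_nonneg (by linarith)]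
    linarith
  intro n x x' r r' hr hr'
  have h1 : |infDist x (oc n r) - infDist x (oc n r')| ≤ |r - r'| := by
    rcases le_total r r' with h | h
    · exact key n x r r' hr h
    · rw [abs_sub_comm (infDist x (oc n r)), abs_sub_comm r]
      exact key n x r' r hr' h
  have h2 : |infDist x (oc n r') - infDist x' (oc n r')| ≤ ‖x - x'‖ := by
    have h3 := infDist_le_infDist_add_dist (s := oc n r') (x := x) (y := x')
    have h4 := infDist_le_infDist_add_dist (s := oc n r') (x := x') (y := x)
    rw [dist_comm x' x] at h4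
    rw [dist_eq_norm] at h3 h4
    rw [abs_le]
    constructor <;> linarith
  calc |infDist x (oc n r) - infDist x' (oc n r')|
      ≤ |infDist x (oc n r) - infDist x (oc n r')| +
        |infDist x (oc n r') - infDist x' (oc n r')| := abs_sub_le _ _ _
    _ ≤ ‖x - x'‖ + |r - r'| := by linarith

end RLW
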