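import Pool.Agent.RLW.StB

/-!
# RLW, module ODS: the distance to the cross-polytope
-/

set_option autoImplicit false

open MeasureTheory Metric Set
open scoped BigOperators Pointwise RealInnerProductSpace NNReal Topology

namespace RLW

/-- the part of `x` which is cut off -/
private noncomputable def odc (θ x : ℝ) : ℝ := max (-θ) (min x θ)

private lemma odc_sq (θ x : ℝ) (hθ : 0 ≤ θ) : odc θ x ^ 2 = min |x| θ ^ 2 := by
  unfold odc
  rcases le_total 0 x with h | h
  · rw [abs_of_nonneg h, max_eq_right (by
      have : 0 ≤ min x θ := le_min h hθ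
      linarith)]
  · rw [abs_of_nonpos h, min_eq_left (le_trans h hθ)]
    rcases le_total (-θ) x with h2 | h2
    · rw [max_eq_right h2, min_eq_left (by linarith)]; ring
    · rw [max_eq_left h2, min_eq_right (by linarith)]; ring

private lemma odc_abs (θ x : ℝ) (hθ : 0 ≤ θ) : |x - odc θ x| = max (|x| - θ) 0 := by
  unfold odc
  rcases le_total 0 x with h | h
  · rw [abs_of_nonneg h, max_eq_right (by
      have : 0 ≤ min x θ := le_min h hθ
      linarith)]
    rcases le_total x θ with h2 | h2
    · rw [min_eq_left h2, max_eq_right (by linarith)]; simp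
    · rw [min_eq_right h2, max_eq_left (by linarith), abs_of_nonneg (by linarith)]
  · rw [abs_of_nonpos h, min_eq_left (le_trans h hθ)]
    rcases le_total (-θ) x with h2 | h2
    · rw [max_eq_right h2, max_eq_right (by linarith)]; simp
    · rw [max_eq_left h2, max_eq_left (by linarith), abs_of_nonpos (by linarith)]; ring

private lemma odc_mul (θ x z : ℝ) (hθ : 0 ≤ θ) :
    odc θ x ^ 2 - 2 * θ * (|z| - max (|x| - θ) 0) ≤ (x - z) ^ 2 := by
  have key : odc θ x * (z - (x - odc θ x)) ≤ θ * (|z| - max (|x| - θ) 0) := by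
    have h1 : odc θ x * z ≤ θ * |z| := by
      have hle : |odc θ x| ≤ θ := by
        unfold odc
        rw [abs_le]
        exact ⟨le_max_left _ _, max_le (by linarith) (min_le_right _ _)⟩
      calc odc θ x * z ≤ |odc θ x * z| := le_abs_self _
        _ = |odc θ x| * |z| := abs_mul _ _
        _ ≤ θ * |z| := mul_le_mul_of_nonneg_right hle (abs_nonneg _)
    have h2 : odc θ x * (x - odc θ x) = θ * max (|x| - θ) 0 := by
      unfold odc
      rcases le_total 0 x with h | h
      · rw [abs_of_nonneg h, max_eq_right (by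
          have : 0 ≤ min x θ := le_min h hθ
          linarith)]
        rcases le_total x θ with h2 | h2
        · rw [min_eq_left h2, max_eq_right (by linarith)]; simp
        · rw [min_eq_right h2, max_eq_left (by linarith)]
      · rw [abs_of_nonpos h, min_eq_left (le_trans h hθ)]
        rcases le_total (-θ) x with h2 | h2
        · rw [max_eq_right h2, max_eq_right (by linarith)]; simp
        · rw [max_eq_left h2, max_eq_left (by linarith)]; ring
    nlinarith
  nlinarith [sq_nonneg (z - (x - odc θ x))]

theorem thm_ODS : St_ODS := by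
  intro n x θ hθ
  set r : ℝ := ∑ i, max (|x i| - θ) 0 with hr
  let y : E n := WithLp.toLp 2 fun i => x i - odc θ (x i)
  have hy : y ∈ oc n r := by
    show ∑ i, |x i - odc θ (x i)| ≤ r
    rw [hr]
    exact le_of_eq (Finset.sum_congr rfl fun i _ => odc_abs θ (x i) hθ)
  have hd : dist x y ^ 2 = ∑ i, min |x i| θ ^ 2 := by
    rw [EuclideanSpace.dist_eq, Real.sq_sqrt (Finset.sum_nonneg fun i _ => sq_nonneg _)]
    refine Finset.sum_congr rfl fun i _ => ?_
    rw [Real.dist_eq, sq_abs]
    show (x i - (x i - odc θ (x i))) ^ 2 = _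
    rw [← odc_sq θ (x i) hθ]
    ring
  have hle : ∀ z ∈ oc n r, dist x y ≤ dist x z := by
    intro z hz
    have hz' : ∑ i, |z i| ≤ r := hz
    have h1 : dist x y ^ 2 ≤ dist x z ^ 2 := by
      rw [hd, EuclideanSpace.dist_eq x z,
        Real.sq_sqrt (Finset.sum_nonneg fun i _ => sq_nonneg _)]
      have h2 : ∑ i, (odc θ (x i) ^ 2 - 2 * θ * (|z i| - max (|x i| - θ) 0)) ≤
          ∑ i, dist (x i) (z i) ^ 2 := by
        refine Finset.sum_le_sum fun i _ => ?_
        rw [Real.dist_eq, sq_abs]
        exact odc_mul θ (x i) (z i) hθ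
      rw [Finset.sum_sub_distrib, ← Finset.mul_sum, Finset.sum_sub_distrib] at h2
      have h3 : ∑ i, odc θ (x i) ^ 2 = ∑ i, min |x i| θ ^ 2 :=
        Finset.sum_congr rfl fun i _ => odc_sq θ (x i) hθ
      rw [h3, ← hr] at h2
      have h4 : 0 ≤ 2 * θ * (r - ∑ i, |z i|) := by
        have : 0 ≤ r - ∑ i, |z i| := by linarith
        positivity
      linarith
    exact le_of_sq_le_sq h1 dist_nonneg
  have hinf : infDist x (oc n r) = dist x y := by
    refine le_antisymm (infDist_le_dist_of_mem hy) ?_
    exact (le_infDist ⟨y, hy⟩).2 fun z hz => hle z hz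
  rw [hinf, hd]

end RLW
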