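import Pool.Agent.RLW.StB

/-!
# RLW [OEQ]: equality for the cross-polytopes
-/

set_option autoImplicit false

open MeasureTheory Metric Set
open scoped BigOperators Pointwise RealInnerProductSpace NNReal Topology

namespace RLW

private theorem OEQ_prj_add {n : ℕ} (i : Fin (n + 1)) (x y : E (n + 1)) :
    prj i (x + y) = prj i x + prj i y := by
  ext j
  simp [prj]

private theorem OEQ_scale (h_OCB : St_OCB) (h_SCV : St_SCV) (n : ℕ) (r : ℝ) (hr : 0 < r)
    (V : ℕ → ℝ) (h : IsIV (oc n r) V) : IsIV (oc n 1) fun j => r⁻¹ ^ j * V j := by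
  have h1 := h_SCV.sc n (oc n r) V r⁻¹ (inv_pos.2 hr) h
  rwa [h_OCB.sc n r hr, smul_smul, inv_mul_cancel₀ hr.ne', one_smul] at h1

theorem thm_OEQ (h_OVV : St_OVV) (h_OCB : St_OCB) (h_SCV : St_SCV) : St_OEQ := by
  intro n a r V W hn hr hV hW
  obtain ⟨k, rfl⟩ : ∃ k, n = k + 1 := ⟨n - 1, by omega⟩
  rw [Nat.add_sub_cancel]
  have h1 : IsIV (oc (k + 1 + 1) r) V := by
    rw [h_OCB.tr] at hV
    exact h_SCV.tr _ _ _ _ hV
  have h2 := h_OVV.b k _ (OEQ_scale h_OCB h_SCV _ r hr V h1)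
  have hrk : r ^ k ≠ 0 := pow_ne_zero _ hr.ne'
  have h3 : V k = r ^ k * (2 ^ (k + 1) * (k + 2) * √(k + 1) * Real.arcsin (1 / √(k + 2)) /
      (Real.pi * k.factorial)) := by
    rw [← h2, inv_pow, ← mul_assoc, mul_inv_cancel₀ hrk, one_mul]
  have h4 : ∀ j, W j k = r ^ k * (2 ^ k * √(k + 1) / k.factorial) := by
    intro j
    have e1 : prj j '' oct (k + 1 + 1) a r = (fun x => prj j a + x) '' oc (k + 1) r := by
      rw [h_OCB.tr, ← h_OCB.prj (k + 1) j r, image_image, image_image]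
      refine image_congr fun x _ => ?_
      exact OEQ_prj_add j a x
    have e2 := hW j
    rw [e1] at e2
    have e3 := h_SCV.tr _ _ _ _ e2
    have e4 := h_OVV.a k _ (OEQ_scale h_OCB h_SCV _ r hr (W j) e3)
    rw [← e4, inv_pow, ← mul_assoc, mul_inv_cancel₀ hrk, one_mul]
  rw [h3, Finset.sum_congr rfl fun j _ => by rw [h4 j]]
  rw [Finset.sum_const, Finset.card_univ, Fintype.card_fin, nsmul_eq_mul]
  unfold cst
  push_cast
  have hpi := Real.pi_ne_zero
  have hf : (k.factorial : ℝ) ≠ 0 := by exact_mod_cast k.factorial_ne_zero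
  rw [show ((k : ℝ) + 1 + 1) = k + 2 by ring]
  field_simp
  ring

end RLW
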