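import Mathlib
import Pool.Agent.RLW.StB

/-!
# RLW (MP_f7beb7_gt), module ONE: change of variables for fixed `x`
-/

set_option autoImplicit false

open MeasureTheory Metric Set
open scoped BigOperators Pointwise RealInnerProductSpace NNReal Topology

namespace RLW

/-- the radius as a function of `θ` -/
private noncomputable def oneF {n : ℕ} (x : E n) (θ : ℝ) : ℝ := ∑ i, max (|x i| - θ) 0

open Classical in
/-- minus the derivative of the radius -/
private noncomputable def oneC {n : ℕ} (x : E n) (θ : ℝ) : ℝ :=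
  ∑ i, if θ < |x i| then (1 : ℝ) else 0

private theorem oneF_cont {n : ℕ} (x : E n) : Continuous (oneF x) := by
  unfold oneF
  fun_prop

private theorem oneF_nonneg {n : ℕ} (x : E n) (θ : ℝ) : 0 ≤ oneF x θ :=
  Finset.sum_nonneg fun _ _ => le_max_right _ _

private theorem oneF_zero {n : ℕ} (x : E n) : oneF x 0 = ∑ i, |x i| := by
  unfold oneF
  refine Finset.sum_congr rfl fun i _ => ?_
  rw [sub_zero, max_eq_left (abs_nonneg _)]

private theorem oneF_big {n : ℕ} (x : E n) {θ : ℝ} (h : ∑ i, |x i| ≤ θ) : oneF x θ = 0 := by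
  unfold oneF
  refine Finset.sum_eq_zero fun i _ => ?_
  have h1 : |x i| ≤ ∑ i, |x i| :=
    Finset.single_le_sum (f := fun i => |x i|) (fun _ _ => abs_nonneg _) (Finset.mem_univ i)
  rw [max_eq_right (by linarith)]

private theorem oneC_big {n : ℕ} (x : E n) {θ : ℝ} (h : ∑ i, |x i| ≤ θ) : oneC x θ = 0 := by
  unfold oneC
  refine Finset.sum_eq_zero fun i _ => ?_
  have h1 : |x i| ≤ ∑ i, |x i| :=
    Finset.single_le_sum (f := fun i => |x i|) (fun _ _ => abs_nonneg _) (Finset.mem_univ i)
  rw [if_neg (by linarith)]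

private theorem oneF_der {n : ℕ} (x : E n) (θ : ℝ) :
    HasDerivWithinAt (oneF x) (-oneC x θ) (Ioi θ) θ := by
  have h : ∀ i, HasDerivWithinAt (fun θ => max (|x i| - θ) 0)
      (-(if θ < |x i| then (1 : ℝ) else 0)) (Ioi θ) θ := by
    intro i
    by_cases hi : θ < |x i|
    · rw [if_pos hi]
      have h1 : HasDerivAt (fun θ => |x i| - θ) (-1) θ := by
        simpa using (hasDerivAt_id θ).const_sub (|x i|)
      refine (h1.hasDerivWithinAt).congr_of_eventuallyEq ?_ ?_
      · have h2 : ∀ᶠ t in 𝓝 θ, t < |x i| := (isOpen_Iio).mem_nhds hi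
        filter_upwards [nhdsWithin_le_nhds h2] with t ht
        rw [max_eq_left (by linarith)]
      · show max (|x i| - θ) 0 = |x i| - θ
        rw [max_eq_left (by linarith)]
    · rw [if_neg hi, neg_zero]
      push Not at hi
      refine (hasDerivWithinAt_const θ (Ioi θ) (0 : ℝ)).congr ?_ ?_
      · intro t ht
        have ht' : θ < t := ht
        show max (|x i| - t) 0 = 0
        rw [max_eq_right (by linarith)]
      · show max (|x i| - θ) 0 = 0
        rw [max_eq_right (by linarith)]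
  have h2 := HasDerivWithinAt.fun_sum (u := Finset.univ) fun i _ => h i
  have h3 : -oneC x θ = ∑ i, -(if θ < |x i| then (1 : ℝ) else 0) := by
    rw [Finset.sum_neg_distrib]
    rfl
  rw [h3]
  exact h2

private theorem oneC_meas {n : ℕ} (x : E n) : Measurable (oneC x) := by
  unfold oneC
  refine Finset.measurable_sum _ fun i _ => ?_
  exact Measurable.ite measurableSet_Iio measurable_const measurable_const

private theorem oneC_nonneg {n : ℕ} (x : E n) (θ : ℝ) : 0 ≤ oneC x θ :=
  Finset.sum_nonneg fun i _ => by split_ifs <;> norm_num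

private theorem oneC_le {n : ℕ} (x : E n) (θ : ℝ) : oneC x θ ≤ n := by
  unfold oneC
  calc ∑ i, (if θ < |x i| then (1 : ℝ) else 0) ≤ ∑ _i : Fin n, (1 : ℝ) :=
        Finset.sum_le_sum fun i _ => by split_ifs <;> norm_num
    _ = n := by simp

/-- the integrand as a function of the radius -/
private noncomputable def oneG {n : ℕ} (l : ℝ) (x : E n) (r : ℝ) : ℝ :=
  Real.exp (-l * r - infDist x (oc n r) ^ 2)

private theorem oneG_pos {n : ℕ} (l : ℝ) (x : E n) (r : ℝ) : 0 < oneG l x r := Real.exp_pos _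

private theorem oneG_cont (h_OCC : St_OCC) {n : ℕ} (l : ℝ) (x : E n) :
    ContinuousOn (oneG l x) (Ici 0) := by
  have h1 : ContinuousOn (fun r => infDist x (oc n r)) (Ici 0) := by
    have h2 : LipschitzOnWith 1 (fun r => infDist x (oc n r)) (Ici 0) := by
      refine LipschitzOnWith.of_dist_le_mul fun r hr r' hr' => ?_
      have h3 := h_OCC n x x r r' hr hr'
      rw [sub_self, norm_zero, zero_add] at h3
      rw [Real.dist_eq, Real.dist_eq, NNReal.coe_one, one_mul]
      exact h3
    exact h2.continuousOn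
  unfold oneG
  refine Real.continuous_exp.comp_continuousOn ?_
  exact (continuousOn_const.mul continuousOn_id).sub (h1.pow 2)

private theorem one_dn (h_ODS : St_ODS) {n : ℕ} (l : ℝ) (x : E n) {θ : ℝ} (hθ : 0 ≤ θ) :
    oneG l x (oneF x θ) * oneC x θ = dn l x θ := by
  unfold oneG dn
  have h1 := h_ODS n x θ hθ
  have h2 : infDist x (oc n (oneF x θ)) ^ 2 = ∑ i, min |x i| θ ^ 2 := h1
  rw [h2, mul_comm]
  congr 1
  rw [← Real.exp_sum]
  congr 1
  rw [Finset.sum_sub_distrib, ← Finset.mul_sum]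
  rfl

private theorem one_abs {n : ℕ} (l : ℝ) (hl : 0 < l) (x : E n) :
    ∫⁻ r in Ioi (∑ i, |x i|), ENNReal.ofReal (oneG l x r) =
      ENNReal.ofReal (Real.exp (-l * ∑ i, |x i|) / l) := by
  have h0 : ∫⁻ r in Ioi (∑ i, |x i|), ENNReal.ofReal (oneG l x r) =
      ∫⁻ r in Ioi (∑ i, |x i|), ENNReal.ofReal (Real.exp (-l * r)) := by
    refine setLIntegral_congr_fun measurableSet_Ioi fun r hr => ?_
    have hr' : ∑ i, |x i| < r := hr
    have h1 : x ∈ oc n r := hr'.le
    show ENNReal.ofReal (Real.exp (-l * r - infDist x (oc n r) ^ 2)) = _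
    rw [infDist_zero_of_mem h1]
    norm_num
  rw [h0]
  have hi : IntegrableOn (fun r => Real.exp (-l * r)) (Ioi (∑ i, |x i|)) :=
    integrableOn_exp_mul_Ioi (by linarith) _
  rw [← ofReal_integral_eq_lintegral_ofReal hi (Filter.Eventually.of_forall fun r =>
    (Real.exp_pos _).le), integral_exp_mul_Ioi (by linarith)]
  congr 1
  rw [div_neg, neg_div, neg_neg]

theorem thm_ONE (h_ODS : St_ODS) (h_OCC : St_OCC) : St_ONE := by
  intro n x l hl
  set S : ℝ := ∑ i, |x i| with hS
  have hS0 : 0 ≤ S := Finset.sum_nonneg fun _ _ => abs_nonneg _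
  have hsplit : (Ioi (0 : ℝ)) = Ioc 0 S ∪ Ioi S := (Ioc_union_Ioi_eq_Ioi hS0).symm
  have hdisj : Disjoint (Ioc (0 : ℝ) S) (Ioi S) := by
    rw [Set.disjoint_left]
    intro t ht ht'
    exact absurd ht.2 (not_le.mpr ht')
  have e1 : ∫⁻ r in Ioi (0 : ℝ), ENNReal.ofReal (oneG l x r) =
      (∫⁻ r in Ioc (0 : ℝ) S, ENNReal.ofReal (oneG l x r)) +
        ∫⁻ r in Ioi S, ENNReal.ofReal (oneG l x r) := by
    rw [hsplit, lintegral_union measurableSet_Ioi hdisj]
  have e2 : ∫⁻ θ in Ioi (0 : ℝ), ENNReal.ofReal (dn l x θ) =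
      ∫⁻ θ in Ioc (0 : ℝ) S, ENNReal.ofReal (dn l x θ) := by
    rw [hsplit, lintegral_union measurableSet_Ioi hdisj]
    have h1 : ∫⁻ θ in Ioi S, ENNReal.ofReal (dn l x θ) = 0 := by
      rw [setLIntegral_congr_fun (g := fun _ => 0) measurableSet_Ioi]
      · simp
      · intro θ hθ
        have hθ' : S < θ := hθ
        have h2 := one_dn h_ODS l x (hS0.trans hθ'.le)
        rw [oneC_big x hθ'.le, mul_zero] at h2
        show ENNReal.ofReal (dn l x θ) = 0
        rw [← h2, ENNReal.ofReal_zero]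
    rw [h1, add_zero]
  have hgc := oneG_cont h_OCC l x
  have hII : IntegrableOn (oneG l x) (Icc 0 S) :=
    (hgc.mono Icc_subset_Ici_self).integrableOn_Icc
  have hfi : ∀ θ, oneF x θ ∈ Ici (0 : ℝ) := fun θ => oneF_nonneg x θ
  have hcomp : ContinuousOn (fun θ => oneG l x (oneF x θ)) univ :=
    hgc.comp (oneF_cont x).continuousOn fun θ _ => hfi θ
  have hcomp' : Continuous (fun θ => oneG l x (oneF x θ)) := by
    rwa [← continuousOn_univ]
  have hg2 : IntegrableOn (fun θ => oneG l x (oneF x θ) * oneC x θ) (Icc 0 S) := by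
    have h1 : IntegrableOn (fun θ => oneG l x (oneF x θ)) (Icc 0 S) :=
      hcomp'.continuousOn.integrableOn_Icc
    refine Integrable.mul_bdd (c := (n : ℝ)) h1 (oneC_meas x).aestronglyMeasurable ?_
    refine Filter.Eventually.of_forall fun θ => ?_
    rw [Real.norm_eq_abs, abs_of_nonneg (oneC_nonneg x θ)]
    exact oneC_le x θ
  have hfle : ∀ θ, 0 ≤ θ → oneF x θ ≤ S := by
    intro θ hθ
    rw [hS, ← oneF_zero x]
    unfold oneF
    refine Finset.sum_le_sum fun i _ => ?_
    exact max_le_max (by linarith) le_rfl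
  have key : ∫ θ in (0 : ℝ)..S, oneG l x (oneF x θ) * oneC x θ = ∫ r in (0 : ℝ)..S, oneG l x r := by
    have h1 := intervalIntegral.integral_comp_mul_deriv''' (a := 0) (b := S) (f := oneF x)
      (f' := fun θ => -oneC x θ) (g := oneG l x) (oneF_cont x).continuousOn
      (fun θ _ => oneF_der x θ)
      (hgc.mono (by
        rintro _ ⟨θ, _, rfl⟩
        exact hfi θ))
      (hII.mono_set (by
        rintro _ ⟨θ, hθ, rfl⟩
        rw [uIcc_of_le hS0] at hθ
        exact ⟨hfi θ, hfle θ hθ.1⟩))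
      (by
        rw [uIcc_of_le hS0]
        have h2 := hg2.neg
        refine h2.congr ?_
        refine Filter.Eventually.of_forall fun θ => ?_
        show -(oneG l x (oneF x θ) * oneC x θ) = oneG l x (oneF x θ) * -oneC x θ
        ring)
    rw [oneF_zero, oneF_big x hS.symm.le, ← hS] at h1
    have h3 : ∫ θ in (0 : ℝ)..S, (oneG l x ∘ oneF x) θ * -oneC x θ =
        -∫ θ in (0 : ℝ)..S, oneG l x (oneF x θ) * oneC x θ := by
      rw [← intervalIntegral.integral_neg]
      refine intervalIntegral.integral_congr fun θ _ => ?_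
      show oneG l x (oneF x θ) * -oneC x θ = -(oneG l x (oneF x θ) * oneC x θ)
      ring
    rw [h3, intervalIntegral.integral_symm 0 S] at h1
    exact neg_injective h1
  have e3 : ∫⁻ r in Ioc (0 : ℝ) S, ENNReal.ofReal (oneG l x r) =
      ∫⁻ θ in Ioc (0 : ℝ) S, ENNReal.ofReal (dn l x θ) := by
    have h1 : ∫⁻ θ in Ioc (0 : ℝ) S, ENNReal.ofReal (dn l x θ) =
        ∫⁻ θ in Ioc (0 : ℝ) S, ENNReal.ofReal (oneG l x (oneF x θ) * oneC x θ) := by
      refine setLIntegral_congr_fun measurableSet_Ioc fun θ hθ => ?_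
      show ENNReal.ofReal (dn l x θ) = _
      rw [one_dn h_ODS l x hθ.1.le]
    rw [h1, ← ofReal_integral_eq_lintegral_ofReal (hII.mono_set Ioc_subset_Icc_self)
        (Filter.Eventually.of_forall fun r => (oneG_pos l x r).le),
      ← ofReal_integral_eq_lintegral_ofReal (hg2.mono_set Ioc_subset_Icc_self)
        (Filter.Eventually.of_forall fun θ => mul_nonneg (oneG_pos l x _).le (oneC_nonneg x θ)),
      ← intervalIntegral.integral_of_le hS0, ← intervalIntegral.integral_of_le hS0, key]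
  show ∫⁻ r in Ioi (0 : ℝ), ENNReal.ofReal (oneG l x r) = _
  rw [e1, e2, e3, one_abs l hl x, add_comm]

end RLW
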