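import Pool.Agent.RLW.StB

/-!
# RLW (MP_f7beb7_gt): [OVV] the intrinsic volumes `V (n - 1)`, `V (n - 2)` of the cross-polytope
-/

set_option autoImplicit false

open MeasureTheory Metric Set
open scoped BigOperators Pointwise RealInnerProductSpace NNReal Topology

namespace RLW

private lemma ovv_gauss (b : ℝ) :
    ∫ θ in Ioi (0 : ℝ), Real.exp (-b * θ ^ 2) = √(Real.pi / b) / 2 := by
  exact integral_gaussian_Ioi b

theorem thm_OVV (h_COE : St_COE) (h_JIN : St_JIN) : St_OVV where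
  a := by
    intro n V hV
    have h := h_COE.a n V hV
    have hg := ovv_gauss ((n : ℝ) + 1)
    rw [hg] at h
    have hn : (0 : ℝ) < (n : ℝ) + 1 := by positivity
    have hpi : (0 : ℝ) < √Real.pi := Real.sqrt_pos.mpr Real.pi_pos
    have hs : (0 : ℝ) < √((n : ℝ) + 1) := Real.sqrt_pos.mpr hn
    have hf : (0 : ℝ) < (n.factorial : ℝ) := by exact_mod_cast n.factorial_pos
    have hsq : √((n : ℝ) + 1) * √((n : ℝ) + 1) = (n : ℝ) + 1 := Real.mul_self_sqrt hn.le
    rw [Real.sqrt_div Real.pi_pos.le] at h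
    rw [eq_div_iff hf.ne']
    have h2 : √Real.pi * (V n * n.factorial) = √Real.pi * (2 ^ n * √((n : ℝ) + 1)) := by
      calc √Real.pi * (V n * n.factorial) = V n * √Real.pi * n.factorial := by ring
        _ = ((n : ℝ) + 1) * 2 ^ (n + 1) * (√Real.pi / √((n : ℝ) + 1) / 2) := h
        _ = √Real.pi * (2 ^ n * ((√((n : ℝ) + 1) * √((n : ℝ) + 1)) / √((n : ℝ) + 1))) := by
            rw [hsq, pow_succ]; ring
        _ = √Real.pi * (2 ^ n * √((n : ℝ) + 1)) := by
            rw [mul_div_assoc, div_self hs.ne', mul_one]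
    exact mul_left_cancel₀ hpi.ne' h2
  b := by
    intro n V hV
    have h := h_COE.b n V hV
    have hj := h_JIN ((n : ℝ) + 1) (by positivity)
    rw [hj] at h
    have hn : (0 : ℝ) < (n : ℝ) + 1 := by positivity
    have hs : (0 : ℝ) < √((n : ℝ) + 1) := Real.sqrt_pos.mpr hn
    have hf : (0 : ℝ) < (n.factorial : ℝ) := by exact_mod_cast n.factorial_pos
    have hsq : √((n : ℝ) + 1) * √((n : ℝ) + 1) = (n : ℝ) + 1 := Real.mul_self_sqrt hn.le
    have h12 : ((n : ℝ) + 1 + 1) = (n : ℝ) + 2 := by ring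
    rw [h12] at h
    rw [eq_div_iff (mul_pos Real.pi_pos hf).ne']
    calc V n * (Real.pi * n.factorial) = V n * Real.pi * n.factorial := by ring
      _ = ((n : ℝ) + 2) * ((n : ℝ) + 1) * 2 ^ (n + 1) *
          (Real.arcsin (1 / √((n : ℝ) + 2)) / √((n : ℝ) + 1)) := h
      _ = ((n : ℝ) + 2) * (√((n : ℝ) + 1) * √((n : ℝ) + 1)) * 2 ^ (n + 1) *
          (Real.arcsin (1 / √((n : ℝ) + 2)) / √((n : ℝ) + 1)) := by rw [hsq]
      _ = 2 ^ (n + 1) * ((n : ℝ) + 2) * (√((n : ℝ) + 1) * (√((n : ℝ) + 1) / √((n : ℝ) + 1))) *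
          Real.arcsin (1 / √((n : ℝ) + 2)) := by ring
      _ = 2 ^ (n + 1) * ((n : ℝ) + 2) * √((n : ℝ) + 1) * Real.arcsin (1 / √((n : ℝ) + 2)) := by
          rw [div_self hs.ne', mul_one]

end RLW
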