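import Pool.Agent.RLW.St

/-!
# RLW, module PO1: polynomials tested against bump functions
-/

set_option autoImplicit false

open MeasureTheory Set
open scoped Topology

namespace RLW

private theorem po1_pow (n : ℕ) (y : ℝ) :
    HasDerivAt (fun y : ℝ => (max 0 y) ^ (n + 2)) ((n + 2 : ℝ) * (max 0 y) ^ (n + 1)) y := by
  rcases lt_trichotomy y 0 with h | h | h
  · have h1 : (fun y : ℝ => (max 0 y) ^ (n + 2)) =ᶠ[𝓝 y] fun _ => 0 := by
      filter_upwards [Iio_mem_nhds h] with z hz
      rw [max_eq_left (mem_Iio.1 hz).le, zero_pow (by omega)]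
    rw [max_eq_left h.le, zero_pow (by omega), mul_zero]
    exact (hasDerivAt_const y (0 : ℝ)).congr_of_eventuallyEq h1
  · subst h
    rw [max_self, zero_pow (by omega), mul_zero, hasDerivAt_iff_isLittleO_nhds_zero]
    have h2 : (fun h : ℝ => h ^ (n + 2)) =o[𝓝 0] fun h => h :=
      Asymptotics.isLittleO_pow_id (by omega)
    refine Asymptotics.IsBigO.trans_isLittleO (Asymptotics.IsBigO.of_bound 1 ?_) h2
    filter_upwards with z
    rw [zero_add, max_self, zero_pow (by omega), sub_zero, smul_zero, sub_zero, one_mul,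
      Real.norm_eq_abs, Real.norm_eq_abs, abs_pow, abs_pow]
    refine pow_le_pow_left₀ (abs_nonneg _) ?_ _
    rw [abs_of_nonneg (le_max_left _ _)]
    exact max_le (abs_nonneg _) (le_abs_self _)
  · have h1 : (fun y : ℝ => (max 0 y) ^ (n + 2)) =ᶠ[𝓝 y] fun z => z ^ (n + 2) := by
      filter_upwards [Ioi_mem_nhds h] with z hz
      rw [max_eq_right (mem_Ioi.1 hz).le]
    rw [max_eq_right h.le]
    have h2 := hasDerivAt_pow (n + 2) y
    have h3 : ((n + 2 : ℕ) : ℝ) * y ^ (n + 2 - 1) = (n + 2 : ℝ) * y ^ (n + 1) := by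
      push_cast
      rfl
    rw [h3] at h2
    exact h2.congr_of_eventuallyEq h1

private theorem po1_tst (a b : ℝ) (ha : 0 < a) (hab : a < b) :
    Tst a b (fun x => (max 0 ((x - a) * (b - x))) ^ 3)
      (fun x => 3 * (max 0 ((x - a) * (b - x))) ^ 2 * (a + b - 2 * x))
      (fun x => 3 * (2 * (max 0 ((x - a) * (b - x))) ^ 1 * (a + b - 2 * x)) * (a + b - 2 * x) +
        3 * (max 0 ((x - a) * (b - x))) ^ 2 * (-2)) := by
  have hq : ∀ x : ℝ, HasDerivAt (fun x => (x - a) * (b - x)) (a + b - 2 * x) x := by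
    intro x
    have h1 := ((hasDerivAt_id x).sub_const a).mul ((hasDerivAt_id x).const_sub b)
    have h2 : 1 * (b - id x) + (id x - a) * -1 = a + b - 2 * x := by
      simp only [id]
      ring
    rw [h2] at h1
    exact h1
  refine ⟨ha, hab, fun s => pow_nonneg (le_max_left _ _) _, fun s => ?_, fun s => ?_, ?_, ?_⟩
  · have h1 := (po1_pow 1 ((s - a) * (b - s))).comp s (hq s)
    have h2 : ((1 : ℕ) + 2 : ℝ) * (max 0 ((s - a) * (b - s))) ^ (1 + 1) * (a + b - 2 * s) =
        3 * (max 0 ((s - a) * (b - s))) ^ 2 * (a + b - 2 * s) := by norm_num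
    rw [h2] at h1
    exact h1
  · have h1 := (po1_pow 0 ((s - a) * (b - s))).comp s (hq s)
    have h3 : HasDerivAt (fun x : ℝ => a + b - 2 * x) (-2) s := by
      have h4 := ((hasDerivAt_id s).const_mul 2).const_sub (a + b)
      rw [mul_one] at h4
      exact h4
    have h5 := (h1.const_mul 3).mul h3
    have h6 : 3 * (((0 : ℕ) + 2 : ℝ) * (max 0 ((s - a) * (b - s))) ^ (0 + 1) *
        (a + b - 2 * s)) * (a + b - 2 * s) +
        3 * ((fun y : ℝ => (max 0 y) ^ (0 + 2)) ∘ fun x => (x - a) * (b - x)) s * -2 =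
        3 * (2 * (max 0 ((s - a) * (b - s))) ^ 1 * (a + b - 2 * s)) * (a + b - 2 * s) +
        3 * (max 0 ((s - a) * (b - s))) ^ 2 * (-2) := by
      simp only [Function.comp]
      norm_num
    rw [h6] at h5
    exact h5
  · fun_prop
  · intro s hs
    have h1 : (s - a) * (b - s) ≤ 0 := by
      rcases le_or_gt s a with h | h
      · exact mul_nonpos_of_nonpos_of_nonneg (by linarith) (by linarith)
      · have h2 : b ≤ s := by
          by_contra h3
          exact hs ⟨h, not_le.1 h3⟩
        exact mul_nonpos_of_nonneg_of_nonpos (by linarith) (by linarith)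
    have h2 : max 0 ((s - a) * (b - s)) = 0 := max_eq_left h1
    refine ⟨?_, ?_, ?_⟩
    · show (max 0 ((s - a) * (b - s))) ^ 3 = 0
      rw [h2]
      norm_num
    · show 3 * (max 0 ((s - a) * (b - s))) ^ 2 * (a + b - 2 * s) = 0
      rw [h2]
      norm_num
    · show 3 * (2 * (max 0 ((s - a) * (b - s))) ^ 1 * (a + b - 2 * s)) * (a + b - 2 * s) +
        3 * (max 0 ((s - a) * (b - s))) ^ 2 * (-2) = 0
      rw [h2]
      norm_num

private theorem po1_ibp {a b : ℝ} {w w1 w2 : ℝ → ℝ} (h : Tst a b w w1 w2) (f g : Polynomial ℝ) :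
    (∫ x in a..b, w2 x * f.eval x) + (∫ x in a..b, w1 x * g.eval x) =
      ∫ x in a..b, w x * (f.derivative.derivative - g.derivative).eval x := by
  have hw : Continuous w := continuous_iff_continuousAt.2 fun s => (h.d1 s).continuousAt
  have hw1 : Continuous w1 := continuous_iff_continuousAt.2 fun s => (h.d2 s).continuousAt
  have za := h.z a (fun h => lt_irrefl _ h.1)
  have zb := h.z b (fun h => lt_irrefl _ h.2)
  have key : ∀ (u u' : ℝ → ℝ) (p : Polynomial ℝ), (∀ s, HasDerivAt u (u' s) s) →
      Continuous u' → u a = 0 → u b = 0 →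
      (∫ x in a..b, u' x * p.eval x) = -∫ x in a..b, u x * p.derivative.eval x := by
    intro u u' p hu hu' h1 h2
    have hc : Continuous u := continuous_iff_continuousAt.2 fun s => (hu s).continuousAt
    have h3 := intervalIntegral.integral_deriv_mul_eq_sub (a := a) (b := b) (u := u)
      (v := fun x => p.eval x) (u' := u') (v' := fun x => p.derivative.eval x)
      (fun x _ => hu x) (fun x _ => p.hasDerivAt x) (hu'.intervalIntegrable _ _)
      (p.derivative.continuous.intervalIntegrable _ _)
    have i1 : IntervalIntegrable (fun x => u' x * p.eval x) volume a b :=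
      (hu'.mul p.continuous).intervalIntegrable _ _
    have i2 : IntervalIntegrable (fun x => u x * p.derivative.eval x) volume a b :=
      (hc.mul p.derivative.continuous).intervalIntegrable _ _
    rw [h1, h2, zero_mul, zero_mul, sub_zero, intervalIntegral.integral_add i1 i2] at h3
    linarith
  have i3 : IntervalIntegrable (fun x => w x * f.derivative.derivative.eval x) volume a b :=
    (hw.mul f.derivative.derivative.continuous).intervalIntegrable _ _
  have i4 : IntervalIntegrable (fun x => w x * g.derivative.eval x) volume a b :=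
    (hw.mul g.derivative.continuous).intervalIntegrable _ _
  rw [key w1 w2 f h.d2 h.c2 za.2.1 zb.2.1, key w w1 f.derivative h.d1 hw1 za.1 zb.1,
    key w w1 g h.d1 hw1 za.1 zb.1, neg_neg, ← sub_eq_add_neg,
    ← intervalIntegral.integral_sub i3 i4]
  refine intervalIntegral.integral_congr fun x _ => ?_
  show w x * _ - w x * _ = _
  rw [Polynomial.eval_sub, mul_sub]

theorem thm_PO1 : St_PO1 := by
  intro f g hfg
  by_contra hcon
  rw [not_le] at hcon
  set D := f.derivative.derivative - g.derivative with hD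
  have h0 : D.eval 0 < 0 := by
    rw [hD, Polynomial.eval_sub]
    linarith
  have h1 : ∀ᶠ x in 𝓝 (0 : ℝ), D.eval x < 0 :=
    D.continuous.continuousAt.eventually (gt_mem_nhds h0)
  rw [Metric.eventually_nhds_iff] at h1
  obtain ⟨e, he, h1⟩ := h1
  have ha : 0 < e / 4 := by positivity
  have hab : e / 4 < e / 2 := by linarith
  have ht := po1_tst (e / 4) (e / 2) ha hab
  have h2 := hfg _ _ _ _ _ ht
  rw [po1_ibp ht, ← hD] at h2
  have h3 : ∀ x ∈ Ioo (e / 4) (e / 2),
      0 < -((max 0 ((x - e / 4) * (e / 2 - x))) ^ 3 * D.eval x) := by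
    intro x hx
    have h4 : D.eval x < 0 := h1 (by
      rw [Real.dist_eq, sub_zero, abs_of_pos (ha.trans hx.1)]
      linarith [hx.2])
    have h5 : 0 < (x - e / 4) * (e / 2 - x) :=
      mul_pos (by linarith [hx.1]) (by linarith [hx.2])
    have h6 : 0 < (max 0 ((x - e / 4) * (e / 2 - x))) ^ 3 :=
      pow_pos (lt_max_of_lt_right h5) 3
    rw [neg_pos]
    exact mul_neg_of_pos_of_neg h6 h4
  have h4 : 0 < ∫ x in (e / 4)..(e / 2),
      -((max 0 ((x - e / 4) * (e / 2 - x))) ^ 3 * D.eval x) := by
    refine intervalIntegral.intervalIntegral_pos_of_pos_on ?_ h3 hab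
    refine Continuous.intervalIntegrable ?_ _ _
    have := D.continuous
    fun_prop
  rw [intervalIntegral.integral_neg] at h4
  linarith

end RLW
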