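import Mathlib
import Pool.Agent.RLW.St

/-!
# RLW [POL]: the linear inequality for intrinsic volumes
-/

set_option autoImplicit false

open MeasureTheory Metric Set
open scoped BigOperators Pointwise RealInnerProductSpace NNReal Topology

namespace RLW

/-- the Steiner polynomial -/
private noncomputable def stp (n : ℕ) (V : ℕ → ℝ) : Polynomial ℝ :=
  ∑ j ∈ Finset.range (n + 1), Polynomial.C (kap (n - j) * V j) * Polynomial.X ^ (n - j)

private lemma stp_eval {n : ℕ} (K : Set (E n)) (V : ℕ → ℝ) (h : IsIV K V) (x : ℝ) (hx : 0 ≤ x) :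
    vo K x = (stp n V).eval x := by
  unfold vo stp
  rw [h x hx, Polynomial.eval_finsetSum]
  refine Finset.sum_congr rfl fun j _ => ?_
  simp

private lemma stp_coeff (n k : ℕ) (V : ℕ → ℝ) (hk : k ≤ n) :
    (stp n V).coeff k = kap k * V (n - k) := by
  unfold stp
  rw [Polynomial.finsetSum_coeff, Finset.sum_eq_single (n - k)]
  · rw [Polynomial.coeff_C_mul_X_pow, Nat.sub_sub_self hk, if_pos rfl]
  · intro j hj hne
    rw [Polynomial.coeff_C_mul_X_pow, if_neg]
    have := Finset.mem_range.1 hj
    omega
  · intro h
    exact absurd (Finset.mem_range.2 (by omega)) h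

theorem thm_POL (h_LIM : St_LIM) (h_PO1 : St_PO1) (h_KAP : St_KAP) : St_POL := by
  intro n K V W t hn hK hV hW ht hsin
  have key := h_PO1 (stp (n + 1) V) (∑ j, Polynomial.C (2 * t j) * stp n (W j)) ?_
  · rw [← Polynomial.coeff_zero_eq_eval_zero, ← Polynomial.coeff_zero_eq_eval_zero,
      Polynomial.coeff_derivative, Polynomial.coeff_derivative, Polynomial.coeff_derivative,
      Polynomial.finsetSum_coeff] at key
    have e1 : (stp (n + 1) V).coeff (0 + 1 + 1) = Real.pi * V (n - 1) := by
      rw [stp_coeff (n + 1) (0 + 1 + 1) V (by omega), ← h_KAP.2.2.1]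
      congr 2
    have e2 : ∀ j, (Polynomial.C (2 * t j) * stp n (W j)).coeff (0 + 1) =
        4 * (t j * W j (n - 1)) := by
      intro j
      rw [Polynomial.coeff_C_mul, stp_coeff n (0 + 1) (W j) (by omega)]
      have : kap (0 + 1) = 2 := h_KAP.2.1
      rw [this]
      simp only [zero_add]
      ring
    rw [e1, Finset.sum_congr rfl fun j _ => e2 j, ← Finset.mul_sum] at key
    push_cast at key
    have hpi := Real.pi_pos
    rw [div_mul_eq_mul_div, div_le_iff₀ hpi]
    nlinarith
  · intro a b w w1 w2 hT
    have h := h_LIM n K a b w w1 w2 t hK hT ht hsin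
    have hle : a ≤ b := hT.ab.le
    have e1 : ∫ x in a..b, w2 x * vo K x = ∫ x in a..b, w2 x * (stp (n + 1) V).eval x := by
      refine intervalIntegral.integral_congr fun x hx => ?_
      rw [uIcc_of_le hle] at hx
      show w2 x * vo K x = _
      rw [stp_eval K V hV x (hT.a0.le.trans hx.1)]
    have e2 : ∀ j, ∫ x in a..b, w1 x * vo (prj j '' K) x =
        ∫ x in a..b, w1 x * (stp n (W j)).eval x := by
      intro j
      refine intervalIntegral.integral_congr fun x hx => ?_
      rw [uIcc_of_le hle] at hx
      show w1 x * vo (prj j '' K) x = _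
      rw [stp_eval (prj j '' K) (W j) (hW j) x (hT.a0.le.trans hx.1)]
    have hc1 : Continuous w1 := continuous_iff_continuousAt.2 fun x => (hT.d2 x).continuousAt
    have e3 : ∫ x in a..b, w1 x * (∑ j, Polynomial.C (2 * t j) * stp n (W j)).eval x =
        2 * ∑ j, t j * ∫ x in a..b, w1 x * vo (prj j '' K) x := by
      have e4 : ∀ x, w1 x * (∑ j, Polynomial.C (2 * t j) * stp n (W j)).eval x =
          ∑ j, (2 * t j) * (w1 x * (stp n (W j)).eval x) := by
        intro x
        rw [Polynomial.eval_finsetSum, Finset.mul_sum]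
        refine Finset.sum_congr rfl fun j _ => ?_
        rw [Polynomial.eval_mul, Polynomial.eval_C]
        ring
      rw [intervalIntegral.integral_congr fun x _ => e4 x, intervalIntegral.integral_finsetSum]
      · rw [Finset.mul_sum]
        refine Finset.sum_congr rfl fun j _ => ?_
        rw [intervalIntegral.integral_const_mul, e2 j]
        ring
      · intro j _
        exact (continuous_const.mul (hc1.mul (stp n (W j)).continuous)).intervalIntegrable _ _
    rw [e3, ← e1]
    exact h

end RLW
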