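import Pool.Agent.RLW.St

/-!
# RLW [PRC]: projections of convex bodies, distances on lines
-/

set_option autoImplicit false

open MeasureTheory Metric Set
open scoped BigOperators Pointwise RealInnerProductSpace NNReal

namespace RLW

private theorem prc_prj_apply {n : ℕ} (i : Fin (n + 1)) (x : E (n + 1)) (j : Fin n) :
    prj i x j = x (i.succAbove j) := rfl

private theorem prc_ins_same {n : ℕ} (i : Fin (n + 1)) (s : ℝ) (y : E n) :
    ins i s y i = s := by
  show (i.insertNth s (fun j => y j) : Fin (n + 1) → ℝ) i = s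
  rw [Fin.insertNth_apply_same]

private theorem prc_ins_succ {n : ℕ} (i : Fin (n + 1)) (s : ℝ) (y : E n) (j : Fin n) :
    ins i s y (i.succAbove j) = y j := by
  show (i.insertNth s (fun j => y j) : Fin (n + 1) → ℝ) (i.succAbove j) = y j
  rw [Fin.insertNth_apply_succAbove]

/-- the projection as a linear map -/
private noncomputable def prc_lin {n : ℕ} (i : Fin (n + 1)) : E (n + 1) →ₗ[ℝ] E n where
  toFun x := prj i x
  map_add' x y := by
    ext j
    rw [PiLp.add_apply, prc_prj_apply, prc_prj_apply, prc_prj_apply, PiLp.add_apply]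
  map_smul' c x := by
    ext j
    rw [RingHom.id_apply, PiLp.smul_apply, prc_prj_apply, prc_prj_apply, PiLp.smul_apply]

private theorem prc_dist {n : ℕ} (i : Fin (n + 1)) (s : ℝ) (y : E n) (z : E (n + 1)) :
    dist (ins i s y) z ^ 2 = (s - z i) ^ 2 + dist y (prj i z) ^ 2 := by
  rw [EuclideanSpace.dist_eq, EuclideanSpace.dist_eq,
    Real.sq_sqrt (Finset.sum_nonneg fun j _ => sq_nonneg _),
    Real.sq_sqrt (Finset.sum_nonneg fun j _ => sq_nonneg _), Fin.sum_univ_succAbove _ i,
    prc_ins_same, Real.dist_eq, sq_abs]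
  congr 1
  refine Finset.sum_congr rfl fun j _ => ?_
  rw [prc_ins_succ, prc_prj_apply]

private theorem prc_cb {n : ℕ} (i : Fin (n + 1)) (K : Set (E (n + 1))) (hK : CB K) :
    CB (prj i '' K) where
  cpt := by
    have h1 : Continuous (prc_lin i) := LinearMap.continuous_of_finiteDimensional _
    exact hK.cpt.image h1
  cvx := hK.cvx.linear_image (prc_lin i)
  ne := hK.ne.image _

private theorem prc_le {n : ℕ} (i : Fin (n + 1)) (K : Set (E (n + 1))) (s : ℝ) (y : E n)
    (hK : CB K) : infDist y (prj i '' K) ≤ infDist (ins i s y) K := by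
  rw [le_infDist hK.ne]
  intro z hz
  refine (infDist_le_dist_of_mem (mem_image_of_mem _ hz)).trans ?_
  refine le_of_sq_le_sq ?_ dist_nonneg
  rw [prc_dist]
  nlinarith [sq_nonneg (s - z i)]

theorem thm_PRC : St_PRC where
  cb := fun _ i K hK => prc_cb i K hK
  le := fun _ i K s y hK => prc_le i K s y hK
  eq := by
    intro n i K y hK
    obtain ⟨p, ⟨z, hz, rfl⟩, hp⟩ := (prc_cb i K hK).cpt.exists_infDist_eq_dist
      (prc_cb i K hK).ne y
    refine ⟨z i, le_antisymm ?_ (prc_le i K (z i) y hK)⟩
    rw [hp]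
    refine (infDist_le_dist_of_mem hz).trans ?_
    refine le_of_sq_le_sq ?_ dist_nonneg
    rw [prc_dist, sub_self]
    simp

end RLW
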