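import Mathlib
import Pool.Agent.RLW.StB

/-!
# RLW (MP_f7beb7_gt), module PRD: integrals of product functions
-/

set_option autoImplicit false

open MeasureTheory Metric Set
open scoped BigOperators Pointwise RealInnerProductSpace NNReal Topology

namespace RLW

/-! ### even functions on the line -/

private theorem prd_abs {f : ℝ → ℝ} (hf : IntegrableOn f (Ioi 0)) :
    Integrable (fun x => f |x|) := by
  have h1 : IntegrableOn (fun x => f |x|) (Ioi 0) := by
    refine hf.congr_fun (fun x hx => ?_) measurableSet_Ioi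
    have hx' : 0 < x := hx
    show f x = f |x|
    rw [abs_of_pos hx']
  have h2 : IntegrableOn (fun x => f |x|) (Iic 0) := by
    rw [← Measure.map_neg_eq_self (volume : Measure ℝ)]
    let m : MeasurableEmbedding fun x : ℝ => -x := (Homeomorph.neg ℝ).measurableEmbedding
    rw [m.integrableOn_map_iff]
    simp_rw [Function.comp_def, abs_neg, neg_preimage, neg_Iic, neg_zero]
    exact Iff.mpr integrableOn_Ici_iff_integrableOn_Ioi h1
  rw [← integrableOn_univ, ← Iic_union_Ioi (a := (0 : ℝ))]
  exact h2.union h1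

/-! ### products -/

private theorem prd_prod {n : ℕ} (h : Fin n → ℝ → ℝ) (h0 : ∀ k y, 0 ≤ h k y)
    (hi : ∀ k, Integrable (h k)) :
    ∫⁻ x : E n, ENNReal.ofReal (∏ k, h k (x k)) = ENNReal.ofReal (∏ k, ∫ y, h k y) := by
  have h1 := (EuclideanSpace.volume_preserving_symm_measurableEquiv_toLp (Fin n)).lintegral_comp_emb
    (MeasurableEquiv.measurableEmbedding _) (fun y => ENNReal.ofReal (∏ k, h k (y k)))
  have h2 : ∫⁻ x : E n, ENNReal.ofReal (∏ k, h k (x k)) =
      ∫⁻ y : Fin n → ℝ, ENNReal.ofReal (∏ k, h k (y k)) := h1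
  rw [h2, ← integral_fintype_prod_volume_eq_prod]
  rw [← ofReal_integral_eq_lintegral_ofReal]
  · exact Integrable.fintype_prod hi
  · exact Filter.Eventually.of_forall fun y => Finset.prod_nonneg fun k _ => h0 k (y k)

/-! ### one variable -/

private theorem prd_exp {l : ℝ} (hl : 0 < l) (θ : ℝ) :
    IntegrableOn (fun t => Real.exp (-l * (t - θ) - θ ^ 2)) (Ioi θ) ∧
      ∫ t in Ioi θ, Real.exp (-l * (t - θ) - θ ^ 2) = Real.exp (-θ ^ 2) / l := by
  have h0 : (fun t => Real.exp (-l * (t - θ) - θ ^ 2)) =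
      fun t => Real.exp (l * θ - θ ^ 2) * Real.exp (-l * t) := by
    funext t
    rw [← Real.exp_add]
    congr 1
    ring
  rw [h0]
  refine ⟨(integrableOn_exp_mul_Ioi (by linarith) θ).const_mul _, ?_⟩
  rw [integral_const_mul, integral_exp_mul_Ioi (by linarith), div_neg, neg_div, neg_neg,
    ← mul_div_assoc, ← Real.exp_add]
  congr 2
  ring

/-- the profile -/
private noncomputable def prdH (l θ t : ℝ) : ℝ := Real.exp (-l * max (t - θ) 0 - min t θ ^ 2)

open Classical in
/-- the profile beyond `θ` -/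
private noncomputable def prdK (l θ t : ℝ) : ℝ := (if θ < t then (1 : ℝ) else 0) * prdH l θ t

private theorem prdH_cont (l θ : ℝ) : Continuous (prdH l θ) := by
  unfold prdH
  fun_prop

private theorem prdH_pos (l θ t : ℝ) : 0 < prdH l θ t := Real.exp_pos _

private theorem prdK_nonneg (l θ t : ℝ) : 0 ≤ prdK l θ t := by
  unfold prdK
  refine mul_nonneg ?_ (prdH_pos l θ t).le
  split_ifs <;> norm_num

private theorem prdH_big {l θ t : ℝ} (h : t ∈ Ioi θ) :
    Real.exp (-l * (t - θ) - θ ^ 2) = prdH l θ t := by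
  have h' : θ < t := h
  unfold prdH
  rw [max_eq_left (by linarith), min_eq_right h'.le]

private theorem prdH_int {l : ℝ} (hl : 0 < l) {θ : ℝ} (hθ : 0 < θ) :
    IntegrableOn (prdH l θ) (Ioi 0) ∧ IntegrableOn (prdK l θ) (Ioi 0) ∧
      ∫ t in Ioi (0 : ℝ), prdK l θ t = Real.exp (-θ ^ 2) / l ∧
      ∫ t in Ioi (0 : ℝ), prdH l θ t =
        Real.exp (-θ ^ 2) / l + ∫ t in (0 : ℝ)..θ, Real.exp (-t ^ 2) := by
  obtain ⟨h1, h2⟩ := prd_exp hl θ
  have hH1 : IntegrableOn (prdH l θ) (Ioi θ) :=
    h1.congr_fun (fun t ht => prdH_big ht) measurableSet_Ioi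
  have hH2 : IntegrableOn (prdH l θ) (Ioc 0 θ) :=
    (prdH_cont l θ).continuousOn.integrableOn_Icc.mono_set Ioc_subset_Icc_self
  have hs : Ioc 0 θ ∪ Ioi θ = Ioi 0 := Ioc_union_Ioi_eq_Ioi hθ.le
  have hd : Disjoint (Ioc (0 : ℝ) θ) (Ioi θ) := by
    rw [Set.disjoint_left]
    intro t ht ht'
    exact absurd ht.2 (not_le.mpr ht')
  have hH : IntegrableOn (prdH l θ) (Ioi 0) := by
    rw [← hs]
    exact hH2.union hH1
  have hK1 : IntegrableOn (prdK l θ) (Ioi θ) := by
    refine hH1.congr_fun (fun t ht => ?_) measurableSet_Ioi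
    have ht' : θ < t := ht
    unfold prdK
    rw [if_pos ht', one_mul]
  have hK0 : ∀ t ∈ Ioc 0 θ, prdK l θ t = 0 := by
    intro t ht
    unfold prdK
    rw [if_neg (not_lt.mpr ht.2), zero_mul]
  have hK2 : IntegrableOn (prdK l θ) (Ioc 0 θ) := by
    refine (integrableOn_zero : IntegrableOn (fun _ : ℝ => (0 : ℝ)) (Ioc 0 θ) volume).congr_fun
      (fun t ht => ?_) measurableSet_Ioc
    exact (hK0 t ht).symm
  have hK : IntegrableOn (prdK l θ) (Ioi 0) := by
    rw [← hs]
    exact hK2.union hK1
  have hHv : ∫ t in Ioi θ, prdH l θ t = Real.exp (-θ ^ 2) / l := by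
    rw [← h2]
    exact setIntegral_congr_fun measurableSet_Ioi fun t ht => (prdH_big ht).symm
  refine ⟨hH, hK, ?_, ?_⟩
  · rw [← hs, setIntegral_union hd measurableSet_Ioi hK2 hK1]
    have e1 : ∫ t in Ioc 0 θ, prdK l θ t = 0 := by
      rw [setIntegral_congr_fun measurableSet_Ioc hK0]
      simp
    have e2 : ∫ t in Ioi θ, prdK l θ t = ∫ t in Ioi θ, prdH l θ t := by
      refine setIntegral_congr_fun measurableSet_Ioi fun t ht => ?_
      have ht' : θ < t := ht
      show prdK l θ t = prdH l θ t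
      unfold prdK
      rw [if_pos ht', one_mul]
    rw [e1, e2, hHv, zero_add]
  · rw [← hs, setIntegral_union hd measurableSet_Ioi hH2 hH1, hHv, add_comm,
      intervalIntegral.integral_of_le hθ.le]
    congr 1
    refine setIntegral_congr_fun measurableSet_Ioc fun t ht => ?_
    show prdH l θ t = Real.exp (-t ^ 2)
    unfold prdH
    rw [max_eq_right (by linarith [ht.2]), min_eq_left ht.2, mul_zero, zero_sub]

private theorem prd_Er (θ : ℝ) : Er θ = 2 * ∫ t in (0 : ℝ)..θ, Real.exp (-t ^ 2) := by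
  unfold Er
  have hc : Continuous fun t : ℝ => Real.exp (-t ^ 2) := by fun_prop
  rw [← intervalIntegral.integral_add_adjacent_intervals (b := 0)
    (hc.intervalIntegrable _ _) (hc.intervalIntegrable _ _)]
  have h1 : ∫ t in (-θ)..0, Real.exp (-t ^ 2) = ∫ t in (0 : ℝ)..θ, Real.exp (-t ^ 2) := by
    have h2 := intervalIntegral.integral_comp_neg (a := 0) (b := θ)
      (fun t : ℝ => Real.exp (-t ^ 2))
    simp only [neg_sq, neg_zero] at h2
    exact h2.symm
  rw [h1]
  ring

/-! ### the results -/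

private theorem prd_a (n : ℕ) (l : ℝ) (hl : 0 < l) :
    ∫⁻ x : E n, ENNReal.ofReal (Real.exp (-l * ∑ i, |x i|) / l) =
      ENNReal.ofReal (2 ^ n / l ^ (n + 1)) := by
  have hi : IntegrableOn (fun t => Real.exp (-l * t)) (Ioi 0) :=
    integrableOn_exp_mul_Ioi (by linarith) _
  have hv : ∫ y : ℝ, Real.exp (-l * |y|) = 2 / l := by
    rw [integral_comp_abs (f := fun t => Real.exp (-l * t)), integral_exp_mul_Ioi (by linarith)]
    rw [mul_zero, Real.exp_zero]
    field_simp
  have h1 := prd_prod (n := n) (fun _ y => Real.exp (-l * |y|)) (fun _ y => (Real.exp_pos _).le)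
    (fun _ => prd_abs hi)
  have h2 : (fun x : E n => ENNReal.ofReal (Real.exp (-l * ∑ i, |x i|) / l)) =
      fun x => ENNReal.ofReal (∏ k, Real.exp (-l * |x k|)) * ENNReal.ofReal (1 / l) := by
    funext x
    rw [← ENNReal.ofReal_mul (Finset.prod_nonneg fun k _ => (Real.exp_pos _).le),
      ← Real.exp_sum, ← Finset.mul_sum, mul_one_div]
  rw [h2, lintegral_mul_const']
  · rw [h1, ← ENNReal.ofReal_mul (Finset.prod_nonneg fun k _ => by rw [hv]; positivity)]
    congr 1
    simp only [hv, Finset.prod_const, Finset.card_univ, Fintype.card_fin]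
    rw [div_pow, pow_succ]
    field_simp
  · exact ENNReal.ofReal_ne_top

open Classical in
private theorem prd_b (n : ℕ) (l θ : ℝ) (hl : 0 < l) (hθ : 0 < θ) :
    ∫⁻ x : E n, ENNReal.ofReal (dn l x θ) = ENNReal.ofReal (dI n l θ) := by
  obtain ⟨hH, hK, hKv, hHv⟩ := prdH_int hl hθ
  have hA : ∫ y : ℝ, prdK l θ |y| = 2 * Real.exp (-θ ^ 2) / l := by
    rw [integral_comp_abs (f := prdK l θ), hKv, mul_div_assoc]
  have hB : ∫ y : ℝ, prdH l θ |y| = 2 * Real.exp (-θ ^ 2) / l + Er θ := by
    rw [integral_comp_abs (f := prdH l θ), hHv, mul_add, mul_div_assoc, prd_Er]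
  have hA0 : 0 ≤ 2 * Real.exp (-θ ^ 2) / l := by positivity
  have hB0 : 0 ≤ 2 * Real.exp (-θ ^ 2) / l + Er θ := by
    rw [← hB]
    exact integral_nonneg fun y => (prdH_pos l θ _).le
  have h1 : ∀ x : E n, dn l x θ =
      ∑ i, ∏ k, (if k = i then prdK l θ |x k| else prdH l θ |x k|) := by
    intro x
    unfold dn
    rw [Finset.sum_mul]
    refine Finset.sum_congr rfl fun i _ => ?_
    have h2 : ∀ k, (if k = i then prdK l θ |x k| else prdH l θ |x k|) =
        (if k = i then (if θ < |x k| then (1 : ℝ) else 0) else 1) * prdH l θ |x k| := by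
      intro k
      by_cases hk : k = i
      · rw [if_pos hk, if_pos hk]
        rfl
      · rw [if_neg hk, if_neg hk, one_mul]
    rw [Finset.prod_congr rfl fun k _ => h2 k, Finset.prod_mul_distrib, Finset.prod_ite_eq',
      if_pos (Finset.mem_univ i)]
    rfl
  have hnn : ∀ (i k : Fin n) (y : ℝ), 0 ≤ if k = i then prdK l θ |y| else prdH l θ |y| := by
    intro i k y
    split_ifs
    · exact prdK_nonneg l θ _
    · exact (prdH_pos l θ _).le
  have h3 : ∀ i : Fin n, ∫⁻ x : E n, ENNReal.ofReal
      (∏ k, (if k = i then prdK l θ |x k| else prdH l θ |x k|)) =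
        ENNReal.ofReal ((2 * Real.exp (-θ ^ 2) / l) *
          (2 * Real.exp (-θ ^ 2) / l + Er θ) ^ (n - 1)) := by
    intro i
    have h4 := prd_prod (n := n) (fun k y => if k = i then prdK l θ |y| else prdH l θ |y|)
      (hnn i) (fun k => by
        by_cases hk : k = i
        · simp only [if_pos hk]
          exact prd_abs hK
        · simp only [if_neg hk]
          exact prd_abs hH)
    refine h4.trans ?_
    congr 1
    rw [← Finset.mul_prod_erase Finset.univ _ (Finset.mem_univ i)]
    simp only [if_true]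
    rw [hA]
    congr 1
    rw [Finset.prod_congr rfl (g := fun _ => 2 * Real.exp (-θ ^ 2) / l + Er θ), Finset.prod_const,
      Finset.card_erase_of_mem (Finset.mem_univ i), Finset.card_univ, Fintype.card_fin]
    intro k hk
    simp only [if_neg (Finset.ne_of_mem_erase hk)]
    exact hB
  have hm : ∀ i : Fin n, Measurable fun x : E n => ENNReal.ofReal
      (∏ k, (if k = i then prdK l θ |x k| else prdH l θ |x k|)) := by
    intro i
    refine ENNReal.measurable_ofReal.comp ?_
    refine Finset.measurable_prod _ fun k _ => ?_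
    have hmk : Measurable fun x : E n => |x k| := by fun_prop
    by_cases hk : k = i
    · simp only [if_pos hk]
      unfold prdK
      refine Measurable.mul ?_ ((prdH_cont l θ).measurable.comp hmk)
      exact Measurable.ite (measurableSet_lt measurable_const hmk) measurable_const
        measurable_const
    · simp only [if_neg hk]
      exact (prdH_cont l θ).measurable.comp hmk
  have h5 : (fun x : E n => ENNReal.ofReal (dn l x θ)) = fun x => ∑ i, ENNReal.ofReal
      (∏ k, (if k = i then prdK l θ |x k| else prdH l θ |x k|)) := by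
    funext x
    rw [h1 x, ENNReal.ofReal_sum_of_nonneg]
    intro i _
    exact Finset.prod_nonneg fun k _ => hnn i k _
  rw [h5, lintegral_finsetSum _ fun i _ => hm i, Finset.sum_congr rfl fun i _ => h3 i,
    ← ENNReal.ofReal_sum_of_nonneg]
  · congr 1
    rw [Finset.sum_const, Finset.card_univ, Fintype.card_fin, nsmul_eq_mul]
    unfold dI
    ring
  · intro i _
    positivity

theorem thm_PRD : St_PRD := ⟨prd_a, prd_b⟩

end RLW
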