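import Pool.Agent.RLW.StB

/-!
# RLW (MP_f7beb7_gt), module SCV: intrinsic volumes, scaling and translations
-/

set_option autoImplicit false

open MeasureTheory Metric Set
open scoped BigOperators Pointwise RealInnerProductSpace NNReal Topology

namespace RLW

private lemma scv_sc (n : ℕ) (K : Set (E n)) (V : ℕ → ℝ) (r : ℝ) (hr : 0 < r) (h : IsIV K V) :
    IsIV (r • K) fun j => r ^ j * V j := by
  intro t ht
  have h1 : r • K + closedBall (0 : E n) t = r • (K + closedBall (0 : E n) (t / r)) := by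
    rw [smul_add, smul_closedBall r (0 : E n) (div_nonneg ht hr.le), smul_zero,
      Real.norm_of_nonneg hr.le, mul_div_cancel₀ t hr.ne']
  have h2 := h (t / r) (div_nonneg ht hr.le)
  rw [h1, Measure.addHaar_smul, ENNReal.toReal_mul, h2, ENNReal.toReal_ofReal (abs_nonneg _),
    finrank_euclideanSpace, Fintype.card_fin, abs_of_nonneg (pow_nonneg hr.le n), Finset.mul_sum]
  refine Finset.sum_congr rfl fun j hj => ?_
  have hj' : j ≤ n := Nat.lt_succ_iff.mp (Finset.mem_range.mp hj)
  have h3 : r ^ n = r ^ j * r ^ (n - j) := by rw [← pow_add, Nat.add_sub_cancel' hj']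
  rw [h3, div_pow]
  field_simp

private lemma scv_tr (n : ℕ) (K : Set (E n)) (V : ℕ → ℝ) (a : E n)
    (h : IsIV ((fun x => a + x) '' K) V) : IsIV K V := by
  intro t ht
  rw [← h t ht]
  have h1 : (fun x => a + x) '' K + closedBall (0 : E n) t =
      (fun x => a + x) '' (K + closedBall (0 : E n) t) := by
    ext z
    simp only [Set.mem_add, Set.mem_image]
    constructor
    · rintro ⟨_, ⟨x, hx, rfl⟩, y, hy, rfl⟩
      exact ⟨x + y, ⟨x, hx, y, hy, rfl⟩, (add_assoc a x y).symm⟩
    · rintro ⟨_, ⟨x, hx, y, hy, rfl⟩, rfl⟩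
      exact ⟨a + x, ⟨x, hx, rfl⟩, y, hy, add_assoc a x y⟩
  rw [h1, Set.image_add_left, measure_preimage_add]

theorem thm_SCV : St_SCV := ⟨scv_sc, scv_tr⟩

end RLW
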