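import Pool.Agent.RLW.St

/-! # RLW [SGN]: regularised signs exist -/

set_option autoImplicit false

open MeasureTheory Metric Set

namespace RLW

private noncomputable def mf (η : ℝ) (x : ℝ) : ℝ := max 0 (3 / (2 * η) * (1 - (x / η) ^ 2))

private noncomputable def sf (η : ℝ) (x : ℝ) : ℝ := ∫ y in (0 : ℝ)..x, mf η y

private noncomputable def pf (η : ℝ) (x : ℝ) : ℝ := ∫ y in (0 : ℝ)..x, sf η y

private theorem mf_cont (η : ℝ) : Continuous (mf η) := by
  unfold mf
  exact continuous_const.max (continuous_const.mul (continuous_const.sub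
    ((continuous_id.div_const η).pow 2)))

private theorem mf_nonneg (η x : ℝ) : 0 ≤ mf η x := le_max_left _ _

private theorem mf_even (η x : ℝ) : mf η (-x) = mf η x := by
  unfold mf
  rw [neg_div, neg_sq]

private theorem mf_zero {η : ℝ} (hη : 0 < η) {x : ℝ} (hx : η ≤ |x|) : mf η x = 0 := by
  unfold mf
  apply max_eq_left
  have h1 : 1 ≤ (x / η) ^ 2 := by
    rw [← sq_abs, abs_div, abs_of_pos hη]
    have : 1 ≤ |x| / η := by rwa [le_div_iff₀ hη, one_mul]
    nlinarith
  have h2 : 0 < 3 / (2 * η) := by positivity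
  nlinarith

private theorem mf_bound {η : ℝ} (hη : 0 < η) (x : ℝ) : mf η x ≤ 3 / (2 * η) := by
  unfold mf
  have h2 : 0 < 3 / (2 * η) := by positivity
  apply max_le h2.le
  nlinarith [sq_nonneg (x / η)]

private theorem mf_eq {η : ℝ} (hη : 0 < η) {x : ℝ} (h0 : 0 ≤ x) (hx : x ≤ η) :
    mf η x = 3 / (2 * η) * (1 - (x / η) ^ 2) := by
  unfold mf
  apply max_eq_right
  have h1 : (x / η) ^ 2 ≤ 1 := by
    have : x / η ≤ 1 := by rwa [div_le_one hη]
    have h0' : 0 ≤ x / η := by positivity
    nlinarith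
  have h2 : 0 < 3 / (2 * η) := by positivity
  nlinarith

private theorem sf_der (η x : ℝ) : HasDerivAt (sf η) (mf η x) x :=
  ((mf_cont η).integral_hasStrictDerivAt 0 x).hasDerivAt

private theorem sf_cont (η : ℝ) : Continuous (sf η) :=
  continuous_iff_continuousAt.2 fun x => (sf_der η x).continuousAt

private theorem pf_der (η x : ℝ) : HasDerivAt (pf η) (sf η x) x :=
  ((sf_cont η).integral_hasStrictDerivAt 0 x).hasDerivAt

private theorem sf_mono (η : ℝ) : Monotone (sf η) :=
  monotone_of_hasDerivAt_nonneg (fun x => sf_der η x) (fun x => mf_nonneg η x)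

private theorem sf_odd (η x : ℝ) : sf η (-x) = - sf η x := by
  unfold sf
  have h := intervalIntegral.integral_comp_neg (a := 0) (b := x) (mf η)
  rw [neg_zero] at h
  rw [intervalIntegral.integral_symm, ← h]
  congr 1
  exact intervalIntegral.integral_congr fun y _ => mf_even η y

private theorem pf_even (η x : ℝ) : pf η (-x) = pf η x := by
  unfold pf
  have h := intervalIntegral.integral_comp_neg (a := 0) (b := x) (sf η)
  rw [neg_zero] at h
  rw [intervalIntegral.integral_symm, ← h, ← intervalIntegral.integral_neg]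
  refine intervalIntegral.integral_congr fun y _ => ?_
  simp only [sf_odd, neg_neg]

private theorem sf_zero (η : ℝ) : sf η 0 = 0 := by
  unfold sf
  exact intervalIntegral.integral_same

private theorem pf_zero (η : ℝ) : pf η 0 = 0 := by
  unfold pf
  exact intervalIntegral.integral_same

private theorem sf_eta {η : ℝ} (hη : 0 < η) : sf η η = 1 := by
  unfold sf
  have h1 : ∫ y in (0 : ℝ)..η, mf η y = ∫ y in (0 : ℝ)..η, 3 / (2 * η) * (1 - (y / η) ^ 2) := by
    refine intervalIntegral.integral_congr fun y hy => ?_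
    rw [uIcc_of_le hη.le] at hy
    exact mf_eq hη hy.1 hy.2
  rw [h1]
  have h2 : ∀ y ∈ uIcc 0 η, HasDerivAt (fun y => 3 / (2 * η) * (y - y ^ 3 / (3 * η ^ 2)))
      (3 / (2 * η) * (1 - (y / η) ^ 2)) y := by
    intro y _
    have h3 : HasDerivAt (fun y : ℝ => y - y ^ 3 / (3 * η ^ 2)) (1 - 3 * y ^ 2 / (3 * η ^ 2)) y := by
      have h4 := (hasDerivAt_pow 3 y).div_const (3 * η ^ 2)
      have h5 : HasDerivAt (fun y : ℝ => y - y ^ 3 / (3 * η ^ 2))
          (1 - ((3 : ℕ) : ℝ) * y ^ (3 - 1) / (3 * η ^ 2)) y := (hasDerivAt_id' y).sub h4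
      have h6 : (1 - ((3 : ℕ) : ℝ) * y ^ (3 - 1) / (3 * η ^ 2)) = 1 - 3 * y ^ 2 / (3 * η ^ 2) := by
        norm_num
      rwa [h6] at h5
    have h6 := h3.const_mul (3 / (2 * η))
    have h7 : 3 * y ^ 2 / (3 * η ^ 2) = (y / η) ^ 2 := by
      rw [div_pow]
      field_simp
    rwa [h7] at h6
  rw [intervalIntegral.integral_eq_sub_of_hasDerivAt h2]
  · field_simp
    ring
  · apply Continuous.intervalIntegrable
    exact continuous_const.mul (continuous_const.sub ((continuous_id.div_const η).pow 2))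

private theorem sf_of_ge {η : ℝ} (hη : 0 < η) {x : ℝ} (hx : η ≤ x) : sf η x = 1 := by
  have h1 : sf η x = sf η η + ∫ y in η..x, mf η y := by
    unfold sf
    rw [intervalIntegral.integral_add_adjacent_intervals]
    · exact (mf_cont η).intervalIntegrable _ _
    · exact (mf_cont η).intervalIntegrable _ _
  have h2 : ∫ y in η..x, mf η y = ∫ y in η..x, (0 : ℝ) := by
    refine intervalIntegral.integral_congr fun y hy => ?_
    rw [uIcc_of_le hx] at hy
    exact mf_zero hη (hy.1.trans (le_abs_self y))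
  rw [h1, h2, sf_eta hη]
  simp

private theorem sf_le {η : ℝ} (hη : 0 < η) (x : ℝ) : sf η x ≤ 1 := by
  rcases le_total η x with h | h
  · exact (sf_of_ge hη h).le
  · rw [← sf_eta hη]
    exact sf_mono η h

private theorem sf_abs {η : ℝ} (hη : 0 < η) (x : ℝ) : |sf η x| ≤ 1 := by
  rw [abs_le]
  refine ⟨?_, sf_le hη x⟩
  have h := sf_le hη (-x)
  rw [sf_odd] at h
  linarith

private theorem sf_nonneg (η : ℝ) {x : ℝ} (hx : 0 ≤ x) : 0 ≤ sf η x := by
  rw [← sf_zero η]
  exact sf_mono η hx

private theorem pf_nonneg (η : ℝ) {x : ℝ} (hx : 0 ≤ x) : 0 ≤ pf η x := by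
  unfold pf
  exact intervalIntegral.integral_nonneg hx fun y hy => sf_nonneg η hy.1

private theorem pf_le (η : ℝ) {x : ℝ} (hx : 0 ≤ x) : pf η x ≤ x * sf η x := by
  have h : pf η x ≤ ∫ y in (0 : ℝ)..x, sf η x := by
    unfold pf
    refine intervalIntegral.integral_mono_on hx ((sf_cont η).intervalIntegrable _ _)
      (continuous_const.intervalIntegrable _ _) fun y hy => sf_mono η hy.2
  rwa [intervalIntegral.integral_const, sub_zero, smul_eq_mul] at h

private theorem pf_ge {η : ℝ} (hη : 0 < η) {x : ℝ} (hx : η ≤ x) : x - η ≤ pf η x := by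
  have h1 : pf η x = pf η η + ∫ y in η..x, sf η y := by
    unfold pf
    rw [intervalIntegral.integral_add_adjacent_intervals]
    · exact (sf_cont η).intervalIntegrable _ _
    · exact (sf_cont η).intervalIntegrable _ _
  have h2 : ∫ y in η..x, sf η y = ∫ y in η..x, (1 : ℝ) := by
    refine intervalIntegral.integral_congr fun y hy => ?_
    rw [uIcc_of_le hx] at hy
    exact sf_of_ge hη hy.1
  rw [h1, h2, intervalIntegral.integral_const, smul_eq_mul, mul_one]
  linarith [pf_nonneg η hη.le]

private theorem half {η : ℝ} (hη : 0 < η) {x : ℝ} (hx : 0 ≤ x) :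
    0 ≤ pf η x ∧ pf η x ≤ x * sf η x ∧ x * sf η x ≤ pf η x + η ∧ x * sf η x ≤ |x| ∧
      |x| ≤ x * sf η x + η := by
  have h1 := pf_nonneg η hx
  have h2 := pf_le η hx
  have h3 : x * sf η x ≤ x := by
    calc x * sf η x ≤ x * 1 := mul_le_mul_of_nonneg_left (sf_le hη x) hx
      _ = x := mul_one x
  have h4 : 0 ≤ x * sf η x := mul_nonneg hx (sf_nonneg η hx)
  rw [abs_of_nonneg hx]
  refine ⟨h1, h2, ?_, h3, ?_⟩
  · rcases le_total η x with h | h
    · have := pf_ge hη h
      linarith
    · linarith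
  · rcases le_total η x with h | h
    · rw [sf_of_ge hη h]
      linarith
    · linarith

private theorem full {η : ℝ} (hη : 0 < η) (x : ℝ) :
    0 ≤ pf η x ∧ pf η x ≤ x * sf η x ∧ x * sf η x ≤ pf η x + η ∧ x * sf η x ≤ |x| ∧
      |x| ≤ x * sf η x + η := by
  rcases le_total 0 x with h | h
  · exact half hη h
  · have h1 := half hη (x := -x) (by linarith)
    rwa [pf_even, sf_odd, neg_mul_neg, abs_neg] at h1

theorem thm_SGN : St_SGN := by
  intro η hη
  exact ⟨sf η, mf η, pf η,
    { dΦ := pf_der η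
      ds := sf_der η
      s1n := mf_nonneg η
      s1z := fun x hx => mf_zero hη hx
      s1b := ⟨3 / (2 * η), mf_bound hη⟩
      s1c := mf_cont η
      sb := sf_abs hη
      Φn := fun x => (full hη x).1
      Φs := fun x => (full hη x).2.1
      Φl := fun x => (full hη x).2.2.1
      xs := fun x => (full hη x).2.2.2.1
      xl := fun x => (full hη x).2.2.2.2 }⟩

end RLW
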