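import Pool.Agent.RLW.St

/-!
# RLW, module SLC: the integral over one line
-/

set_option autoImplicit false

open MeasureTheory Metric Set
open scoped BigOperators Pointwise RealInnerProductSpace NNReal Topology

namespace RLW

private theorem SLC_ins {n : ℕ} (i : Fin (n + 1)) (s : ℝ) (y : E n) :
    ins i s y = ins i 0 y + s • (EuclideanSpace.single i (1 : ℝ) : E (n + 1)) := by
  ext k
  rcases Fin.eq_self_or_eq_succAbove i k with h | ⟨j, h⟩
  · subst h
    simp [ins]
  · subst h
    simp [ins]

private theorem SLC_sub {n : ℕ} (i : Fin (n + 1)) (s t : ℝ) (y : E n) :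
    ins i t y - ins i s y = (t - s) • (EuclideanSpace.single i (1 : ℝ) : E (n + 1)) := by
  rw [SLC_ins i t, SLC_ins i s, sub_smul]
  abel

private theorem SLC_der {n : ℕ} (i : Fin (n + 1)) (s : ℝ) (y : E n) :
    HasDerivAt (fun s => ins i s y) (EuclideanSpace.single i (1 : ℝ) : E (n + 1)) s := by
  have h1 : (fun s => ins i s y) =
      fun s : ℝ => ins i 0 y + s • (EuclideanSpace.single i (1 : ℝ) : E (n + 1)) := by
    funext s
    exact SLC_ins i s y
  rw [h1]
  have h2 := ((hasDerivAt_id s).smul_const
    (EuclideanSpace.single i (1 : ℝ) : E (n + 1))).const_add (ins i 0 y)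
  rw [one_smul] at h2
  exact h2

private theorem SLC_cont {n : ℕ} (i : Fin (n + 1)) (y : E n) :
    Continuous fun s : ℝ => ins i s y :=
  continuous_iff_continuousAt.2 fun s => (SLC_der i s y).continuousAt

private theorem SLC_emb {n : ℕ} (i : Fin (n + 1)) (y : E n) :
    Topology.IsClosedEmbedding fun s : ℝ => ins i s y := by
  have hiso : Isometry fun s : ℝ => ins i s y := by
    refine Isometry.of_dist_eq fun s t => ?_
    rw [dist_comm, dist_eq_norm, SLC_sub, norm_smul, EuclideanSpace.norm_single, norm_one,
      mul_one, dist_comm, dist_eq_norm]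
  exact hiso.isClosedEmbedding

theorem thm_SLC (h_NUB : St_NUB) (h_PRC : St_PRC) (h_CTS : St_CTS) : St_SLC := by
  intro n i K a b w w1 w2 y hK hw
  have hwc : Continuous w := continuous_iff_continuousAt.2 fun s => (hw.d1 s).continuousAt
  have hw1c : Continuous w1 := continuous_iff_continuousAt.2 fun s => (hw.d2 s).continuousAt
  set e : E (n + 1) := EuclideanSpace.single i (1 : ℝ) with he
  set p : ℝ → E (n + 1) := fun s => ins i s y with hp
  have hpc : Continuous p := SLC_cont i y
  have hpe : Topology.IsClosedEmbedding p := SLC_emb i y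
  obtain ⟨s0, hs0⟩ := h_PRC.eq n i K y hK
  have hmin : ∀ s, infDist (p s0) K ≤ infDist (p s) K := by
    intro s
    have := h_PRC.le n i K s y hK
    rw [← hs0] at this
    exact this
  -- the function on the line
  set k : ℝ → ℝ := fun s => w (infDist (p s) K) with hk
  have hin : ∀ x : E (n + 1), ⟪x, e⟫ = x i := by
    intro x
    rw [he, real_inner_comm, EuclideanSpace.inner_single_left]
    simp
  have hder : ∀ s, HasDerivAt k (w1 (infDist (p s) K) * nu K (p s) i) s := by
    intro s
    by_cases hx : p s ∈ K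
    · have h0 : infDist (p s) K = 0 := infDist_zero_of_mem hx
      have hz : w1 (infDist (p s) K) = 0 := by
        rw [h0]
        exact (hw.z 0 fun h => absurd h.1 (not_lt.2 hw.a0.le)).2.1
      rw [hz, zero_mul]
      have hcont : ContinuousAt (fun s => infDist (p s) K) s :=
        ((continuous_infDist_pt K).comp hpc).continuousAt
      have hlt : infDist (p s) K < a := by
        rw [h0]
        exact hw.a0
      have hev : ∀ᶠ t in 𝓝 s, k t = 0 := by
        filter_upwards [hcont.eventually_lt_const hlt] with t ht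
        exact (hw.z _ fun h => absurd h.1 (not_lt.2 ht.le)).1
      exact (hasDerivAt_const s (0 : ℝ)).congr_of_eventuallyEq hev
    · have h1 := h_NUB.der (n + 1) K (p s) hK hx
      have h2 : HasDerivAt p e s := SLC_der i s y
      have h3 : HasDerivAt (fun s => infDist (p s) K) (innerSL ℝ (nu K (p s)) e) s :=
        h1.comp_hasDerivAt s h2
      have h4 : innerSL ℝ (nu K (p s)) e = nu K (p s) i := hin _
      rw [h4] at h3
      exact (hw.d1 _).comp s h3
  have hsup1 : ∀ s, s ∉ Ioo a b → w1 s = 0 := fun s hs => (hw.z s hs).2.1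
  have hsup0 : ∀ s, s ∉ Ioo a b → w s = 0 := fun s hs => (hw.z s hs).1
  have c1 := h_CTS (n + 1) K w1 (fun u => u i) a b hK hw.a0 hw1c hsup1 (by fun_prop)
  have c2 := h_CTS (n + 1) K w1 (fun u => |u i|) a b hK hw.a0 hw1c hsup1 (by fun_prop)
  have c3 := h_CTS (n + 1) K w (fun _ => 1) a b hK hw.a0 hwc hsup0 (by fun_prop)
  have hdk : deriv k = fun s => w1 (infDist (p s) K) * nu K (p s) i :=
    funext fun s => (hder s).deriv
  have hkC : ContDiff ℝ 1 k := by
    rw [contDiff_one_iff_deriv]
    refine ⟨fun s => (hder s).differentiableAt, ?_⟩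
    rw [hdk]
    exact c1.1.comp hpc
  have hkS : HasCompactSupport k := by
    have h1 := c3.2.1.comp_isClosedEmbedding hpe
    have h2 : ((fun x : E (n + 1) => w (infDist x K) * 1) ∘ p) = k := by
      funext s
      simp [hk]
    rw [h2] at h1
    exact h1
  -- integrability
  have hint : Integrable fun s => w1 (infDist (p s) K) * |nu K (p s) i| := by
    have h1 := (c2.1.comp hpc).integrable_of_hasCompactSupport (μ := volume)
      (c2.2.1.comp_isClosedEmbedding hpe)
    exact h1
  -- signs
  have hsg : ∀ s, p s ∉ K → 0 ≤ nu K (p s) i * (s - s0) := by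
    intro s hx
    have h1 := h_NUB.sub (n + 1) K (p s) (p s0) hK hx
    have h2 : p s0 - p s = (s0 - s) • e := SLC_sub i s s0 y
    rw [h2, real_inner_smul_right, hin] at h1
    have h3 := hmin s
    linarith
  have hz : ∀ s, p s ∈ K → w1 (infDist (p s) K) = 0 := by
    intro s hx
    rw [infDist_zero_of_mem hx]
    exact (hw.z 0 fun h => absurd h.1 (not_lt.2 hw.a0.le)).2.1
  have hR : ∫ s in Ioi s0, w1 (infDist (p s) K) * |nu K (p s) i| = -k s0 := by
    rw [← hkS.integral_Ioi_deriv_eq hkC s0, hdk]
    refine setIntegral_congr_fun measurableSet_Ioi fun s hs => ?_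
    simp only
    by_cases hx : p s ∈ K
    · rw [hz s hx, zero_mul, zero_mul]
    · have h1 : 0 ≤ nu K (p s) i :=
        nonneg_of_mul_nonneg_left (hsg s hx) (sub_pos.2 hs)
      rw [abs_of_nonneg h1]
  have hL : ∫ s in Iic s0, w1 (infDist (p s) K) * |nu K (p s) i| = -k s0 := by
    rw [integral_Iic_eq_integral_Iio]
    have h0 : ∫ s in Iio s0, w1 (infDist (p s) K) * |nu K (p s) i| =
        ∫ s in Iio s0, -(w1 (infDist (p s) K) * nu K (p s) i) := by
      refine setIntegral_congr_fun measurableSet_Iio fun s hs => ?_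
      simp only
      by_cases hx : p s ∈ K
      · rw [hz s hx, zero_mul, zero_mul, neg_zero]
      · have h1 : nu K (p s) i ≤ 0 := by
          by_contra hc
          have h2 := mul_neg_of_pos_of_neg (not_le.1 hc) (sub_neg.2 hs)
          linarith [hsg s hx]
        rw [abs_of_nonpos h1]
        ring
    rw [h0, integral_neg, ← integral_Iic_eq_integral_Iio]
    have h1 := hkS.integral_Iic_deriv_eq hkC s0
    rw [hdk] at h1
    rw [h1]
  have hsum := intervalIntegral.integral_Iic_add_Ioi (b := s0) hint.integrableOn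
    hint.integrableOn
  rw [hL, hR] at hsum
  have hfin : k s0 = w (infDist y (prj i '' K)) := by
    rw [hk]
    simp only
    rw [hp]
    simp only
    rw [hs0]
  rw [hfin] at hsum
  rw [← hsum]
  ring

end RLW
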