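import Pool.Agent.RLW.St

/-!
# RLW [SLI]: the integral of `w1 (δ) |ν i|`
-/

set_option autoImplicit false

open MeasureTheory Metric Set
open scoped BigOperators Pointwise RealInnerProductSpace NNReal Topology

namespace RLW

theorem thm_SLI (h_FUB : St_FUB) (h_SLC : St_SLC) (h_LAY : St_LAY) (h_PRC : St_PRC)
    (h_CTS : St_CTS) : St_SLI := by
  intro n i K a b w w1 w2 hK hw
  have hw1c : Continuous w1 := continuous_iff_continuousAt.2 fun s => (hw.d2 s).continuousAt
  have hh : ContinuousOn (fun u : E (n + 1) => |u i|) (sphere 0 1) := by fun_prop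
  have hint := (h_CTS (n + 1) K w1 (fun u => |u i|) a b hK hw.a0 hw1c
    (fun s hs => (hw.z s hs).2.1) hh).2.2
  have h1 := h_FUB n i _ hint
  have h2 : ∀ y : E n, ∫ s : ℝ, w1 (infDist (ins i s y) K) * |nu K (ins i s y) i| =
      -2 * w (infDist y (prj i '' K)) := fun y => h_SLC n i K a b w w1 w2 y hK hw
  have h3 : ∫ y : E n, ∫ s : ℝ, w1 (infDist (ins i s y) K) * |nu K (ins i s y) i| =
      ∫ y : E n, -2 * w (infDist y (prj i '' K)) := by
    simp only [h2]
  have h4 := h_LAY n (prj i '' K) a b w w1 (h_PRC.cb n i K hK) hw.a0 hw.ab hw.d1 hw1c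
    (fun s hs => (hw.z s hs).1)
  calc ∫ x : E (n + 1), w1 (infDist x K) * |nu K x i|
      = ∫ y : E n, ∫ s : ℝ, w1 (infDist (ins i s y) K) * |nu K (ins i s y) i| := h1
    _ = ∫ y : E n, -2 * w (infDist y (prj i '' K)) := h3
    _ = -2 * ∫ y : E n, w (infDist y (prj i '' K)) := integral_const_mul _ _
    _ = 2 * ∫ s in a..b, w1 s * vo (prj i '' K) s := by
        rw [h4]
        ring

end RLW
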