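import Pool.Agent.RLW.St

/-!
# RLW, module VAL: the normal part of the field
-/

set_option autoImplicit false

open MeasureTheory Metric Set
open scoped BigOperators Pointwise RealInnerProductSpace NNReal Topology

namespace RLW

private theorem VAL_inner {n : ℕ} (u v : E n) : (⟪u, v⟫ : ℝ) = ∑ j, u j * v j := by
  rw [PiLp.inner_apply]
  refine Finset.sum_congr rfl fun j _ => ?_
  simp [mul_comm]

private theorem VAL_sq {n : ℕ} {u : E n} (hu : ‖u‖ = 1) : ∑ j, u j ^ 2 = 1 := by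
  have h1 := EuclideanSpace.real_norm_sq_eq u
  rw [hu] at h1
  rw [← h1]
  norm_num

private theorem VAL_cq {n : ℕ} {η : ℝ} {s s1 Φ : ℝ → ℝ} {q τ : Fin n → ℝ} {u : E n}
    (hs : Sg η s s1 Φ) (hA : Adm η q τ) (hu : ‖u‖ = 1) :
    0 ≤ cq Φ q u ∧ cq Φ q u < 1 := by
  constructor
  · exact Finset.sum_nonneg fun j _ => mul_nonneg (hA.q0 j) (hs.Φn _)
  · have h1 : cq Φ q u ≤ ∑ j, q j * |u j| :=
      Finset.sum_le_sum fun j _ => mul_le_mul_of_nonneg_left
        ((hs.Φs (u j)).trans (hs.xs (u j))) (hA.q0 j)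
    have h2 : (∑ j, q j * |u j|) ^ 2 ≤ (∑ j, q j ^ 2) * ∑ j, |u j| ^ 2 :=
      Finset.sum_mul_sq_le_sq_mul_sq _ _ _
    have h3 : ∑ j, |u j| ^ 2 = 1 := by
      simp only [sq_abs]
      exact VAL_sq hu
    rw [h3, mul_one] at h2
    have h4 : (∑ j, q j * |u j|) ^ 2 < 1 := lt_of_le_of_lt h2 hA.q1
    have h5 : ∑ j, q j * |u j| < 1 := by
      by_contra hc
      push Not at hc
      nlinarith
    exact lt_of_le_of_lt h1 h5

theorem thm_VAL (h_LMB : St_LMB) : St_VAL := by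
  intro n η s s1 Φ q τ u hs hA hu
  obtain ⟨hc0, hc1⟩ := VAL_cq hs hA hu
  obtain ⟨hL0, hL1⟩ := h_LMB.pos _ hc0 hc1
  set c := cq Φ q u with hc
  set L := lam c with hL
  have hin : (⟪u, fld s Φ q τ u⟫ : ℝ) = (1 - c * L) + L * (∑ j, q j * (u j * s (u j))) -
      ∑ j, τ j * (u j * s (u j)) := by
    rw [VAL_inner]
    have h1 : ∀ j, u j * fld s Φ q τ u j = (1 - c * L) * u j ^ 2 +
        L * (q j * (u j * s (u j))) - τ j * (u j * s (u j)) := by
      intro j
      change u j * ((1 - cq Φ q u * lam (cq Φ q u)) * u j +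
        s (u j) * (lam (cq Φ q u) * q j - τ j)) = _
      rw [← hc, ← hL]
      ring
    rw [Finset.sum_congr rfl fun j _ => h1 j, Finset.sum_sub_distrib, Finset.sum_add_distrib,
      ← Finset.mul_sum, ← Finset.mul_sum, VAL_sq hu, mul_one]
  have hdiff : (⟪u, fld s Φ q τ u⟫ : ℝ) - (1 - ∑ j, τ j * |u j|) =
      L * (∑ j, q j * (u j * s (u j) - Φ (u j))) + ∑ j, τ j * (|u j| - u j * s (u j)) := by
    rw [hin]
    have e1 : ∑ j, q j * (u j * s (u j) - Φ (u j)) = ∑ j, q j * (u j * s (u j)) - c := by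
      rw [hc]
      unfold cq
      rw [← Finset.sum_sub_distrib]
      exact Finset.sum_congr rfl fun j _ => by ring
    have e2 : ∑ j, τ j * (|u j| - u j * s (u j)) =
        ∑ j, τ j * |u j| - ∑ j, τ j * (u j * s (u j)) := by
      rw [← Finset.sum_sub_distrib]
      exact Finset.sum_congr rfl fun j _ => by ring
    rw [e1, e2]
    ring
  have hA1 : 0 ≤ ∑ j, q j * (u j * s (u j) - Φ (u j)) :=
    Finset.sum_nonneg fun j _ => mul_nonneg (hA.q0 j) (by linarith [hs.Φs (u j)])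
  have hA2 : ∑ j, q j * (u j * s (u j) - Φ (u j)) ≤ ∑ j, q j * η :=
    Finset.sum_le_sum fun j _ => mul_le_mul_of_nonneg_left (by linarith [hs.Φl (u j)]) (hA.q0 j)
  have hB1 : 0 ≤ ∑ j, τ j * (|u j| - u j * s (u j)) :=
    Finset.sum_nonneg fun j _ => mul_nonneg (hA.τ0 j) (by linarith [hs.xs (u j)])
  have hB2 : ∑ j, τ j * (|u j| - u j * s (u j)) ≤ ∑ j, τ j * η :=
    Finset.sum_le_sum fun j _ => mul_le_mul_of_nonneg_left (by linarith [hs.xl (u j)]) (hA.τ0 j)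
  have hC : L * (∑ j, q j * (u j * s (u j) - Φ (u j))) ≤ Real.pi / 2 * ∑ j, q j * η :=
    mul_le_mul hL1 hA2 hA1 (by positivity)
  rw [hdiff, abs_of_nonneg (add_nonneg (mul_nonneg hL0.le hA1) hB1)]
  refine (add_le_add hC hB2).trans (le_of_eq ?_)
  rw [← Finset.sum_mul, ← Finset.sum_mul]
  ring

end RLW
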