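import Pool.Agent.RLW.StB

/-!
# RLW (MP_f7beb7_gt), module WIL: the integral of `exp (-dist ^ 2)` from Steiner's formula
-/

set_option autoImplicit false

open MeasureTheory Metric Set
open scoped BigOperators Pointwise RealInnerProductSpace NNReal Topology

namespace RLW

private theorem wil_gamma (k : ℕ) :
    IntegrableOn (fun s : ℝ => 2 * s * Real.exp (-s ^ 2) * s ^ k) (Ioi 0) ∧
    ∫ s in Ioi (0 : ℝ), 2 * s * Real.exp (-s ^ 2) * s ^ k = Real.Gamma (k / 2 + 1) := by
  have hq : (-1 : ℝ) < ((k + 1 : ℕ) : ℝ) := by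
    have : (0 : ℝ) ≤ ((k + 1 : ℕ) : ℝ) := Nat.cast_nonneg _
    linarith
  have h1 := integrableOn_rpow_mul_exp_neg_rpow (p := 2) (s := ((k + 1 : ℕ) : ℝ)) hq (by norm_num)
  have h2 := integral_rpow_mul_exp_neg_rpow (p := 2) (q := ((k + 1 : ℕ) : ℝ)) (by norm_num) hq
  have he : ∀ x ∈ Ioi (0 : ℝ), 2 * (x ^ (((k + 1 : ℕ) : ℝ)) * Real.exp (-x ^ (2 : ℝ))) =
      2 * x * Real.exp (-x ^ 2) * x ^ k := by
    intro x _
    rw [Real.rpow_natCast, Real.rpow_two, pow_succ]
    ring
  constructor
  · exact (integrableOn_congr_fun he measurableSet_Ioi).1 (h1.const_mul 2)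
  · rw [← setIntegral_congr_fun measurableSet_Ioi he, integral_const_mul, h2]
    have : (((k + 1 : ℕ) : ℝ) + 1) / 2 = (k : ℝ) / 2 + 1 := by
      push_cast
      ring
    rw [this]
    ring

private theorem wil_kap (k : ℕ) : kap k * Real.Gamma (k / 2 + 1) = √Real.pi ^ k := by
  rcases Nat.eq_zero_or_pos k with rfl | hk
  · have h0 : closedBall (0 : E 0) 1 = univ := by
      ext x
      have : x = 0 := Subsingleton.elim _ _
      simp [this]
    have h1 : volume (univ : Set (E 0)) = 1 := by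
      rw [← (EuclideanSpace.volume_preserving_symm_measurableEquiv_toLp (Fin 0)).symm.measure_preimage
        MeasurableSet.univ.nullMeasurableSet, preimage_univ]
      simp [volume_pi]
    rw [kap, h0, h1]
    simp
  · have : Nonempty (Fin k) := ⟨⟨0, hk⟩⟩
    have hG : 0 < Real.Gamma ((k : ℝ) / 2 + 1) := Real.Gamma_pos_of_pos (by positivity)
    rw [kap, EuclideanSpace.volume_closedBall, Fintype.card_fin, ENNReal.ofReal_one, one_pow,
      one_mul, ENNReal.toReal_ofReal (by positivity), div_mul_cancel₀ _ hG.ne']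

private theorem wil_set {n : ℕ} {K : Set (E n)} (hK : CB K) {s : ℝ} :
    {x : E n | infDist x K ≤ s} = K + closedBall (0 : E n) s := by
  ext x
  rw [mem_add]
  constructor
  · intro h
    obtain ⟨y, hy, hxy⟩ := hK.cpt.exists_infDist_eq_dist hK.ne x
    refine ⟨y, hy, x - y, ?_, by abel⟩
    rw [mem_closedBall, dist_zero_right, ← dist_eq_norm, ← hxy]
    exact h
  · rintro ⟨y, hy, z, hz, rfl⟩
    refine (infDist_le_dist_of_mem hy).trans ?_
    rw [mem_closedBall, dist_zero_right] at hz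
    rw [dist_eq_norm, add_sub_cancel_left]
    exact hz

/-- `exp (-δ ^ 2)` as an integral -/
private theorem wil_exp {δ : ℝ} (hδ : 0 ≤ δ) :
    ENNReal.ofReal (Real.exp (-δ ^ 2)) = ∫⁻ s in Ioi (0 : ℝ),
      (if δ ≤ s then ENNReal.ofReal (2 * s * Real.exp (-s ^ 2)) else 0) := by
  have hd : ∀ x : ℝ, HasDerivAt (fun s => -Real.exp (-s ^ 2)) (2 * x * Real.exp (-x ^ 2)) x := by
    intro x
    have h1 : HasDerivAt (fun s : ℝ => -s ^ 2) (-(2 * x)) x := by
      have h0 : HasDerivAt (fun s : ℝ => -s ^ 2) (-(((2 : ℕ) : ℝ) * x ^ (2 - 1))) x :=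
        (hasDerivAt_pow 2 x).neg
      refine h0.congr_deriv ?_
      norm_num
    have h2 := h1.exp.neg
    refine h2.congr_deriv ?_
    ring
  have hlim : Filter.Tendsto (fun s : ℝ => -Real.exp (-s ^ 2)) Filter.atTop (𝓝 0) := by
    have h1 : Filter.Tendsto (fun s : ℝ => -s ^ 2) Filter.atTop Filter.atBot :=
      Filter.tendsto_neg_atTop_atBot.comp (Filter.tendsto_pow_atTop (by norm_num))
    have h2 := (Real.tendsto_exp_atBot.comp h1).neg
    rw [neg_zero] at h2
    exact h2
  have hpos : ∀ x ∈ Ioi δ, 0 ≤ 2 * x * Real.exp (-x ^ 2) := by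
    intro x hx
    have : 0 ≤ x := hδ.trans (le_of_lt hx)
    positivity
  have h3 := integral_Ioi_of_hasDerivAt_of_nonneg' (fun x _ => hd x) hpos hlim
  have h4 := integrableOn_Ioi_deriv_of_nonneg' (fun x _ => hd x) hpos hlim
  have h5 : ∫⁻ s in Ioi δ, ENNReal.ofReal (2 * s * Real.exp (-s ^ 2)) =
      ENNReal.ofReal (Real.exp (-δ ^ 2)) := by
    rw [← ofReal_integral_eq_lintegral_ofReal h4
      ((ae_restrict_iff' measurableSet_Ioi).2 (Filter.Eventually.of_forall hpos)), h3]
    congr 1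
    ring
  rw [← h5, ← lintegral_indicator measurableSet_Ioi, ← lintegral_indicator measurableSet_Ioi]
  apply lintegral_congr_ae
  have h6 : ∀ᵐ s : ℝ, s ≠ δ := by
    have := (measure_singleton (μ := (volume : Measure ℝ)) δ)
    exact compl_mem_ae_iff.2 this
  filter_upwards [h6] with s hs
  by_cases h7 : δ < s
  · rw [indicator_of_mem (show s ∈ Ioi δ from h7),
      indicator_of_mem (show s ∈ Ioi (0 : ℝ) from lt_of_le_of_lt hδ h7), if_pos h7.le]
  · rw [indicator_of_notMem (show s ∉ Ioi δ from h7)]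
    have h8 : ¬ δ ≤ s := fun h => h7 (lt_of_le_of_ne h hs.symm)
    by_cases h9 : s ∈ Ioi (0 : ℝ)
    · rw [indicator_of_mem h9, if_neg h8]
    · rw [indicator_of_notMem h9]

/-- the main computation -/
private theorem wil_main {n : ℕ} {K : Set (E n)} {V : ℕ → ℝ} (hK : CB K) (hV : IsIV K V) :
    0 ≤ ∑ j ∈ Finset.range (n + 1), V j * √Real.pi ^ (n - j) ∧
    ∫⁻ x : E n, ENNReal.ofReal (Real.exp (-infDist x K ^ 2)) =
      ENNReal.ofReal (∑ j ∈ Finset.range (n + 1), V j * √Real.pi ^ (n - j)) := by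
  have hcont : Continuous fun x : E n => infDist x K := continuous_infDist_pt K
  have h1 : ∀ x : E n, ENNReal.ofReal (Real.exp (-infDist x K ^ 2)) = ∫⁻ s in Ioi (0 : ℝ),
      (if infDist x K ≤ s then ENNReal.ofReal (2 * s * Real.exp (-s ^ 2)) else 0) :=
    fun x => wil_exp infDist_nonneg
  have hmeas : Measurable fun p : E n × ℝ =>
      (if infDist p.1 K ≤ p.2 then ENNReal.ofReal (2 * p.2 * Real.exp (-p.2 ^ 2)) else 0) := by
    refine Measurable.ite (measurableSet_le (hcont.measurable.comp measurable_fst) measurable_snd)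
      ?_ measurable_const
    have : Continuous fun p : E n × ℝ => 2 * p.2 * Real.exp (-p.2 ^ 2) := by fun_prop
    exact this.measurable.ennreal_ofReal
  rw [lintegral_congr h1, lintegral_lintegral_swap (hmeas.aemeasurable)]
  have h2 : ∀ s ∈ Ioi (0 : ℝ), ∫⁻ x : E n,
      (if infDist x K ≤ s then ENNReal.ofReal (2 * s * Real.exp (-s ^ 2)) else 0) =
      ENNReal.ofReal (2 * s * Real.exp (-s ^ 2) *
        ∑ j ∈ Finset.range (n + 1), kap (n - j) * V j * s ^ (n - j)) := by
    intro s hs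
    have hs0 : (0 : ℝ) ≤ s := le_of_lt hs
    have h3 : (fun x : E n => if infDist x K ≤ s then
        ENNReal.ofReal (2 * s * Real.exp (-s ^ 2)) else 0) =
        indicator (K + closedBall (0 : E n) s)
          (fun _ => ENNReal.ofReal (2 * s * Real.exp (-s ^ 2))) := by
      rw [← wil_set hK]
      funext x
      by_cases h : infDist x K ≤ s
      · rw [if_pos h, indicator_of_mem (show x ∈ {x | infDist x K ≤ s} from h)]
      · rw [if_neg h, indicator_of_notMem (show x ∉ {x | infDist x K ≤ s} from h)]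
    have hcpt : IsCompact (K + closedBall (0 : E n) s) := hK.cpt.add (isCompact_closedBall _ _)
    rw [h3, lintegral_indicator hcpt.measurableSet, setLIntegral_const, ← hV s hs0,
      ENNReal.ofReal_mul (p := 2 * s * Real.exp (-s ^ 2)) (by positivity),
      ENNReal.ofReal_toReal hcpt.measure_lt_top.ne]
  rw [setLIntegral_congr_fun measurableSet_Ioi h2]
  have hint : ∀ j ∈ Finset.range (n + 1), IntegrableOn (fun s : ℝ =>
      kap (n - j) * V j * (2 * s * Real.exp (-s ^ 2) * s ^ (n - j))) (Ioi 0) :=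
    fun j _ => (wil_gamma (n - j)).1.const_mul _
  have he : (fun s : ℝ => 2 * s * Real.exp (-s ^ 2) *
      ∑ j ∈ Finset.range (n + 1), kap (n - j) * V j * s ^ (n - j)) =
      fun s : ℝ => ∑ j ∈ Finset.range (n + 1),
        kap (n - j) * V j * (2 * s * Real.exp (-s ^ 2) * s ^ (n - j)) := by
    funext s
    rw [Finset.mul_sum]
    exact Finset.sum_congr rfl fun j _ => by ring
  have hnn : 0 ≤ᵐ[volume.restrict (Ioi (0 : ℝ))] fun s : ℝ => 2 * s * Real.exp (-s ^ 2) *
      ∑ j ∈ Finset.range (n + 1), kap (n - j) * V j * s ^ (n - j) := by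
    refine (ae_restrict_iff' measurableSet_Ioi).2 (Filter.Eventually.of_forall fun s hs => ?_)
    have hs0 : (0 : ℝ) ≤ s := le_of_lt hs
    have := hV s hs0
    show 0 ≤ 2 * s * Real.exp (-s ^ 2) * _
    rw [← this]
    positivity
  have hval : ∫ s in Ioi (0 : ℝ), 2 * s * Real.exp (-s ^ 2) *
      ∑ j ∈ Finset.range (n + 1), kap (n - j) * V j * s ^ (n - j) =
      ∑ j ∈ Finset.range (n + 1), V j * √Real.pi ^ (n - j) := by
    rw [he, integral_finsetSum _ hint]
    refine Finset.sum_congr rfl fun j _ => ?_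
    rw [integral_const_mul, (wil_gamma (n - j)).2, ← wil_kap (n - j)]
    ring
  rw [← ofReal_integral_eq_lintegral_ofReal (by rw [he]; exact integrable_finsetSum _ hint) hnn,
    hval]
  refine ⟨?_, rfl⟩
  rw [← hval]
  exact integral_nonneg_of_ae hnn

/-- [WIL] -/
theorem thm_WIL : St_WIL := by
  intro n K V hK hV
  have hcont : Continuous fun x : E n => Real.exp (-infDist x K ^ 2) := by
    have : Continuous fun x : E n => infDist x K := continuous_infDist_pt K
    fun_prop
  obtain ⟨h0, hm⟩ := wil_main hK hV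
  have hint : Integrable (fun x : E n => Real.exp (-infDist x K ^ 2)) := by
    refine ⟨hcont.aestronglyMeasurable, ?_⟩
    rw [hasFiniteIntegral_iff_ofReal (Filter.Eventually.of_forall fun x => (Real.exp_pos _).le), hm]
    exact ENNReal.ofReal_lt_top
  refine ⟨hint, ?_⟩
  have h1 := ofReal_integral_eq_lintegral_ofReal hint
    (Filter.Eventually.of_forall fun x => (Real.exp_pos _).le)
  rw [hm] at h1
  have h2 : 0 ≤ ∫ x : E n, Real.exp (-infDist x K ^ 2) :=
    integral_nonneg fun x => (Real.exp_pos _).le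
  exact (ENNReal.ofReal_eq_ofReal_iff h2 h0).1 h1

end RLW
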