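import Pool.Agent.RLW.NPT
import Pool.Agent.RLW.NUB
import Pool.Agent.RLW.HES
import Pool.Agent.RLW.IBP
import Pool.Agent.RLW.CTS
import Pool.Agent.RLW.LIZ
import Pool.Agent.RLW.DEZ
import Pool.Agent.RLW.DIV
import Pool.Agent.RLW.LAY
import Pool.Agent.RLW.PRC
import Pool.Agent.RLW.SLC
import Pool.Agent.RLW.FUB
import Pool.Agent.RLW.SLI
import Pool.Agent.RLW.SGN
import Pool.Agent.RLW.LMB
import Pool.Agent.RLW.CQB
import Pool.Agent.RLW.CR1
import Pool.Agent.RLW.TRC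
import Pool.Agent.RLW.CR2
import Pool.Agent.RLW.CRT
import Pool.Agent.RLW.VAL
import Pool.Agent.RLW.ANA
import Pool.Agent.RLW.ADM
import Pool.Agent.RLW.LIM
import Pool.Agent.RLW.PO1
import Pool.Agent.RLW.KAP
import Pool.Agent.RLW.POL
import Pool.Agent.RLW.MON
import Pool.Agent.RLW.JEN
import Pool.Agent.RLW.INE
import Pool.Agent.RLW.OCB
import Pool.Agent.RLW.ODS
import Pool.Agent.RLW.OCC
import Pool.Agent.RLW.WIL
import Pool.Agent.RLW.SCV
import Pool.Agent.RLW.LP1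
import Pool.Agent.RLW.ONE
import Pool.Agent.RLW.PRD
import Pool.Agent.RLW.LP2
import Pool.Agent.RLW.COE
import Pool.Agent.RLW.JIN
import Pool.Agent.RLW.OVV
import Pool.Agent.RLW.OEQ

/-!
# RLW: assembly of the parts A and B
-/

set_option autoImplicit false

namespace RLW

theorem a_NUB : St_NUB := thm_NUB thm_NPT
theorem a_HES : St_HES := thm_HES a_NUB
theorem a_CTS : St_CTS := thm_CTS thm_NPT a_NUB
theorem a_LIZ : St_LIZ := thm_LIZ thm_NPT a_NUB
theorem a_DEZ : St_DEZ := thm_DEZ a_HES a_NUB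
theorem a_DIV : St_DIV := thm_DIV thm_IBP a_CTS a_LIZ a_DEZ
theorem a_SLC : St_SLC := thm_SLC a_NUB thm_PRC a_CTS
theorem a_SLI : St_SLI := thm_SLI thm_FUB a_SLC thm_LAY thm_PRC a_CTS
theorem a_CR1 : St_CR1 := thm_CR1 thm_LMB thm_CQB
theorem a_CR2 : St_CR2 := thm_CR2 thm_LMB thm_CQB thm_TRC
theorem a_CRT : St_CRT := thm_CRT a_CR1 a_CR2
theorem a_VAL : St_VAL := thm_VAL thm_LMB
theorem a_ANA : St_ANA := thm_ANA a_DIV a_CRT a_VAL thm_LAY a_SLI a_CTS a_CR1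
theorem a_ADM : St_ADM := thm_ADM thm_LMB
theorem a_LIM : St_LIM := thm_LIM a_ANA thm_SGN a_ADM
theorem a_POL : St_POL := thm_POL a_LIM thm_PO1 thm_KAP
theorem a_MON : St_MON := thm_MON thm_KAP

/-- the inequality -/
theorem a_INE : St_INE := thm_INE a_POL thm_JEN a_MON thm_PRC

theorem a_LP1 : St_LP1 := thm_LP1 thm_WIL thm_SCV thm_OCB
theorem a_ONE : St_ONE := thm_ONE thm_ODS thm_OCC
theorem a_LP2 : St_LP2 := thm_LP2 a_ONE thm_PRD thm_OCC
theorem a_COE : St_COE := thm_COE a_LP1 a_LP2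
theorem a_OVV : St_OVV := thm_OVV a_COE thm_JIN

/-- equality for the cross-polytopes -/
theorem a_OEQ : St_OEQ := thm_OEQ a_OVV thm_OCB thm_SCV

end RLW
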