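import Pool.Agent.RLW.StS

set_option autoImplicit false

open MeasureTheory Metric Set
open scoped BigOperators Pointwise RealInnerProductSpace NNReal Topology

namespace RLW

/-- [DIF] differences of `vo K` are polynomials -/
theorem thm_DIF (h_SJC : St_SJC) (h_LAG : St_LAG) : St_DIF := by
  intro n K a b hK ha hab
  obtain ⟨ℓ, hℓ⟩ := h_LAG n
  refine ⟨∑ i : Fin (n + 1), Polynomial.C (∫ x in shl K a b, dt (fderiv ℝ (nu K) x) i) * ℓ i,
    fun t ht => ?_⟩
  rw [(h_SJC n K a b t hK ha hab ht).2, Polynomial.eval_finsetSum]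
  have h1 : (fun x => dt (fderiv ℝ (nu K) x) t) =
      fun x => ∑ i : Fin (n + 1), (ℓ i).eval t * dt (fderiv ℝ (nu K) x) i := by
    funext x
    exact hℓ _ t
  rw [h1, integral_finsetSum]
  · refine Finset.sum_congr rfl fun i _ => ?_
    rw [integral_const_mul, Polynomial.eval_mul, Polynomial.eval_C, mul_comm]
  · intro i _
    exact ((h_SJC n K a b i hK ha hab (Nat.cast_nonneg _)).1).const_mul _

end RLW
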