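import Pool.Agent.RLW.StS

/-!
# RLW, module DPO: the determinant of `1 + t H` is positive
-/

set_option autoImplicit false

open MeasureTheory Metric Set
open scoped BigOperators Pointwise RealInnerProductSpace NNReal Topology

namespace RLW

private theorem dpo_ne {n : ℕ} (H : E n →L[ℝ] E n) (hH : ∀ v, 0 ≤ ⟪H v, v⟫) {s : ℝ} (hs : 0 ≤ s) :
    dt H s ≠ 0 := by
  intro h0
  have h1 : LinearMap.det ((ContinuousLinearMap.id ℝ (E n) + s • H : E n →L[ℝ] E n) :
      E n →ₗ[ℝ] E n) = 0 := h0
  have h2 := LinearMap.bot_lt_ker_of_det_eq_zero h1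
  obtain ⟨v, hv, hv0⟩ := (Submodule.ne_bot_iff _).1 h2.ne'
  have h3 : v + s • H v = 0 := by
    have := LinearMap.mem_ker.1 hv
    simpa using this
  have h4 : ⟪v + s • H v, v⟫ = 0 := by rw [h3, inner_zero_left]
  rw [inner_add_left, real_inner_smul_left, real_inner_self_eq_norm_sq] at h4
  have h5 : 0 ≤ s * ⟪H v, v⟫ := mul_nonneg hs (hH v)
  have h6 : 0 < ‖v‖ ^ 2 := by
    have := norm_pos_iff.2 hv0
    positivity
  linarith

theorem thm_DPO : St_DPO := by
  intro n H t hH ht
  by_contra hcon
  push Not at hcon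
  have hc : Continuous (fun s : ℝ => dt H s) := by
    unfold dt
    exact ContinuousLinearMap.continuous_det.comp
      (continuous_const.add (continuous_id.smul continuous_const))
  have h0 : dt H 0 = 1 := by
    unfold dt
    have h1 : ContinuousLinearMap.id ℝ (E n) + (0 : ℝ) • H = ContinuousLinearMap.id ℝ (E n) := by
      ext v
      simp
    rw [h1]
    exact LinearMap.det_id
  have hI := intermediate_value_Icc' ht hc.continuousOn
  obtain ⟨s, hs, hs0⟩ := hI (show (0 : ℝ) ∈ Icc (dt H t) (dt H 0) from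
    ⟨hcon, by rw [h0]; norm_num⟩)
  exact dpo_ne H hH hs.1 hs0

end RLW
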