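import Pool.Agent.RLW.St

/-!
# RLW (MP_f7beb7_gt), part S: Steiner's formula for all convex bodies

`δ x = infDist x K`, `ν = nu K`, `Φ x = x + t ν x` maps the shell `a < δ ≤ b` bijectively to the shell
`a + t < δ ≤ b + t`, `Φ` is Lipschitz on the shell and almost everywhere differentiable, with the
determinant `det (1 + t H x)`, a polynomial in `t`.  So `vo K (b + t) - vo K (a + t)` is a polynomial in
`t ≥ 0` for all `0 < a < b`; the volume is monotone, so `vo K` is a polynomial.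
-/

set_option autoImplicit false

open MeasureTheory Metric Set
open scoped BigOperators Pointwise RealInnerProductSpace NNReal Topology

namespace RLW

/-- the shell -/
def shl {n : ℕ} (K : Set (E n)) (a b : ℝ) : Set (E n) := {x | a < infDist x K ∧ infDist x K ≤ b}

/-- the determinant of `1 + t H` -/
noncomputable def dt {n : ℕ} (H : E n →L[ℝ] E n) (t : ℝ) : ℝ :=
  (ContinuousLinearMap.id ℝ (E n) + t • H).det

/-- [NSH] `y = x + t ν x = P x + (δ x + t) ν x`: for `z ∈ K`: `⟪y - P x, z - P x⟫ ≤ 0` (`St_NPT.var`), so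
`P x` is the nearest point of `y` (if `p ∈ K` and `⟪y - p, z - p⟫ ≤ 0` for all `z ∈ K` then
`‖y - z‖ ^ 2 ≥ ‖y - p‖ ^ 2 + ‖z - p‖ ^ 2`; so `p = P y`). Then `δ y = ‖y - P y‖ = δ x + t`, `ν y = ν x`.
`inv`: the same for `P y + (δ y - t) ν y`. -/
structure St_NSH : Prop where
  dst : ∀ (n : ℕ) (K : Set (E n)) (x : E n) (t : ℝ), CB K → x ∉ K → 0 ≤ t →
    infDist (x + t • nu K x) K = infDist x K + t
  nor : ∀ (n : ℕ) (K : Set (E n)) (x : E n) (t : ℝ), CB K → x ∉ K → 0 ≤ t →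
    nu K (x + t • nu K x) = nu K x
  inv : ∀ (n : ℕ) (K : Set (E n)) (y : E n) (t : ℝ), CB K → 0 ≤ t → t < infDist y K →
    infDist (y - t • nu K y) K = infDist y K - t ∧ nu K (y - t • nu K y) = nu K y

/-- [DPO] `(1 + t H) v = 0` implies `v = 0` since `⟪(1 + t H) v, v⟫ ≥ ‖v‖ ^ 2`; so `dt H t ≠ 0` for `t ≥ 0`,
`dt H 0 = 1`, `dt H` is continuous (intermediate value theorem). -/
def St_DPO : Prop := ∀ (n : ℕ) (H : E n →L[ℝ] E n) (t : ℝ), (∀ v, 0 ≤ ⟪H v, v⟫) → 0 ≤ t → 0 < dt H t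

/-- [LNU] Lipschitz maps preserve null sets: for the Hausdorff measure on `Fin n → ℝ`
(`hausdorffMeasure_pi_real`, `LipschitzOnWith.hausdorffMeasure_image_le`); the identity
`EuclideanSpace ℝ (Fin n) ≃ (Fin n → ℝ)` is Lipschitz in both directions and volume preserving. (Or by
coverings with balls.) -/
def St_LNU : Prop := ∀ (n : ℕ) (f : E n → E n) (s : Set (E n)) (C : ℝ≥0), LipschitzOnWith C f s →
  volume s = 0 → volume (f '' s) = 0

/-- [SJC] `Φ x = x + t ν x` is injective on `Kᶜ` (`St_NSH`: `x = Φ x - t ν (Φ x)`) and maps `shl K a b` onto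
`shl K (a + t) (b + t)` (`St_NSH.dst`, `St_NSH.inv`). Let `s` be the set of the points of `shl K a b` where
`ν` is differentiable (measurable: `measurableSet_of_differentiableAt`; full measure: `St_HES.ae`). The
image of the rest is a null set (`St_LNU`, `St_NUB.lip`). `lintegral_abs_det_fderiv_eq_addHaar_image` on `s`,
`det (1 + t H) > 0` (`St_DPO`, `St_HES.psd`). `vo K (b + t) - vo K (a + t)` is the measure of
`shl K (a + t) (b + t)` (`K + closedBall 0 r = cthickening r K = {δ ≤ r}`, finite measures). -/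
def St_SJC : Prop := ∀ (n : ℕ) (K : Set (E n)) (a b t : ℝ), CB K → 0 < a → a < b → 0 ≤ t →
  IntegrableOn (fun x => dt (fderiv ℝ (nu K) x) t) (shl K a b) ∧
  vo K (b + t) - vo K (a + t) = ∫ x in shl K a b, dt (fderiv ℝ (nu K) x) t

/-- [LAG] `dt H t` is a polynomial in `t` of degree `≤ n` (determinant of a matrix with entries of degree
`≤ 1`), Lagrange interpolation at `0, 1, ..., n`. -/
def St_LAG : Prop := ∀ n : ℕ, ∃ ℓ : Fin (n + 1) → Polynomial ℝ, ∀ (H : E n →L[ℝ] E n) (t : ℝ),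
  dt H t = ∑ i : Fin (n + 1), (ℓ i).eval t * dt H i

/-- [DIF] from `St_SJC` and `St_LAG`: `P = ∑ i, (∫ x in shl K a b, dt (H x) i) • ℓ i`. -/
def St_DIF : Prop := ∀ (n : ℕ) (K : Set (E n)) (a b : ℝ), CB K → 0 < a → a < b →
  ∃ P : Polynomial ℝ, ∀ t : ℝ, 0 ≤ t → vo K (b + t) - vo K (a + t) = P.eval t

/-- [FRE] (1) For every polynomial `P` there is a polynomial `Q` with `Q (X + 1) - Q = P` (induction on
the degree: subtract `c / (d + 1) * X ^ (d + 1)`). (2) Choose `Q` with `Q (s + 1) - Q s = F (s + 1) - F s` for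
`s ≥ 1`, let `R = F - Q`: `R (s + 1) = R s` for `s ≥ 1`. (3) For `h > 0`: `R (s + h) - R s` is a polynomial in
`s ≥ a` for every `a > 0`, with period `1` for `s ≥ 1`, so it is a constant `c h` for all `s > 0`. (4) `c`
is additive, `c 1 = 0`, and bounded on `[0, 1]` (`F` is monotone), so `|c h| = |c (k h)| / k ≤ B / k` (reduce
`k h` modulo one): `c = 0`, `R` is constant on `(0, ∞)`. -/
def St_FRE : Prop := ∀ F : ℝ → ℝ, MonotoneOn F (Ioi 0) →
  (∀ a b : ℝ, 0 < a → a < b → ∃ P : Polynomial ℝ, ∀ t : ℝ, 0 ≤ t → F (b + t) - F (a + t) = P.eval t) →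
  ∃ Q : Polynomial ℝ, ∀ s : ℝ, 0 < s → F s = Q.eval s

/-- [STE] `vo K` is monotone; `St_DIF` and `St_FRE` give `vo K s = Q s` for `s > 0`; for `s → 0` the measure
of `{δ ≤ s}` tends to the measure of `K` (closed, bounded), so `vo K 0 = Q 0`. Degree: `vo K s ≤ kap n *
(R + s) ^ n` if `K ⊆ closedBall 0 R`. So `Q = ∑ k ∈ range (n + 1), q k X ^ k`, `V j = q (n - j) / kap (n - j)`
(`St_KAP`: `kap > 0`). -/
def St_STE : Prop := ∀ (n : ℕ) (K : Set (E n)), CB K → ∃ V : ℕ → ℝ, IsIV K V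

end RLW
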