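import Mathlib
import Pool.Agent.RLW.StS

/-!
# RLW [FRE]: a monotone function with polynomial differences is a polynomial
-/

set_option autoImplicit false

open MeasureTheory Metric Set
open scoped BigOperators Pointwise RealInnerProductSpace NNReal

namespace RLW

/-- every polynomial is the difference of a polynomial -/
private theorem FRE_exists (P : Polynomial ℝ) :
    ∃ Q : Polynomial ℝ, ∀ t : ℝ, Q.eval (t + 1) - Q.eval t = P.eval t := by
  have key : ∀ (n : ℕ) (x : ℝ), Polynomial.aeval (x + 1) (Polynomial.bernoulli (n + 1)) =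
      Polynomial.aeval x (Polynomial.bernoulli (n + 1)) + ((n : ℝ) + 1) * x ^ n := by
    intro n x
    have h : (Polynomial.bernoulli (n + 1)).comp (Polynomial.X + 1) =
        Polynomial.bernoulli (n + 1) + Polynomial.C ((n : ℚ) + 1) * Polynomial.X ^ n := by
      apply Polynomial.funext
      intro r
      have := Polynomial.bernoulli_eval_one_add (n + 1) r
      simp only [Polynomial.eval_comp, Polynomial.eval_add, Polynomial.eval_X, Polynomial.eval_one,
        Polynomial.eval_mul, Polynomial.eval_C, Polynomial.eval_pow]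
      rw [add_comm r 1, this]
      push_cast
      simp
    have h2 := congrArg (Polynomial.aeval x) h
    rw [Polynomial.aeval_comp] at h2
    simpa using h2
  refine ⟨∑ k ∈ Finset.range (P.natDegree + 1), Polynomial.C (P.coeff k / ((k : ℝ) + 1)) *
    (Polynomial.bernoulli (k + 1)).map (algebraMap ℚ ℝ), fun t => ?_⟩
  rw [Polynomial.eval_finsetSum, Polynomial.eval_finsetSum, ← Finset.sum_sub_distrib,
    Polynomial.eval_eq_sum_range]
  refine Finset.sum_congr rfl fun k _ => ?_
  rw [Polynomial.eval_mul, Polynomial.eval_mul, Polynomial.eval_C, Polynomial.eval_C,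
    Polynomial.eval_map_algebraMap, Polynomial.eval_map_algebraMap, key k t]
  have hk : ((k : ℝ) + 1) ≠ 0 := by positivity
  field_simp
  ring

/-- a periodic polynomial is constant -/
private theorem FRE_const (p : Polynomial ℝ) (h : ∀ t : ℝ, 1 ≤ t → p.eval (t + 1) = p.eval t)
    (x y : ℝ) : p.eval x = p.eval y := by
  have h1 : ∀ n : ℕ, p.eval ((n : ℝ) + 1) = p.eval 1 := by
    intro n
    induction n with
    | zero => simp
    | succ n ih =>
      rw [← ih, ← h ((n : ℝ) + 1) (by linarith [(Nat.cast_nonneg n : (0 : ℝ) ≤ n)])]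
      push_cast
      rfl
  have h2 : p - Polynomial.C (p.eval 1) = 0 := by
    refine Polynomial.eq_zero_of_infinite_isRoot _ ?_
    refine Set.infinite_of_injective_forall_mem (f := fun n : ℕ => (n : ℝ) + 1) ?_ ?_
    · intro a b hab
      have : (a : ℝ) = b := by simpa using hab
      exact_mod_cast this
    · intro n
      simp [Polynomial.IsRoot, h1 n]
  have h3 : p = Polynomial.C (p.eval 1) := sub_eq_zero.1 h2
  rw [h3]
  simp

/-- a bounded additive function -/
private theorem FRE_add (c : ℝ → ℝ) (B : ℝ) (hadd : ∀ x y : ℝ, 0 ≤ x → 0 ≤ y → c (x + y) = c x + c y)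
    (h1 : c 1 = 0) (hB : ∀ x : ℝ, 0 ≤ x → x ≤ 1 → |c x| ≤ B) (x : ℝ) (hx : 0 ≤ x) : c x = 0 := by
  have h0 : c 0 = 0 := by
    have := hadd 0 0 le_rfl le_rfl
    rw [add_zero] at this
    linarith
  have hn : ∀ n : ℕ, c n = 0 := by
    intro n
    induction n with
    | zero => simpa using h0
    | succ n ih =>
      push_cast
      rw [hadd n 1 (Nat.cast_nonneg n) zero_le_one, ih, h1, add_zero]
  have hall : ∀ y : ℝ, 0 ≤ y → |c y| ≤ B := by
    intro y hy
    have e : y = (⌊y⌋₊ : ℝ) + (y - ⌊y⌋₊) := by ring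
    have f1 : (0 : ℝ) ≤ y - ⌊y⌋₊ := sub_nonneg.2 (Nat.floor_le hy)
    have f2 : y - ⌊y⌋₊ ≤ 1 := by linarith [(Nat.lt_floor_add_one y).le]
    rw [e, hadd _ _ (Nat.cast_nonneg _) f1, hn, zero_add]
    exact hB _ f1 f2
  have hk : ∀ k : ℕ, c (k * x) = k * c x := by
    intro k
    induction k with
    | zero => simp [h0]
    | succ k ih =>
      push_cast
      rw [add_mul, one_mul, hadd _ _ (by positivity) hx, ih]
      ring
  by_contra hne
  have hpos : 0 < |c x| := abs_pos.2 hne
  obtain ⟨k, hk1⟩ := exists_nat_gt (B / |c x|)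
  rw [div_lt_iff₀ hpos] at hk1
  have h2 := hall (k * x) (by positivity)
  rw [hk k, abs_mul, abs_of_nonneg (Nat.cast_nonneg k : (0 : ℝ) ≤ k)] at h2
  linarith

theorem thm_FRE : St_FRE := by
  intro F hF hd
  obtain ⟨P, hP⟩ := hd 1 2 one_pos one_lt_two
  obtain ⟨Q, hQ⟩ := FRE_exists P
  obtain ⟨R, hR⟩ : ∃ R : ℝ → ℝ, ∀ s, R s = F s - Q.eval (s - 1) := ⟨_, fun _ => rfl⟩
  have hR1 : ∀ s, 1 ≤ s → R (s + 1) = R s := by
    intro s hs
    have e1 := hP (s - 1) (by linarith)
    have e2 := hQ (s - 1)
    rw [show (2 : ℝ) + (s - 1) = s + 1 by ring, show (1 : ℝ) + (s - 1) = s by ring] at e1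
    rw [show s - 1 + 1 = s + 1 - 1 by ring] at e2
    rw [hR, hR]
    linarith
  have h3 : ∀ h, 0 < h → ∀ s s', 0 < s → 0 < s' → R (s + h) - R s = R (s' + h) - R s' := by
    intro h hh s s' hs hs'
    obtain ⟨a, ha0, has, has'⟩ : ∃ a, 0 < a ∧ a ≤ s ∧ a ≤ s' :=
      ⟨min s s', lt_min hs hs', min_le_left _ _, min_le_right _ _⟩
    obtain ⟨P', hP'⟩ := hd a (a + h) ha0 (by linarith)
    obtain ⟨p, hp⟩ : ∃ p : Polynomial ℝ, ∀ t : ℝ, 0 ≤ t →
        R (a + t + h) - R (a + t) = p.eval t := by
      refine ⟨P' - Q.comp (Polynomial.X + Polynomial.C (a + h - 1)) +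
        Q.comp (Polynomial.X + Polynomial.C (a - 1)), fun t ht => ?_⟩
      have e := hP' t ht
      simp only [Polynomial.eval_add, Polynomial.eval_sub, Polynomial.eval_comp,
        Polynomial.eval_X, Polynomial.eval_C]
      rw [hR, hR, ← e, show a + t + h = a + h + t by ring,
        show a + h + t - 1 = t + (a + h - 1) by ring, show a + t - 1 = t + (a - 1) by ring]
      ring
    have hc := FRE_const p (by
      intro t ht
      rw [← hp t (by linarith), ← hp (t + 1) (by linarith),
        show a + (t + 1) + h = (a + t + h) + 1 by ring, show a + (t + 1) = (a + t) + 1 by ring,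
        hR1 _ (by linarith), hR1 _ (by linarith)])
    have e1 := hp (s - a) (by linarith)
    have e2 := hp (s' - a) (by linarith)
    rw [show a + (s - a) = s by ring] at e1
    rw [show a + (s' - a) = s' by ring] at e2
    rw [e1, e2]
    exact hc _ _
  -- the additive function
  obtain ⟨B, hB⟩ : ∃ B, ∀ x ∈ Icc (0 : ℝ) 1, ‖Q.eval (1 + x - 1) - Q.eval (1 - 1)‖ ≤ B := by
    refine isCompact_Icc.exists_bound_of_continuousOn ?_
    refine Continuous.continuousOn ?_
    have := Q.continuous
    fun_prop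
  have hc0 : ∀ x, 0 ≤ x → R (1 + x) - R 1 = 0 := by
    refine FRE_add (fun x => R (1 + x) - R 1) ((F 2 - F 1) + B) ?_ ?_ ?_
    · intro x y hx hy
      rcases hx.eq_or_lt with rfl | hx
      · simp
      · have := h3 x hx (1 + y) 1 (by linarith) one_pos
        rw [show (1 : ℝ) + (x + y) = 1 + y + x by ring]
        linarith
    · rw [hR1 1 le_rfl, sub_self]
    · intro x hx0 hx1
      have f1 : F 1 ≤ F (1 + x) := hF (mem_Ioi.2 one_pos) (mem_Ioi.2 (by linarith)) (by linarith)
      have f2 : F (1 + x) ≤ F 2 := hF (mem_Ioi.2 (by linarith)) (mem_Ioi.2 two_pos) (by linarith)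
      have f3 := hB x ⟨hx0, hx1⟩
      rw [Real.norm_eq_abs, abs_le] at f3
      rw [hR, hR, abs_le]
      constructor <;> linarith [f3.1, f3.2]
  have hconst : ∀ s, 0 < s → R s = R 1 := by
    intro s hs
    rcases le_total 1 s with h | h
    · have := hc0 (s - 1) (by linarith)
      rw [show (1 : ℝ) + (s - 1) = s by ring] at this
      linarith
    · rcases h.eq_or_lt with rfl | h
      · rfl
      · have e1 := h3 (1 - s) (by linarith) s 1 hs one_pos
        have e2 := hc0 (1 - s) (by linarith)
        rw [show s + (1 - s) = 1 by ring] at e1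
        linarith
  refine ⟨Q.comp (Polynomial.X - Polynomial.C 1) + Polynomial.C (R 1), fun s hs => ?_⟩
  have := hconst s hs
  rw [hR s] at this
  simp only [Polynomial.eval_add, Polynomial.eval_comp, Polynomial.eval_sub, Polynomial.eval_X,
    Polynomial.eval_C]
  linarith

end RLW
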