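import Pool.Agent.RLW.StS

/-!
# RLW, module LAG: the determinant of `1 + t H` is a polynomial in `t`
-/

set_option autoImplicit false

open MeasureTheory Metric Set
open scoped BigOperators Pointwise RealInnerProductSpace NNReal Topology

namespace RLW

/-- the determinant as a polynomial -/
private noncomputable def LAG_P {n : ℕ} (H : E n →L[ℝ] E n) : Polynomial ℝ :=
  ((Polynomial.X : Polynomial ℝ) • (LinearMap.toMatrix (EuclideanSpace.basisFun (Fin n) ℝ).toBasis
    (EuclideanSpace.basisFun (Fin n) ℝ).toBasis (H : E n →ₗ[ℝ] E n)).map Polynomial.C +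
    (1 : Matrix (Fin n) (Fin n) ℝ).map Polynomial.C).det

private theorem LAG_eval {n : ℕ} (H : E n →L[ℝ] E n) (t : ℝ) : (LAG_P H).eval t = dt H t := by
  have h1 : dt H t = LinearMap.det (LinearMap.id + t • (H : E n →ₗ[ℝ] E n)) := rfl
  have h2 : (LAG_P H).eval t = Polynomial.evalRingHom t (LAG_P H) := rfl
  rw [h1, ← LinearMap.det_toMatrix (EuclideanSpace.basisFun (Fin n) ℝ).toBasis, map_add, map_smul,
    LinearMap.toMatrix_id, h2, LAG_P, RingHom.map_det]
  congr 1
  ext i j
  by_cases hij : i = j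
  · simp [hij]
    ring
  · simp [hij]
    ring

private theorem LAG_deg {n : ℕ} (H : E n →L[ℝ] E n) : (LAG_P H).degree < (n + 1 : ℕ) := by
  have h1 := Polynomial.natDegree_det_X_add_C_le (LinearMap.toMatrix
    (EuclideanSpace.basisFun (Fin n) ℝ).toBasis (EuclideanSpace.basisFun (Fin n) ℝ).toBasis
    (H : E n →ₗ[ℝ] E n)) (1 : Matrix (Fin n) (Fin n) ℝ)
  rw [Fintype.card_fin] at h1
  refine lt_of_le_of_lt Polynomial.degree_le_natDegree ?_
  exact_mod_cast Nat.lt_succ_of_le h1

theorem thm_LAG : St_LAG := by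
  intro n
  refine ⟨fun i => Lagrange.basis Finset.univ (fun i : Fin (n + 1) => ((i : ℕ) : ℝ)) i,
    fun H t => ?_⟩
  have hinj : Set.InjOn (fun i : Fin (n + 1) => ((i : ℕ) : ℝ)) (Finset.univ : Finset (Fin (n + 1))) := by
    intro i _ j _ h
    exact Fin.ext (Nat.cast_injective h)
  have h1 := Lagrange.eq_interpolate (f := LAG_P H) hinj (by
    rw [Finset.card_univ, Fintype.card_fin]
    exact LAG_deg H)
  rw [← LAG_eval, h1, Lagrange.interpolate_apply, Polynomial.eval_finsetSum]
  refine Finset.sum_congr rfl fun i _ => ?_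
  rw [Polynomial.eval_mul, Polynomial.eval_C, LAG_eval, mul_comm]

end RLW
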