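import Mathlib
import Pool.Agent.RLW.StS

/-!
# RLW (MP_f7beb7_gt), module LNU: Lipschitz maps of `E n` preserve null sets
-/

set_option autoImplicit false

open MeasureTheory Metric Set
open scoped BigOperators Pointwise RealInnerProductSpace NNReal Topology

namespace RLW

/-- null sets in the Euclidean space and in the space of tuples -/
private theorem lnu_iff {n : ℕ} (s : Set (E n)) :
    volume ((WithLp.ofLp : E n → (Fin n → ℝ)) '' s) = volume s := by
  have h1 := (EuclideanSpace.volume_preserving_symm_measurableEquiv_toLp (Fin n)).measure_preimage_equiv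
    ((WithLp.ofLp : E n → (Fin n → ℝ)) '' s)
  have h2 : (⇑(MeasurableEquiv.toLp 2 (Fin n → ℝ)).symm) ⁻¹'
      ((WithLp.ofLp : E n → (Fin n → ℝ)) '' s) = s := by
    ext x
    constructor
    · rintro ⟨y, hy, hyx⟩
      have h3 : y = x := (WithLp.ofLp_injective 2) hyx
      rwa [← h3]
    · intro hx
      exact ⟨x, hx, rfl⟩
  rw [h2] at h1
  exact h1.symm

theorem thm_LNU : St_LNU := by
  intro n f s C hf hs
  rw [← lnu_iff]
  rw [← lnu_iff] at hs
  have h1 : (WithLp.ofLp : E n → (Fin n → ℝ)) '' (f '' s) =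
      ((WithLp.ofLp : E n → (Fin n → ℝ)) ∘ f ∘ (WithLp.toLp 2 : (Fin n → ℝ) → E n)) ''
        ((WithLp.ofLp : E n → (Fin n → ℝ)) '' s) := by
    ext y
    constructor
    · rintro ⟨_, ⟨x, hx, rfl⟩, rfl⟩
      exact ⟨WithLp.ofLp x, ⟨x, hx, rfl⟩, rfl⟩
    · rintro ⟨_, ⟨x, hx, rfl⟩, rfl⟩
      exact ⟨f x, ⟨x, hx, rfl⟩, rfl⟩
  have hto := PiLp.lipschitzWith_toLp 2 (fun _ : Fin n => ℝ)
  have hof := PiLp.lipschitzWith_ofLp 2 (fun _ : Fin n => ℝ)
  have h2 : LipschitzOnWith (1 * (C * ((Fintype.card (Fin n) : ℝ≥0) ^ (1 / (2 : ENNReal)).toReal)))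
      ((WithLp.ofLp : E n → (Fin n → ℝ)) ∘ f ∘ (WithLp.toLp 2 : (Fin n → ℝ) → E n))
        ((WithLp.ofLp : E n → (Fin n → ℝ)) '' s) := by
    refine (hof.lipschitzOnWith (s := Set.univ)).comp
      (hf.comp hto.lipschitzOnWith ?_) (fun _ _ => Set.mem_univ _)
    rintro _ ⟨x, hx, rfl⟩
    exact hx
  have h3 := h2.hausdorffMeasure_image_le (d := (Fintype.card (Fin n) : ℝ)) (Nat.cast_nonneg _)
  rw [hausdorffMeasure_pi_real, hs, mul_zero, ← h1] at h3
  exact le_antisymm h3 zero_le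

end RLW
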