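import Mathlib
import Pool.Agent.RLW.StS

/-!
# RLW, module NSH: shift along the normal
-/

set_option autoImplicit false

open MeasureTheory Metric Set Filter
open scoped BigOperators Pointwise RealInnerProductSpace NNReal Topology

namespace RLW

private theorem NSH_npt (h : St_NPT) {n : ℕ} {K : Set (E n)} {y p : E n} (hK : CB K) (hp : p ∈ K)
    (hv : ∀ z ∈ K, ⟪y - p, z - p⟫ ≤ 0) : npt K y = p := by
  have hP : npt K y ∈ K := h.mem n K y hK
  have h1 := h.var n K y p hK hp
  have h2 := hv _ hP
  have h3 : ⟪y - npt K y, p - npt K y⟫ + ⟪y - p, npt K y - p⟫ =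
      ⟪p - npt K y, p - npt K y⟫ := by
    have h4 : npt K y - p = -(p - npt K y) := by abel
    rw [h4, inner_neg_right, ← sub_eq_add_neg, ← inner_sub_left]
    congr 1
    abel
  rw [real_inner_self_eq_norm_sq] at h3
  have h5 : ‖p - npt K y‖ ^ 2 ≤ 0 := by linarith
  have h6 : ‖p - npt K y‖ = 0 := by
    have := sq_nonneg ‖p - npt K y‖
    exact pow_eq_zero_iff (two_ne_zero) |>.1 (le_antisymm h5 this)
  exact (sub_eq_zero.1 (norm_eq_zero.1 h6)).symm

/-- points on the normal ray -/
private theorem NSH_ray (h : St_NPT) {n : ℕ} {K : Set (E n)} {x : E n} (hK : CB K) (s : ℝ)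
    (hx : 0 < infDist x K) (hs : 0 < s) :
    infDist (npt K x + s • nu K x) K = s ∧ nu K (npt K x + s • nu K x) = nu K x := by
  have hun : ‖nu K x‖ = 1 := by
    rw [nu, norm_smul, h.dst n K x hK, norm_inv, Real.norm_of_nonneg hx.le,
      inv_mul_cancel₀ hx.ne']
  have hv : ∀ z ∈ K, ⟪(npt K x + s • nu K x) - npt K x, z - npt K x⟫ ≤ 0 := by
    intro z hz
    have h1 := h.var n K x z hK hz
    have h2 : (npt K x + s • nu K x) - npt K x = (s * (infDist x K)⁻¹) • (x - npt K x) := by
      rw [nu, smul_smul, add_sub_cancel_left]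
    rw [h2, real_inner_smul_left]
    exact mul_nonpos_of_nonneg_of_nonpos (by positivity) h1
  have hP := NSH_npt h hK (h.mem n K x hK) hv
  have hd : infDist (npt K x + s • nu K x) K = s := by
    rw [← h.dst n K _ hK, hP, add_sub_cancel_left, norm_smul, hun, mul_one,
      Real.norm_of_nonneg hs.le]
  refine ⟨hd, ?_⟩
  conv_lhs => rw [nu, hd, hP, add_sub_cancel_left, smul_smul, inv_mul_cancel₀ hs.ne', one_smul]

private theorem NSH_pos (h : St_NPT) {n : ℕ} {K : Set (E n)} {x : E n} (hK : CB K) (hx : x ∉ K) :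
    0 < infDist x K := by
  refine lt_of_le_of_ne infDist_nonneg fun h0 => hx ?_
  have h1 := h.dst n K x hK
  rw [← h0, norm_eq_zero, sub_eq_zero] at h1
  rw [h1]
  exact h.mem n K x hK

private theorem NSH_eq (h : St_NPT) {n : ℕ} {K : Set (E n)} {x : E n} (hK : CB K)
    (hx : 0 < infDist x K) (t : ℝ) :
    x + t • nu K x = npt K x + (infDist x K + t) • nu K x := by
  have h1 : infDist x K • nu K x = x - npt K x := by
    rw [nu, smul_smul, mul_inv_cancel₀ hx.ne', one_smul]
  rw [add_smul, h1]
  abel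

theorem thm_NSH (h_NPT : St_NPT) : St_NSH where
  dst := by
    intro n K x t hK hx ht
    have h0 := NSH_pos h_NPT hK hx
    rw [NSH_eq h_NPT hK h0 t]
    exact (NSH_ray h_NPT hK (infDist x K + t) h0 (by linarith)).1
  nor := by
    intro n K x t hK hx ht
    have h0 := NSH_pos h_NPT hK hx
    rw [NSH_eq h_NPT hK h0 t]
    exact (NSH_ray h_NPT hK (infDist x K + t) h0 (by linarith)).2
  inv := by
    intro n K y t hK ht hy
    have h0 : 0 < infDist y K := lt_of_le_of_lt ht hy
    have h1 : y - t • nu K y = npt K y + (infDist y K - t) • nu K y := by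
      have h2 := NSH_eq h_NPT hK h0 (-t)
      rw [neg_smul, ← sub_eq_add_neg, ← sub_eq_add_neg] at h2
      exact h2
    rw [h1]
    exact NSH_ray h_NPT hK (infDist y K - t) h0 (by linarith)

end RLW
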