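import Mathlib
import Pool.Agent.RLW.StS

/-!
# RLW (MP_f7beb7_gt), module SJC: volumes of shells by the change of variables formula
-/

set_option autoImplicit false

open MeasureTheory Metric Set
open scoped BigOperators Pointwise RealInnerProductSpace NNReal Topology

namespace RLW

private lemma sjc_set {n : ℕ} (K : Set (E n)) (hK : CB K) (s : ℝ) (hs : 0 ≤ s) :
    {x | infDist x K ≤ s} = K + closedBall (0 : E n) s := by
  rw [hK.cpt.add_closedBall_zero hs]
  ext x
  rw [mem_ofPred_eq, mem_cthickening_iff, ENNReal.le_ofReal_iff_toReal_le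
    (infEDist_ne_top hK.ne) hs]
  rfl

private lemma sjc_fin {n : ℕ} (K : Set (E n)) (hK : CB K) (s : ℝ) (hs : 0 ≤ s) :
    volume {x | infDist x K ≤ s} ≠ ⊤ := by
  rw [sjc_set K hK s hs]
  exact (hK.cpt.add (isCompact_closedBall 0 s)).measure_ne_top

private lemma sjc_meas {n : ℕ} (K : Set (E n)) (s : ℝ) :
    MeasurableSet {x : E n | infDist x K ≤ s} :=
  (isClosed_le (continuous_infDist_pt K) continuous_const).measurableSet

private lemma sjc_shl_meas {n : ℕ} (K : Set (E n)) (a b : ℝ) : MeasurableSet (shl K a b) :=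
  (measurableSet_lt measurable_const (continuous_infDist_pt K).measurable).inter
    (measurableSet_le (continuous_infDist_pt K).measurable measurable_const)

/-- the volume of the shell -/
private lemma sjc_vo {n : ℕ} (K : Set (E n)) (hK : CB K) {a b : ℝ} (ha : 0 ≤ a) (hab : a ≤ b) :
    vo K b - vo K a = (volume (shl K a b)).toReal ∧ volume (shl K a b) ≠ ⊤ := by
  have h1 : shl K a b = {x | infDist x K ≤ b} \ {x | infDist x K ≤ a} := by
    ext x
    constructor
    · rintro ⟨h1, h2⟩
      exact ⟨h2, not_le.2 h1⟩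
    · rintro ⟨h1, h2⟩
      exact ⟨not_le.1 h2, h1⟩
  have hsub : {x | infDist x K ≤ a} ⊆ {x | infDist x K ≤ b} := fun x hx => le_trans hx hab
  have h2 : volume (shl K a b) =
      volume {x | infDist x K ≤ b} - volume {x | infDist x K ≤ a} := by
    rw [h1]
    exact measure_sdiff hsub (sjc_meas K a).nullMeasurableSet (sjc_fin K hK a ha)
  have h3 : volume {x : E n | infDist x K ≤ a} ≤ volume {x | infDist x K ≤ b} :=
    measure_mono hsub
  refine ⟨?_, ?_⟩
  · rw [h2, ENNReal.toReal_sub_of_le h3 (sjc_fin K hK b (ha.trans hab))]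
    unfold vo
    rw [sjc_set K hK b (ha.trans hab), sjc_set K hK a ha]
  · rw [h2]
    exact ne_top_of_le_ne_top (sjc_fin K hK b (ha.trans hab)) tsub_le_self

theorem thm_SJC (h_NUB : St_NUB) (h_HES : St_HES) (h_NSH : St_NSH) (h_DPO : St_DPO)
    (h_LNU : St_LNU) : St_SJC := by
  intro n K a b t hK ha hab ht
  let Φ : E n → E n := fun x => x + t • nu K x
  let S : Set (E n) := shl K a b
  have hS : MeasurableSet S := sjc_shl_meas K a b
  have hSK : ∀ x ∈ S, x ∉ K := by
    intro x hx hxK
    have h1 : a < infDist x K := hx.1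
    rw [infDist_zero_of_mem hxK] at h1
    linarith
  let s : Set (E n) := S ∩ {x | DifferentiableAt ℝ (nu K) x}
  have hs : MeasurableSet s := hS.inter (measurableSet_of_differentiableAt ℝ (nu K))
  have hnull : volume (S \ s) = 0 := by
    have h1 := h_HES.ae n K hK
    rw [ae_iff] at h1
    refine measure_mono_null (fun x hx => ?_) h1
    show ¬(x ∉ K → DifferentiableAt ℝ (nu K) x)
    intro h2
    exact hx.2 ⟨hx.1, h2 (hSK x hx.1)⟩
  -- the image of the shell
  have himg : Φ '' S = shl K (a + t) (b + t) := by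
    ext y
    constructor
    · rintro ⟨x, hx, rfl⟩
      have h1 := h_NSH.dst n K x t hK (hSK x hx) ht
      show a + t < infDist (x + t • nu K x) K ∧ infDist (x + t • nu K x) K ≤ b + t
      rw [h1]
      exact ⟨by linarith [hx.1], by linarith [hx.2]⟩
    · rintro ⟨h1, h2⟩
      obtain ⟨h3, h4⟩ := h_NSH.inv n K y t hK ht (by linarith)
      refine ⟨y - t • nu K y, ⟨?_, ?_⟩, ?_⟩
      · rw [h3]
        linarith
      · rw [h3]
        linarith
      · show y - t • nu K y + t • nu K (y - t • nu K y) = y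
        rw [h4, sub_add_cancel]
  have hinj : InjOn Φ S := by
    intro x hx y hy hxy
    have h1 := h_NSH.nor n K x t hK (hSK x hx) ht
    have h2 := h_NSH.nor n K y t hK (hSK y hy) ht
    have hxy' : x + t • nu K x = y + t • nu K y := hxy
    rw [hxy', h2] at h1
    rw [h1] at hxy'
    exact add_right_cancel hxy'
  have hlip : LipschitzOnWith (Real.toNNReal (1 + t * (3 / a))) Φ S := by
    refine LipschitzOnWith.of_dist_le_mul fun x hx y hy => ?_
    rw [dist_eq_norm, dist_eq_norm, Real.coe_toNNReal _ (by positivity)]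
    have h1 := h_NUB.lip n K x y a hK ha hx.1.le hy.1.le
    have h2 : Φ x - Φ y = (x - y) + t • (nu K x - nu K y) := by
      show x + t • nu K x - (y + t • nu K y) = _
      rw [smul_sub]
      abel
    rw [h2]
    refine (norm_add_le _ _).trans ?_
    rw [norm_smul, Real.norm_eq_abs, abs_of_nonneg ht]
    nlinarith [mul_le_mul_of_nonneg_left h1 ht]
  have hvol : volume (Φ '' s) = volume (shl K (a + t) (b + t)) := by
    rw [← himg]
    refine le_antisymm (measure_mono (image_mono inter_subset_left)) ?_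
    have h1 : Φ '' S ⊆ Φ '' s ∪ Φ '' (S \ s) := by
      rw [← image_union]
      refine image_mono fun x hx => ?_
      by_cases hxs : x ∈ s
      · exact Or.inl hxs
      · exact Or.inr ⟨hx, hxs⟩
    have h2 : volume (Φ '' (S \ s)) = 0 :=
      h_LNU n Φ (S \ s) _ (hlip.mono sdiff_subset) hnull
    calc volume (Φ '' S) ≤ volume (Φ '' s ∪ Φ '' (S \ s)) := measure_mono h1
      _ ≤ volume (Φ '' s) + volume (Φ '' (S \ s)) := measure_union_le _ _
      _ = volume (Φ '' s) := by rw [h2, add_zero]
  have hder : ∀ x ∈ s, HasFDerivWithinAt Φ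
      (ContinuousLinearMap.id ℝ (E n) + t • fderiv ℝ (nu K) x) s x := by
    intro x hx
    have h1 : HasFDerivAt (nu K) (fderiv ℝ (nu K) x) x := hx.2.hasFDerivAt
    have h2 : HasFDerivAt Φ (ContinuousLinearMap.id ℝ (E n) + t • fderiv ℝ (nu K) x) x :=
      (hasFDerivAt_id x).add (h1.const_smul t)
    exact h2.hasFDerivWithinAt
  have hJ := lintegral_abs_det_fderiv_eq_addHaar_image volume hs hder (hinj.mono inter_subset_left)
  have hpos : ∀ x ∈ s, 0 < dt (fderiv ℝ (nu K) x) t := by
    intro x hx
    refine h_DPO n _ t ?_ ht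
    exact h_HES.psd n K x _ hK (hSK x hx.1) hx.2.hasFDerivAt
  have hJ' : ∫⁻ x in s, ENNReal.ofReal (dt (fderiv ℝ (nu K) x) t) =
      volume (shl K (a + t) (b + t)) := by
    rw [← hvol, ← hJ]
    refine setLIntegral_congr_fun hs fun x hx => ?_
    show ENNReal.ofReal (dt (fderiv ℝ (nu K) x) t) =
      ENNReal.ofReal |(ContinuousLinearMap.id ℝ (E n) + t • fderiv ℝ (nu K) x).det|
    have h1 : |(ContinuousLinearMap.id ℝ (E n) + t • fderiv ℝ (nu K) x).det| =
        dt (fderiv ℝ (nu K) x) t := abs_of_pos (hpos x hx)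
    rw [h1]
  obtain ⟨hv1, hv2⟩ := sjc_vo K hK (a := a + t) (b := b + t) (by linarith) (by linarith)
  have hmeas : Measurable fun x => dt (fderiv ℝ (nu K) x) t := by
    have h1 : Continuous fun H : E n →L[ℝ] E n => dt H t := by
      unfold dt
      exact ContinuousLinearMap.continuous_det.comp
        (continuous_const.add (continuous_const_smul t))
    exact h1.measurable.comp (measurable_fderiv ℝ (nu K))
  have hnn : 0 ≤ᵐ[volume.restrict s] fun x => dt (fderiv ℝ (nu K) x) t :=
    (ae_restrict_iff' hs).2 (Filter.Eventually.of_forall fun x hx => (hpos x hx).le)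
  have hint : IntegrableOn (fun x => dt (fderiv ℝ (nu K) x) t) s := by
    refine (lintegral_ofReal_ne_top_iff_integrable hmeas.aestronglyMeasurable hnn).1 ?_
    rw [hJ']
    exact hv2
  have hae : (s : Set (E n)) =ᵐ[volume] S := by
    refine Filter.EventuallyLE.antisymm (Filter.Eventually.of_forall fun x hx => hx.1) ?_
    rw [ae_le_set]
    exact hnull
  refine ⟨(integrableOn_congr_set_ae hae).1 hint, ?_⟩
  rw [hv1, ← setIntegral_congr_set hae, integral_eq_lintegral_of_nonneg_ae hnn
    hmeas.aestronglyMeasurable, hJ']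

end RLW
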