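import Mathlib
import Pool.Agent.RLW.StS

/-!
# RLW, module STE: Steiner's formula, every convex body has intrinsic volumes
-/

set_option autoImplicit false

open MeasureTheory Metric Set Filter
open scoped BigOperators Pointwise Topology

namespace RLW

private lemma ste_mono {n : ℕ} (K : Set (E n)) (hK : CB K) : MonotoneOn (vo K) (Ioi 0) := by
  intro s _ t _ hst
  refine ENNReal.toReal_mono ?_ (measure_mono ?_)
  · exact (hK.cpt.add (isCompact_closedBall 0 t)).measure_lt_top.ne
  · exact Set.add_subset_add_left (closedBall_subset_closedBall hst)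

private lemma ste_zero {n : ℕ} (K : Set (E n)) (hK : CB K) :
    Tendsto (vo K) (𝓝[>] 0) (𝓝 (vo K 0)) := by
  have h1 : Tendsto (fun r => (volume (cthickening r K)).toReal) (𝓝 0)
      (𝓝 (volume K).toReal) :=
    (ENNReal.tendsto_toReal hK.cpt.measure_lt_top.ne).comp
      (tendsto_measure_cthickening_of_isCompact hK.cpt)
  have h2 : (volume K).toReal = vo K 0 := by
    unfold vo
    rw [closedBall_zero, Set.singleton_zero, add_zero]
  rw [← h2]
  refine (h1.mono_left nhdsWithin_le_nhds).congr' ?_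
  filter_upwards [self_mem_nhdsWithin] with r hr
  unfold vo
  rw [hK.cpt.add_closedBall_zero (mem_Ioi.1 hr).le]

private lemma ste_bound {n : ℕ} (K : Set (E n)) (hK : CB K) :
    ∃ R : ℝ, 0 ≤ R ∧ ∀ s : ℝ, 0 < s → vo K s ≤ kap n * (s + R) ^ n := by
  obtain ⟨R, hR⟩ := hK.cpt.isBounded.subset_closedBall (0 : E n)
  refine ⟨max R 0, le_max_right _ _, fun s hs => ?_⟩
  have h0 : 0 ≤ max R 0 := le_max_right _ _
  have hsub : K + closedBall (0 : E n) s ⊆ closedBall (0 : E n) (s + max R 0) := by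
    rintro _ ⟨x, hx, y, hy, rfl⟩
    have hx' := mem_closedBall_zero_iff.1 (hR hx)
    have hy' := mem_closedBall_zero_iff.1 hy
    rw [mem_closedBall_zero_iff]
    have := norm_add_le x y
    have := le_max_left R 0
    linarith
  have hle : vo K s ≤ (volume (closedBall (0 : E n) (s + max R 0))).toReal :=
    ENNReal.toReal_mono (isCompact_closedBall _ _).measure_lt_top.ne (measure_mono hsub)
  have hs0 : 0 ≤ s + max R 0 := by linarith
  rw [Measure.addHaar_closedBall' _ _ hs0, ENNReal.toReal_mul,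
    ENNReal.toReal_ofReal (pow_nonneg hs0 _), finrank_euclideanSpace_fin] at hle
  unfold kap
  linarith

private lemma ste_deg {n : ℕ} (k R : ℝ) (hk : 0 < k) (hR : 0 ≤ R) (Q : Polynomial ℝ)
    (h0 : ∀ s : ℝ, 0 < s → 0 ≤ Q.eval s) (h : ∀ s : ℝ, 0 < s → Q.eval s ≤ k * (s + R) ^ n) :
    Q.natDegree < n + 1 := by
  by_contra hn
  have hn' : n < Q.natDegree := by omega
  set B : Polynomial ℝ := Polynomial.C k * (Polynomial.X + Polynomial.C R) ^ n with hB
  have hBm : (Polynomial.X + Polynomial.C R).Monic := Polynomial.monic_X_add_C R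
  have hB0 : B ≠ 0 := mul_ne_zero (Polynomial.C_ne_zero.2 hk.ne') (hBm.pow n).ne_zero
  have hBd : B.degree ≤ n := by
    rw [hB, Polynomial.degree_C_mul hk.ne', Polynomial.degree_pow, Polynomial.degree_X_add_C]
    simp
  have hQd : (n : WithBot ℕ) < Q.degree := by
    have hQ0 : Q ≠ 0 := by
      rintro rfl
      simp at hn'
    rw [Polynomial.degree_eq_natDegree hQ0]
    exact_mod_cast hn'
  have ht := Polynomial.abs_div_tendsto_atTop_atTop_of_degree_gt Q B (lt_of_le_of_lt hBd hQd) hB0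
  have h2 : ∀ᶠ s : ℝ in atTop, 2 ≤ |Q.eval s / B.eval s| := ht.eventually_ge_atTop 2
  obtain ⟨s, hs, hs0⟩ := (h2.and (eventually_gt_atTop 0)).exists
  have hBe : B.eval s = k * (s + R) ^ n := by
    rw [hB]
    simp
  have hBp : 0 < B.eval s := by
    rw [hBe]
    positivity
  have h3 : |Q.eval s / B.eval s| ≤ 1 := by
    rw [abs_of_nonneg (div_nonneg (h0 s hs0) hBp.le), div_le_one hBp, hBe]
    exact h s hs0
  linarith

theorem thm_STE (h_DIF : St_DIF) (h_FRE : St_FRE) (h_KAP : St_KAP) : St_STE := by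
  intro n K hK
  obtain ⟨Q, hQ⟩ := h_FRE (vo K) (ste_mono K hK) (h_DIF n K · · hK)
  obtain ⟨R, hR, hb⟩ := ste_bound K hK
  have hkp : ∀ k, 0 < kap k := h_KAP.2.2.2
  have hdeg : Q.natDegree < n + 1 := by
    refine ste_deg (kap n) R (hkp n) hR Q (fun s hs => ?_) (fun s hs => ?_)
    · rw [← hQ s hs]
      exact ENNReal.toReal_nonneg
    · rw [← hQ s hs]
      exact hb s hs
  have hQ0 : vo K 0 = Q.eval 0 := by
    have h1 : Tendsto (fun s : ℝ => Q.eval s) (𝓝[>] 0) (𝓝 (Q.eval 0)) :=
      (Q.continuous.tendsto 0).mono_left nhdsWithin_le_nhds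
    have h2 : Tendsto (vo K) (𝓝[>] 0) (𝓝 (Q.eval 0)) := by
      refine h1.congr' ?_
      filter_upwards [self_mem_nhdsWithin] with s hs
      exact (hQ s hs).symm
    exact tendsto_nhds_unique (ste_zero K hK) h2
  have hQ' : ∀ s : ℝ, 0 ≤ s → vo K s = Q.eval s := by
    intro s hs
    rcases hs.eq_or_lt with h | h
    · rw [← h]
      exact hQ0
    · exact hQ s h
  refine ⟨fun j => Q.coeff (n - j) / kap (n - j), fun t ht => ?_⟩
  have h1 : (volume (K + closedBall (0 : E n) t)).toReal = Q.eval t := hQ' t ht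
  rw [h1, Polynomial.eval_eq_sum_range' hdeg,
    ← Finset.sum_range_reflect (fun i => Q.coeff i * t ^ i) (n + 1)]
  refine Finset.sum_congr rfl fun j _ => ?_
  have h2 : n + 1 - 1 - j = n - j := by omega
  rw [h2]
  have h3 : kap (n - j) ≠ 0 := (hkp (n - j)).ne'
  field_simp

end RLW
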