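import Pool.Agent.RLW.Asm
import Pool.Agent.RLW.NSH
import Pool.Agent.RLW.DPO
import Pool.Agent.RLW.LNU
import Pool.Agent.RLW.SJC
import Pool.Agent.RLW.LAG
import Pool.Agent.RLW.DIF
import Pool.Agent.RLW.FRE
import Pool.Agent.RLW.STE

/-!
# RLW: assembly of part S (Steiner's formula)
-/

set_option autoImplicit false

namespace RLW

theorem a_NSH : St_NSH := thm_NSH thm_NPT
theorem a_SJC : St_SJC := thm_SJC a_NUB a_HES a_NSH thm_DPO thm_LNU
theorem a_DIF : St_DIF := thm_DIF a_SJC thm_LAG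

/-- Steiner's formula -/
theorem a_STE : St_STE := thm_STE a_DIF thm_FRE thm_KAP

end RLW
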