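import Pool.Agent.RLW.StB
import Pool.Agent.RLW.StS

/-!
# RLW (MP_f7beb7_gt), part U: uniqueness of the extremal bodies in dimension three

`V 1` is linear in the support function: `V 1 = 2 π ^ (-(n - 1) / 2) ∫ h exp (-‖x‖ ^ 2)`.  So the
inequality `V 1 ≥ (2 / π) t0 ∑ j, W j 1` (`t0 = arcsin (1 / √3)`) says `Lm h ≥ 0` for a linear functional
`Lm`, and extremal bodies satisfy `Lm h = 0`.  Symmetrisation: `∑ g, h ∘ g` (signed permutations) has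
again `Lm = 0`.  For symmetric bodies the convex hull of the coordinate sections is a smaller body with
the same sections and projections, and Chebyshev's inequality shows that the body is a cross-polytope.
A body whose symmetrisation is a cross-polytope is a cross-polytope (cross-polytopes are indecomposable).
-/

set_option autoImplicit false

open MeasureTheory Metric Set
open scoped BigOperators Pointwise RealInnerProductSpace NNReal Topology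

namespace RLW

/-- the support function -/
noncomputable def hs {n : ℕ} (K : Set (E n)) (x : E n) : ℝ := sSup ((fun z => ⟪x, z⟫) '' K)

/-- support functions of convex bodies -/
def SF {n : ℕ} (h : E n → ℝ) : Prop := ∃ K : Set (E n), CB K ∧ ∀ x, hs K x = h x

/-- the coordinate `j` is replaced by zero -/
noncomputable def zr {n : ℕ} (j : Fin n) (x : E n) : E n :=
  WithLp.toLp 2 fun i => if i = j then 0 else x i

/-- `arcsin (1 / √3)` -/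
noncomputable def tz : ℝ := Real.arcsin (1 / √3)

/-- the functional `(π / 2) (V 1 - (2 / π) tz ∑ W j 1)` -/
noncomputable def Lm (h : E 3 → ℝ) : ℝ :=
  ∫ x : E 3, (h x - 2 * tz / Real.pi * ∑ j, h (zr j x)) * Real.exp (-‖x‖ ^ 2)

/-- the maximum norm -/
noncomputable def mx (x : E 3) : ℝ := max |x 0| (max |x 1| |x 2|)

/-- points -/
noncomputable def e3 (a b c : ℝ) : E 3 := WithLp.toLp 2 ![a, b, c]

/-- signed permutations -/
noncomputable def ga (g : Equiv.Perm (Fin 3) × (Fin 3 → Bool)) (x : E 3) : E 3 :=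
  WithLp.toLp 2 fun i => if g.2 i = true then x (g.1 i) else -x (g.1 i)

/-- symmetrisation -/
noncomputable def sy (h : E 3 → ℝ) (x : E 3) : ℝ := ∑ g, h (ga g x)

/-- invariant functions -/
def Gi (h : E 3 → ℝ) : Prop := ∀ g x, h (ga g x) = h x

/-- the coordinate section -/
def sc {n : ℕ} (j : Fin (n + 1)) (K : Set (E (n + 1))) : Set (E n) := {y | ins j 0 y ∈ K}

/-! ### support functions -/

/-- [HSB] elementary facts (`K` is compact, so the supremum is a maximum); `det`: if `z ∈ K`, `z ∉ L`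
separate `z` from `L` (`geometric_hahn_banach_point_closed` or the nearest point `npt L z`:
`x = z - npt L z`, `⟪x, z⟫ > ⟪x, npt L z⟫ = hs L x`). -/
structure St_HSB : Prop where
  le : ∀ (n : ℕ) (K : Set (E n)) (x z : E n), CB K → z ∈ K → ⟪x, z⟫ ≤ hs K x
  att : ∀ (n : ℕ) (K : Set (E n)) (x : E n), CB K → ∃ z ∈ K, ⟪x, z⟫ = hs K x
  det : ∀ (n : ℕ) (K L : Set (E n)), CB K → CB L → (∀ x, hs K x ≤ hs L x) → K ⊆ L

/-- [SFP] properties of support functions: subadditive, homogeneous, continuous (Lipschitz),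
`|h x| ≤ C ‖x‖`, integrable with the Gaussian weight. -/
structure St_SFP : Prop where
  sub : ∀ (n : ℕ) (h : E n → ℝ) (x y : E n), SF h → h (x + y) ≤ h x + h y
  hom : ∀ (n : ℕ) (h : E n → ℝ) (x : E n) (r : ℝ), SF h → 0 ≤ r → h (r • x) = r * h x
  cts : ∀ (n : ℕ) (h : E n → ℝ), SF h → Continuous h
  bdd : ∀ (n : ℕ) (h : E n → ℝ), SF h → ∃ C, ∀ x, |h x| ≤ C * ‖x‖
  int : ∀ (n : ℕ) (h : E n → ℝ), SF h → Integrable fun x => h x * Real.exp (-‖x‖ ^ 2)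

/-- [SFC] operations: `cmp`: image under the adjoint map; `add`: Minkowski sum; `max`: convex hull of the
union (`IsCompact.convexHull`... the union is compact); `mul`: dilation (`{0}` for `r = 0`). -/
structure St_SFC : Prop where
  cmp : ∀ (m n : ℕ) (g : E m →ₗ[ℝ] E n) (h : E n → ℝ), SF h → SF fun x => h (g x)
  add : ∀ (n : ℕ) (h h' : E n → ℝ), SF h → SF h' → SF fun x => h x + h' x
  max : ∀ (n : ℕ) (h h' : E n → ℝ), SF h → SF h' → SF fun x => max (h x) (h' x)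
  mul : ∀ (n : ℕ) (h : E n → ℝ) (r : ℝ), SF h → 0 ≤ r → SF fun x => r * h x

/-- [MWF] the mean width formula. For `0 < ε ≤ 1`, `K ⊆ closedBall 0 R`, by `St_WIL` and `St_SCV` for
`ε • K`: `∑ j, V j ε ^ j √π ^ (n - j) = ∫ exp (-infDist y (ε • K) ^ 2)`, and `infDist y (ε • K) ^ 2` is the
minimum of `‖y‖ ^ 2 - 2 ε ⟪y, z⟫ + ε ^ 2 ‖z‖ ^ 2`, `z ∈ K`, so it is between `‖y‖ ^ 2 - 2 ε hs K y` and
`‖y‖ ^ 2 - 2 ε hs K y + ε ^ 2 R ^ 2`. For `ε → 0`: `V 0 = 1` and by dominated convergence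
`V 1 √π ^ (n - 1) = lim ε⁻¹ ∫ (exp (-infDist y (ε • K) ^ 2) - exp (-‖y‖ ^ 2)) = ∫ 2 hs K y exp (-‖y‖ ^ 2)`
(majorant `(2 R ‖y‖ + R ^ 2) (exp (R ^ 2 - ‖y‖ ^ 2 / 2) + exp (-‖y‖ ^ 2))`, as `‖y‖ ≤ infDist y (ε • K) + R`). -/
def St_MWF : Prop := ∀ (n : ℕ) (K : Set (E n)) (V : ℕ → ℝ), 1 ≤ n → CB K → IsIV K V →
  V 1 * √Real.pi ^ (n - 1) = 2 * ∫ x : E n, hs K x * Real.exp (-‖x‖ ^ 2)

/-- [LMF] from `St_MWF` (dimensions 3 and 2), `hs (prj j '' K) y = hs K (ins j 0 y)`, `St_FUB`: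
`zr j (ins j s y) = ins j 0 y`, `‖ins j s y‖ ^ 2 = s ^ 2 + ‖y‖ ^ 2`, `∫ s, exp (-s ^ 2) = √π`. -/
structure St_LMF : Prop where
  v : ∀ (K : Set (E 3)) (V : ℕ → ℝ), CB K → IsIV K V →
    V 1 = 2 / Real.pi * ∫ x : E 3, hs K x * Real.exp (-‖x‖ ^ 2)
  w : ∀ (K : Set (E 3)) (W : ℕ → ℝ) (j : Fin 3), CB K → IsIV (prj j '' K) W →
    W 1 = 2 / Real.pi * ∫ x : E 3, hs K (zr j x) * Real.exp (-‖x‖ ^ 2)

/-- [JEQ] equality in `St_JEN` for `n = 3`: as in the proof of `St_JEN`, `t sin t - β (sin t) ^ 2` has a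
strict minimum at `t0` on `[0, π / 2]`. -/
def St_JEQ : Prop := ∀ x : Fin 3 → ℝ, (∀ j, 0 ≤ x j) → ∑ j, x j ^ 2 = 1 →
  ∑ j, x j * Real.arcsin (x j) = √3 * Real.arcsin (1 / √3) → ∀ j, x j = 1 / √3

/-- [LM0] `h = hs K`, `V`, `W j` by `St_STE` (`St_PRC.cb`), `St_POL` with `n = 2`, `t j = tz`; `St_LMF`;
integrability of the terms: `St_SFP.int`, `St_SFC.cmp` (`zr j` is linear). -/
def St_LM0 : Prop := ∀ h : E 3 → ℝ, SF h → 0 ≤ Lm h

/-- [LM1] let `p j = W j 1 ≥ 0` (`St_MON`), `S ^ 2 = ∑ p j ^ 2`. If `S > 0`: by `St_POL` with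
`t j = arcsin (p j / S)` and `St_JEN` (`n = 3`): `V 1 ≥ (2 / π) S ∑ (p j / S) arcsin (p j / S) ≥ (2 / π) S √3 tz`,
and this is `V 1` (`V 1 ≥ 0` by `St_MON`, `cst 3 = 12 / π ^ 2 * tz ^ 2`), so equality holds and `St_JEQ` gives
`p j = S / √3`, `V 1 = (2 / π) tz ∑ p j`. If `S = 0` all terms are zero. `St_LMF`. -/
def St_LM1 : Prop := ∀ (K : Set (E 3)) (V : ℕ → ℝ) (W : Fin 3 → ℕ → ℝ), CB K → IsIV K V →
  (∀ j, IsIV (prj j '' K) (W j)) → V 1 ^ 2 = cst 3 * ∑ j, W j 1 ^ 2 → Lm (hs K) = 0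

/-- [HOC] the support function of the cross-polytope -/
def St_HOC : Prop := ∀ (a x : E 3) (r : ℝ), 0 ≤ r → hs (oct 3 a r) x = ⟪a, x⟫ + r * mx x

/-- [LM2] `oct 3 0 1` (a convex body: `St_OCB`) is extremal by `St_OEQ`; `St_STE`, `St_LM1`, `St_HOC`. -/
def St_LM2 : Prop := Lm mx = 0 ∧ SF mx

/-! ### symmetric bodies -/

/-- [SYM] `ga g` is a linear isometry, so it preserves the volume; `ga g (zr j x) = zr (g.1.symm j) (ga g x)`;
the compositions of signed permutations are signed permutations. `St_SFC`, `St_SFP.int`. -/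
structure St_SYM : Prop where
  lin : ∀ g, ∃ L : E 3 →ₗ[ℝ] E 3, (∀ x, L x = ga g x) ∧ ∀ x, ‖ga g x‖ = ‖x‖
  sf : ∀ h : E 3 → ℝ, SF h → SF (sy h)
  inv : ∀ h : E 3 → ℝ, Gi (sy h)
  lm : ∀ h : E 3 → ℝ, SF h → Lm (sy h) = 48 * Lm h

/-- [MON3] monotonicity of invariant support functions: if `|x i| ≤ |y i|` for all `i` then `h x ≤ h y`
(change one coordinate at a time: `x` is a convex combination of `y` and the reflected point). -/
def St_MO3 : Prop := ∀ h : E 3 → ℝ, SF h → Gi h → ∀ x y : E 3, (∀ i, |x i| ≤ |y i|) → h x ≤ h y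

/-- [MIN] Let `h' x = max_j h (zr j x)`: `SF h'` (`St_SFC`), `h' ≤ h` (`St_MO3`), `h' (zr j x) = h (zr j x)`
(`zr j (zr j x) = zr j x`). So `0 ≤ Lm h' = Lm h + ∫ (h' - h) exp (-‖x‖ ^ 2) ≤ 0`, `h' = h` almost everywhere,
everywhere by continuity. If `|x j|` is the smallest, `h (zr i x) ≤ h (zr j x)` for all `i` (`St_MO3` after
the transposition of `i` and `j`), so `h x = h' x = h (zr j x)`. -/
def St_MIN : Prop := ∀ h : E 3 → ℝ, SF h → Gi h → Lm h = 0 → ∀ (x : E 3) (j : Fin 3),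
  (∀ i, |x j| ≤ |x i|) → h x = h (zr j x)

/-- [CH1] `∫ h exp = ∑ j, ∫ 1 (|x j| < |x i| for i ≠ j) h (zr j x) exp` (ties have measure zero), all three
terms are equal (permutations), and `∫ s, 1 (|s| < b) exp (-s ^ 2) = Er b`; `∫ h (zr j x) exp =
√π ∫ y, h (y, 0) exp (-‖y‖ ^ 2)` (`St_FUB` for `i = 2` and for the plane). -/
def St_CH1 : Prop := ∀ (h : E 3 → ℝ) (C : ℝ), Continuous h → (∀ x, |h x| ≤ C * ‖x‖) → Gi h →
  (∀ (x : E 3) (j : Fin 3), (∀ i, |x j| ≤ |x i|) → h x = h (zr j x)) →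
  Lm h = 3 * √Real.pi * ∫ y : ℝ × ℝ, h (e3 y.1 y.2 0) *
    ((Er (min |y.1| |y.2|) / √Real.pi - 2 * tz / Real.pi) * Real.exp (-(y.1 ^ 2 + y.2 ^ 2)))

/-- [CH2] Chebyshev's inequality. Polar coordinates (`integral_comp_polarCoord_symm`): with
`M θ = max |cos θ| |sin θ|`, `μ θ = min |cos θ| |sin θ|`, `κ θ = k (cos θ) (sin θ)`,
`g m = ∫ ρ in Ioi 0, ρ ^ 2 exp (-ρ ^ 2) (Er (ρ m) - c)`, strictly increasing in `m ≥ 0`:
`∫ κ g(μ) = 0` and `∫ M g(μ) = 0` over `(-π, π)`. Put `q = κ / M`; `q θ = k 1 (μ / M)` and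
`M = √(1 - μ ^ 2)`, so `q θ ≤ q θ'` if `μ θ ≤ μ θ'`. The function
`M θ M θ' (q θ - q θ') (g (μ θ) - g (μ θ'))` of `(θ, θ')` is continuous, `≥ 0`, and its integral is
`2 ∫ M ∫ κ g(μ) - 2 ∫ κ ∫ M g(μ) = 0`; so it is zero, so `q θ = q θ'` if `μ θ ≠ μ θ'`, and `q` is constant. -/
def St_CH2 : Prop := ∀ (k : ℝ → ℝ → ℝ) (c : ℝ), Continuous (fun y : ℝ × ℝ => k y.1 y.2) →
  (∀ t a b, 0 ≤ t → k (t * a) (t * b) = t * k a b) → (∀ a b, k a b = k |a| |b|) →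
  (∀ a b, k a b = k b a) → (∀ a b b', 0 ≤ b → b ≤ b' → b' ≤ a → k a b ≤ k a b') →
  ∫ y : ℝ × ℝ, k y.1 y.2 * ((Er (min |y.1| |y.2|) - c) * Real.exp (-(y.1 ^ 2 + y.2 ^ 2))) = 0 →
  ∫ y : ℝ × ℝ, max |y.1| |y.2| * ((Er (min |y.1| |y.2|) - c) * Real.exp (-(y.1 ^ 2 + y.2 ^ 2))) = 0 →
  ∃ r, ∀ a b, k a b = r * max |a| |b|

/-- [CHE] from `St_CH1` (for `h` and `mx`), `St_CH2` (`k a b = h (e3 a b 0)`, `c = 2 tz / √π`), `St_MIN`,
`St_MO3`, `St_LM2`, `St_SFP`. -/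
def St_CHE : Prop := ∀ h : E 3 → ℝ, SF h → Gi h → Lm h = 0 → ∃ r, ∀ x, h x = r * mx x

/-- [IND] indecomposability. For `x`, `y` in the cone `x i = mx x` (or `-x i = mx x`), `i` fixed,
`mx (x + y) = mx x + mx y`, and `∑ g, (h (ga g x) + h (ga g y) - h (ga g (x + y))) = 0` with nonnegative terms;
`g = 1` gives `h (x + y) = h x + h y`. Let `H ε = h (ε)` for the eight points `ε = (±1, ±1, ±1)`. On the face
`ε 0 = 1`: `H (1,1,1) + H (1,-1,-1) = h (2, 0, 0) = H (1,1,-1) + H (1,-1,1)`; the same for the other five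
faces; so `H ε = ρ + ∑ a j ε j` (characters of `{±1} ^ 3`: `a 12 + a 012 = 0` and `a 12 - a 012 = 0` etc.). A point
with `x 0 = mx x = m > 0` is `∑ m (1 ± x 1 / m) / 2 * (1 ± x 2 / m) / 2 • (1, ±1, ±1)`, so
`h x = m (ρ + a 0) + a 1 x 1 + a 2 x 2`. -/
def St_IND : Prop := ∀ (h : E 3 → ℝ) (R : ℝ), SF h → (∀ x, sy h x = R * mx x) →
  ∃ (a : E 3) (ρ : ℝ), ∀ x, h x = ⟪a, x⟫ + ρ * mx x

/-- [UNI] `Lm (hs K) = 0` (`St_LM1`), `sy (hs K) = R mx` (`St_SYM`, `St_CHE`), `hs K x = ⟪a, x⟫ + ρ mx x`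
(`St_IND`), `ρ ≥ 0` since `hs K x + hs K (-x) ≥ 0`, `K = oct 3 a ρ` (`St_HOC`, `St_HSB.det`, `St_OCB`), and
`ρ ≠ 0` since `oct 3 a 0 = {a}` has empty interior. Conversely `St_OEQ`. -/
def St_UNI : Prop := ∀ (K : Set (E 3)) (V : ℕ → ℝ) (W : Fin 3 → ℕ → ℝ), CB K →
  (interior K).Nonempty → IsIV K V → (∀ j, IsIV (prj j '' K) (W j)) →
  (V 1 ^ 2 = cst 3 * ∑ j, W j 1 ^ 2 ↔ ∃ (a : E 3) (r : ℝ), 0 < r ∧ K = oct 3 a r)

/-- [SEC] sections. `W j` for `prj j '' K` by `St_STE`. If `sc j K` is not empty it is a convex body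
contained in `prj j '' K`, so `hs (sc j K) ≤ hs (prj j '' K)` and `0 ≤ U j 1 ≤ W j 1` by `St_MWF`, `St_MON`;
with `St_INE` the inequality. Equality: then `U j 1 = W j 1` for all `j` and by `St_UNI` `K = oct 3 a r`; `W j 1 > 0`
(`hs K (zr j x) + hs K (-zr j x) ≥ 2 r mx (zr j x)`, `St_LMF`), so `sc j K` is not empty; by `St_MWF` and
continuity `hs (sc j K) = hs (prj j '' K)`, so `prj j '' K ⊆ sc j K` (`St_HSB.det`); the point
`prj j a + r • e` of `prj j '' K` (`e` a unit coordinate vector) gives `|a j| + r ≤ r`. Conversely for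
`K = oct 3 0 r`: `sc j K = prj j '' K`, `St_OEQ`. -/
def St_SEC : Prop := ∀ (K : Set (E 3)) (V : ℕ → ℝ) (U : Fin 3 → ℕ → ℝ), CB K → IsIV K V →
  (∀ j, (sc j K).Nonempty → IsIV (sc j K) (U j)) → (∀ j, sc j K = ∅ → U j 1 = 0) →
  cst 3 * ∑ j, U j 1 ^ 2 ≤ V 1 ^ 2 ∧ ((interior K).Nonempty →
    (V 1 ^ 2 = cst 3 * ∑ j, U j 1 ^ 2 ↔ ∃ r : ℝ, 0 < r ∧ K = oct 3 0 r))

end RLW
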