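import Mathlib
import Pool.Agent.RLW.StU

/-!
# RLW, module CH1: `Lm h` as an integral over the plane
-/

set_option autoImplicit false

open MeasureTheory Metric Set
open scoped BigOperators Pointwise RealInnerProductSpace NNReal Topology

namespace RLW

private lemma ch1_norm : Integrable (fun x : E 3 => ‖x‖ * Real.exp (-‖x‖ ^ 2)) := by
  have h1 : Integrable (fun x : E 3 => Real.exp (-(1 / 2) * ‖x‖ ^ 2)) := by
    have h2 := (GaussianFourier.integrable_cexp_neg_mul_sq_norm_add (V := E 3)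
      (b := ((1 / 2 : ℝ) : ℂ)) (by rw [Complex.ofReal_re]; norm_num) 0 0).norm
    refine h2.congr (Filter.Eventually.of_forall fun x => ?_)
    show ‖Complex.exp _‖ = _
    rw [Complex.norm_exp]
    congr 1
    have h3 : (-((1 / 2 : ℝ) : ℂ) * (‖x‖ : ℂ) ^ 2 + 0 * ((inner ℝ (0 : E 3) x : ℝ) : ℂ)) =
        ((-(1 / 2) * ‖x‖ ^ 2 : ℝ) : ℂ) := by
      push_cast
      ring
    rw [h3, Complex.ofReal_re]
  refine h1.mono' ?_ ?_
  · have h4 : Continuous (fun x : E 3 => ‖x‖ * Real.exp (-‖x‖ ^ 2)) := by fun_prop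
    exact h4.aestronglyMeasurable
  · filter_upwards with x
    rw [Real.norm_of_nonneg (by positivity)]
    have h3 : ‖x‖ ≤ Real.exp (1 / 2 * ‖x‖ ^ 2) := by
      have h5 := Real.add_one_le_exp (1 / 2 * ‖x‖ ^ 2)
      nlinarith [sq_nonneg (‖x‖ - 1)]
    calc ‖x‖ * Real.exp (-‖x‖ ^ 2) ≤ Real.exp (1 / 2 * ‖x‖ ^ 2) * Real.exp (-‖x‖ ^ 2) := by
          gcongr
      _ = Real.exp (-(1 / 2) * ‖x‖ ^ 2) := by
          rw [← Real.exp_add]
          congr 1
          ring

private lemma ch1_int (h : E 3 → ℝ) (C : ℝ) (hc : AEStronglyMeasurable h)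
    (hb : ∀ x, |h x| ≤ C * ‖x‖) :
    Integrable (fun x : E 3 => h x * Real.exp (-‖x‖ ^ 2)) := by
  refine (ch1_norm.const_mul C).mono' ?_ ?_
  · have h4 : Continuous (fun x : E 3 => Real.exp (-‖x‖ ^ 2)) := by fun_prop
    exact hc.mul h4.aestronglyMeasurable
  · filter_upwards with x
    rw [norm_mul, Real.norm_eq_abs, Real.norm_eq_abs, abs_of_pos (Real.exp_pos _)]
    have := hb x
    have h5 := Real.exp_pos (-‖x‖ ^ 2)
    calc |h x| * Real.exp (-‖x‖ ^ 2) ≤ (C * ‖x‖) * Real.exp (-‖x‖ ^ 2) := by gcongr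
      _ = C * (‖x‖ * Real.exp (-‖x‖ ^ 2)) := by ring

/-- the coordinate `j` is the smallest one -/
private def ch1S (j : Fin 3) : Set (E 3) := {x | ∀ i, i ≠ j → |x j| < |x i|}

private lemma ch1_meas (j : Fin 3) : MeasurableSet (ch1S j) := by
  have h1 : ch1S j = ⋂ i, ⋂ (_ : i ≠ j), {x : E 3 | |x j| < |x i|} := by
    ext x
    simp [ch1S]
  rw [h1]
  refine MeasurableSet.iInter fun i => MeasurableSet.iInter fun _ => ?_
  have h2 : IsOpen {x : E 3 | |x j| < |x i|} := isOpen_lt (by fun_prop) (by fun_prop)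
  exact h2.measurableSet

private lemma ch1_null (i k : Fin 3) (hik : i ≠ k) (c : ℝ) :
    volume {x : E 3 | x i = c * x k} = 0 := by
  let L : E 3 →ₗ[ℝ] ℝ := (EuclideanSpace.proj i : E 3 →L[ℝ] ℝ).toLinearMap -
    c • (EuclideanSpace.proj k : E 3 →L[ℝ] ℝ).toLinearMap
  have h1 : {x : E 3 | x i = c * x k} = (LinearMap.ker L : Set (E 3)) := by
    ext x
    simp [L, sub_eq_zero]
  rw [h1]
  refine MeasureTheory.Measure.addHaar_submodule _ _ ?_
  intro h2
  have h3 : EuclideanSpace.single i (1 : ℝ) ∈ LinearMap.ker L := by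
    rw [h2]
    trivial
  rw [LinearMap.mem_ker] at h3
  simp [L, hik.symm] at h3

private lemma ch1_ae : ∀ᵐ x : E 3, ∀ i k : Fin 3, i ≠ k → |x i| ≠ |x k| := by
  rw [ae_all_iff]
  intro i
  rw [ae_all_iff]
  intro k
  by_cases hik : i = k
  · filter_upwards with x hx
    exact absurd hik hx
  · have h1 : ∀ᵐ x : E 3, x i ≠ 1 * x k := by
      rw [ae_iff]
      simpa using ch1_null i k hik 1
    have h2 : ∀ᵐ x : E 3, x i ≠ (-1) * x k := by
      rw [ae_iff]
      simpa using ch1_null i k hik (-1)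
    filter_upwards [h1, h2] with x hx1 hx2 _ h3
    rcases abs_eq_abs.1 h3 with h4 | h4
    · exact hx1 (by rw [h4]; ring)
    · exact hx2 (by rw [h4]; ring)

private lemma ch1_sum (h : E 3 → ℝ) (x : E 3) (hx : ∀ i k : Fin 3, i ≠ k → |x i| ≠ |x k|) :
    ∑ j, (ch1S j).indicator h x = h x := by
  have e01 := hx 0 1 (by decide)
  have e02 := hx 0 2 (by decide)
  have e12 := hx 1 2 (by decide)
  have m0 : x ∈ ch1S 0 ↔ |x 0| < |x 1| ∧ |x 0| < |x 2| := by
    simp [ch1S, Fin.forall_fin_succ]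
  have m1 : x ∈ ch1S 1 ↔ |x 1| < |x 0| ∧ |x 1| < |x 2| := by
    simp [ch1S, Fin.forall_fin_succ]
  have m2 : x ∈ ch1S 2 ↔ |x 2| < |x 0| ∧ |x 2| < |x 1| := by
    simp [ch1S, Fin.forall_fin_succ]
  classical
  rw [Fin.sum_univ_three]
  simp only [Set.indicator_apply, m0, m1, m2]
  rcases lt_or_gt_of_ne e01 with h1 | h1 <;> rcases lt_or_gt_of_ne e02 with h2 | h2 <;>
    rcases lt_or_gt_of_ne e12 with h3 | h3
  all_goals first
    | (exfalso; linarith)
    | simp [h1, h2, h3, not_lt.2 h1.le, not_lt.2 h2.le, not_lt.2 h3.le]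

private lemma ch1_nrm (j : Fin 3) (s : ℝ) (y : E 2) : ‖ins j s y‖ ^ 2 = s ^ 2 + ‖y‖ ^ 2 := by
  rw [EuclideanSpace.norm_sq_eq, EuclideanSpace.norm_sq_eq]
  simp only [Real.norm_eq_abs, sq_abs]
  rw [Fin.sum_univ_succAbove _ j]
  simp [ins]

private lemma ch1_zr (j : Fin 3) (s : ℝ) (y : E 2) : zr j (ins j s y) = ins j 0 y := by
  ext i
  rcases Fin.eq_self_or_eq_succAbove j i with h | ⟨k, h⟩
  · subst h
    simp [zr, ins]
  · subst h
    simp [zr, ins, Fin.succAbove_ne]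

private lemma ch1_mem (j : Fin 3) (s : ℝ) (y : E 2) :
    ins j s y ∈ ch1S j ↔ |s| < min |y 0| |y 1| := by
  have h0 : (ins j s y) j = s := by simp [ins]
  have h1 : ∀ k, (ins j s y) (j.succAbove k) = y k := fun k => by simp [ins]
  rw [lt_min_iff]
  constructor
  · intro h
    have a := h (j.succAbove 0) (Fin.succAbove_ne j 0)
    have b := h (j.succAbove 1) (Fin.succAbove_ne j 1)
    rw [h0, h1] at a b
    exact ⟨a, b⟩
  · intro h i hi
    rcases Fin.eq_self_or_eq_succAbove j i with h2 | ⟨k, h2⟩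
    · exact absurd h2 hi
    · rw [h2, h0, h1]
      fin_cases k
      · exact h.1
      · exact h.2

private lemma ch1_Er (m : ℝ) (hm : 0 ≤ m) :
    ∫ s : ℝ, (Ioo (-m) m).indicator (fun s => Real.exp (-s ^ 2)) s = Er m := by
  rw [integral_indicator measurableSet_Ioo, Er, intervalIntegral.integral_of_le (by linarith),
    integral_Ioc_eq_integral_Ioo]

private lemma ch1_gi : Integrable (fun s : ℝ => Real.exp (-s ^ 2)) := by
  have := integrable_exp_neg_mul_sq (b := 1) one_pos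
  simpa using this

private lemma ch1_gv : ∫ s : ℝ, Real.exp (-s ^ 2) = √Real.pi := by
  have := integral_gaussian 1
  simpa using this

private lemma ch1_inner (c m : ℝ) (hm : 0 ≤ m) :
    ∫ s : ℝ, ((Ioo (-m) m).indicator (fun s => Real.exp (-s ^ 2)) s - c * Real.exp (-s ^ 2)) =
      Er m - c * √Real.pi := by
  rw [integral_sub (ch1_gi.indicator measurableSet_Ioo) (ch1_gi.const_mul c), ch1_Er m hm,
    integral_const_mul, ch1_gv]

private lemma ch1_fub (h_FUB : St_FUB) (h : E 3 → ℝ) (C c : ℝ) (hc : Continuous h)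
    (hb : ∀ x, |h x| ≤ C * ‖x‖)
    (hm : ∀ (x : E 3) (j : Fin 3), (∀ i, |x j| ≤ |x i|) → h x = h (zr j x)) (j : Fin 3) :
    Integrable (fun x : E 3 => ((ch1S j).indicator h x - c * h (zr j x)) * Real.exp (-‖x‖ ^ 2)) ∧
    ∫ x : E 3, ((ch1S j).indicator h x - c * h (zr j x)) * Real.exp (-‖x‖ ^ 2) =
      ∫ y : E 2, h (ins j 0 y) * ((Er (min |y 0| |y 1|) - c * √Real.pi) *
        Real.exp (-‖y‖ ^ 2)) := by
  have hzc : Continuous (fun x : E 3 => h (zr j x)) := by
    refine hc.comp ?_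
    unfold zr
    refine (PiLp.continuous_toLp 2 _).comp ?_
    refine continuous_pi fun i => ?_
    split_ifs
    · exact continuous_const
    · fun_prop
  have hzb : ∀ x : E 3, ‖zr j x‖ ≤ ‖x‖ := by
    intro x
    rw [EuclideanSpace.norm_eq, EuclideanSpace.norm_eq]
    refine Real.sqrt_le_sqrt (Finset.sum_le_sum fun i _ => ?_)
    simp only [zr]
    split_ifs
    · rw [norm_zero]
      simpa using sq_nonneg ‖x i‖
    · exact le_refl _
  have hC : ∀ x : E 3, 0 ≤ C * ‖x‖ := fun x => (abs_nonneg _).trans (hb x)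
  have hC0 : 0 ≤ C := by
    have h1 := hC (EuclideanSpace.single 0 1)
    simpa using h1
  have hI : Integrable
      (fun x : E 3 => ((ch1S j).indicator h x - c * h (zr j x)) * Real.exp (-‖x‖ ^ 2)) := by
    refine ch1_int _ (C + |c| * C) ?_ ?_
    · exact (hc.aestronglyMeasurable.indicator (ch1_meas j)).sub
        (hzc.aestronglyMeasurable.const_mul c)
    · intro x
      have h1 : |(ch1S j).indicator h x| ≤ C * ‖x‖ := by
        by_cases hx : x ∈ ch1S j
        · rw [Set.indicator_of_mem hx]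
          exact hb x
        · rw [Set.indicator_of_notMem hx, abs_zero]
          exact hC x
      have h2 : |c * h (zr j x)| ≤ |c| * C * ‖x‖ := by
        rw [abs_mul, mul_assoc]
        refine mul_le_mul_of_nonneg_left ?_ (abs_nonneg c)
        exact (hb _).trans (mul_le_mul_of_nonneg_left (hzb x) hC0)
      calc |(ch1S j).indicator h x - c * h (zr j x)|
          ≤ |(ch1S j).indicator h x| + |c * h (zr j x)| := abs_sub _ _
        _ ≤ C * ‖x‖ + |c| * C * ‖x‖ := add_le_add h1 h2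
        _ = (C + |c| * C) * ‖x‖ := by ring
  refine ⟨hI, ?_⟩
  rw [h_FUB 2 j _ hI]
  refine integral_congr_ae (Filter.Eventually.of_forall fun y => ?_)
  show ∫ s : ℝ, ((ch1S j).indicator h (ins j s y) - c * h (zr j (ins j s y))) *
    Real.exp (-‖ins j s y‖ ^ 2) = _
  have hm0 : 0 ≤ min |y 0| |y 1| := le_min (abs_nonneg _) (abs_nonneg _)
  have h3 : ∀ s : ℝ, ((ch1S j).indicator h (ins j s y) - c * h (zr j (ins j s y))) *
      Real.exp (-‖ins j s y‖ ^ 2) = (h (ins j 0 y) * Real.exp (-‖y‖ ^ 2)) *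
      ((Ioo (-(min |y 0| |y 1|)) (min |y 0| |y 1|)).indicator (fun s => Real.exp (-s ^ 2)) s -
        c * Real.exp (-s ^ 2)) := by
    intro s
    have h4 : Real.exp (-‖ins j s y‖ ^ 2) = Real.exp (-s ^ 2) * Real.exp (-‖y‖ ^ 2) := by
      rw [ch1_nrm, ← Real.exp_add]
      congr 1
      ring
    rw [h4, ch1_zr]
    by_cases hs : |s| < min |y 0| |y 1|
    · have h5 := (ch1_mem j s y).2 hs
      have h6 : s ∈ Ioo (-(min |y 0| |y 1|)) (min |y 0| |y 1|) := abs_lt.1 hs
      rw [Set.indicator_of_mem h5, Set.indicator_of_mem h6]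
      have h7 : h (ins j s y) = h (ins j 0 y) := by
        have h8 := hm (ins j s y) j (fun i => by
          by_cases hi : i = j
          · rw [hi]
          · exact (h5 i hi).le)
        rw [h8, ch1_zr]
      rw [h7]
      ring
    · have h5 : ins j s y ∉ ch1S j := fun h => hs ((ch1_mem j s y).1 h)
      have h6 : s ∉ Ioo (-(min |y 0| |y 1|)) (min |y 0| |y 1|) := fun h => hs (abs_lt.2 h)
      rw [Set.indicator_of_notMem h5, Set.indicator_of_notMem h6]
      ring
  rw [integral_congr_ae (Filter.Eventually.of_forall h3), integral_const_mul,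
    ch1_inner c _ hm0]
  ring

private lemma ch1_plane (F : E 2 → ℝ) :
    ∫ y : E 2, F y = ∫ p : ℝ × ℝ, F (WithLp.toLp 2 ![p.1, p.2]) := by
  have h1 : ∫ x, F x = ∫ x : Fin 2 → ℝ, F (WithLp.toLp 2 x) :=
    ((PiLp.volume_preserving_toLp (Fin 2)).integral_comp
      (MeasurableEquiv.toLp 2 (Fin 2 → ℝ)).measurableEmbedding F).symm
  have h2 : ∫ x : Fin 2 → ℝ, F (WithLp.toLp 2 x) = ∫ p : ℝ × ℝ, F (WithLp.toLp 2 ![p.1, p.2]) :=
    (((volume_preserving_finTwoArrow ℝ).symm _).integral_comp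
      (MeasurableEquiv.finTwoArrow (α := ℝ)).symm.measurableEmbedding
      (fun x : Fin 2 → ℝ => F (WithLp.toLp 2 x))).symm
  rw [h1, h2]

private lemma ch1_perm (j : Fin 3) : ∃ g, ∀ y : E 2,
    ga g (ins 2 0 y) = ins j 0 y := by
  fin_cases j
  · refine ⟨(⟨![2, 0, 1], ![1, 2, 0], by decide, by decide⟩, fun _ => true), fun y => ?_⟩
    ext i
    fin_cases i <;> simp [ga, ins, Fin.insertNth, Fin.succAboveCases] <;> rfl
  · refine ⟨(⟨![0, 2, 1], ![0, 2, 1], by decide, by decide⟩, fun _ => true), fun y => ?_⟩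
    ext i
    fin_cases i <;> simp [ga, ins, Fin.insertNth, Fin.succAboveCases]
  · refine ⟨(Equiv.refl _, fun _ => true), fun y => ?_⟩
    ext i
    fin_cases i <;> simp [ga, ins]

private lemma ch1_e3 (a b : ℝ) : ins (2 : Fin 3) 0 (WithLp.toLp 2 ![a, b] : E 2) = e3 a b 0 := by
  ext i
  fin_cases i <;> simp [ins, e3] <;> rfl

theorem thm_CH1 (h_FUB : St_FUB) : St_CH1 := by
  intro h C hc hb hG hm
  set c : ℝ := 2 * tz / Real.pi with hcd
  have hF := ch1_fub h_FUB h C c hc hb hm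
  have h1 : Lm h = ∫ x : E 3, ∑ j, ((ch1S j).indicator h x - c * h (zr j x)) *
      Real.exp (-‖x‖ ^ 2) := by
    unfold Lm
    refine integral_congr_ae ?_
    filter_upwards [ch1_ae] with x hx
    rw [← Finset.sum_mul, Finset.sum_sub_distrib, ch1_sum h x hx, ← Finset.mul_sum]
  rw [h1, integral_finsetSum _ (fun j _ => (hF j).1)]
  have h2 : ∀ j : Fin 3, ∫ x : E 3, ((ch1S j).indicator h x - c * h (zr j x)) *
      Real.exp (-‖x‖ ^ 2) = √Real.pi * ∫ y : ℝ × ℝ, h (e3 y.1 y.2 0) *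
    ((Er (min |y.1| |y.2|) / √Real.pi - c) * Real.exp (-(y.1 ^ 2 + y.2 ^ 2))) := by
    intro j
    rw [(hF j).2, ch1_plane, ← integral_const_mul]
    refine integral_congr_ae (Filter.Eventually.of_forall fun p => ?_)
    obtain ⟨g, hg⟩ := ch1_perm j
    have h3 : h (ins j 0 (WithLp.toLp 2 ![p.1, p.2] : E 2)) = h (e3 p.1 p.2 0) := by
      rw [← hg, hG g, ch1_e3]
    have h4 : ‖(WithLp.toLp 2 ![p.1, p.2] : E 2)‖ ^ 2 = p.1 ^ 2 + p.2 ^ 2 := by
      rw [EuclideanSpace.norm_sq_eq]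
      simp
    have hp : (0 : ℝ) < √Real.pi := Real.sqrt_pos.2 Real.pi_pos
    show h (ins j 0 (WithLp.toLp 2 ![p.1, p.2] : E 2)) *
      ((Er (min |p.1| |p.2|) - c * √Real.pi) *
        Real.exp (-‖(WithLp.toLp 2 ![p.1, p.2] : E 2)‖ ^ 2)) = _
    rw [h3, h4]
    field_simp
  simp only [h2, Finset.sum_const, Finset.card_univ, Fintype.card_fin]
  simp only [nsmul_eq_mul]
  push_cast
  ring

end RLW
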