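import Mathlib
import Pool.Agent.RLW.StU

/-!
# RLW, module CH2: Chebyshev's inequality in polar coordinates
-/

set_option autoImplicit false

open MeasureTheory Metric Set
open scoped BigOperators Pointwise RealInnerProductSpace NNReal Topology

namespace RLW

private lemma ch2_ec : Continuous fun y : ℝ => Real.exp (-y ^ 2) := by fun_prop

private lemma ch2_Er_eq (x : ℝ) : Er x =
    (∫ y in (0 : ℝ)..x, Real.exp (-y ^ 2)) - ∫ y in (0 : ℝ)..(-x), Real.exp (-y ^ 2) := by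
  rw [Er, intervalIntegral.integral_interval_sub_left (ch2_ec.intervalIntegrable _ _)
    (ch2_ec.intervalIntegrable _ _)]

private lemma ch2_Er_cont : Continuous Er := by
  have h1 : Continuous fun x : ℝ => ∫ y in (0 : ℝ)..x, Real.exp (-y ^ 2) :=
    intervalIntegral.continuous_primitive (fun a b => ch2_ec.intervalIntegrable a b) 0
  rw [show Er = fun x => (∫ y in (0 : ℝ)..x, Real.exp (-y ^ 2)) -
    ∫ y in (0 : ℝ)..(-x), Real.exp (-y ^ 2) from funext ch2_Er_eq]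
  exact h1.sub (h1.comp continuous_neg)

private lemma ch2_gi : Integrable (fun s : ℝ => Real.exp (-s ^ 2)) := by
  have := integrable_exp_neg_mul_sq (b := 1) one_pos
  simpa using this

private lemma ch2_gv : ∫ s : ℝ, Real.exp (-s ^ 2) = √Real.pi := by
  have := integral_gaussian 1
  simpa using this

private lemma ch2_Er_bdd (x : ℝ) : |Er x| ≤ √Real.pi := by
  have h1 := intervalIntegral.norm_integral_le_integral_norm_uIoc
    (f := fun y : ℝ => Real.exp (-y ^ 2)) (a := -x) (b := x) (μ := volume)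
  have h2 : ∫ y in Set.uIoc (-x) x, ‖Real.exp (-y ^ 2)‖ ≤ ∫ y : ℝ, ‖Real.exp (-y ^ 2)‖ :=
    setIntegral_le_integral ch2_gi.norm (ae_of_all _ fun _ => norm_nonneg _)
  have h3 : ∫ y : ℝ, ‖Real.exp (-y ^ 2)‖ = √Real.pi := by
    rw [← ch2_gv]
    refine integral_congr_ae (ae_of_all _ fun y => ?_)
    exact Real.norm_of_nonneg (Real.exp_pos _).le
  rw [← Real.norm_eq_abs, Er]
  exact h1.trans (h2.trans h3.le)

private lemma ch2_Er_mono : StrictMono Er := by
  intro x y hxy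
  have h1 : Er y - Er x = (∫ z in x..y, Real.exp (-z ^ 2)) +
      ∫ z in (-y)..(-x), Real.exp (-z ^ 2) := by
    rw [ch2_Er_eq, ch2_Er_eq,
      ← intervalIntegral.integral_interval_sub_left (a := (0 : ℝ)) (b := y) (c := x)
        (ch2_ec.intervalIntegrable _ _) (ch2_ec.intervalIntegrable _ _),
      ← intervalIntegral.integral_interval_sub_left (a := (0 : ℝ)) (b := -x) (c := -y)
        (ch2_ec.intervalIntegrable _ _) (ch2_ec.intervalIntegrable _ _)]
    ring
  have h2 : 0 < ∫ z in x..y, Real.exp (-z ^ 2) :=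
    intervalIntegral.intervalIntegral_pos_of_pos_on (ch2_ec.intervalIntegrable _ _)
      (fun _ _ => Real.exp_pos _) hxy
  have h3 : 0 < ∫ z in (-y)..(-x), Real.exp (-z ^ 2) :=
    intervalIntegral.intervalIntegral_pos_of_pos_on (ch2_ec.intervalIntegrable _ _)
      (fun _ _ => Real.exp_pos _) (neg_lt_neg hxy)
  linarith

/-- the radial integral -/
private noncomputable def ch2G (c m : ℝ) : ℝ :=
  ∫ ρ in Ioi (0 : ℝ), ρ ^ 2 * ((Er (ρ * m) - c) * Real.exp (-ρ ^ 2))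

private lemma ch2_wi : Integrable (fun ρ : ℝ => ρ ^ 2 * Real.exp (-ρ ^ 2)) := by
  have h1 := integrable_rpow_mul_exp_neg_mul_sq (b := 1) one_pos (s := 2) (by norm_num)
  refine h1.congr (ae_of_all _ fun x => ?_)
  simp

private lemma ch2_bd (c m ρ : ℝ) :
    ‖ρ ^ 2 * ((Er (ρ * m) - c) * Real.exp (-ρ ^ 2))‖ ≤
      (√Real.pi + |c|) * (ρ ^ 2 * Real.exp (-ρ ^ 2)) := by
  rw [norm_mul, norm_mul, Real.norm_eq_abs, Real.norm_eq_abs, Real.norm_eq_abs,
    abs_of_nonneg (sq_nonneg ρ), abs_of_pos (Real.exp_pos _)]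
  have h1 : |Er (ρ * m) - c| ≤ √Real.pi + |c| :=
    (abs_sub _ _).trans (add_le_add (ch2_Er_bdd _) le_rfl)
  have h2 : 0 ≤ ρ ^ 2 * Real.exp (-ρ ^ 2) := by positivity
  calc ρ ^ 2 * (|Er (ρ * m) - c| * Real.exp (-ρ ^ 2))
      = |Er (ρ * m) - c| * (ρ ^ 2 * Real.exp (-ρ ^ 2)) := by ring
    _ ≤ _ := mul_le_mul_of_nonneg_right h1 h2

private lemma ch2_ct (c m : ℝ) :
    Continuous fun ρ : ℝ => ρ ^ 2 * ((Er (ρ * m) - c) * Real.exp (-ρ ^ 2)) := by
  have h1 : Continuous fun ρ : ℝ => Er (ρ * m) := ch2_Er_cont.comp (by fun_prop)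
  fun_prop

private lemma ch2_int (c m : ℝ) :
    Integrable (fun ρ : ℝ => ρ ^ 2 * ((Er (ρ * m) - c) * Real.exp (-ρ ^ 2))) :=
  (ch2_wi.const_mul (√Real.pi + |c|)).mono' (ch2_ct c m).aestronglyMeasurable
    (ae_of_all _ fun ρ => ch2_bd c m ρ)

private lemma ch2G_cont (c : ℝ) : Continuous (ch2G c) := by
  refine continuous_of_dominated (fun m => (ch2_ct c m).aestronglyMeasurable)
    (fun m => ae_of_all _ fun ρ => ch2_bd c m ρ)
    ((ch2_wi.const_mul (√Real.pi + |c|)).restrict) (ae_of_all _ fun ρ => ?_)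
  have h1 : Continuous fun m : ℝ => Er (ρ * m) := ch2_Er_cont.comp (by fun_prop)
  fun_prop

private lemma ch2G_mono (c : ℝ) : StrictMono (ch2G c) := by
  intro m m' hm
  have h1 : ch2G c m' - ch2G c m = ∫ ρ in Ioi (0 : ℝ),
      (ρ ^ 2 * ((Er (ρ * m') - c) * Real.exp (-ρ ^ 2)) -
        ρ ^ 2 * ((Er (ρ * m) - c) * Real.exp (-ρ ^ 2))) := by
    rw [integral_sub (ch2_int c m').restrict (ch2_int c m).restrict]
    rfl
  have h2 : ∀ ρ ∈ Ioi (0 : ℝ), 0 < ρ ^ 2 * ((Er (ρ * m') - c) * Real.exp (-ρ ^ 2)) -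
        ρ ^ 2 * ((Er (ρ * m) - c) * Real.exp (-ρ ^ 2)) := by
    intro ρ hρ
    have hρ0 : (0 : ℝ) < ρ := hρ
    have h3 : Er (ρ * m) < Er (ρ * m') := ch2_Er_mono (by nlinarith)
    have h4 : ρ ^ 2 * ((Er (ρ * m') - c) * Real.exp (-ρ ^ 2)) -
        ρ ^ 2 * ((Er (ρ * m) - c) * Real.exp (-ρ ^ 2)) =
        (Er (ρ * m') - Er (ρ * m)) * (ρ ^ 2 * Real.exp (-ρ ^ 2)) := by ring
    rw [h4]
    exact mul_pos (sub_pos.2 h3) (by positivity)
  have h5 : 0 < ∫ ρ in Ioi (0 : ℝ),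
      (ρ ^ 2 * ((Er (ρ * m') - c) * Real.exp (-ρ ^ 2)) -
        ρ ^ 2 * ((Er (ρ * m) - c) * Real.exp (-ρ ^ 2))) := by
    rw [integral_pos_iff_support_of_nonneg_ae]
    · have h6 : Ioi (0 : ℝ) ⊆ Function.support (fun ρ : ℝ =>
          (ρ ^ 2 * ((Er (ρ * m') - c) * Real.exp (-ρ ^ 2)) -
          ρ ^ 2 * ((Er (ρ * m) - c) * Real.exp (-ρ ^ 2)))) := fun ρ hρ => (h2 ρ hρ).ne'
      refine lt_of_lt_of_le ?_ (measure_mono h6)
      rw [Measure.restrict_apply measurableSet_Ioi, Set.inter_self, Real.volume_Ioi]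
      exact ENNReal.zero_lt_top
    · exact (ae_restrict_iff' measurableSet_Ioi).2 (ae_of_all _ fun ρ hρ => (h2 ρ hρ).le)
    · exact (ch2_int c m').restrict.sub (ch2_int c m).restrict
  linarith

private lemma ch2_polar (h : ℝ → ℝ → ℝ) (c : ℝ) (hc : Continuous (fun y : ℝ × ℝ => h y.1 y.2))
    (hh : ∀ t a b, 0 ≤ t → h (t * a) (t * b) = t * h a b) :
    ∫ y : ℝ × ℝ, h y.1 y.2 * ((Er (min |y.1| |y.2|) - c) * Real.exp (-(y.1 ^ 2 + y.2 ^ 2))) =
      ∫ θ in Ioo (-Real.pi) Real.pi,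
        h (Real.cos θ) (Real.sin θ) * ch2G c (min |Real.cos θ| |Real.sin θ|) := by
  rw [← integral_comp_polarCoord_symm, polarCoord_target]
  have h1 : ∫ p in Ioi (0 : ℝ) ×ˢ Ioo (-Real.pi) Real.pi, p.1 •
      (h (polarCoord.symm p).1 (polarCoord.symm p).2 *
        ((Er (min |(polarCoord.symm p).1| |(polarCoord.symm p).2|) - c) *
        Real.exp (-((polarCoord.symm p).1 ^ 2 + (polarCoord.symm p).2 ^ 2)))) =
      ∫ p in Ioi (0 : ℝ) ×ˢ Ioo (-Real.pi) Real.pi,
        h (Real.cos p.2) (Real.sin p.2) * (p.1 ^ 2 *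
          ((Er (p.1 * min |Real.cos p.2| |Real.sin p.2|) - c) * Real.exp (-p.1 ^ 2))) := by
    refine setIntegral_congr_fun (measurableSet_Ioi.prod measurableSet_Ioo) ?_
    rintro ⟨ρ, θ⟩ ⟨hρ, -⟩
    have hρ0 : (0 : ℝ) < ρ := hρ
    have e1 : polarCoord.symm (ρ, θ) = (ρ * Real.cos θ, ρ * Real.sin θ) := rfl
    simp only [e1, smul_eq_mul]
    have e2 : min |ρ * Real.cos θ| |ρ * Real.sin θ| = ρ * min |Real.cos θ| |Real.sin θ| := by
      rw [abs_mul, abs_mul, abs_of_pos hρ0, mul_min_of_nonneg _ _ hρ0.le]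
    have e3 : (ρ * Real.cos θ) ^ 2 + (ρ * Real.sin θ) ^ 2 = ρ ^ 2 := by
      have := Real.sin_sq_add_cos_sq θ
      nlinarith [this]
    rw [e2, e3, hh ρ _ _ hρ0.le]
    ring
  rw [h1, Measure.volume_eq_prod, ← Measure.prod_restrict]
  obtain ⟨C, hC⟩ := ((isCompact_Icc (a := (-1 : ℝ)) (b := 1)).prod
    (isCompact_Icc (a := (-1 : ℝ)) (b := 1))).exists_bound_of_continuousOn hc.continuousOn
  have hC' : ∀ θ : ℝ, |h (Real.cos θ) (Real.sin θ)| ≤ C := fun θ =>
    hC (Real.cos θ, Real.sin θ) ⟨⟨Real.neg_one_le_cos θ, Real.cos_le_one θ⟩,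
      ⟨Real.neg_one_le_sin θ, Real.sin_le_one θ⟩⟩
  have hF : Integrable (fun p : ℝ × ℝ => h (Real.cos p.2) (Real.sin p.2) * (p.1 ^ 2 *
          ((Er (p.1 * min |Real.cos p.2| |Real.sin p.2|) - c) * Real.exp (-p.1 ^ 2))))
      ((volume.restrict (Ioi (0 : ℝ))).prod (volume.restrict (Ioo (-Real.pi) Real.pi))) := by
    have h2 : Integrable (fun p : ℝ × ℝ => ((√Real.pi + |c|) * (p.1 ^ 2 * Real.exp (-p.1 ^ 2))) * C)
        ((volume.restrict (Ioi (0 : ℝ))).prod (volume.restrict (Ioo (-Real.pi) Real.pi))) := by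
      refine Integrable.mul_prod (f := fun ρ : ℝ => (√Real.pi + |c|) *
        (ρ ^ 2 * Real.exp (-ρ ^ 2))) (g := fun _ : ℝ => C) ?_ ?_
      · exact (ch2_wi.const_mul (√Real.pi + |c|)).restrict
      · have : IsFiniteMeasure (volume.restrict (Ioo (-Real.pi) Real.pi)) :=
          ⟨by rw [Measure.restrict_apply_univ, Real.volume_Ioo]; exact ENNReal.ofReal_lt_top⟩
        exact integrable_const C
    refine h2.mono' ?_ (ae_of_all _ fun p => ?_)
    · have h3 : Continuous fun p : ℝ × ℝ => h (Real.cos p.2) (Real.sin p.2) :=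
        hc.comp (f := fun p : ℝ × ℝ => (Real.cos p.2, Real.sin p.2)) (by fun_prop)
      have h4 : Continuous fun p : ℝ × ℝ => Er (p.1 * min |Real.cos p.2| |Real.sin p.2|) :=
        ch2_Er_cont.comp (by fun_prop)
      exact (by fun_prop : Continuous _).aestronglyMeasurable
    · rw [norm_mul, mul_comm]
      have h5 : 0 ≤ (√Real.pi + |c|) * (p.1 ^ 2 * Real.exp (-p.1 ^ 2)) := by positivity
      exact mul_le_mul (ch2_bd c _ p.1) (hC' p.2) (norm_nonneg _) h5
  rw [integral_prod_symm _ hF]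
  refine integral_congr_ae (ae_of_all _ fun θ => ?_)
  show ∫ ρ in Ioi (0 : ℝ), h (Real.cos θ) (Real.sin θ) * (ρ ^ 2 *
    ((Er (ρ * min |Real.cos θ| |Real.sin θ|) - c) * Real.exp (-ρ ^ 2))) = _
  rw [integral_const_mul]
  rfl

private lemma ch2_pos (F : ℝ → ℝ) (hF : Continuous F) (h : ∀ x, 0 < F x) :
    0 < ∫ θ in Ioo (-Real.pi) Real.pi, F θ := by
  have h1 := intervalIntegral.intervalIntegral_pos_of_pos_on
    (hF.intervalIntegrable (-Real.pi) Real.pi) (fun x _ => h x)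
    (by linarith [Real.pi_pos] : -Real.pi < Real.pi)
  rwa [intervalIntegral.integral_of_le (by linarith [Real.pi_pos]),
    integral_Ioc_eq_integral_Ioo] at h1

theorem thm_CH2 : St_CH2 := by
  intro k c hc hh habs hsym hmono hk hM
  have hMc : Continuous (fun y : ℝ × ℝ => (fun a b : ℝ => max |a| |b|) y.1 y.2) := by
    show Continuous (fun y : ℝ × ℝ => max |y.1| |y.2|)
    fun_prop
  have hMh : ∀ t a b : ℝ, 0 ≤ t → (fun a b : ℝ => max |a| |b|) (t * a) (t * b) =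
      t * (fun a b : ℝ => max |a| |b|) a b := by
    intro t a b ht
    show max |t * a| |t * b| = t * max |a| |b|
    rw [abs_mul, abs_mul, abs_of_nonneg ht, mul_max_of_nonneg _ _ ht]
  rw [ch2_polar k c hc hh] at hk
  have hM2 := ch2_polar (fun a b : ℝ => max |a| |b|) c hMc hMh
  rw [hM] at hM2
  have hM3 : ∫ θ in Ioo (-Real.pi) Real.pi, max |Real.cos θ| |Real.sin θ| *
      ch2G c (min |Real.cos θ| |Real.sin θ|) = 0 := hM2.symm
  set μ : ℝ → ℝ := fun θ => min |Real.cos θ| |Real.sin θ| with hμ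
  set M : ℝ → ℝ := fun θ => max |Real.cos θ| |Real.sin θ| with hMd
  have hμc : Continuous μ := by rw [hμ]; fun_prop
  have hMc' : Continuous M := by rw [hMd]; fun_prop
  have hgc : Continuous fun θ => ch2G c (μ θ) := (ch2G_cont c).comp hμc
  have hsq : ∀ θ, M θ ^ 2 + μ θ ^ 2 = 1 := by
    intro θ
    have h1 := Real.sin_sq_add_cos_sq θ
    rcases le_total |Real.cos θ| |Real.sin θ| with h | h
    · simp only [hμ, hMd, min_eq_left h, max_eq_right h, sq_abs]
      linarith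
    · simp only [hμ, hMd, min_eq_right h, max_eq_left h, sq_abs]
      linarith
  have hμ0 : ∀ θ, 0 ≤ μ θ := fun θ => le_min (abs_nonneg _) (abs_nonneg _)
  have hμM : ∀ θ, μ θ ≤ M θ := fun θ => min_le_max
  have hM0 : ∀ θ, 0 < M θ := by
    intro θ
    rcases (le_trans (hμ0 θ) (hμM θ)).lt_or_eq with h | h
    · exact h
    · exfalso
      have h1 := hsq θ
      have h2 : μ θ = 0 := le_antisymm (h ▸ hμM θ) (hμ0 θ)
      rw [← h, h2] at h1
      norm_num at h1
  have hM3' : ∫ θ in Ioo (-Real.pi) Real.pi, M θ * ch2G c (μ θ) = 0 := hM3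
  obtain ⟨θ0, hθ0⟩ : (0 : ℝ) ∈ range (fun θ => ch2G c (μ θ)) := by
    refine mem_range_of_exists_le_of_exists_ge hgc ?_ ?_
    · by_contra hcon
      push Not at hcon
      have h1 := ch2_pos (fun θ => M θ * ch2G c (μ θ)) (hMc'.mul hgc)
        (fun θ => mul_pos (hM0 θ) (hcon θ))
      exact absurd hM3' h1.ne'
    · by_contra hcon
      push Not at hcon
      have h1 := ch2_pos (fun θ => -(M θ * ch2G c (μ θ))) (hMc'.mul hgc).neg
        (fun θ => by
          have := mul_neg_of_pos_of_neg (hM0 θ) (hcon θ)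
          linarith)
      rw [integral_neg, hM3'] at h1
      norm_num at h1
  have hform : ∀ θ, k (Real.cos θ) (Real.sin θ) = M θ * k 1 (μ θ / M θ) := by
    intro θ
    have h2 : k (M θ) (μ θ) = M θ * k 1 (μ θ / M θ) := by
      have h3 := hh (M θ) 1 (μ θ / M θ) (hM0 θ).le
      rwa [mul_one, mul_div_cancel₀ _ (hM0 θ).ne'] at h3
    rw [← h2, habs]
    rcases le_total |Real.cos θ| |Real.sin θ| with h | h
    · simp only [hμ, hMd, min_eq_left h, max_eq_right h]
      exact hsym _ _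
    · simp only [hμ, hMd, min_eq_right h, max_eq_left h]
  have hrm : ∀ θ θ', μ θ ≤ μ θ' → k 1 (μ θ / M θ) ≤ k 1 (μ θ' / M θ') := by
    intro θ θ' h
    have h1 : M θ' ≤ M θ := by
      have h2 := hsq θ
      have h3 := hsq θ'
      have h4 : μ θ ^ 2 ≤ μ θ' ^ 2 := pow_le_pow_left₀ (hμ0 θ) h 2
      have h5 : M θ' ^ 2 ≤ M θ ^ 2 := by linarith
      exact (pow_le_pow_iff_left₀ (hM0 θ').le (hM0 θ).le two_ne_zero).1 h5
    refine hmono 1 _ _ (div_nonneg (hμ0 θ) (hM0 θ).le) ?_ ?_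
    · exact div_le_div₀ (hμ0 θ') h (hM0 θ') h1
    · exact (div_le_one (hM0 θ')).2 (hμM θ')
  set q0 : ℝ := k 1 (μ θ0 / M θ0) with hq0
  have hg0 : ch2G c (μ θ0) = 0 := hθ0
  have hFc : Continuous fun θ => k (Real.cos θ) (Real.sin θ) :=
    hc.comp (f := fun θ : ℝ => (Real.cos θ, Real.sin θ)) (by fun_prop)
  have hA : Continuous fun θ => k (Real.cos θ) (Real.sin θ) * ch2G c (μ θ) := hFc.mul hgc
  have hB : Continuous fun θ => q0 * (M θ * ch2G c (μ θ)) := continuous_const.mul (hMc'.mul hgc)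
  have hAi : IntegrableOn (fun θ => k (Real.cos θ) (Real.sin θ) * ch2G c (μ θ))
      (Ioo (-Real.pi) Real.pi) := (hA.integrableOn_Icc).mono_set Ioo_subset_Icc_self
  have hBi : IntegrableOn (fun θ => q0 * (M θ * ch2G c (μ θ)))
      (Ioo (-Real.pi) Real.pi) := (hB.integrableOn_Icc).mono_set Ioo_subset_Icc_self
  have hI : ∫ θ in Ioo (-Real.pi) Real.pi, (k (Real.cos θ) (Real.sin θ) * ch2G c (μ θ) -
      q0 * (M θ * ch2G c (μ θ))) = 0 := by
    rw [integral_sub hAi hBi, integral_const_mul, hM3']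
    have hk' : ∫ θ in Ioo (-Real.pi) Real.pi, k (Real.cos θ) (Real.sin θ) * ch2G c (μ θ) = 0 := hk
    rw [hk']
    ring
  have hnn : ∀ θ, 0 ≤ k (Real.cos θ) (Real.sin θ) * ch2G c (μ θ) -
      q0 * (M θ * ch2G c (μ θ)) := by
    intro θ
    have h1 : k (Real.cos θ) (Real.sin θ) * ch2G c (μ θ) - q0 * (M θ * ch2G c (μ θ)) =
        M θ * ((k 1 (μ θ / M θ) - q0) * ch2G c (μ θ)) := by
      rw [hform]
      ring
    rw [h1]
    refine mul_nonneg (hM0 θ).le ?_
    rcases le_total (μ θ) (μ θ0) with h | h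
    · have h2 : ch2G c (μ θ) ≤ 0 := hg0 ▸ (ch2G_mono c).monotone h
      have h3 := hrm θ θ0 h
      exact mul_nonneg_of_nonpos_of_nonpos (by linarith) h2
    · have h2 : 0 ≤ ch2G c (μ θ) := hg0 ▸ (ch2G_mono c).monotone h
      have h3 := hrm θ0 θ h
      exact mul_nonneg (by linarith) h2
  have hz : EqOn (fun θ => k (Real.cos θ) (Real.sin θ) * ch2G c (μ θ) -
      q0 * (M θ * ch2G c (μ θ))) 0 (Ioo (-Real.pi) Real.pi) := by
    have h1 := (setIntegral_eq_zero_iff_of_nonneg_ae (ae_of_all _ hnn) (hAi.sub hBi)).1 hI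
    exact Measure.eqOn_open_of_ae_eq h1 isOpen_Ioo (hA.sub hB).continuousOn
      continuousOn_const
  have hall : ∀ θ ∈ Ioo (-Real.pi) Real.pi, k 1 (μ θ / M θ) = q0 := by
    intro θ hθ
    rcases lt_trichotomy (μ θ) (μ θ0) with h | h | h
    · have h1 : ch2G c (μ θ) ≠ 0 := by
        have := ch2G_mono c h
        rw [hg0] at this
        exact this.ne
      have h2 : k (Real.cos θ) (Real.sin θ) * ch2G c (μ θ) -
        q0 * (M θ * ch2G c (μ θ)) = 0 := hz hθ
      rw [hform] at h2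
      have h3 : (M θ * ch2G c (μ θ)) * (k 1 (μ θ / M θ) - q0) = 0 := by linarith
      rcases mul_eq_zero.1 h3 with h4 | h4
      · exact absurd h4 (mul_ne_zero (hM0 θ).ne' h1)
      · linarith
    · exact le_antisymm (hrm θ θ0 h.le) (hrm θ0 θ h.ge)
    · have h1 : ch2G c (μ θ) ≠ 0 := by
        have := ch2G_mono c h
        rw [hg0] at this
        exact this.ne'
      have h2 : k (Real.cos θ) (Real.sin θ) * ch2G c (μ θ) -
        q0 * (M θ * ch2G c (μ θ)) = 0 := hz hθ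
      rw [hform] at h2
      have h3 : (M θ * ch2G c (μ θ)) * (k 1 (μ θ / M θ) - q0) = 0 := by linarith
      rcases mul_eq_zero.1 h3 with h4 | h4
      · exact absurd h4 (mul_ne_zero (hM0 θ).ne' h1)
      · linarith
  have ht : ∀ t, 0 ≤ t → t ≤ 1 → k 1 t = q0 := by
    intro t h0 h1
    have h2 : Real.arctan t ∈ Ioo (-Real.pi) Real.pi :=
      ⟨by linarith [Real.neg_pi_div_two_lt_arctan t, Real.pi_pos],
        by linarith [Real.arctan_lt_pi_div_two t, Real.pi_pos]⟩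
    have h3 := hall _ h2
    have hs : (0 : ℝ) < √(1 + t ^ 2) := Real.sqrt_pos.2 (by positivity)
    have e1 : |Real.cos (Real.arctan t)| = 1 / √(1 + t ^ 2) := by
      rw [Real.cos_arctan, abs_of_pos (by positivity)]
    have e2 : |Real.sin (Real.arctan t)| = t / √(1 + t ^ 2) := by
      rw [Real.sin_arctan, abs_of_nonneg (by positivity)]
    have e3 : t / √(1 + t ^ 2) ≤ 1 / √(1 + t ^ 2) := by gcongr
    have e4 : μ (Real.arctan t) = t / √(1 + t ^ 2) := by
      simp only [hμ, e1, e2, min_eq_right e3]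
    have e5 : M (Real.arctan t) = 1 / √(1 + t ^ 2) := by
      simp only [hMd, e1, e2, max_eq_left e3]
    rw [e4, e5] at h3
    have e6 : t / √(1 + t ^ 2) / (1 / √(1 + t ^ 2)) = t := by field_simp
    rwa [e6] at h3
  have hfin : ∀ a b : ℝ, |b| ≤ |a| → k a b = q0 * max |a| |b| := by
    intro a b hab
    rw [habs, max_eq_left hab]
    rcases (abs_nonneg a).lt_or_eq with h | h
    · have h3 := hh |a| 1 (|b| / |a|) h.le
      rw [mul_one, mul_div_cancel₀ _ h.ne'] at h3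
      rw [h3, ht _ (div_nonneg (abs_nonneg _) h.le) ((div_le_one h).2 hab)]
      ring
    · have h4 : |b| = 0 := le_antisymm (h ▸ hab) (abs_nonneg b)
      rw [← h, h4]
      have h3 := hh 0 0 0 le_rfl
      simp only [mul_zero, zero_mul] at h3
      rw [h3, mul_zero]
  refine ⟨q0, fun a b => ?_⟩
  rcases le_total |a| |b| with h | h
  · rw [hsym, hfin b a h, max_comm]
  · exact hfin a b h

end RLW
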