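import Pool.Agent.RLW.StU

/-!
# RLW (MP_f7beb7_gt), module CHE: symmetric extremal bodies are cross-polytopes
-/

set_option autoImplicit false

open MeasureTheory Metric Set
open scoped BigOperators Pointwise RealInnerProductSpace NNReal Topology

namespace RLW

private lemma CHE_mx_le (x : E 3) (M : ℝ) : mx x ≤ M ↔ ∀ i, |x i| ≤ M := by
  unfold mx
  rw [max_le_iff, max_le_iff, Fin.forall_fin_succ, Fin.forall_fin_succ, Fin.forall_fin_succ]
  simp

private lemma CHE_le_mx (x : E 3) (i : Fin 3) : |x i| ≤ mx x :=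
  (CHE_mx_le x (mx x)).1 le_rfl i

private lemma CHE_ga_apply (g : Equiv.Perm (Fin 3) × (Fin 3 → Bool)) (x : E 3) (i : Fin 3) :
    |ga g x i| = |x (g.1 i)| := by
  unfold ga
  simp only [PiLp.toLp_apply]
  split_ifs
  · rfl
  · exact abs_neg _

private lemma CHE_Gi_mx : Gi mx := by
  intro g x
  apply le_antisymm
  · rw [CHE_mx_le]
    intro i
    rw [CHE_ga_apply]
    exact CHE_le_mx x _
  · rw [CHE_mx_le]
    intro i
    have h := CHE_le_mx (ga g x) (g.1.symm i)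
    rw [CHE_ga_apply, Equiv.apply_symm_apply] at h
    exact h

private lemma CHE_e3_0 (a b c : ℝ) : (e3 a b c) 0 = a := by simp [e3]
private lemma CHE_e3_1 (a b c : ℝ) : (e3 a b c) 1 = b := by simp [e3]
private lemma CHE_e3_2 (a b c : ℝ) : (e3 a b c) 2 = c := by simp [e3]

private lemma CHE_ext (x y : E 3) (h0 : x 0 = y 0) (h1 : x 1 = y 1) (h2 : x 2 = y 2) : x = y := by
  ext i
  fin_cases i
  · exact h0
  · exact h1
  · exact h2

private lemma CHE_forall (P : Fin 3 → Prop) (h0 : P 0) (h1 : P 1) (h2 : P 2) : ∀ i, P i := by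
  intro i
  fin_cases i
  · exact h0
  · exact h1
  · exact h2

private lemma CHE_mx_e3 (a b : ℝ) : mx (e3 a b 0) = max |a| |b| := by
  unfold mx
  rw [CHE_e3_0, CHE_e3_1, CHE_e3_2, abs_zero, max_eq_left (abs_nonneg b)]

private lemma CHE_cts : Continuous fun y : ℝ × ℝ => e3 y.1 y.2 0 := by
  unfold e3
  apply (PiLp.continuous_toLp 2 _).comp
  apply continuous_pi
  intro i
  fin_cases i
  · exact continuous_fst
  · exact continuous_snd
  · exact continuous_const

private lemma CHE_int (k : ℝ → ℝ → ℝ)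
    (h : 3 * √Real.pi * ∫ y : ℝ × ℝ, k y.1 y.2 *
      ((Er (min |y.1| |y.2|) / √Real.pi - 2 * tz / Real.pi) * Real.exp (-(y.1 ^ 2 + y.2 ^ 2))) = 0) :
    ∫ y : ℝ × ℝ, k y.1 y.2 *
      ((Er (min |y.1| |y.2|) - 2 * tz / √Real.pi) * Real.exp (-(y.1 ^ 2 + y.2 ^ 2))) = 0 := by
  have hp : 0 < √Real.pi := Real.sqrt_pos.2 Real.pi_pos
  have h3 : (3 * √Real.pi) ≠ 0 := by positivity
  have h4 := (mul_eq_zero.1 h).resolve_left h3
  have h5 : (fun y : ℝ × ℝ => k y.1 y.2 *
      ((Er (min |y.1| |y.2|) - 2 * tz / √Real.pi) * Real.exp (-(y.1 ^ 2 + y.2 ^ 2)))) =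
      fun y : ℝ × ℝ => √Real.pi * (k y.1 y.2 *
      ((Er (min |y.1| |y.2|) / √Real.pi - 2 * tz / Real.pi) * Real.exp (-(y.1 ^ 2 + y.2 ^ 2)))) := by
    funext y
    have e1 : √Real.pi * (Er (min |y.1| |y.2|) / √Real.pi) = Er (min |y.1| |y.2|) := by
      field_simp
    have e2 : √Real.pi * (2 * tz / Real.pi) = 2 * tz / √Real.pi := by
      have e3 : Real.pi = √Real.pi * √Real.pi := (Real.mul_self_sqrt Real.pi_pos.le).symm
      rw [eq_div_iff hp.ne']
      calc √Real.pi * (2 * tz / Real.pi) * √Real.pi = 2 * tz * ((√Real.pi * √Real.pi) / Real.pi) := by ring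
        _ = 2 * tz := by rw [← e3, div_self Real.pi_pos.ne', mul_one]
    calc _ = k y.1 y.2 * ((√Real.pi * (Er (min |y.1| |y.2|) / √Real.pi) -
          √Real.pi * (2 * tz / Real.pi)) * Real.exp (-(y.1 ^ 2 + y.2 ^ 2))) := by rw [e1, e2]
      _ = _ := by ring
  rw [h5, integral_const_mul, h4, mul_zero]

theorem thm_CHE (h_CH1 : St_CH1) (h_CH2 : St_CH2) (h_MIN : St_MIN) (h_MO3 : St_MO3)
    (h_LM2 : St_LM2) (h_SFP : St_SFP) : St_CHE := by
  intro h hSF hGi hLm
  have hc := h_SFP.cts 3 h hSF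
  obtain ⟨C, hC⟩ := h_SFP.bdd 3 h hSF
  obtain ⟨C', hC'⟩ := h_SFP.bdd 3 mx h_LM2.2
  have hm := h_MIN h hSF hGi hLm
  have hm' := h_MIN mx h_LM2.2 CHE_Gi_mx h_LM2.1
  have I1 := h_CH1 h C hc hC hGi hm
  have I2 := h_CH1 mx C' (h_SFP.cts 3 mx h_LM2.2) hC' CHE_Gi_mx hm'
  rw [hLm] at I1
  rw [h_LM2.1] at I2
  obtain ⟨r, hr⟩ := h_CH2 (fun a b => h (e3 a b 0)) (2 * tz / √Real.pi) (hc.comp CHE_cts)
    (by
      intro t a b ht
      have : e3 (t * a) (t * b) 0 = t • e3 a b 0 := by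
        apply CHE_ext <;> simp [e3]
      show h (e3 (t * a) (t * b) 0) = t * h (e3 a b 0)
      rw [this, h_SFP.hom 3 h _ t hSF ht])
    (by
      intro a b
      show h (e3 a b 0) = h (e3 |a| |b| 0)
      apply le_antisymm
      · apply h_MO3 h hSF hGi
        apply CHE_forall
        · rw [CHE_e3_0, CHE_e3_0, abs_abs]
        · rw [CHE_e3_1, CHE_e3_1, abs_abs]
        · rw [CHE_e3_2, CHE_e3_2]
      · apply h_MO3 h hSF hGi
        apply CHE_forall
        · rw [CHE_e3_0, CHE_e3_0, abs_abs]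
        · rw [CHE_e3_1, CHE_e3_1, abs_abs]
        · rw [CHE_e3_2, CHE_e3_2])
    (by
      intro a b
      show h (e3 a b 0) = h (e3 b a 0)
      have h1 := hGi (Equiv.swap 0 1, fun _ => true) (e3 b a 0)
      rw [← h1]
      congr 1
      apply CHE_ext
      · simp [ga, e3]
      · simp [ga, e3]
      · simp only [ga, if_true, PiLp.toLp_apply]
        rw [Equiv.swap_apply_of_ne_of_ne (by decide) (by decide)]
        rw [CHE_e3_2, CHE_e3_2])
    (by
      intro a b b' hb hbb _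
      apply h_MO3 h hSF hGi
      apply CHE_forall
      · rw [CHE_e3_0, CHE_e3_0]
      · rw [CHE_e3_1, CHE_e3_1, abs_of_nonneg hb, abs_of_nonneg (hb.trans hbb)]
        exact hbb
      · rw [CHE_e3_2, CHE_e3_2])
    (CHE_int (fun a b => h (e3 a b 0)) I1.symm)
    (by
      have I3 := CHE_int (fun a b => mx (e3 a b 0)) I2.symm
      simp only [CHE_mx_e3] at I3
      exact I3)
  refine ⟨r, fun x => ?_⟩
  obtain ⟨j, hj⟩ := Finite.exists_min fun i => |x i|
  have hg : ∀ i, ga (Equiv.swap j 2, fun _ => true) x i = x (Equiv.swap j 2 i) := by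
    intro i
    simp [ga]
  rw [← hGi (Equiv.swap j 2, fun _ => true) x, ← CHE_Gi_mx (Equiv.swap j 2, fun _ => true) x]
  set y := ga (Equiv.swap j 2, fun _ => true) x with hy
  have h2 : ∀ i, |y 2| ≤ |y i| := by
    intro i
    rw [hg 2, hg i, Equiv.swap_apply_right]
    exact hj _
  rw [hm y 2 h2]
  have h3 : zr 2 y = e3 (y 0) (y 1) 0 := by
    apply CHE_ext <;> simp [zr, e3]
  rw [h3]
  have h4 := hr (y 0) (y 1)
  rw [h4]
  congr 1
  unfold mx
  rw [max_eq_left (h2 1)]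

end RLW
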