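import Mathlib
import Pool.Agent.RLW.StU

/-!
# RLW, module HOC: the support function of the cross-polytope
-/

set_option autoImplicit false

open MeasureTheory Metric Set Filter
open scoped BigOperators Pointwise RealInnerProductSpace NNReal Topology

namespace RLW

private theorem HOC_cb (h_OCB : St_OCB) (a : E 3) {r : ℝ} (hr : 0 ≤ r) : CB (oct 3 a r) := by
  have h := h_OCB.cb 3 r hr
  rw [h_OCB.tr 3 a r]
  exact ⟨h.cpt.image (continuous_const.add continuous_id), h.cvx.translate a, h.ne.image _⟩

private theorem HOC_inner (x z : E 3) : ⟪x, z⟫ = ∑ i, x i * z i := by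
  rw [PiLp.inner_apply]
  exact Finset.sum_congr rfl fun i _ => by simp [mul_comm]

private theorem HOC_mx (x : E 3) (i : Fin 3) : |x i| ≤ mx x := by
  unfold mx
  fin_cases i
  · exact le_max_left _ _
  · exact (le_max_left _ _).trans (le_max_right _ _)
  · exact (le_max_right _ _).trans (le_max_right _ _)

private theorem HOC_ex (x : E 3) : ∃ i : Fin 3, mx x = |x i| := by
  unfold mx
  rcases max_choice |x 0| (max |x 1| |x 2|) with h | h
  · exact ⟨0, h⟩
  · rcases max_choice |x 1| |x 2| with h' | h'
    · exact ⟨1, h.trans h'⟩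
    · exact ⟨2, h.trans h'⟩

theorem thm_HOC (h_HSB : St_HSB) (h_OCB : St_OCB) : St_HOC := by
  intro a x r hr
  have hK := HOC_cb h_OCB a hr
  refine le_antisymm ?_ ?_
  · obtain ⟨z, hz, hzx⟩ := h_HSB.att 3 _ x hK
    rw [← hzx]
    have hz' : ∑ i, |z i - a i| ≤ r := hz
    have h0 : 0 ≤ mx x := (abs_nonneg _).trans (HOC_mx x 0)
    have h1 : ⟪x, z⟫ = ⟪a, x⟫ + ∑ i, x i * (z i - a i) := by
      rw [HOC_inner, HOC_inner, ← Finset.sum_add_distrib]
      exact Finset.sum_congr rfl fun i _ => by ring
    have h2 : ∑ i, x i * (z i - a i) ≤ ∑ i, mx x * |z i - a i| := by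
      refine Finset.sum_le_sum fun i _ => ?_
      calc x i * (z i - a i) ≤ |x i * (z i - a i)| := le_abs_self _
        _ = |x i| * |z i - a i| := abs_mul _ _
        _ ≤ mx x * |z i - a i| := mul_le_mul_of_nonneg_right (HOC_mx x i) (abs_nonneg _)
    rw [← Finset.mul_sum] at h2
    have h3 := mul_le_mul_of_nonneg_left hz' h0
    rw [h1]
    linarith
  · obtain ⟨j, hj⟩ := HOC_ex x
    set σ : ℝ := if 0 ≤ x j then 1 else -1 with hσ
    have hσx : σ * x j = |x j| := by
      rw [hσ]
      split_ifs with h
      · rw [one_mul, abs_of_nonneg h]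
      · rw [abs_of_neg (not_le.1 h)]
        ring
    have hσa : |σ| = 1 := by
      rw [hσ]
      split_ifs
      · exact abs_one
      · rw [abs_neg, abs_one]
    set z : E 3 := WithLp.toLp 2 fun i => a i + (if i = j then r * σ else 0) with hz
    have hzi : ∀ i, z i = a i + (if i = j then r * σ else 0) := fun i => rfl
    have hzK : z ∈ oct 3 a r := by
      show ∑ i, |z i - a i| ≤ r
      have h1 : ∀ i, |z i - a i| = if i = j then r else 0 := by
        intro i
        rw [hzi, add_sub_cancel_left]
        split_ifs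
        · rw [abs_mul, hσa, abs_of_nonneg hr, mul_one]
        · exact abs_zero
      rw [Finset.sum_congr rfl fun i _ => h1 i, Finset.sum_ite_eq' Finset.univ j]
      simp
    have h2 := h_HSB.le 3 _ x z hK hzK
    have h3 : ⟪x, z⟫ = ⟪a, x⟫ + r * mx x := by
      rw [HOC_inner, HOC_inner, hj, ← hσx]
      have h4 : ∀ i, x i * z i = a i * x i + (if i = j then r * (σ * x j) else 0) := by
        intro i
        rw [hzi]
        split_ifs with h
        · rw [h]
          ring
        · ring
      rw [Finset.sum_congr rfl fun i _ => h4 i, Finset.sum_add_distrib,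
        Finset.sum_ite_eq' Finset.univ j]
      simp
    linarith

end RLW
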