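import Mathlib
import Pool.Agent.RLW.StU

/-!
# RLW module HSB: support functions
-/

set_option autoImplicit false

open MeasureTheory Metric Set Filter
open scoped BigOperators Pointwise RealInnerProductSpace NNReal Topology

namespace RLW

private theorem HSB_cts {n : ℕ} (x : E n) : Continuous fun z : E n => ⟪x, z⟫ :=
  continuous_const.inner continuous_id

private theorem HSB_bdd {n : ℕ} {K : Set (E n)} (hK : CB K) (x : E n) :
    BddAbove ((fun z => ⟪x, z⟫) '' K) :=
  (hK.cpt.image (HSB_cts x)).bddAbove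

private theorem HSB_le {n : ℕ} {K : Set (E n)} (hK : CB K) (x z : E n) (hz : z ∈ K) :
    ⟪x, z⟫ ≤ hs K x := le_csSup (HSB_bdd hK x) ⟨z, hz, rfl⟩

private theorem HSB_att {n : ℕ} {K : Set (E n)} (hK : CB K) (x : E n) :
    ∃ z ∈ K, ⟪x, z⟫ = hs K x := by
  obtain ⟨z, hz, h⟩ := hK.cpt.exists_isMaxOn hK.ne (HSB_cts x).continuousOn
  refine ⟨z, hz, le_antisymm (HSB_le hK x z hz) ?_⟩
  apply csSup_le (hK.ne.image _)
  rintro _ ⟨y, hy, rfl⟩
  exact h hy

theorem thm_HSB : St_HSB where
  le := fun _ _ x z hK hz => HSB_le hK x z hz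
  att := fun _ _ x hK => HSB_att hK x
  det := by
    intro n K L hK hL h z hz
    by_contra hcon
    obtain ⟨f, u, h1, h2⟩ := geometric_hahn_banach_closed_point hL.cvx hL.cpt.isClosed hcon
    obtain ⟨x, hx⟩ := (InnerProductSpace.toDual ℝ (E n)).surjective f
    have hf : ∀ y, f y = ⟪x, y⟫ := fun y => by
      rw [← hx, InnerProductSpace.toDual_apply_apply]
    obtain ⟨y, hy, h3⟩ := HSB_att hL x
    have h4 := h1 y hy
    rw [hf] at h4 h2
    have h5 := HSB_le hK x z hz
    have h6 := h x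
    linarith

end RLW
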