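import Pool.Agent.RLW.StU

/-!
# RLW, module JEQ: equality in the arcsin inequality for `n = 3`
-/

set_option autoImplicit false

open MeasureTheory Metric Set
open scoped BigOperators Pointwise RealInnerProductSpace NNReal Topology

namespace RLW

private noncomputable def JEQ_f (y : ℝ) : ℝ := √y * Real.arcsin (√y)

private theorem JEQ_mono {a b : ℝ} (ha : 0 < a) (hab : a ≤ b) (hb : b < 1) :
    Real.arcsin a / a ≤ Real.arcsin b / b := by
  have hpi := Real.pi_pos
  have hb0 : 0 < b := ha.trans_le hab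
  have hta : 0 < Real.arcsin a := Real.arcsin_pos.2 ha
  have htab : Real.arcsin a ≤ Real.arcsin b := Real.arcsin_le_arcsin hab
  have htb : Real.arcsin b ≤ Real.pi / 2 := Real.arcsin_le_pi_div_two b
  have htb0 : 0 < Real.arcsin b := hta.trans_le htab
  have hsa : Real.sin (Real.arcsin a) = a := Real.sin_arcsin (by linarith) (by linarith)
  have hsb : Real.sin (Real.arcsin b) = b := Real.sin_arcsin (by linarith) (by linarith)
  have m0 : (0 : ℝ) ∈ Icc 0 Real.pi := ⟨le_refl 0, hpi.le⟩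
  have mb : Real.arcsin b ∈ Icc 0 Real.pi := ⟨htb0.le, by linarith⟩
  have w1 : 0 ≤ 1 - Real.arcsin a / Real.arcsin b := by
    rw [sub_nonneg]
    exact (div_le_one htb0).2 htab
  have w2 : 0 ≤ Real.arcsin a / Real.arcsin b := (div_pos hta htb0).le
  have w3 : 1 - Real.arcsin a / Real.arcsin b + Real.arcsin a / Real.arcsin b = 1 := by ring
  have hc := strictConcaveOn_sin_Icc.concaveOn.2 m0 mb w1 w2 w3
  simp only [smul_eq_mul, Real.sin_zero, mul_zero, zero_add] at hc
  rw [div_mul_cancel₀ _ htb0.ne', hsa, hsb] at hc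
  rw [div_le_div_iff₀ ha hb0]
  have h1 : Real.arcsin a * b = Real.arcsin b * (Real.arcsin a / Real.arcsin b * b) := by
    field_simp
  rw [h1]
  exact mul_le_mul_of_nonneg_left hc htb0.le

private theorem JEQ_der {y : ℝ} (h0 : 0 < y) (h1 : y < 1) :
    HasDerivAt JEQ_f (1 / 2 * (Real.arcsin (√y) / √y) + 1 / (2 * √(1 - y))) y := by
  have hs : 0 < √y := Real.sqrt_pos.2 h0
  have hss : √y ^ 2 = y := Real.sq_sqrt h0.le
  have hs1 : √y < 1 := by
    rw [Real.sqrt_lt' one_pos]
    simpa using h1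
  have hq : 0 < √(1 - y) := Real.sqrt_pos.2 (by linarith)
  have d1 : HasDerivAt (fun x : ℝ => √x) (1 / (2 * √y)) y := Real.hasDerivAt_sqrt h0.ne'
  have d2 : HasDerivAt Real.arcsin (1 / √(1 - (√y) ^ 2)) (√y) :=
    Real.hasDerivAt_arcsin (by linarith) hs1.ne
  rw [hss] at d2
  have d3 : HasDerivAt (fun x : ℝ => Real.arcsin (√x)) (1 / √(1 - y) * (1 / (2 * √y))) y :=
    HasDerivAt.comp y d2 d1
  have d4 := d1.mul d3
  have e : 1 / (2 * √y) * Real.arcsin (√y) + √y * (1 / √(1 - y) * (1 / (2 * √y))) =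
      1 / 2 * (Real.arcsin (√y) / √y) + 1 / (2 * √(1 - y)) := by
    field_simp
  rw [e] at d4
  exact d4

private theorem JEQ_cvx : StrictConvexOn ℝ (Icc 0 1) JEQ_f := by
  refine StrictMonoOn.strictConvexOn_of_deriv (convex_Icc 0 1) ?_ ?_
  · have : Continuous JEQ_f :=
      Real.continuous_sqrt.mul (Real.continuous_arcsin.comp Real.continuous_sqrt)
    exact this.continuousOn
  · rw [interior_Icc]
    intro y hy z hz hyz
    rw [(JEQ_der hy.1 hy.2).deriv, (JEQ_der hz.1 hz.2).deriv]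
    have hs : 0 < √y := Real.sqrt_pos.2 hy.1
    have hz1 : √z < 1 := by
      rw [Real.sqrt_lt' one_pos]
      simpa using hz.2
    have h1 := JEQ_mono hs (Real.sqrt_le_sqrt hyz.le) hz1
    have h2 : 0 < √(1 - z) := Real.sqrt_pos.2 (by linarith [hz.2])
    have h3 : √(1 - z) < √(1 - y) := Real.sqrt_lt_sqrt (by linarith [hz.2]) (by linarith)
    have h4 : 1 / (2 * √(1 - y)) < 1 / (2 * √(1 - z)) :=
      one_div_lt_one_div_of_lt (by positivity) (by linarith)
    linarith

theorem thm_JEQ : St_JEQ := by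
  intro x hx hs heq
  have hle : ∀ j, x j ^ 2 ≤ 1 := by
    intro j
    rw [← hs]
    exact Finset.single_le_sum (f := fun j => x j ^ 2) (fun i _ => sq_nonneg (x i))
      (Finset.mem_univ j)
  have e1 : ∀ j, JEQ_f (x j ^ 2) = x j * Real.arcsin (x j) := by
    intro j
    unfold JEQ_f
    rw [Real.sqrt_sq (hx j)]
  have e2 : JEQ_f (1 / 3) = 1 / √3 * Real.arcsin (1 / √3) := by
    unfold JEQ_f
    rw [Real.sqrt_div zero_le_one, Real.sqrt_one]
  have hss : √(3 : ℝ) * √3 = 3 := Real.mul_self_sqrt (by norm_num)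
  have hs3 : 0 < √(3 : ℝ) := Real.sqrt_pos.2 (by norm_num)
  have hsum : ∑ j, (1 / 3 : ℝ) • x j ^ 2 = 1 / 3 := by
    simp only [smul_eq_mul]
    rw [← Finset.mul_sum, hs, mul_one]
  have hall := JEQ_cvx.eq_of_le_map_sum (t := Finset.univ) (w := fun _ : Fin 3 => (1 / 3 : ℝ))
    (p := fun j => x j ^ 2) (fun _ _ => by norm_num) (by simp) (fun j _ => ⟨sq_nonneg _, hle j⟩)
    (by
      rw [hsum, e2]
      simp only [smul_eq_mul]
      rw [← Finset.mul_sum, Finset.sum_congr rfl fun j _ => e1 j, heq]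
      refine le_of_eq ?_
      field_simp
      rw [sq, hss])
  intro j
  have h1 : ∀ k, x k ^ 2 = x j ^ 2 := fun k => hall (Finset.mem_univ k) (Finset.mem_univ j)
  have h2 : x j ^ 2 = 1 / 3 := by
    rw [Finset.sum_congr rfl fun k _ => h1 k] at hs
    rw [Finset.sum_const, Finset.card_univ, Fintype.card_fin, nsmul_eq_mul] at hs
    push_cast at hs
    linarith
  have h3 : x j = √(1 / 3) := by
    rw [← h2, Real.sqrt_sq (hx j)]
  rw [h3, Real.sqrt_div zero_le_one, Real.sqrt_one]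

end RLW
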