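import Pool.Agent.RLW.StU

/-!
# RLW, [LM0]: `Lm` is nonnegative
-/

set_option autoImplicit false

open MeasureTheory Metric Set
open scoped BigOperators Pointwise RealInnerProductSpace NNReal Topology

namespace RLW

/-- `zr j` as a linear map -/
private noncomputable def zrL {n : ℕ} (j : Fin n) : E n →ₗ[ℝ] E n where
  toFun x := zr j x
  map_add' x y := by
    ext i
    simp only [zr, PiLp.add_apply]
    split_ifs <;> simp
  map_smul' r x := by
    ext i
    simp only [zr, PiLp.smul_apply, RingHom.id_apply]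
    split_ifs <;> simp

private lemma tz_nonneg : 0 ≤ tz := Real.arcsin_nonneg.mpr (by positivity)

private lemma tz_le : tz ≤ Real.pi / 2 := Real.arcsin_le_pi_div_two _

private lemma sin_tz : Real.sin tz ^ 2 = 1 / 3 := by
  have h3 : (1 : ℝ) ≤ √3 := by
    rw [Real.one_le_sqrt]; norm_num
  have h0 : (0 : ℝ) < √3 := by linarith
  rw [tz, Real.sin_arcsin]
  · rw [div_pow, Real.sq_sqrt (by norm_num)]; norm_num
  · have : (0 : ℝ) ≤ 1 / √3 := by positivity
    linarith
  · rw [div_le_one h0]; exact h3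

theorem thm_LM0 (h_STE : St_STE) (h_POL : St_POL) (h_LMF : St_LMF) (h_PRC : St_PRC)
    (h_SFP : St_SFP) (h_SFC : St_SFC) : St_LM0 := by
  intro h hSF
  obtain ⟨K, hK, hhs⟩ := id hSF
  obtain ⟨V, hV⟩ := h_STE 3 K hK
  have hW' : ∀ j : Fin 3, ∃ W : ℕ → ℝ, IsIV (prj (n := 2) j '' K) W := fun j =>
    h_STE 2 _ (h_PRC.cb 2 j K hK)
  choose W hW using hW'
  have hpol := h_POL 2 K V W (fun _ => tz) (by norm_num) hK hV hW
    (fun _ => ⟨tz_nonneg, tz_le⟩) (by simp [sin_tz])
  have hv := h_LMF.v K V hK hV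
  have hw := fun j : Fin 3 => h_LMF.w K (W j) j hK (hW j)
  simp only [hhs] at hv hw
  have hint0 := h_SFP.int 3 h hSF
  have hint : ∀ j : Fin 3, Integrable fun x : E 3 => h (zr j x) * Real.exp (-‖x‖ ^ 2) :=
    fun j => h_SFP.int 3 (fun x => h (zr j x)) (h_SFC.cmp 3 3 (zrL j) h hSF)
  have hpi := Real.pi_pos
  have hL : Lm h = (∫ x : E 3, h x * Real.exp (-‖x‖ ^ 2)) -
      2 * tz / Real.pi * ∑ j : Fin 3, ∫ x : E 3, h (zr j x) * Real.exp (-‖x‖ ^ 2) := by
    rw [← integral_finsetSum _ (fun j _ => hint j), ← integral_const_mul,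
      ← integral_sub hint0 ((integrable_finsetSum _ (fun j _ => hint j)).const_mul _)]
    unfold Lm
    congr 1
    ext x
    rw [← Finset.sum_mul]
    ring
  rw [hL]
  have h1 : (∫ x : E 3, h x * Real.exp (-‖x‖ ^ 2)) = Real.pi / 2 * V 1 := by
    rw [hv]; field_simp
  have h2 : ∀ j : Fin 3, (∫ x : E 3, h (zr j x) * Real.exp (-‖x‖ ^ 2)) =
      Real.pi / 2 * W j 1 := by
    intro j
    rw [hw j]; field_simp
  rw [h1, Finset.sum_congr rfl (fun j _ => h2 j), ← Finset.mul_sum]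
  have h3 : 2 / Real.pi * (tz * ∑ j : Fin 3, W j 1) ≤ V 1 := by
    rw [Finset.mul_sum]; exact hpol
  have h4 : 2 * tz / Real.pi * (Real.pi / 2 * ∑ j : Fin 3, W j 1) =
      Real.pi / 2 * (2 / Real.pi * (tz * ∑ j : Fin 3, W j 1)) := by
    field_simp
  rw [h4]
  have := mul_le_mul_of_nonneg_left h3 (by positivity : 0 ≤ Real.pi / 2)
  linarith

end RLW
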