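import Pool.Agent.RLW.StU

/-!
# RLW, module LM1: extremal bodies have `Lm = 0`
-/

set_option autoImplicit false

open MeasureTheory Metric Set
open scoped BigOperators Pointwise RealInnerProductSpace NNReal Topology

namespace RLW

/-- `zr j` as a linear map -/
private noncomputable def LM1_z (j : Fin 3) : E 3 →ₗ[ℝ] E 3 where
  toFun := zr j
  map_add' := by
    intro x y
    ext i
    by_cases h : i = j <;> simp [zr, h]
  map_smul' := by
    intro c x
    ext i
    by_cases h : i = j <;> simp [zr, h]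

private theorem LM1_tz : 0 ≤ tz := by
  unfold tz
  rw [Real.arcsin_nonneg]
  positivity

/-- `V 1` is determined by the projections -/
private theorem LM1_eq (h_POL : St_POL) (h_JEN : St_JEN) (h_JEQ : St_JEQ) (h_MON : St_MON)
    (h_PRC : St_PRC) (K : Set (E 3)) (V : ℕ → ℝ) (W : Fin 3 → ℕ → ℝ) (hK : CB K) (hV : IsIV K V)
    (hW : ∀ j, IsIV (prj j '' K) (W j)) (h : V 1 ^ 2 = cst 3 * ∑ j, W j 1 ^ 2) :
    V 1 = 2 / Real.pi * tz * ∑ j, W j 1 := by
  have hpi := Real.pi_pos
  have hp : ∀ j, 0 ≤ W j 1 := fun j => h_MON 2 (prj j '' K) (W j) (by norm_num)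
    (h_PRC.cb 2 j K hK) (hW j)
  have hQ : 0 ≤ ∑ j, W j 1 ^ 2 := Finset.sum_nonneg fun j _ => sq_nonneg _
  have hc : cst 3 = 12 / Real.pi ^ 2 * tz ^ 2 := by
    unfold cst tz
    push_cast
    norm_num
  rcases eq_or_lt_of_le hQ with h0 | h0
  · have h1 : ∀ j, W j 1 = 0 := by
      intro j
      have h2 := (Finset.sum_eq_zero_iff_of_nonneg (fun j _ => sq_nonneg (W j 1))).1 h0.symm j
        (Finset.mem_univ j)
      exact pow_eq_zero_iff (two_ne_zero) |>.1 h2
    rw [← h0, mul_zero] at h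
    have h3 : V 1 = 0 := pow_eq_zero_iff (two_ne_zero) |>.1 h
    rw [h3]
    simp [h1]
  · set S : ℝ := √(∑ j, W j 1 ^ 2) with hS
    have hS0 : 0 < S := Real.sqrt_pos.2 h0
    have hS2 : S ^ 2 = ∑ j, W j 1 ^ 2 := Real.sq_sqrt hQ
    have hx0 : ∀ j, 0 ≤ W j 1 / S := fun j => div_nonneg (hp j) hS0.le
    have hx1 : ∑ j, (W j 1 / S) ^ 2 = 1 := by
      simp only [div_pow]
      rw [← Finset.sum_div, ← hS2, div_self (pow_pos hS0 2).ne']
    have hxl : ∀ j, W j 1 / S ≤ 1 := by
      intro j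
      have h1 : (W j 1 / S) ^ 2 ≤ 1 := by
        rw [← hx1]
        exact Finset.single_le_sum (f := fun j => (W j 1 / S) ^ 2) (fun i _ => sq_nonneg _)
          (Finset.mem_univ j)
      nlinarith [hx0 j]
    have h1 := h_POL 2 K V W (fun j => Real.arcsin (W j 1 / S)) (by norm_num) hK hV hW
      (fun j => ⟨Real.arcsin_nonneg.2 (hx0 j), Real.arcsin_le_pi_div_two _⟩) (by
        rw [← hx1]
        refine Finset.sum_congr rfl fun j _ => ?_
        rw [Real.sin_arcsin (by linarith [hx0 j]) (hxl j)])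
    have h1' : 2 / Real.pi * ∑ j, Real.arcsin (W j 1 / S) * W j 1 ≤ V 1 := h1
    have h2 := h_JEN 3 (fun j => W j 1 / S) (by norm_num) hx0 hx1
    have h2' : √3 * tz ≤ ∑ j, W j 1 / S * Real.arcsin (W j 1 / S) := by
      unfold tz
      have e : ((3 : ℕ) : ℝ) = 3 := by norm_num
      rw [e] at h2
      exact h2
    have h3 : ∑ j, Real.arcsin (W j 1 / S) * W j 1 =
        S * ∑ j, W j 1 / S * Real.arcsin (W j 1 / S) := by
      rw [Finset.mul_sum]
      refine Finset.sum_congr rfl fun j _ => ?_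
      field_simp
    rw [h3] at h1'
    have hV0 : 0 ≤ V 1 := by
      refine le_trans ?_ h1'
      have h4 : 0 ≤ √3 * tz := mul_nonneg (Real.sqrt_nonneg _) LM1_tz
      have h5 : 0 ≤ ∑ j, W j 1 / S * Real.arcsin (W j 1 / S) := h4.trans h2'
      positivity
    have h33 : √3 * √3 = (3 : ℝ) := Real.mul_self_sqrt (by norm_num)
    have hVe : V 1 = 2 / Real.pi * (S * (√3 * tz)) := by
      have h4 : V 1 ^ 2 = (2 / Real.pi * (S * (√3 * tz))) ^ 2 := by
        rw [h, hc, ← hS2]
        have e : (2 / Real.pi * (S * (√3 * tz))) ^ 2 =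
            4 / Real.pi ^ 2 * S ^ 2 * (√3 * √3) * tz ^ 2 := by ring
        rw [e, h33]
        ring
      have h5 : 0 ≤ 2 / Real.pi * (S * (√3 * tz)) := by
        have := LM1_tz
        positivity
      exact (pow_left_inj₀ hV0 h5 two_ne_zero).1 h4
    have h6 : ∑ j, W j 1 / S * Real.arcsin (W j 1 / S) = √3 * tz := by
      refine le_antisymm ?_ h2'
      rw [hVe] at h1'
      have h7 : (0 : ℝ) < 2 / Real.pi := by positivity
      have h8 := le_of_mul_le_mul_left h1' h7
      exact le_of_mul_le_mul_left h8 hS0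
    have h7 := h_JEQ (fun j => W j 1 / S) hx0 hx1 h6
    have h8 : ∀ j, W j 1 = S / √3 := by
      intro j
      have h9 : W j 1 / S = 1 / √3 := h7 j
      rw [div_eq_iff hS0.ne'] at h9
      rw [h9]
      ring
    have h9 : ∑ j, W j 1 = √3 * S := by
      simp only [h8]
      rw [Finset.sum_const, Finset.card_univ, Fintype.card_fin, nsmul_eq_mul]
      have h10 : √3 ≠ 0 := by positivity
      have e : ((3 : ℕ) : ℝ) = 3 := by norm_num
      rw [e, mul_div_assoc', div_eq_iff h10]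
      linear_combination (-S) * h33
    rw [h9, hVe]
    ring

theorem thm_LM1 (h_POL : St_POL) (h_JEN : St_JEN) (h_JEQ : St_JEQ) (h_MON : St_MON)
    (h_LMF : St_LMF) (h_PRC : St_PRC) (h_SFP : St_SFP) (h_SFC : St_SFC) : St_LM1 := by
  intro K V W hK hV hW h
  have hpi := Real.pi_pos
  have h1 := LM1_eq h_POL h_JEN h_JEQ h_MON h_PRC K V W hK hV hW h
  have hSF : SF (hs K) := ⟨K, hK, fun x => rfl⟩
  have hSFj : ∀ j : Fin 3, SF fun x => hs K (zr j x) := fun j =>
    h_SFC.cmp 3 3 (LM1_z j) (hs K) hSF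
  have hi := h_SFP.int 3 (hs K) hSF
  have hij : ∀ j : Fin 3, Integrable fun x : E 3 => hs K (zr j x) * Real.exp (-‖x‖ ^ 2) :=
    fun j => h_SFP.int 3 _ (hSFj j)
  have hv := h_LMF.v K V hK hV
  have hw := fun j => h_LMF.w K (W j) j hK (hW j)
  have h2 : Lm (hs K) = (∫ x : E 3, hs K x * Real.exp (-‖x‖ ^ 2)) -
      2 * tz / Real.pi * ∑ j, ∫ x : E 3, hs K (zr j x) * Real.exp (-‖x‖ ^ 2) := by
    unfold Lm
    rw [← integral_finsetSum _ fun j _ => hij j, ← integral_const_mul, ← integral_sub hi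
      ((integrable_finsetSum _ fun j _ => hij j).const_mul _)]
    congr 1
    funext x
    rw [sub_mul, mul_assoc, Finset.sum_mul]
  rw [h2]
  have h3 : ∫ x : E 3, hs K x * Real.exp (-‖x‖ ^ 2) = Real.pi / 2 * V 1 := by
    rw [hv]
    field_simp
  have h4 : ∀ j, ∫ x : E 3, hs K (zr j x) * Real.exp (-‖x‖ ^ 2) = Real.pi / 2 * W j 1 := by
    intro j
    rw [hw j]
    field_simp
  simp only [h3, h4]
  rw [← Finset.mul_sum, h1]
  field_simp
  ring

end RLW
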