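import Mathlib
import Pool.Agent.RLW.StU

/-!
# RLW (MP_f7beb7_gt), module LM2: the functional vanishes for the maximum norm
-/

set_option autoImplicit false

open MeasureTheory Metric Set
open scoped BigOperators Pointwise RealInnerProductSpace NNReal Topology

namespace RLW

theorem thm_LM2 (h_OEQ : St_OEQ) (h_STE : St_STE) (h_LM1 : St_LM1) (h_HOC : St_HOC)
    (h_OCB : St_OCB) (h_PRC : St_PRC) : St_LM2 := by
  have hK : CB (oct 3 (0 : E 3) 1) := by
    rw [h_OCB.tr]
    have h1 : (fun x : E 3 => (0 : E 3) + x) '' oc 3 1 = oc 3 1 := by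
      simp only [zero_add, image_id']
    rw [h1]
    exact h_OCB.cb 3 1 zero_le_one
  have hs1 : hs (oct 3 (0 : E 3) 1) = mx := by
    funext x
    rw [h_HOC 0 x 1 zero_le_one, inner_zero_left, zero_add, one_mul]
  obtain ⟨V, hV⟩ := h_STE 3 _ hK
  have hW : ∀ j : Fin 3, ∃ W : ℕ → ℝ, IsIV (prj j '' oct 3 (0 : E 3) 1) W := fun j =>
    h_STE 2 _ (h_PRC.cb 2 j _ hK)
  choose W hW using hW
  have h1 := h_OEQ 2 (0 : E 3) 1 V W (by norm_num) one_pos hV hW
  refine ⟨?_, oct 3 0 1, hK, fun x => by rw [hs1]⟩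
  rw [← hs1]
  exact h_LM1 _ V W hK hV hW h1

end RLW
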