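import Mathlib
import Pool.Agent.RLW.StU

/-!
# RLW, module LMF: the first intrinsic volumes as integrals over `E 3`
-/

set_option autoImplicit false

open MeasureTheory Metric Set Filter
open scoped BigOperators Pointwise RealInnerProductSpace NNReal Topology

namespace RLW

private theorem LMF_inner {n : ℕ} (x z : E n) : ⟪x, z⟫ = ∑ i, x i * z i := by
  rw [PiLp.inner_apply]
  exact Finset.sum_congr rfl fun i _ => by simp [mul_comm]

private theorem LMF_same {n : ℕ} (j : Fin (n + 1)) (s : ℝ) (y : E n) : ins j s y j = s := by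
  exact Fin.insertNth_apply_same (α := fun _ => ℝ) j s fun i => y i

private theorem LMF_above {n : ℕ} (j : Fin (n + 1)) (s : ℝ) (y : E n) (i : Fin n) :
    ins j s y (j.succAbove i) = y i := by
  exact Fin.insertNth_apply_succAbove (α := fun _ => ℝ) j s (fun i => y i) i

private theorem LMF_norm {n : ℕ} (j : Fin (n + 1)) (s : ℝ) (y : E n) :
    ‖ins j s y‖ ^ 2 = s ^ 2 + ‖y‖ ^ 2 := by
  rw [EuclideanSpace.norm_sq_eq, EuclideanSpace.norm_sq_eq, Fin.sum_univ_succAbove _ j, LMF_same]
  simp only [LMF_above, Real.norm_eq_abs, sq_abs]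

private theorem LMF_zr {n : ℕ} (j : Fin (n + 1)) (s : ℝ) (y : E n) :
    zr j (ins j s y) = ins j 0 y := by
  ext m
  show (if m = j then 0 else ins j s y m) = ins j 0 y m
  rcases eq_or_ne m j with h | h
  · rw [if_pos h, h, LMF_same]
  · rw [if_neg h]
    obtain ⟨i, rfl⟩ := Fin.exists_succAbove_eq h
    rw [LMF_above, LMF_above]

/-- `zr j` is linear -/
private noncomputable def LMF_lin {n : ℕ} (j : Fin n) : E n →ₗ[ℝ] E n where
  toFun x := zr j x
  map_add' x y := by
    ext m
    show (if m = j then 0 else (x + y) m) = (if m = j then 0 else x m) + if m = j then 0 else y m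
    split_ifs
    · rw [add_zero]
    · rfl
  map_smul' r x := by
    ext m
    show (if m = j then 0 else (r • x) m) = r • if m = j then 0 else x m
    split_ifs
    · rw [smul_zero]
    · rfl

private theorem LMF_prj (h_HSB : St_HSB) (h_PRC : St_PRC) {n : ℕ} {K : Set (E (n + 1))}
    (hK : CB K) (j : Fin (n + 1)) (y : E n) : hs (prj j '' K) y = hs K (ins j 0 y) := by
  have key : ∀ z : E (n + 1), ⟪y, prj j z⟫ = ⟪ins j 0 y, z⟫ := by
    intro z
    rw [LMF_inner, LMF_inner, Fin.sum_univ_succAbove _ j, LMF_same, zero_mul, zero_add]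
    exact Finset.sum_congr rfl fun i _ => by
      rw [LMF_above]
      rfl
  refine le_antisymm ?_ ?_
  · obtain ⟨w, ⟨z, hz, rfl⟩, hw⟩ := h_HSB.att n _ y (h_PRC.cb n j K hK)
    rw [← hw, key]
    exact h_HSB.le _ K _ z hK hz
  · obtain ⟨z, hz, hw⟩ := h_HSB.att _ K (ins j 0 y) hK
    rw [← hw, ← key]
    exact h_HSB.le n _ y _ (h_PRC.cb n j K hK) ⟨z, hz, rfl⟩

theorem thm_LMF (h_MWF : St_MWF) (h_FUB : St_FUB) (h_PRC : St_PRC) (h_HSB : St_HSB)
    (h_SFP : St_SFP) (h_SFC : St_SFC) : St_LMF where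
  v := by
    intro K V hK hV
    have h := h_MWF 3 K V (by norm_num) hK hV
    have h2 : √Real.pi ^ (3 - 1) = Real.pi := Real.sq_sqrt Real.pi_pos.le
    rw [h2] at h
    have hpi := Real.pi_ne_zero
    field_simp
    linarith
  w := by
    intro K W j hK hW
    have hP := h_PRC.cb 2 j K hK
    have h := h_MWF 2 _ W (by norm_num) hP hW
    have hpi : √Real.pi ^ (2 - 1) = √Real.pi := pow_one _
    rw [hpi] at h
    have hSF : SF (fun x : E 3 => hs K (zr j x)) :=
      h_SFC.cmp 3 3 (LMF_lin j) (hs K) ⟨K, hK, fun _ => rfl⟩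
    have hI := h_SFP.int 3 _ hSF
    have h1 : ∫ x : E 3, hs K (zr j x) * Real.exp (-‖x‖ ^ 2) =
        ∫ y : E 2, √Real.pi * (hs K (ins j 0 y) * Real.exp (-‖y‖ ^ 2)) := by
      rw [h_FUB 2 j _ hI]
      refine integral_congr_ae (Eventually.of_forall fun y => ?_)
      have h2 : ∀ s : ℝ, hs K (zr j (ins j s y)) * Real.exp (-‖ins j s y‖ ^ 2) =
          (hs K (ins j 0 y) * Real.exp (-‖y‖ ^ 2)) * Real.exp (-1 * s ^ 2) := by
        intro s
        rw [LMF_zr, LMF_norm, mul_assoc, ← Real.exp_add]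
        congr 2
        ring
      show ∫ s : ℝ, hs K (zr j (ins j s y)) * Real.exp (-‖ins j s y‖ ^ 2) = _
      rw [integral_congr_ae (Eventually.of_forall h2), integral_const_mul, integral_gaussian,
        div_one, mul_comm]
    rw [h1, integral_const_mul]
    have h3 : ∫ x : E 2, hs (prj j '' K) x * Real.exp (-‖x‖ ^ 2) =
        ∫ y : E 2, hs K (ins j 0 y) * Real.exp (-‖y‖ ^ 2) :=
      integral_congr_ae (Eventually.of_forall fun y => by
        show hs (prj j '' K) y * _ = _
        rw [LMF_prj h_HSB h_PRC hK j y])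
    rw [h3] at h
    set I : ℝ := ∫ y : E 2, hs K (ins j 0 y) * Real.exp (-‖y‖ ^ 2) with hI'
    have hs0 : 0 < √Real.pi := Real.sqrt_pos.2 Real.pi_pos
    have h4 : Real.pi = √Real.pi * √Real.pi := (Real.mul_self_sqrt Real.pi_pos.le).symm
    have h5 : W 1 = 2 * I / √Real.pi := by
      rw [eq_div_iff hs0.ne']
      exact h
    have h6 : 2 / Real.pi * (√Real.pi * I) = 2 * I / √Real.pi := by
      rw [div_mul_eq_mul_div, div_eq_div_iff Real.pi_ne_zero hs0.ne']
      calc 2 * (√Real.pi * I) * √Real.pi = 2 * I * (√Real.pi * √Real.pi) := by ring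
        _ = 2 * I * Real.pi := by rw [← h4]
    rw [h5, h6]

end RLW
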