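import Pool.Agent.RLW.StU

/-!
# RLW, module MIN: minimality of extremal invariant bodies
-/

set_option autoImplicit false

open MeasureTheory Metric Set
open scoped BigOperators Pointwise RealInnerProductSpace NNReal Topology

namespace RLW

private noncomputable def min_zl (j : Fin 3) : E 3 →ₗ[ℝ] E 3 where
  toFun := zr j
  map_add' x y := by
    ext i
    simp only [zr, PiLp.add_apply]
    split_ifs <;> simp
  map_smul' r x := by
    ext i
    simp only [zr, PiLp.smul_apply, RingHom.id_apply, smul_eq_mul]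
    split_ifs <;> simp

private theorem min_zr_apply (j i : Fin 3) (x : E 3) : (zr j x) i = if i = j then 0 else x i := rfl

private theorem min_zr_abs (j i : Fin 3) (x : E 3) : |(zr j x) i| ≤ |x i| := by
  rw [min_zr_apply]
  split_ifs
  · rw [abs_zero]
    exact abs_nonneg _
  · exact le_rfl

private noncomputable def min_h (h : E 3 → ℝ) (x : E 3) : ℝ :=
  max (h (zr 0 x)) (max (h (zr 1 x)) (h (zr 2 x)))

private theorem min_le {h : E 3 → ℝ} (x : E 3) (j : Fin 3) : h (zr j x) ≤ min_h h x := by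
  unfold min_h
  fin_cases j
  · exact le_max_left _ _
  · exact (le_max_left _ _).trans (le_max_right _ _)
  · exact (le_max_right _ _).trans (le_max_right _ _)

private theorem min_ge {h : E 3 → ℝ} {x : E 3} {c : ℝ} (H : ∀ j, h (zr j x) ≤ c) :
    min_h h x ≤ c := max_le (H 0) (max_le (H 1) (H 2))

private theorem min_sw {h : E 3 → ℝ} (h_MO3 : St_MO3) (hS : SF h) (hG : Gi h) (x : E 3)
    (i j : Fin 3) (hx : |x j| ≤ |x i|) : h (zr i x) ≤ h (zr j x) := by
  rcases eq_or_ne i j with rfl | hij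
  · exact le_rfl
  · rw [← hG (Equiv.swap i j, fun _ => true) (zr i x)]
    refine h_MO3 h hS hG _ _ fun k => ?_
    have e : (ga (Equiv.swap i j, fun _ => true) (zr i x)) k = (zr i x) (Equiv.swap i j k) := by
      simp [ga]
    rw [e, min_zr_apply, min_zr_apply]
    rcases eq_or_ne k i with rfl | hki
    · rw [Equiv.swap_apply_left, if_neg (Ne.symm hij), if_neg hij]
      exact hx
    · rcases eq_or_ne k j with rfl | hkj
      · rw [Equiv.swap_apply_right, if_pos rfl, if_pos rfl]
      · rw [Equiv.swap_apply_of_ne_of_ne hki hkj, if_neg hki, if_neg hkj]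

theorem thm_MIN (h_LM0 : St_LM0) (h_MO3 : St_MO3) (h_SFC : St_SFC) (h_SFP : St_SFP) : St_MIN := by
  intro h hS hG hL x j hx
  have hcmp : ∀ i : Fin 3, SF fun x => h (zr i x) := fun i => h_SFC.cmp 3 3 (min_zl i) h hS
  have hS' : SF (min_h h) :=
    h_SFC.max 3 _ _ (hcmp 0) (h_SFC.max 3 _ _ (hcmp 1) (hcmp 2))
  have hle : ∀ x, min_h h x ≤ h x := fun x =>
    min_ge fun i => h_MO3 h hS hG _ _ fun k => min_zr_abs i k x
  have hzz : ∀ (x : E 3) (i : Fin 3), min_h h (zr i x) = h (zr i x) := by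
    intro x i
    refine le_antisymm (hle _) ?_
    have e : zr i (zr i x) = zr i x := by
      ext k
      rw [min_zr_apply, min_zr_apply]
      split_ifs <;> rfl
    have := min_le (h := h) (zr i x) i
    rwa [e] at this
  have hI : Integrable fun x => h x * Real.exp (-‖x‖ ^ 2) := h_SFP.int 3 h hS
  have hI' : Integrable fun x => min_h h x * Real.exp (-‖x‖ ^ 2) := h_SFP.int 3 _ hS'
  have hIz : ∀ i : Fin 3, Integrable fun x => h (zr i x) * Real.exp (-‖x‖ ^ 2) := fun i =>
    h_SFP.int 3 _ (hcmp i)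
  have hIs : Integrable fun x : E 3 =>
      (2 * tz / Real.pi * ∑ j, h (zr j x)) * Real.exp (-‖x‖ ^ 2) := by
    have : (fun x : E 3 => (2 * tz / Real.pi * ∑ j, h (zr j x)) * Real.exp (-‖x‖ ^ 2)) =
        fun x => 2 * tz / Real.pi * ∑ j, h (zr j x) * Real.exp (-‖x‖ ^ 2) := by
      funext x
      rw [mul_assoc, Finset.sum_mul]
    rw [this]
    exact (integrable_finsetSum _ fun i _ => hIz i).const_mul _
  have e1 : Lm h = (∫ x : E 3, h x * Real.exp (-‖x‖ ^ 2)) -
      ∫ x : E 3, (2 * tz / Real.pi * ∑ j, h (zr j x)) * Real.exp (-‖x‖ ^ 2) := by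
    unfold Lm
    rw [← integral_sub hI hIs]
    refine integral_congr_ae (Filter.Eventually.of_forall fun x => ?_)
    show _ = _ - _
    ring
  have e2 : Lm (min_h h) = (∫ x : E 3, min_h h x * Real.exp (-‖x‖ ^ 2)) -
      ∫ x : E 3, (2 * tz / Real.pi * ∑ j, h (zr j x)) * Real.exp (-‖x‖ ^ 2) := by
    unfold Lm
    rw [← integral_sub hI' hIs]
    refine integral_congr_ae (Filter.Eventually.of_forall fun x => ?_)
    simp only [hzz]
    ring
  have h0 := h_LM0 _ hS'
  have e3 : ∫ x : E 3, (h x - min_h h x) * Real.exp (-‖x‖ ^ 2) ≤ 0 := by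
    have : ∫ x : E 3, (h x - min_h h x) * Real.exp (-‖x‖ ^ 2) =
        (∫ x : E 3, h x * Real.exp (-‖x‖ ^ 2)) - ∫ x : E 3, min_h h x * Real.exp (-‖x‖ ^ 2) := by
      rw [← integral_sub hI hI']
      refine integral_congr_ae (Filter.Eventually.of_forall fun x => ?_)
      show _ = _ - _
      ring
    rw [this]
    linarith
  have hnn : ∀ x : E 3, 0 ≤ (h x - min_h h x) * Real.exp (-‖x‖ ^ 2) := fun x =>
    mul_nonneg (by linarith [hle x]) (Real.exp_pos _).le
  have hII : Integrable fun x : E 3 => (h x - min_h h x) * Real.exp (-‖x‖ ^ 2) := by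
    have : (fun x : E 3 => (h x - min_h h x) * Real.exp (-‖x‖ ^ 2)) =
        fun x => h x * Real.exp (-‖x‖ ^ 2) - min_h h x * Real.exp (-‖x‖ ^ 2) := by
      funext x
      ring
    rw [this]
    exact hI.sub hI'
  have e4 : ∫ x : E 3, (h x - min_h h x) * Real.exp (-‖x‖ ^ 2) = 0 :=
    le_antisymm e3 (integral_nonneg hnn)
  have e5 := (integral_eq_zero_iff_of_nonneg hnn hII).1 e4
  have hch : Continuous h := h_SFP.cts 3 h hS
  have hch' : Continuous (min_h h) := h_SFP.cts 3 _ hS'
  have hcc : Continuous fun x : E 3 => (h x - min_h h x) * Real.exp (-‖x‖ ^ 2) := by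
    fun_prop
  have e6 : (fun x : E 3 => (h x - min_h h x) * Real.exp (-‖x‖ ^ 2)) = 0 :=
    (Continuous.ae_eq_iff_eq volume hcc continuous_zero).1 e5
  have e7 : h x = min_h h x := by
    have := congrFun e6 x
    simp only [Pi.zero_apply, mul_eq_zero] at this
    rcases this with h1 | h1
    · linarith
    · exact absurd h1 (Real.exp_pos _).ne'
  refine le_antisymm ?_ ?_
  · rw [e7]
    exact min_ge fun i => min_sw h_MO3 hS hG x i j (hx i)
  · exact h_MO3 h hS hG _ _ fun k => min_zr_abs j k x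

end RLW
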