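import Pool.Agent.RLW.StU

/-!
# RLW, module MO3: monotonicity of invariant support functions
-/

set_option autoImplicit false

open MeasureTheory Metric Set
open scoped BigOperators Pointwise RealInnerProductSpace NNReal Topology

namespace RLW

private theorem mo3_step (H : St_SFP) {h : E 3 → ℝ} (hS : SF h) (hG : Gi h) (y z : E 3) (i : Fin 3)
    (h1 : ∀ k, k ≠ i → z k = y k) (h2 : |z i| ≤ |y i|) : h z ≤ h y := by
  rcases eq_or_ne (y i) 0 with h0 | h0
  · have hz : z i = y i := by
      rw [h0, abs_zero] at h2
      rw [h0]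
      exact abs_nonpos_iff.1 h2
    have e : z = y := by
      ext k
      rcases eq_or_ne k i with rfl | hk
      · exact hz
      · exact h1 k hk
    rw [e]
  · set lam : ℝ := (1 + z i / y i) / 2 with hlam
    have hq : |z i / y i| ≤ 1 := by
      rw [abs_div, div_le_one (abs_pos.2 h0)]
      exact h2
    obtain ⟨hq1, hq2⟩ := abs_le.1 hq
    have hl0 : 0 ≤ lam := by rw [hlam]; linarith
    have hl1 : 0 ≤ 1 - lam := by rw [hlam]; linarith
    set g : Equiv.Perm (Fin 3) × (Fin 3 → Bool) := (1, fun k => decide (k ≠ i)) with hg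
    have e : z = lam • y + (1 - lam) • ga g y := by
      ext k
      have hga : (ga g y) k = if k ≠ i then y k else -y k := by
        simp [ga, hg]
      rw [PiLp.add_apply, PiLp.smul_apply, PiLp.smul_apply, hga, smul_eq_mul, smul_eq_mul]
      rcases eq_or_ne k i with rfl | hk
      · rw [if_neg (by simp), hlam]
        field_simp
        ring
      · rw [if_pos hk, h1 k hk]
        ring
    calc h z = h (lam • y + (1 - lam) • ga g y) := by rw [← e]
      _ ≤ h (lam • y) + h ((1 - lam) • ga g y) := H.sub 3 h _ _ hS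
      _ = lam * h y + (1 - lam) * h (ga g y) := by
          rw [H.hom 3 h y lam hS hl0, H.hom 3 h (ga g y) (1 - lam) hS hl1]
      _ = h y := by
          rw [hG g y]
          ring

theorem thm_MO3 (h_SFP : St_SFP) : St_MO3 := by
  intro h hS hG x y hxy
  have s1 : h (e3 (x 0) (y 1) (y 2)) ≤ h y := by
    refine mo3_step h_SFP hS hG y _ 0 ?_ ?_
    · intro k hk
      fin_cases k
      · exact absurd rfl hk
      · rfl
      · rfl
    · exact hxy 0
  have s2 : h (e3 (x 0) (x 1) (y 2)) ≤ h (e3 (x 0) (y 1) (y 2)) := by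
    refine mo3_step h_SFP hS hG _ _ 1 ?_ ?_
    · intro k hk
      fin_cases k
      · rfl
      · exact absurd rfl hk
      · rfl
    · exact hxy 1
  have s3 : h x ≤ h (e3 (x 0) (x 1) (y 2)) := by
    refine mo3_step h_SFP hS hG _ _ 2 ?_ ?_
    · intro k hk
      fin_cases k
      · rfl
      · rfl
      · exact absurd rfl hk
    · exact hxy 2
  exact s3.trans (s2.trans s1)

end RLW
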