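import Mathlib
import Pool.Agent.RLW.StU

/-!
# RLW module MWF: the mean width formula
-/

set_option autoImplicit false

open MeasureTheory Metric Set Filter
open scoped BigOperators Pointwise RealInnerProductSpace NNReal Topology

namespace RLW

private theorem MWF_int (n : ℕ) {b : ℝ} (hb : 0 < b) :
    Integrable fun x : E n => Real.exp (-(b * ‖x‖ ^ 2)) := by
  have h := GaussianFourier.integrable_cexp_neg_mul_sq_norm_add (V := E n) (b := (b : ℂ))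
    (by simpa using hb) 0 0
  have h2 := h.norm
  refine h2.congr (Eventually.of_forall fun x => ?_)
  show ‖Complex.exp (-(b : ℂ) * (‖x‖ : ℂ) ^ 2 + 0 * ((⟪(0 : E n), x⟫ : ℝ) : ℂ))‖ = _
  rw [Complex.norm_exp]
  congr 1
  have h3 : -(b : ℂ) * (‖x‖ : ℂ) ^ 2 + 0 * ((⟪(0 : E n), x⟫ : ℝ) : ℂ) =
      ((-(b * ‖x‖ ^ 2) : ℝ) : ℂ) := by
    push_cast
    ring
  rw [h3, Complex.ofReal_re]

private theorem MWF_cb {n : ℕ} {K : Set (E n)} (hK : CB K) (ε : ℝ) : CB (ε • K) :=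
  ⟨hK.cpt.smul ε, hK.cvx.smul ε, hK.ne.smul_set⟩

/-- bounds for the squared distance -/
private theorem MWF_dist (h_HSB : St_HSB) {n : ℕ} {K : Set (E n)} (hK : CB K) {R : ℝ}
    (hR : ∀ z ∈ K, ‖z‖ ≤ R) {ε : ℝ} (hε : 0 < ε) (y : E n) :
    ‖y‖ ^ 2 - 2 * ε * hs K y ≤ infDist y (ε • K) ^ 2 ∧
      infDist y (ε • K) ^ 2 ≤ ‖y‖ ^ 2 - 2 * ε * hs K y + ε ^ 2 * R ^ 2 := by
  have hsq : ∀ z : E n, ‖y - ε • z‖ ^ 2 = ‖y‖ ^ 2 - 2 * ε * ⟪y, z⟫ + ε ^ 2 * ‖z‖ ^ 2 := by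
    intro z
    rw [norm_sub_sq_real, inner_smul_right, norm_smul, Real.norm_eq_abs, mul_pow, sq_abs]
    ring
  constructor
  · obtain ⟨w, hw, hd⟩ := (MWF_cb hK ε).cpt.exists_infDist_eq_dist (MWF_cb hK ε).ne y
    obtain ⟨z, hz, rfl⟩ := hw
    rw [hd, dist_eq_norm]
    show _ ≤ ‖y - ε • z‖ ^ 2
    rw [hsq]
    have h1 := h_HSB.le n K y z hK hz
    have h2 : ε * ⟪y, z⟫ ≤ ε * hs K y := mul_le_mul_of_nonneg_left h1 hε.le
    have h3 : 0 ≤ ε ^ 2 * ‖z‖ ^ 2 := by positivity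
    linarith
  · obtain ⟨z, hz, h1⟩ := h_HSB.att n K y hK
    have h2 : infDist y (ε • K) ≤ ‖y - ε • z‖ := by
      rw [← dist_eq_norm]
      exact infDist_le_dist_of_mem ⟨z, hz, rfl⟩
    have h3 : infDist y (ε • K) ^ 2 ≤ ‖y - ε • z‖ ^ 2 :=
      pow_le_pow_left₀ infDist_nonneg h2 2
    rw [hsq, h1] at h3
    have h4 : ‖z‖ ^ 2 ≤ R ^ 2 := pow_le_pow_left₀ (norm_nonneg _) (hR z hz) 2
    have h5 : ε ^ 2 * ‖z‖ ^ 2 ≤ ε ^ 2 * R ^ 2 := mul_le_mul_of_nonneg_left h4 (by positivity)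
    linarith

private theorem MWF_hs (h_HSB : St_HSB) {n : ℕ} {K : Set (E n)} (hK : CB K) {R : ℝ}
    (hR : ∀ z ∈ K, ‖z‖ ≤ R) (y : E n) : |hs K y| ≤ R * ‖y‖ := by
  obtain ⟨z, hz, h1⟩ := h_HSB.att n K y hK
  rw [← h1]
  calc |⟪y, z⟫| ≤ ‖y‖ * ‖z‖ := abs_real_inner_le_norm _ _
    _ ≤ ‖y‖ * R := mul_le_mul_of_nonneg_left (hR z hz) (norm_nonneg _)
    _ = _ := mul_comm _ _

private theorem MWF_exp (u M : ℝ) (h : |u| ≤ M) : |Real.exp u - 1| ≤ M * Real.exp M := by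
  have hM : 0 ≤ M := (abs_nonneg u).trans h
  have h1 := abs_le.1 h
  have h2 : Real.exp u - 1 ≤ M * Real.exp M := by
    have h3 : Real.exp u ≤ Real.exp M := Real.exp_le_exp.2 h1.2
    have h4 : 1 ≤ Real.exp (-M) + M := by
      have := Real.add_one_le_exp (-M)
      linarith
    have h5 : Real.exp M * 1 ≤ Real.exp M * (Real.exp (-M) + M) :=
      mul_le_mul_of_nonneg_left h4 (Real.exp_pos _).le
    have h6 : Real.exp M * Real.exp (-M) = 1 := by rw [← Real.exp_add]; simp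
    nlinarith
  have h3 : -(M * Real.exp M) ≤ Real.exp u - 1 := by
    have h4 := Real.add_one_le_exp u
    have h5 : M * 1 ≤ M * Real.exp M :=
      mul_le_mul_of_nonneg_left (Real.one_le_exp hM) hM
    linarith
  exact abs_le.2 ⟨h3, h2⟩

/-- the difference quotient -/
private noncomputable def MWF_f {n : ℕ} (K : Set (E n)) (ε : ℝ) (y : E n) : ℝ :=
  ε⁻¹ * (Real.exp (-infDist y (ε • K) ^ 2) - Real.exp (-‖y‖ ^ 2))

private theorem MWF_bound (h_HSB : St_HSB) {n : ℕ} {K : Set (E n)} (hK : CB K) {R : ℝ}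
    (hR0 : 0 ≤ R) (hR : ∀ z ∈ K, ‖z‖ ≤ R) {ε : ℝ} (hε : 0 < ε) (hε1 : ε ≤ 1) (y : E n) :
    |MWF_f K ε y| ≤ (2 * R + R ^ 2) * Real.exp (3 * R ^ 2) * Real.exp (-(1 / 4 * ‖y‖ ^ 2)) := by
  obtain ⟨h1, h2⟩ := MWF_dist h_HSB hK hR hε y
  have h3 := abs_le.1 (MWF_hs h_HSB hK hR y)
  set u := ‖y‖ ^ 2 - infDist y (ε • K) ^ 2 with hu
  have hy := norm_nonneg y
  have h4 : |u| ≤ ε * (2 * R * ‖y‖ + R ^ 2) := by
    have e1 : ε * hs K y ≤ ε * (R * ‖y‖) := mul_le_mul_of_nonneg_left h3.2 hε.le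
    have e2 : ε * (-(R * ‖y‖)) ≤ ε * hs K y := mul_le_mul_of_nonneg_left h3.1 hε.le
    have e3 : ε ^ 2 * R ^ 2 ≤ ε * R ^ 2 := by
      have : ε ^ 2 ≤ ε := by nlinarith
      exact mul_le_mul_of_nonneg_right this (by positivity)
    have e4 : 0 ≤ ε * R ^ 2 := by positivity
    rw [abs_le]
    constructor <;> nlinarith
  have h5 : Real.exp (-infDist y (ε • K) ^ 2) = Real.exp (-‖y‖ ^ 2) * Real.exp u := by
    rw [← Real.exp_add]
    congr 1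
    rw [hu]
    ring
  have h6 : MWF_f K ε y = ε⁻¹ * (Real.exp (-‖y‖ ^ 2) * (Real.exp u - 1)) := by
    unfold MWF_f
    rw [h5]
    ring
  have hM1 : ε * (2 * R * ‖y‖ + R ^ 2) ≤ 2 * R * ‖y‖ + R ^ 2 := by
    have : 0 ≤ 2 * R * ‖y‖ + R ^ 2 := by positivity
    nlinarith
  have h7 := MWF_exp u _ h4
  have h8 : |MWF_f K ε y| ≤ Real.exp (-‖y‖ ^ 2) * ((2 * R * ‖y‖ + R ^ 2) *
      Real.exp (2 * R * ‖y‖ + R ^ 2)) := by
    rw [h6, abs_mul, abs_mul, abs_of_pos (inv_pos.2 hε), abs_of_pos (Real.exp_pos _)]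
    have e1 : ε * (2 * R * ‖y‖ + R ^ 2) * Real.exp (ε * (2 * R * ‖y‖ + R ^ 2)) ≤
        ε * ((2 * R * ‖y‖ + R ^ 2) * Real.exp (2 * R * ‖y‖ + R ^ 2)) := by
      rw [mul_assoc]
      refine mul_le_mul_of_nonneg_left ?_ hε.le
      exact mul_le_mul_of_nonneg_left (Real.exp_le_exp.2 hM1) (by positivity)
    calc ε⁻¹ * (Real.exp (-‖y‖ ^ 2) * |Real.exp u - 1|) ≤
        ε⁻¹ * (Real.exp (-‖y‖ ^ 2) * (ε * ((2 * R * ‖y‖ + R ^ 2) *
          Real.exp (2 * R * ‖y‖ + R ^ 2)))) := by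
          refine mul_le_mul_of_nonneg_left ?_ (inv_pos.2 hε).le
          exact mul_le_mul_of_nonneg_left (h7.trans e1) (Real.exp_pos _).le
      _ = _ := by
          field_simp
  refine h8.trans ?_
  have h9 : 2 * R * ‖y‖ + R ^ 2 ≤ (2 * R + R ^ 2) * Real.exp (1 / 4 * ‖y‖ ^ 2) := by
    have e1 := Real.add_one_le_exp (1 / 4 * ‖y‖ ^ 2)
    have e2 : ‖y‖ ≤ Real.exp (1 / 4 * ‖y‖ ^ 2) := by nlinarith [sq_nonneg (‖y‖ / 2 - 1)]
    have e3 : 1 ≤ Real.exp (1 / 4 * ‖y‖ ^ 2) := Real.one_le_exp (by positivity)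
    have e4 : 2 * R * ‖y‖ ≤ 2 * R * Real.exp (1 / 4 * ‖y‖ ^ 2) :=
      mul_le_mul_of_nonneg_left e2 (by positivity)
    have e5 : R ^ 2 * 1 ≤ R ^ 2 * Real.exp (1 / 4 * ‖y‖ ^ 2) :=
      mul_le_mul_of_nonneg_left e3 (by positivity)
    nlinarith
  have h10 : Real.exp (2 * R * ‖y‖ + R ^ 2) ≤ Real.exp (3 * R ^ 2) *
      Real.exp (1 / 2 * ‖y‖ ^ 2) := by
    rw [← Real.exp_add]
    apply Real.exp_le_exp.2
    nlinarith [sq_nonneg (2 * R - ‖y‖)]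
  calc Real.exp (-‖y‖ ^ 2) * ((2 * R * ‖y‖ + R ^ 2) * Real.exp (2 * R * ‖y‖ + R ^ 2)) ≤
      Real.exp (-‖y‖ ^ 2) * (((2 * R + R ^ 2) * Real.exp (1 / 4 * ‖y‖ ^ 2)) *
        (Real.exp (3 * R ^ 2) * Real.exp (1 / 2 * ‖y‖ ^ 2))) := by
        refine mul_le_mul_of_nonneg_left ?_ (Real.exp_pos _).le
        exact mul_le_mul h9 h10 (Real.exp_pos _).le (by positivity)
    _ = (2 * R + R ^ 2) * Real.exp (3 * R ^ 2) * (Real.exp (-‖y‖ ^ 2) *
        Real.exp (1 / 4 * ‖y‖ ^ 2) * Real.exp (1 / 2 * ‖y‖ ^ 2)) := by ring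
    _ = _ := by
        rw [← Real.exp_add, ← Real.exp_add]
        congr 2
        ring

private theorem MWF_lim (h_HSB : St_HSB) {n : ℕ} {K : Set (E n)} (hK : CB K) {R : ℝ}
    (hR : ∀ z ∈ K, ‖z‖ ≤ R) (y : E n) :
    Tendsto (fun ε => MWF_f K ε y) (𝓝[>] 0) (𝓝 (2 * (hs K y * Real.exp (-‖y‖ ^ 2)))) := by
  have hd1 : HasDerivAt (fun ε : ℝ => Real.exp (2 * ε * hs K y - ε ^ 2 * R ^ 2)) (2 * hs K y) 0 := by
    have e1 : HasDerivAt (fun ε : ℝ => 2 * ε * hs K y - ε ^ 2 * R ^ 2) (2 * hs K y) 0 := by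
      have a1 : HasDerivAt (fun ε : ℝ => 2 * ε * hs K y) (2 * 1 * hs K y) 0 :=
        ((hasDerivAt_id (0 : ℝ)).const_mul 2).mul_const _
      have a2 : HasDerivAt (fun ε : ℝ => ε ^ 2 * R ^ 2) (((2 : ℕ) : ℝ) * 0 ^ (2 - 1) * R ^ 2) 0 :=
        (hasDerivAt_pow 2 (0 : ℝ)).mul_const _
      have a3 := a1.sub a2
      have a4 : 2 * 1 * hs K y - ((2 : ℕ) : ℝ) * 0 ^ (2 - 1) * R ^ 2 = 2 * hs K y := by
        norm_num
      rw [a4] at a3
      exact a3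
    have e2 := e1.exp
    simpa using e2
  have hd2 : HasDerivAt (fun ε : ℝ => Real.exp (2 * ε * hs K y)) (2 * hs K y) 0 := by
    have a1 : HasDerivAt (fun ε : ℝ => 2 * ε * hs K y) (2 * 1 * hs K y) 0 :=
      ((hasDerivAt_id (0 : ℝ)).const_mul 2).mul_const _
    have e2 := a1.exp
    simpa using e2
  have t1 := hd1.tendsto_slope_zero_right
  have t2 := hd2.tendsto_slope_zero_right
  have s1 : Tendsto (fun ε : ℝ => Real.exp (-‖y‖ ^ 2) *
      (ε⁻¹ * (Real.exp (2 * ε * hs K y - ε ^ 2 * R ^ 2) - 1))) (𝓝[>] 0)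
      (𝓝 (2 * (hs K y * Real.exp (-‖y‖ ^ 2)))) := by
    have := t1.const_mul (Real.exp (-‖y‖ ^ 2))
    have e : Real.exp (-‖y‖ ^ 2) * (2 * hs K y) = 2 * (hs K y * Real.exp (-‖y‖ ^ 2)) := by ring
    rw [e] at this
    refine this.congr fun ε => ?_
    simp
  have s2 : Tendsto (fun ε : ℝ => Real.exp (-‖y‖ ^ 2) *
      (ε⁻¹ * (Real.exp (2 * ε * hs K y) - 1))) (𝓝[>] 0)
      (𝓝 (2 * (hs K y * Real.exp (-‖y‖ ^ 2)))) := by
    have := t2.const_mul (Real.exp (-‖y‖ ^ 2))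
    have e : Real.exp (-‖y‖ ^ 2) * (2 * hs K y) = 2 * (hs K y * Real.exp (-‖y‖ ^ 2)) := by ring
    rw [e] at this
    refine this.congr fun ε => ?_
    simp
  refine tendsto_of_tendsto_of_tendsto_of_le_of_le' s1 s2 ?_ ?_
  · filter_upwards [self_mem_nhdsWithin] with ε hε
    have hε' : 0 < ε := hε
    obtain ⟨h1, h2⟩ := MWF_dist h_HSB hK hR hε' y
    unfold MWF_f
    have e1 : Real.exp (-‖y‖ ^ 2) * (ε⁻¹ * (Real.exp (2 * ε * hs K y - ε ^ 2 * R ^ 2) - 1)) =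
        ε⁻¹ * (Real.exp (-‖y‖ ^ 2) * Real.exp (2 * ε * hs K y - ε ^ 2 * R ^ 2) -
          Real.exp (-‖y‖ ^ 2)) := by ring
    rw [e1, ← Real.exp_add]
    refine mul_le_mul_of_nonneg_left ?_ (inv_pos.2 hε').le
    have e2 : Real.exp (-‖y‖ ^ 2 + (2 * ε * hs K y - ε ^ 2 * R ^ 2)) ≤
        Real.exp (-infDist y (ε • K) ^ 2) := Real.exp_le_exp.2 (by linarith)
    linarith
  · filter_upwards [self_mem_nhdsWithin] with ε hε
    have hε' : 0 < ε := hε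
    obtain ⟨h1, h2⟩ := MWF_dist h_HSB hK hR hε' y
    unfold MWF_f
    have e1 : Real.exp (-‖y‖ ^ 2) * (ε⁻¹ * (Real.exp (2 * ε * hs K y) - 1)) =
        ε⁻¹ * (Real.exp (-‖y‖ ^ 2) * Real.exp (2 * ε * hs K y) - Real.exp (-‖y‖ ^ 2)) := by ring
    rw [e1, ← Real.exp_add]
    refine mul_le_mul_of_nonneg_left ?_ (inv_pos.2 hε').le
    have e2 : Real.exp (-infDist y (ε • K) ^ 2) ≤
        Real.exp (-‖y‖ ^ 2 + 2 * ε * hs K y) := Real.exp_le_exp.2 (by linarith)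
    linarith

theorem thm_MWF (h_WIL : St_WIL) (h_SCV : St_SCV) (h_HSB : St_HSB) : St_MWF := by
  intro n K V hn hK hV
  obtain ⟨R0, hR0⟩ := hK.cpt.isBounded.exists_norm_le
  have hR : ∀ z ∈ K, ‖z‖ ≤ |R0| := fun z hz => (hR0 z hz).trans (le_abs_self _)
  have hRn : 0 ≤ |R0| := abs_nonneg _
  set R := |R0| with hRdef
  have hG : Integrable fun y : E n => Real.exp (-‖y‖ ^ 2) := by
    have := MWF_int n (b := 1) one_pos
    simpa using this
  have hI : Tendsto (fun ε : ℝ => ∫ y, MWF_f K ε y) (𝓝[>] 0)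
      (𝓝 (∫ y : E n, 2 * (hs K y * Real.exp (-‖y‖ ^ 2)))) := by
    refine tendsto_integral_filter_of_dominated_convergence
      (fun y => (2 * R + R ^ 2) * Real.exp (3 * R ^ 2) * Real.exp (-(1 / 4 * ‖y‖ ^ 2))) ?_ ?_ ?_ ?_
    · refine Eventually.of_forall fun ε => Continuous.aestronglyMeasurable ?_
      unfold MWF_f
      have h1 : Continuous fun y : E n => infDist y (ε • K) := continuous_infDist_pt _
      fun_prop
    · have h1 : ∀ᶠ ε : ℝ in 𝓝[>] 0, ε ≤ 1 :=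
        nhdsWithin_le_nhds (eventually_le_nhds (by norm_num : (0 : ℝ) < 1))
      filter_upwards [self_mem_nhdsWithin, h1] with ε hε hε1
      refine Eventually.of_forall fun y => ?_
      rw [Real.norm_eq_abs]
      exact MWF_bound h_HSB hK hRn hR hε hε1 y
    · exact (MWF_int n (b := 1 / 4) (by norm_num)).const_mul _
    · exact Eventually.of_forall fun y => MWF_lim h_HSB hK hR y
  have hint : ∀ ε : ℝ, 0 < ε → ∫ y, MWF_f K ε y =
      ε⁻¹ * ((∑ j ∈ Finset.range (n + 1), ε ^ j * V j * √Real.pi ^ (n - j)) -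
        ∫ y : E n, Real.exp (-‖y‖ ^ 2)) := by
    intro ε hε
    obtain ⟨w1, w2⟩ := h_WIL n (ε • K) _ (MWF_cb hK ε) (h_SCV.sc n K V ε hε hV)
    unfold MWF_f
    rw [integral_const_mul, integral_sub w1 hG, w2]
  set I0 := ∫ y : E n, Real.exp (-‖y‖ ^ 2) with hI0
  set L := ∫ y : E n, 2 * (hs K y * Real.exp (-‖y‖ ^ 2)) with hL
  -- the polynomial
  have hpoly : Tendsto (fun ε : ℝ => ∑ j ∈ Finset.range (n + 1), ε ^ j * V j *
      √Real.pi ^ (n - j)) (𝓝[>] 0) (𝓝 (V 0 * √Real.pi ^ n)) := by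
    have hc : Continuous fun ε : ℝ => ∑ j ∈ Finset.range (n + 1), ε ^ j * V j *
      √Real.pi ^ (n - j) := by fun_prop
    have h1 := hc.tendsto 0
    have h2 : ∑ j ∈ Finset.range (n + 1), (0 : ℝ) ^ j * V j * √Real.pi ^ (n - j) =
        V 0 * √Real.pi ^ n := by
      rw [Finset.sum_eq_single 0]
      · simp
      · intro j _ hj
        rw [zero_pow hj]
        ring
      · intro h
        exact absurd (Finset.mem_range.2 (Nat.succ_pos n)) h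
    rw [h2] at h1
    exact h1.mono_left nhdsWithin_le_nhds
  have hV0 : V 0 * √Real.pi ^ n = I0 := by
    have h1 : Tendsto (fun ε : ℝ => ε * ∫ y, MWF_f K ε y) (𝓝[>] 0) (𝓝 (0 * L)) :=
      (tendsto_id.mono_left nhdsWithin_le_nhds).mul hI
    have h2 : Tendsto (fun ε : ℝ => ε * ∫ y, MWF_f K ε y) (𝓝[>] 0)
        (𝓝 (V 0 * √Real.pi ^ n - I0)) := by
      refine (hpoly.sub_const I0).congr' ?_
      filter_upwards [self_mem_nhdsWithin] with ε hε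
      have hε' : 0 < ε := hε
      rw [hint ε hε', ← mul_assoc, mul_inv_cancel₀ hε'.ne', one_mul]
    have h3 := tendsto_nhds_unique h1 h2
    linarith
  have hfin : Tendsto (fun ε : ℝ => ∫ y, MWF_f K ε y) (𝓝[>] 0)
      (𝓝 (V 1 * √Real.pi ^ (n - 1))) := by
    have hc : Continuous fun ε : ℝ => ∑ j ∈ Finset.range n, ε ^ j * V (j + 1) *
      √Real.pi ^ (n - (j + 1)) := by fun_prop
    have h1 := hc.tendsto 0
    have h2 : ∑ j ∈ Finset.range n, (0 : ℝ) ^ j * V (j + 1) * √Real.pi ^ (n - (j + 1)) =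
        V 1 * √Real.pi ^ (n - 1) := by
      rw [Finset.sum_eq_single 0]
      · simp
      · intro j _ hj
        rw [zero_pow hj]
        ring
      · intro h
        exact absurd (Finset.mem_range.2 hn) h
    rw [h2] at h1
    refine (h1.mono_left nhdsWithin_le_nhds).congr' ?_
    filter_upwards [self_mem_nhdsWithin] with ε hε
    have hε' : 0 < ε := hε
    rw [hint ε hε', Finset.sum_range_succ', ← hV0]
    simp only [pow_zero, one_mul, Nat.sub_zero, add_sub_cancel_right]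
    rw [Finset.mul_sum]
    refine Finset.sum_congr rfl fun j _ => ?_
    rw [pow_succ]
    field_simp
  have h3 := tendsto_nhds_unique hfin hI
  rw [h3, hL, integral_const_mul]

end RLW
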