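import Mathlib
import Pool.Agent.RLW.StU

/-!
# RLW, module SEC: sections
-/

set_option autoImplicit false

open MeasureTheory Metric Set Filter
open scoped BigOperators Pointwise RealInnerProductSpace NNReal Topology

namespace RLW

private theorem SEC_ins_same {n : ℕ} (j : Fin (n + 1)) (s : ℝ) (y : E n) : ins j s y j = s := by
  exact Fin.insertNth_apply_same (α := fun _ => ℝ) j s fun i => y i

private theorem SEC_ins_above {n : ℕ} (j : Fin (n + 1)) (s : ℝ) (y : E n) (i : Fin n) :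
    ins j s y (j.succAbove i) = y i := by
  exact Fin.insertNth_apply_succAbove (α := fun _ => ℝ) j s (fun i => y i) i

private theorem SEC_prj_ins {n : ℕ} (j : Fin (n + 1)) (s : ℝ) (y : E n) :
    prj j (ins j s y) = y := by
  ext i
  exact SEC_ins_above j s y i

private theorem SEC_ins_zero {n : ℕ} (j : Fin (n + 1)) (z : E (n + 1)) (m : Fin (n + 1)) :
    ins j 0 (prj j z) m = if m = j then 0 else z m := by
  rcases eq_or_ne m j with h | h
  · rw [if_pos h, h, SEC_ins_same]
  · rw [if_neg h]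
    obtain ⟨i, rfl⟩ := Fin.exists_succAbove_eq h
    rw [SEC_ins_above]
    rfl

/-- the section is the preimage under a linear map -/
private noncomputable def SEC_lin {n : ℕ} (j : Fin (n + 1)) : E n →ₗ[ℝ] E (n + 1) where
  toFun y := ins j 0 y
  map_add' x y := by
    ext m
    rcases eq_or_ne m j with h | h
    · rw [h, PiLp.add_apply, SEC_ins_same, SEC_ins_same, SEC_ins_same, add_zero]
    · obtain ⟨i, rfl⟩ := Fin.exists_succAbove_eq h
      rw [PiLp.add_apply, SEC_ins_above, SEC_ins_above, SEC_ins_above, PiLp.add_apply]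
  map_smul' r x := by
    ext m
    rcases eq_or_ne m j with h | h
    · rw [h, RingHom.id_apply, PiLp.smul_apply, SEC_ins_same, SEC_ins_same, smul_zero]
    · obtain ⟨i, rfl⟩ := Fin.exists_succAbove_eq h
      rw [RingHom.id_apply, PiLp.smul_apply, SEC_ins_above, SEC_ins_above, PiLp.smul_apply]

theorem SEC_sub {n : ℕ} (j : Fin (n + 1)) (K : Set (E (n + 1))) :
    sc j K ⊆ prj j '' K := fun y hy => ⟨ins j 0 y, hy, SEC_prj_ins j 0 y⟩

theorem SEC_cb {n : ℕ} {K : Set (E (n + 1))} (hK : CB K) (h_PRC : St_PRC)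
    (j : Fin (n + 1)) (hne : (sc j K).Nonempty) : CB (sc j K) := by
  have hc : Continuous (SEC_lin j : E n → E (n + 1)) := (SEC_lin j).continuous_of_finiteDimensional
  have hcl : IsClosed (sc j K) := hK.cpt.isClosed.preimage hc
  exact ⟨(h_PRC.cb n j K hK).cpt.of_isClosed_subset hcl (SEC_sub j K),
    hK.cvx.linear_preimage (SEC_lin j), hne⟩

/-- comparison of two convex bodies of the same mean width -/
private theorem SEC_eq (h_SFP : St_SFP) {n : ℕ} {h h' : E n → ℝ} (hh : SF h) (hh' : SF h')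
    (hle : ∀ x, h x ≤ h' x)
    (hi : ∫ x, h x * Real.exp (-‖x‖ ^ 2) = ∫ x, h' x * Real.exp (-‖x‖ ^ 2)) :
    ∀ x, h x = h' x := by
  have hc : Continuous fun x : E n => Real.exp (-‖x‖ ^ 2) := by fun_prop
  have hc1 : Continuous fun x => (h' x - h x) * Real.exp (-‖x‖ ^ 2) :=
    ((h_SFP.cts n h' hh').sub (h_SFP.cts n h hh)).mul hc
  have hI : Integrable fun x => (h' x - h x) * Real.exp (-‖x‖ ^ 2) := by
    have h1 := (h_SFP.int n h' hh').sub (h_SFP.int n h hh)
    refine h1.congr (Eventually.of_forall fun x => ?_)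
    simp only [Pi.sub_apply]
    ring
  have h0 : ∫ x, (h' x - h x) * Real.exp (-‖x‖ ^ 2) = 0 := by
    have h1 : ∫ x, (h' x - h x) * Real.exp (-‖x‖ ^ 2) =
        ∫ x, (h' x * Real.exp (-‖x‖ ^ 2) - h x * Real.exp (-‖x‖ ^ 2)) :=
      integral_congr_ae (Eventually.of_forall fun x => by ring)
    rw [h1, integral_sub (h_SFP.int n h' hh') (h_SFP.int n h hh), hi, sub_self]
  have hnn : 0 ≤ fun x => (h' x - h x) * Real.exp (-‖x‖ ^ 2) := fun x =>
    mul_nonneg (sub_nonneg.2 (hle x)) (Real.exp_pos _).le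
  rw [integral_eq_zero_iff_of_nonneg hnn hI] at h0
  have h2 : (fun x => (h' x - h x) * Real.exp (-‖x‖ ^ 2)) = fun _ => (0 : ℝ) :=
    (hc1.ae_eq_iff_eq volume continuous_const).1 h0
  intro x
  have h3 : (h' x - h x) * Real.exp (-‖x‖ ^ 2) = 0 := congrFun h2 x
  rcases mul_eq_zero.1 h3 with h4 | h4
  · linarith
  · exact absurd h4 (Real.exp_pos _).ne'

private theorem SEC_cst : 0 < cst 3 := by
  unfold cst
  have h : 0 < Real.arcsin (1 / √(3 : ℕ)) := by
    rw [Real.arcsin_pos]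
    positivity
  positivity

/-- the first intrinsic volumes of the sections and projections -/
theorem SEC_le (h_MWF : St_MWF) (h_MON : St_MON) (h_HSB : St_HSB) (h_PRC : St_PRC)
    (h_SFP : St_SFP) {K : Set (E 3)} (hK : CB K) (j : Fin 3) {U W : ℕ → ℝ}
    (hU : (sc j K).Nonempty → IsIV (sc j K) U) (hU0 : sc j K = ∅ → U 1 = 0)
    (hW : IsIV (prj j '' K) W) : 0 ≤ U 1 ∧ U 1 ≤ W 1 := by
  have hP := h_PRC.cb 2 j K hK
  have hW0 : 0 ≤ W 1 := h_MON 2 _ W (by norm_num) hP hW
  rcases (sc j K).eq_empty_or_nonempty with he | hne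
  · rw [hU0 he]
    exact ⟨le_rfl, hW0⟩
  · have hS := SEC_cb hK h_PRC j hne
    have hU' := hU hne
    refine ⟨h_MON 2 _ U (by norm_num) hS hU', ?_⟩
    have h1 := h_MWF 2 _ U (by norm_num) hS hU'
    have h2 := h_MWF 2 _ W (by norm_num) hP hW
    have h3 : ∫ x : E 2, hs (sc j K) x * Real.exp (-‖x‖ ^ 2) ≤
        ∫ x : E 2, hs (prj j '' K) x * Real.exp (-‖x‖ ^ 2) := by
      refine integral_mono (h_SFP.int 2 _ ⟨_, hS, fun _ => rfl⟩)
        (h_SFP.int 2 _ ⟨_, hP, fun _ => rfl⟩) fun x => ?_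
      refine mul_le_mul_of_nonneg_right ?_ (Real.exp_pos _).le
      obtain ⟨z, hz, hzx⟩ := h_HSB.att 2 _ x hS
      rw [← hzx]
      exact h_HSB.le 2 _ x z hP (SEC_sub j K hz)
    have hpi : 0 < √Real.pi ^ (2 - 1) := by positivity
    have h4 : U 1 * √Real.pi ^ (2 - 1) ≤ W 1 * √Real.pi ^ (2 - 1) := by
      rw [h1, h2]
      linarith
    exact le_of_mul_le_mul_right h4 hpi

/-- if the first intrinsic volumes agree then section and projection agree, or both are trivial -/
private theorem SEC_key (h_MWF : St_MWF) (h_HSB : St_HSB) (h_PRC : St_PRC)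
    (h_SFP : St_SFP) {K : Set (E 3)} (hK : CB K) (j : Fin 3) {U W : ℕ → ℝ}
    (hne : (sc j K).Nonempty) (hU : IsIV (sc j K) U) (hW : IsIV (prj j '' K) W)
    (h : U 1 = W 1) : prj j '' K ⊆ sc j K := by
  have hP := h_PRC.cb 2 j K hK
  have hS := SEC_cb hK h_PRC j hne
  have h1 := h_MWF 2 _ U (by norm_num) hS hU
  have h2 := h_MWF 2 _ W (by norm_num) hP hW
  have hle : ∀ x, hs (sc j K) x ≤ hs (prj j '' K) x := by
    intro x
    obtain ⟨z, hz, hzx⟩ := h_HSB.att 2 _ x hS
    rw [← hzx]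
    exact h_HSB.le 2 _ x z hP (SEC_sub j K hz)
  have h3 := SEC_eq h_SFP (h := hs (sc j K)) (h' := hs (prj j '' K)) ⟨_, hS, fun _ => rfl⟩
    ⟨_, hP, fun _ => rfl⟩ hle (by rw [h] at h1; linarith)
  exact h_HSB.det 2 _ _ hP hS fun x => (h3 x).ge

/-- the first intrinsic volume of the projection of a cross-polytope is not zero -/
private theorem SEC_pos (h_MWF : St_MWF) (h_HSB : St_HSB) (h_PRC : St_PRC)
    (h_SFP : St_SFP) {a : E 3} {r : ℝ} (hr : 0 < r) (hK : CB (oct 3 a r)) (j : Fin 3)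
    {W : ℕ → ℝ} (hW : IsIV (prj j '' oct 3 a r) W) : W 1 ≠ 0 := by
  intro h0
  have hP := h_PRC.cb 2 j _ hK
  have h2 := h_MWF 2 _ W (by norm_num) hP hW
  rw [h0, zero_mul] at h2
  set p : E 2 := prj j a with hp
  have hpP : p ∈ prj j '' oct 3 a r := by
    refine ⟨a, ?_, rfl⟩
    show ∑ i, |a i - a i| ≤ r
    simpa using hr.le
  have hp1 : CB ({p} : Set (E 2)) := ⟨isCompact_singleton, convex_singleton p, singleton_nonempty p⟩
  have hhp : ∀ x, hs ({p} : Set (E 2)) x = ⟪x, p⟫ := by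
    intro x
    obtain ⟨z, hz, hzx⟩ := h_HSB.att 2 _ x hp1
    rw [← hzx, mem_singleton_iff.1 hz]
  have hle : ∀ x, hs ({p} : Set (E 2)) x ≤ hs (prj j '' oct 3 a r) x := by
    intro x
    rw [hhp]
    exact h_HSB.le 2 _ x p hP hpP
  have hodd : ∫ x : E 2, hs ({p} : Set (E 2)) x * Real.exp (-‖x‖ ^ 2) = 0 := by
    have h3 := integral_neg_eq_self (fun x : E 2 => hs ({p} : Set (E 2)) x *
      Real.exp (-‖x‖ ^ 2)) volume
    have h4 : ∫ x : E 2, hs ({p} : Set (E 2)) (-x) * Real.exp (-‖-x‖ ^ 2) =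
        -∫ x : E 2, hs ({p} : Set (E 2)) x * Real.exp (-‖x‖ ^ 2) := by
      rw [← integral_neg]
      refine integral_congr_ae (Eventually.of_forall fun x => ?_)
      simp only [hhp, inner_neg_left, norm_neg]
      ring
    linarith
  have h3 := SEC_eq h_SFP (h := hs ({p} : Set (E 2))) (h' := hs (prj j '' oct 3 a r))
    ⟨_, hp1, fun _ => rfl⟩ ⟨_, hP, fun _ => rfl⟩ hle (by linarith)
  -- a point of the projection
  set e : E 2 := EuclideanSpace.single 0 (1 : ℝ) with he
  have hq : p + r • e ∈ prj j '' oct 3 a r := by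
    refine ⟨a + r • EuclideanSpace.single (j.succAbove 0) (1 : ℝ), ?_, ?_⟩
    · show ∑ i, |(a + r • EuclideanSpace.single (j.succAbove 0) (1 : ℝ)) i - a i| ≤ r
      have h4 : ∀ i : Fin 3, |(a + r • EuclideanSpace.single (j.succAbove 0) (1 : ℝ)) i - a i| =
          if i = j.succAbove 0 then r else 0 := by
        intro i
        rw [PiLp.add_apply, PiLp.smul_apply, add_sub_cancel_left, PiLp.single_apply]
        split_ifs
        · rw [smul_eq_mul, mul_one, abs_of_pos hr]
        · rw [smul_zero, abs_zero]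
      rw [Finset.sum_congr rfl fun i _ => h4 i, Finset.sum_ite_eq' Finset.univ]
      simp
    · ext i
      show (a + r • EuclideanSpace.single (j.succAbove 0) (1 : ℝ)) (j.succAbove i) =
        (p + r • e) i
      rw [PiLp.add_apply, PiLp.smul_apply, PiLp.add_apply, PiLp.smul_apply, he,
        PiLp.single_apply, PiLp.single_apply]
      by_cases hi : i = 0
      · rw [hi, if_pos rfl, if_pos rfl]
        rfl
      · rw [if_neg fun h => hi (Fin.succAbove_right_injective h), if_neg hi]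
        rfl
  have h4 := h_HSB.le 2 _ e _ hP hq
  rw [← h3 e, hhp, inner_add_right, real_inner_smul_right, real_inner_self_eq_norm_sq] at h4
  have h5 : ‖e‖ = 1 := by
    rw [he, PiLp.norm_single, norm_one]
  rw [h5] at h4
  linarith

theorem thm_SEC (h_STE : St_STE) (h_MWF : St_MWF) (h_MON : St_MON) (h_INE : St_INE)
    (h_UNI : St_UNI) (h_HSB : St_HSB) (_h_LMF : St_LMF) (h_OEQ : St_OEQ) (h_PRC : St_PRC)
    (h_SFP : St_SFP) : St_SEC := by
  intro K V U hK hV hU hU0
  have hW' : ∀ j : Fin 3, ∃ W : ℕ → ℝ, IsIV (prj j '' K) W := fun j =>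
    h_STE 2 _ (h_PRC.cb 2 j K hK)
  choose W hW using hW'
  have hle : ∀ j, 0 ≤ U j 1 ∧ U j 1 ≤ W j 1 := fun j =>
    SEC_le h_MWF h_MON h_HSB h_PRC h_SFP hK j (hU j) (hU0 j) (hW j)
  have hsq : ∀ j, U j 1 ^ 2 ≤ W j 1 ^ 2 := fun j => pow_le_pow_left₀ (hle j).1 (hle j).2 2
  have hsum : ∑ j, U j 1 ^ 2 ≤ ∑ j, W j 1 ^ 2 := Finset.sum_le_sum fun j _ => hsq j
  have hc := SEC_cst
  have hINE : cst 3 * ∑ j, W j 1 ^ 2 ≤ V 1 ^ 2 := h_INE 2 K V W (by norm_num) hK hV hW
  have h1 := mul_le_mul_of_nonneg_left hsum hc.le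
  refine ⟨h1.trans hINE, fun hint => ⟨fun heq => ?_, ?_⟩⟩
  · have h2 : V 1 ^ 2 = cst 3 * ∑ j, W j 1 ^ 2 := by linarith
    have h3 : ∑ j, U j 1 ^ 2 = ∑ j, W j 1 ^ 2 := by
      have h4 : cst 3 * ∑ j, U j 1 ^ 2 = cst 3 * ∑ j, W j 1 ^ 2 := by linarith
      exact mul_left_cancel₀ hc.ne' h4
    have h4 : ∀ j, U j 1 = W j 1 := by
      intro j
      have h5 := (Finset.sum_eq_sum_iff_of_le fun i _ => hsq i).1 h3 j (Finset.mem_univ j)
      exact (pow_left_inj₀ (hle j).1 ((hle j).1.trans (hle j).2) two_ne_zero).1 h5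
    obtain ⟨a, r, hr, rfl⟩ := (h_UNI K V W hK hint hV hW).1 h2
    have h5 : ∀ j, a j = 0 := by
      intro j
      have hne : (sc j (oct 3 a r)).Nonempty := by
        by_contra hcon
        have h6 := hU0 j (not_nonempty_iff_eq_empty.1 hcon)
        exact SEC_pos h_MWF h_HSB h_PRC h_SFP hr hK j (hW j) (by rw [← h4 j, h6])
      have h6 := SEC_key h_MWF h_HSB h_PRC h_SFP hK j hne (hU j hne) (hW j) (h4 j)
      set z : E 3 := a + r • EuclideanSpace.single (j.succAbove 0) (1 : ℝ) with hz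
      have hzi : ∀ i : Fin 3, z i - a i = if i = j.succAbove 0 then r else 0 := by
        intro i
        rw [hz, PiLp.add_apply, PiLp.smul_apply, add_sub_cancel_left, PiLp.single_apply]
        split_ifs
        · rw [smul_eq_mul, mul_one]
        · rw [smul_zero]
      have hzK : z ∈ oct 3 a r := by
        show ∑ i, |z i - a i| ≤ r
        have h7 : ∀ i : Fin 3, |z i - a i| = if i = j.succAbove 0 then r else 0 := by
          intro i
          rw [hzi]
          split_ifs
          · exact abs_of_pos hr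
          · exact abs_zero
        rw [Finset.sum_congr rfl fun i _ => h7 i, Finset.sum_ite_eq' Finset.univ]
        simp
      have h7 : ins j 0 (prj j z) ∈ oct 3 a r := h6 ⟨z, hzK, rfl⟩
      have h8 : ∑ i, |ins j 0 (prj j z) i - a i| ≤ r := h7
      have hne' : j ≠ j.succAbove 0 := (Fin.succAbove_ne j 0).symm
      have h9 : |ins j 0 (prj j z) j - a j| +
          |ins j 0 (prj j z) (j.succAbove 0) - a (j.succAbove 0)| ≤
          ∑ i, |ins j 0 (prj j z) i - a i| := by
        rw [← Finset.sum_pair (f := fun i => |ins j 0 (prj j z) i - a i|) hne']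
        exact Finset.sum_le_sum_of_subset_of_nonneg (Finset.subset_univ _)
          fun i _ _ => abs_nonneg _
      rw [SEC_ins_zero, SEC_ins_zero, if_pos rfl, if_neg hne'.symm, hzi, if_pos rfl,
        zero_sub, abs_neg, abs_of_pos hr] at h9
      have h10 : |a j| ≤ 0 := by linarith
      exact abs_eq_zero.1 (le_antisymm h10 (abs_nonneg _))
    refine ⟨r, hr, ?_⟩
    have h6 : a = 0 := by
      ext j
      exact h5 j
    rw [h6]
  · rintro ⟨r, hr, rfl⟩
    have hsc : ∀ j : Fin 3, sc j (oct 3 0 r) = prj j '' oct 3 0 r := by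
      intro j
      refine Subset.antisymm (SEC_sub j _) ?_
      rintro y ⟨z, hz, rfl⟩
      show ∑ i, |ins j 0 (prj j z) i - (0 : E 3) i| ≤ r
      refine le_trans (Finset.sum_le_sum fun i _ => ?_) (show ∑ i, |z i - (0 : E 3) i| ≤ r from hz)
      rw [SEC_ins_zero]
      split_ifs
      · rw [PiLp.zero_apply, sub_zero, abs_zero]
        exact abs_nonneg _
      · exact le_rfl
    have hU' : ∀ j : Fin 3, IsIV (prj j '' oct 3 0 r) (U j) := by
      intro j
      have h2 := hU j (by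
        rw [hsc j]
        exact hK.ne.image _)
      rw [hsc j] at h2
      exact h2
    exact h_OEQ 2 0 r V U (by norm_num) hr hV hU'

end RLW
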