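import Pool.Agent.RLW.StU

/-!
# RLW, module SFC: operations on support functions
-/

set_option autoImplicit false

open MeasureTheory Metric Set
open scoped BigOperators Pointwise RealInnerProductSpace NNReal Topology

namespace RLW

private theorem sfc_eq (H : St_HSB) {n : ℕ} {L : Set (E n)} (hL : CB L) {x : E n} {c : ℝ}
    (h1 : ∀ z ∈ L, ⟪x, z⟫ ≤ c) (h2 : ∃ z ∈ L, c ≤ ⟪x, z⟫) : hs L x = c := by
  obtain ⟨z0, hz0, e0⟩ := H.att n L x hL
  obtain ⟨z1, hz1, e1⟩ := h2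
  refine le_antisymm ?_ ?_
  · rw [← e0]
    exact h1 z0 hz0
  · exact e1.trans (H.le n L x z1 hL hz1)

private theorem sfc_join {n : ℕ} {K K' : Set (E n)} (hK : CB K) (hK' : CB K') :
    CB (convexJoin ℝ K K') := by
  refine ⟨?_, hK.cvx.convexJoin hK'.cvx, ?_⟩
  · have hc : IsCompact (Icc (0 : ℝ) 1 ×ˢ (K ×ˢ K')) :=
      isCompact_Icc.prod (hK.cpt.prod hK'.cpt)
    have hf : Continuous (fun p : ℝ × (E n × E n) => (1 - p.1) • p.2.1 + p.1 • p.2.2) := by
      fun_prop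
    have e : convexJoin ℝ K K' =
        (fun p : ℝ × (E n × E n) => (1 - p.1) • p.2.1 + p.1 • p.2.2) ''
          (Icc (0 : ℝ) 1 ×ˢ (K ×ˢ K')) := by
      ext x
      rw [mem_convexJoin]
      constructor
      · rintro ⟨a, ha, b, hb, hx⟩
        rw [segment_eq_image] at hx
        obtain ⟨t, ht, rfl⟩ := hx
        exact ⟨(t, a, b), ⟨ht, ha, hb⟩, rfl⟩
      · rintro ⟨⟨t, a, b⟩, ⟨ht, ha, hb⟩, rfl⟩
        refine ⟨a, ha, b, hb, ?_⟩
        rw [segment_eq_image]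
        exact ⟨t, ht, rfl⟩
    rw [e]
    exact hc.image hf
  · obtain ⟨a, ha⟩ := hK.ne
    obtain ⟨b, hb⟩ := hK'.ne
    exact ⟨a, mem_convexJoin.2 ⟨a, ha, b, hb, left_mem_segment ℝ a b⟩⟩

theorem thm_SFC (h_HSB : St_HSB) : St_SFC := by
  constructor
  · rintro m n g h ⟨K, hK, hh⟩
    have hL : CB ((LinearMap.adjoint g) '' K) := by
      refine ⟨hK.cpt.image (LinearMap.continuous_of_finiteDimensional _), ?_, hK.ne.image _⟩
      exact hK.cvx.linear_image (LinearMap.adjoint g)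
    refine ⟨_, hL, fun x => ?_⟩
    show hs _ x = h (g x)
    refine sfc_eq h_HSB hL ?_ ?_
    · rintro z ⟨y, hy, rfl⟩
      rw [LinearMap.adjoint_inner_right, ← hh]
      exact h_HSB.le n K (g x) y hK hy
    · obtain ⟨y, hy, e⟩ := h_HSB.att n K (g x) hK
      refine ⟨_, ⟨y, hy, rfl⟩, ?_⟩
      rw [LinearMap.adjoint_inner_right, e, hh]
  · rintro n h h' ⟨K, hK, hh⟩ ⟨K', hK', hh'⟩
    have hL : CB (K + K') := ⟨hK.cpt.add hK'.cpt, hK.cvx.add hK'.cvx, hK.ne.add hK'.ne⟩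
    refine ⟨_, hL, fun x => ?_⟩
    show hs _ x = h x + h' x
    refine sfc_eq h_HSB hL ?_ ?_
    · rintro z ⟨a, ha, b, hb, rfl⟩
      show ⟪x, a + b⟫ ≤ _
      rw [inner_add_right, ← hh, ← hh']
      exact add_le_add (h_HSB.le n K x a hK ha) (h_HSB.le n K' x b hK' hb)
    · obtain ⟨a, ha, e⟩ := h_HSB.att n K x hK
      obtain ⟨b, hb, e'⟩ := h_HSB.att n K' x hK'
      refine ⟨a + b, add_mem_add ha hb, ?_⟩
      rw [inner_add_right, e, e', hh, hh']
  · rintro n h h' ⟨K, hK, hh⟩ ⟨K', hK', hh'⟩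
    have hL := sfc_join hK hK'
    refine ⟨_, hL, fun x => ?_⟩
    show hs _ x = max (h x) (h' x)
    refine sfc_eq h_HSB hL ?_ ?_
    · intro z hz
      obtain ⟨a, ha, b, hb, hx⟩ := mem_convexJoin.1 hz
      rw [segment_eq_image] at hx
      obtain ⟨t, ht, rfl⟩ := hx
      have h1 : ⟪x, a⟫ ≤ max (h x) (h' x) := by
        refine le_trans ?_ (le_max_left _ _)
        rw [← hh]
        exact h_HSB.le n K x a hK ha
      have h2 : ⟪x, b⟫ ≤ max (h x) (h' x) := by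
        refine le_trans ?_ (le_max_right _ _)
        rw [← hh']
        exact h_HSB.le n K' x b hK' hb
      simp only [inner_add_right, inner_smul_right]
      have h3 := mul_le_mul_of_nonneg_left h1 (by linarith [ht.2] : 0 ≤ 1 - t)
      have h4 := mul_le_mul_of_nonneg_left h2 ht.1
      nlinarith
    · rcases le_total (h x) (h' x) with hle | hle
      · obtain ⟨b, hb, e'⟩ := h_HSB.att n K' x hK'
        obtain ⟨a, ha⟩ := hK.ne
        refine ⟨b, mem_convexJoin.2 ⟨a, ha, b, hb, right_mem_segment ℝ a b⟩, ?_⟩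
        rw [max_eq_right hle, e', hh']
      · obtain ⟨a, ha, e⟩ := h_HSB.att n K x hK
        obtain ⟨b, hb⟩ := hK'.ne
        refine ⟨a, mem_convexJoin.2 ⟨a, ha, b, hb, left_mem_segment ℝ a b⟩, ?_⟩
        rw [max_eq_left hle, e, hh]
  · rintro n h r ⟨K, hK, hh⟩ hr
    have hL : CB (r • K) := ⟨hK.cpt.smul r, hK.cvx.smul r, hK.ne.smul_set⟩
    refine ⟨_, hL, fun x => ?_⟩
    show hs _ x = r * h x
    refine sfc_eq h_HSB hL ?_ ?_
    · rintro z ⟨a, ha, rfl⟩
      show ⟪x, r • a⟫ ≤ _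
      rw [inner_smul_right, ← hh]
      exact mul_le_mul_of_nonneg_left (h_HSB.le n K x a hK ha) hr
    · obtain ⟨a, ha, e⟩ := h_HSB.att n K x hK
      refine ⟨r • a, smul_mem_smul_set ha, ?_⟩
      rw [inner_smul_right, e, hh]

end RLW
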