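import Pool.Agent.RLW.StU

/-!
# RLW, module SFP: properties of support functions
-/

set_option autoImplicit false

open MeasureTheory Metric Set
open scoped BigOperators Pointwise RealInnerProductSpace NNReal Topology

namespace RLW

private theorem SFP_bound {n : ℕ} {K : Set (E n)} (hK : CB K) : ∃ C : ℝ, 0 ≤ C ∧ ∀ z ∈ K, ‖z‖ ≤ C := by
  obtain ⟨C, hC⟩ := hK.cpt.isBounded.exists_norm_le
  exact ⟨max C 0, le_max_right _ _, fun z hz => (hC z hz).trans (le_max_left _ _)⟩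

private theorem SFP_lip (H : St_HSB) {n : ℕ} {K : Set (E n)} (hK : CB K) {C : ℝ}
    (hC : ∀ z ∈ K, ‖z‖ ≤ C) (x y : E n) : hs K x - hs K y ≤ C * ‖x - y‖ := by
  obtain ⟨z, hz, hzx⟩ := H.att n K x hK
  have h1 := H.le n K y z hK hz
  have h2 : ⟪x - y, z⟫ ≤ ‖x - y‖ * ‖z‖ := real_inner_le_norm _ _
  rw [inner_sub_left] at h2
  have h3 : ‖x - y‖ * ‖z‖ ≤ C * ‖x - y‖ := by
    rw [mul_comm]
    exact mul_le_mul_of_nonneg_right (hC z hz) (norm_nonneg _)
  linarith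

private theorem SFP_zero (H : St_HSB) {n : ℕ} {K : Set (E n)} (hK : CB K) : hs K 0 = 0 := by
  obtain ⟨z, -, hz⟩ := H.att n K 0 hK
  rw [← hz, inner_zero_left]

private theorem SFP_cts (H : St_HSB) {n : ℕ} {K : Set (E n)} (hK : CB K) : Continuous (hs K) := by
  obtain ⟨C, hC0, hC⟩ := SFP_bound hK
  have h : LipschitzWith ⟨C, hC0⟩ (hs K) := by
    refine LipschitzWith.of_dist_le_mul fun x y => ?_
    rw [Real.dist_eq, dist_eq_norm, abs_le]
    have h1 := SFP_lip H hK hC x y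
    have h2 := SFP_lip H hK hC y x
    rw [norm_sub_rev] at h2
    constructor
    · show -(C * ‖x - y‖) ≤ _
      linarith
    · exact h1
  exact h.continuous

private theorem SFP_bdd (H : St_HSB) {n : ℕ} {K : Set (E n)} (hK : CB K) :
    ∃ C, 0 ≤ C ∧ ∀ x, |hs K x| ≤ C * ‖x‖ := by
  obtain ⟨C, hC0, hC⟩ := SFP_bound hK
  refine ⟨C, hC0, fun x => ?_⟩
  have h1 := SFP_lip H hK hC x 0
  have h2 := SFP_lip H hK hC 0 x
  rw [SFP_zero H hK, sub_zero, sub_zero] at h1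
  rw [SFP_zero H hK, zero_sub, zero_sub, norm_neg] at h2
  rw [abs_le]
  constructor <;> linarith

private theorem SFP_gauss (n : ℕ) : Integrable (fun x : E n => Real.exp (-(1 / 2) * ‖x‖ ^ 2)) := by
  have h := GaussianFourier.integrable_cexp_neg_mul_sq_norm_add (V := E n) (b := (1 / 2 : ℂ))
    (by norm_num) 0 0
  have h1 := h.norm
  refine h1.congr (Filter.Eventually.of_forall fun x => ?_)
  show ‖Complex.exp _‖ = _
  rw [Complex.norm_exp]
  congr 1
  have : (-(1 / 2 : ℂ) * (‖x‖ : ℂ) ^ 2 + 0 * ((⟪(0 : E n), x⟫ : ℝ) : ℂ)) =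
      ((-(1 / 2) * ‖x‖ ^ 2 : ℝ) : ℂ) := by
    push_cast
    ring
  rw [this, Complex.ofReal_re]

theorem thm_SFP (h_HSB : St_HSB) : St_SFP where
  sub := by
    rintro n h x y ⟨K, hK, hh⟩
    rw [← hh, ← hh, ← hh]
    obtain ⟨z, hz, hzx⟩ := h_HSB.att n K (x + y) hK
    have h1 := h_HSB.le n K x z hK hz
    have h2 := h_HSB.le n K y z hK hz
    rw [inner_add_left] at hzx
    linarith
  hom := by
    rintro n h x r ⟨K, hK, hh⟩ hr
    rw [← hh, ← hh]
    apply le_antisymm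
    · obtain ⟨z, hz, hzx⟩ := h_HSB.att n K (r • x) hK
      rw [← hzx, real_inner_smul_left]
      exact mul_le_mul_of_nonneg_left (h_HSB.le n K x z hK hz) hr
    · obtain ⟨z, hz, hzx⟩ := h_HSB.att n K x hK
      rw [← hzx, ← real_inner_smul_left]
      exact h_HSB.le n K (r • x) z hK hz
  cts := by
    rintro n h ⟨K, hK, hh⟩
    have h1 : h = hs K := funext fun x => (hh x).symm
    rw [h1]
    exact SFP_cts h_HSB hK
  bdd := by
    rintro n h ⟨K, hK, hh⟩
    obtain ⟨C, -, hC⟩ := SFP_bdd h_HSB hK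
    exact ⟨C, fun x => by rw [← hh]; exact hC x⟩
  int := by
    rintro n h ⟨K, hK, hh⟩
    have h1 : h = hs K := funext fun x => (hh x).symm
    rw [h1]
    obtain ⟨C, hC0, hC⟩ := SFP_bdd h_HSB hK
    refine ((SFP_gauss n).const_mul C).mono' ?_ (Filter.Eventually.of_forall fun x => ?_)
    · exact ((SFP_cts h_HSB hK).mul (by fun_prop)).aestronglyMeasurable
    · rw [norm_mul, Real.norm_eq_abs, Real.norm_eq_abs, abs_of_pos (Real.exp_pos _)]
      have h2 : ‖x‖ ≤ Real.exp (1 / 2 * ‖x‖ ^ 2) := by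
        have h3 := Real.add_one_le_exp (1 / 2 * ‖x‖ ^ 2)
        nlinarith [sq_nonneg (‖x‖ - 1)]
      have h4 : Real.exp (1 / 2 * ‖x‖ ^ 2) * Real.exp (-‖x‖ ^ 2) =
          Real.exp (-(1 / 2) * ‖x‖ ^ 2) := by
        rw [← Real.exp_add]
        congr 1
        ring
      calc |hs K x| * Real.exp (-‖x‖ ^ 2) ≤ (C * ‖x‖) * Real.exp (-‖x‖ ^ 2) :=
            mul_le_mul_of_nonneg_right (hC x) (Real.exp_pos _).le
        _ ≤ (C * Real.exp (1 / 2 * ‖x‖ ^ 2)) * Real.exp (-‖x‖ ^ 2) :=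
            mul_le_mul_of_nonneg_right (mul_le_mul_of_nonneg_left h2 hC0) (Real.exp_pos _).le
        _ = C * Real.exp (-(1 / 2) * ‖x‖ ^ 2) := by rw [mul_assoc, h4]

end RLW
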