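import Pool.Agent.RLW.StU

/-!
# RLW, module SYM: symmetrisation over signed permutations
-/

set_option autoImplicit false

open MeasureTheory Metric Set
open scoped BigOperators Pointwise RealInnerProductSpace NNReal Topology

namespace RLW

private abbrev SYM_G : Type := Equiv.Perm (Fin 3) × (Fin 3 → Bool)

private theorem SYM_ap (g : SYM_G) (x : E 3) (i : Fin 3) :
    ga g x i = if g.2 i = true then x (g.1 i) else -x (g.1 i) := rfl

private noncomputable def SYM_L (g : SYM_G) : E 3 →ₗ[ℝ] E 3 where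
  toFun := ga g
  map_add' x y := by
    ext i
    rw [PiLp.add_apply, SYM_ap, SYM_ap, SYM_ap]
    by_cases h : g.2 i = true
    · simp [h]
    · simp only [h, PiLp.add_apply]
      simp
      ring
  map_smul' r x := by
    ext i
    rw [RingHom.id_apply, PiLp.smul_apply, SYM_ap, SYM_ap]
    by_cases h : g.2 i = true
    · simp [h]
    · simp [h]

private theorem SYM_norm (g : SYM_G) (x : E 3) : ‖ga g x‖ = ‖x‖ := by
  rw [EuclideanSpace.norm_eq, EuclideanSpace.norm_eq]
  congr 1
  have h1 : ∀ i, ‖ga g x i‖ ^ 2 = ‖x (g.1 i)‖ ^ 2 := by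
    intro i
    rw [SYM_ap]
    by_cases h : g.2 i = true
    · simp [h]
    · simp [h]
  rw [Finset.sum_congr rfl fun i _ => h1 i]
  exact Equiv.sum_comp g.1 fun i => ‖x i‖ ^ 2

private noncomputable def SYM_I (g : SYM_G) : E 3 →ₗᵢ[ℝ] E 3 := ⟨SYM_L g, SYM_norm g⟩

private noncomputable def SYM_Z (j : Fin 3) : E 3 →ₗ[ℝ] E 3 where
  toFun := zr j
  map_add' x y := by
    ext i
    simp only [zr, PiLp.add_apply]
    by_cases h : i = j
    · simp [h]
    · simp [h]
  map_smul' r x := by
    ext i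
    simp only [zr, RingHom.id_apply, PiLp.smul_apply]
    by_cases h : i = j
    · simp [h]
    · simp [h]

private theorem SYM_gz (g : SYM_G) (j : Fin 3) (x : E 3) :
    ga g (zr j x) = zr (g.1.symm j) (ga g x) := by
  ext i
  rw [SYM_ap]
  show _ = if i = g.1.symm j then 0 else ga g x i
  have h1 : ∀ k, zr j x k = if k = j then 0 else x k := fun k => rfl
  rw [h1, SYM_ap]
  by_cases h : g.1 i = j
  · have h' : i = g.1.symm j := by rw [← h, Equiv.symm_apply_apply]
    simp [h']
  · have h' : ¬ i = g.1.symm j := fun h2 => h (by rw [h2, Equiv.apply_symm_apply])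
    simp [h, h']

private def SYM_c (g g' : SYM_G) : SYM_G := (g.1 * g'.1, fun i => g'.2 i == g.2 (g'.1 i))

private theorem SYM_comp (g g' : SYM_G) (x : E 3) : ga g' (ga g x) = ga (SYM_c g g') x := by
  ext i
  rw [SYM_ap, SYM_ap, SYM_ap]
  show _ = if (g'.2 i == g.2 (g'.1 i)) = true then x (g.1 (g'.1 i)) else -x (g.1 (g'.1 i))
  cases h1 : g'.2 i <;> cases h2 : g.2 (g'.1 i) <;> simp

private theorem SYM_bij (g : SYM_G) : Function.Bijective (SYM_c g) := by
  refine (Fintype.bijective_iff_injective_and_card _).2 ⟨?_, rfl⟩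
  intro a b hab
  have h1 : g.1 * a.1 = g.1 * b.1 := congrArg Prod.fst hab
  have h2 : a.1 = b.1 := mul_left_cancel h1
  have h3 : (fun i => a.2 i == g.2 (a.1 i)) = fun i => b.2 i == g.2 (b.1 i) :=
    congrArg Prod.snd hab
  refine Prod.ext h2 (funext fun i => ?_)
  have h4 := congrFun h3 i
  simp only [h2] at h4
  revert h4
  cases a.2 i <;> cases b.2 i <;> cases g.2 (b.1 i) <;> simp

private theorem SYM_sf0 (hC : St_SFC) {α : Type} (s : Finset α) (F : α → E 3 → ℝ) {h : E 3 → ℝ}
    (hh : SF h) (hF : ∀ a, SF (F a)) : SF fun x => ∑ a ∈ s, F a x := by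
  classical
  induction s using Finset.induction_on with
  | empty =>
    have h0 := hC.mul 3 h 0 hh le_rfl
    have h1 : (fun x : E 3 => ∑ a ∈ (∅ : Finset α), F a x) = fun x => 0 * h x := by
      funext x
      simp
    rw [h1]
    exact h0
  | insert a s ha ih =>
    have h0 := hC.add 3 _ _ (hF a) ih
    have h1 : (fun x : E 3 => ∑ a ∈ insert a s, F a x) = fun x => F a x + ∑ a ∈ s, F a x := by
      funext x
      rw [Finset.sum_insert ha]
    rw [h1]
    exact h0

private noncomputable def SYM_F (h : E 3 → ℝ) (x : E 3) : ℝ :=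
  (h x - 2 * tz / Real.pi * ∑ j, h (zr j x)) * Real.exp (-‖x‖ ^ 2)

private theorem SYM_int (hP : St_SFP) (hC : St_SFC) {h : E 3 → ℝ} (hh : SF h) :
    Integrable (SYM_F h) := by
  have h1 := hP.int 3 h hh
  have h2 : ∀ j : Fin 3, Integrable fun x : E 3 => h (zr j x) * Real.exp (-‖x‖ ^ 2) :=
    fun j => hP.int 3 _ (hC.cmp 3 3 (SYM_Z j) h hh)
  have h3 : Integrable fun x : E 3 => ∑ j, h (zr j x) * Real.exp (-‖x‖ ^ 2) :=
    integrable_finsetSum _ fun j _ => h2 j
  have h4 := h1.sub (h3.const_mul (2 * tz / Real.pi))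
  refine h4.congr (Filter.Eventually.of_forall fun x => ?_)
  simp only [SYM_F, Pi.sub_apply]
  rw [← Finset.sum_mul]
  ring

theorem thm_SYM (hP : St_SFP) (hC : St_SFC) : St_SYM where
  lin g := ⟨SYM_L g, fun _ => rfl, SYM_norm g⟩
  sf h hh := SYM_sf0 hC Finset.univ (fun g x => h (ga g x)) hh fun g => hC.cmp 3 3 (SYM_L g) h hh
  inv h g x := by
    show ∑ g', h (ga g' (ga g x)) = ∑ g', h (ga g' x)
    have h1 : ∀ g' : SYM_G, h (ga g' (ga g x)) = h (ga (SYM_c g g') x) := fun g' => by
      rw [SYM_comp]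
    rw [Finset.sum_congr rfl fun g' _ => h1 g']
    exact (SYM_bij g).sum_comp fun g' => h (ga g' x)
  lm h hh := by
    have hint := SYM_int hP hC hh
    have hmp : ∀ g : SYM_G, MeasurePreserving (ga g : E 3 → E 3) := by
      intro g
      have h1 := ((SYM_I g).toLinearIsometryEquiv rfl).measurePreserving
      exact h1
    have hme : ∀ g : SYM_G, MeasurableEmbedding (ga g : E 3 → E 3) := by
      intro g
      exact ((SYM_I g).toLinearIsometryEquiv rfl).toHomeomorph.measurableEmbedding
    have h2 : ∀ x, (sy h x - 2 * tz / Real.pi * ∑ j, sy h (zr j x)) * Real.exp (-‖x‖ ^ 2) =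
        ∑ g, SYM_F h (ga g x) := by
      intro x
      have h3 : ∀ g : SYM_G, SYM_F h (ga g x) =
          (h (ga g x) - 2 * tz / Real.pi * ∑ j, h (ga g (zr j x))) * Real.exp (-‖x‖ ^ 2) := by
        intro g
        unfold SYM_F
        rw [SYM_norm]
        congr 3
        have h4 : ∀ j, h (ga g (zr j x)) = h (zr (g.1.symm j) (ga g x)) := fun j => by
          rw [SYM_gz]
        rw [Finset.sum_congr rfl fun j _ => h4 j]
        exact (Equiv.sum_comp g.1.symm fun j => h (zr j (ga g x))).symm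
      rw [Finset.sum_congr rfl fun g _ => h3 g, ← Finset.sum_mul]
      congr 1
      rw [Finset.sum_sub_distrib, ← Finset.mul_sum]
      congr 2
      rw [Finset.sum_comm]
      rfl
    show ∫ x : E 3, (sy h x - 2 * tz / Real.pi * ∑ j, sy h (zr j x)) * Real.exp (-‖x‖ ^ 2) =
      48 * ∫ x : E 3, SYM_F h x
    rw [integral_congr_ae (Filter.Eventually.of_forall h2)]
    have hgi : ∀ g : SYM_G, Integrable fun x => SYM_F h (ga g x) := fun g =>
      ((hmp g).integrable_comp_emb (hme g)).2 hint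
    rw [integral_finsetSum _ fun g _ => hgi g]
    rw [Finset.sum_congr rfl fun g _ => (hmp g).integral_comp (hme g) (SYM_F h)]
    rw [Finset.sum_const, nsmul_eq_mul]
    congr 1

end RLW
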