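import Mathlib
import Pool.Agent.RLW.StU

/-!
# RLW, module UNI: uniqueness of the extremal bodies
-/

set_option autoImplicit false

open MeasureTheory Metric Set Filter
open scoped BigOperators Pointwise RealInnerProductSpace NNReal Topology

namespace RLW

private theorem UNI_cb (h_OCB : St_OCB) (a : E 3) {r : ℝ} (hr : 0 ≤ r) : CB (oct 3 a r) := by
  have h := h_OCB.cb 3 r hr
  rw [h_OCB.tr 3 a r]
  exact ⟨h.cpt.image (continuous_const.add continuous_id), h.cvx.translate a, h.ne.image _⟩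

private theorem UNI_mx : mx (e3 1 0 0) = 1 ∧ mx (-e3 1 0 0) = 1 := by
  have h0 : (e3 1 0 0) 0 = 1 := rfl
  have h1 : (e3 1 0 0) 1 = 0 := rfl
  have h2 : (e3 1 0 0) 2 = 0 := rfl
  constructor
  · unfold mx
    rw [h0, h1, h2]
    simp
  · unfold mx
    rw [PiLp.neg_apply, PiLp.neg_apply, PiLp.neg_apply, h0, h1, h2]
    simp

private theorem UNI_oct0 (a : E 3) : oct 3 a 0 ⊆ {a} := by
  intro z hz
  have h : ∑ i, |z i - a i| ≤ 0 := hz
  have h1 : ∑ i, |z i - a i| = 0 := le_antisymm h (Finset.sum_nonneg fun i _ => abs_nonneg _)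
  rw [Finset.sum_eq_zero_iff_of_nonneg fun i _ => abs_nonneg _] at h1
  rw [mem_singleton_iff]
  ext i
  exact sub_eq_zero.1 (abs_eq_zero.1 (h1 i (Finset.mem_univ i)))

theorem thm_UNI (h_LM1 : St_LM1) (h_SYM : St_SYM) (h_CHE : St_CHE) (h_IND : St_IND)
    (h_HOC : St_HOC) (h_HSB : St_HSB) (h_OCB : St_OCB) (h_OEQ : St_OEQ) (h_SFP : St_SFP) :
    St_UNI := by
  intro K V W hK hint hV hW
  constructor
  · intro heq
    have hL := h_LM1 K V W hK hV hW heq
    have hSF : SF (hs K) := ⟨K, hK, fun _ => rfl⟩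
    have hs1 : SF (sy (hs K)) := h_SYM.sf _ hSF
    have hs2 : Gi (sy (hs K)) := h_SYM.inv _
    have hs3 : Lm (sy (hs K)) = 0 := by
      rw [h_SYM.lm _ hSF, hL, mul_zero]
    obtain ⟨R, hR⟩ := h_CHE _ hs1 hs2 hs3
    obtain ⟨a, ρ, ha⟩ := h_IND (hs K) R hSF hR
    have hρ : 0 ≤ ρ := by
      have h1 := h_SFP.sub 3 (hs K) (e3 1 0 0) (-e3 1 0 0) hSF
      rw [add_neg_cancel] at h1
      have h2 : hs K 0 = 0 := by
        have h3 := h_SFP.hom 3 (hs K) 0 0 hSF le_rfl
        rw [zero_mul, smul_zero] at h3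
        exact h3
      rw [h2, ha, ha, inner_neg_right, UNI_mx.1, UNI_mx.2] at h1
      linarith
    have hKo : K = oct 3 a ρ := by
      have hO := UNI_cb h_OCB a hρ
      refine Subset.antisymm (h_HSB.det 3 K _ hK hO fun x => ?_)
        (h_HSB.det 3 _ K hO hK fun x => ?_)
      · rw [ha, h_HOC a x ρ hρ]
      · rw [ha, h_HOC a x ρ hρ]
    refine ⟨a, ρ, lt_of_le_of_ne hρ fun h0 => ?_, hKo⟩
    have h1 : K ⊆ {a} := by
      rw [hKo, ← h0]
      exact UNI_oct0 a
    have h2 : (interior ({a} : Set (E 3))).Nonempty := hint.mono (interior_mono h1)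
    have : (𝓝[≠] a).NeBot := Module.punctured_nhds_neBot ℝ (E 3) a
    rw [interior_singleton] at h2
    exact not_nonempty_empty h2
  · rintro ⟨a, r, hr, rfl⟩
    exact h_OEQ 2 a r V W (by norm_num) hr hV hW

end RLW
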