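import Pool.Agent.RLW.Asm2
import Pool.Agent.RLW.HSB
import Pool.Agent.RLW.SFP
import Pool.Agent.RLW.SFC
import Pool.Agent.RLW.MWF
import Pool.Agent.RLW.LMF
import Pool.Agent.RLW.JEQ
import Pool.Agent.RLW.LM0
import Pool.Agent.RLW.LM1
import Pool.Agent.RLW.HOC
import Pool.Agent.RLW.LM2
import Pool.Agent.RLW.SYM
import Pool.Agent.RLW.MO3
import Pool.Agent.RLW.MIN
import Pool.Agent.RLW.CH1
import Pool.Agent.RLW.CH2
import Pool.Agent.RLW.CHE
import Pool.Agent.RLW.IND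
import Pool.Agent.RLW.UNI
import Pool.Agent.RLW.SEC

/-!
# RLW: assembly of part U (uniqueness in dimension three)
-/

set_option autoImplicit false

namespace RLW

theorem a_SFP : St_SFP := thm_SFP thm_HSB
theorem a_SFC : St_SFC := thm_SFC thm_HSB
theorem a_MWF : St_MWF := thm_MWF thm_WIL thm_SCV thm_HSB
theorem a_LMF : St_LMF := thm_LMF a_MWF thm_FUB thm_PRC thm_HSB a_SFP a_SFC
theorem a_LM0 : St_LM0 := thm_LM0 a_STE a_POL a_LMF thm_PRC a_SFP a_SFC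
theorem a_LM1 : St_LM1 := thm_LM1 a_POL thm_JEN thm_JEQ a_MON a_LMF thm_PRC a_SFP a_SFC
theorem a_HOC : St_HOC := thm_HOC thm_HSB thm_OCB
theorem a_LM2 : St_LM2 := thm_LM2 a_OEQ a_STE a_LM1 a_HOC thm_OCB thm_PRC
theorem a_SYM : St_SYM := thm_SYM a_SFP a_SFC
theorem a_MO3 : St_MO3 := thm_MO3 a_SFP
theorem a_MIN : St_MIN := thm_MIN a_LM0 a_MO3 a_SFC a_SFP
theorem a_CH1 : St_CH1 := thm_CH1 thm_FUB
theorem a_CHE : St_CHE := thm_CHE a_CH1 thm_CH2 a_MIN a_MO3 a_LM2 a_SFP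
theorem a_IND : St_IND := thm_IND a_SFP

/-- uniqueness of the extremal bodies in dimension three -/
theorem a_UNI : St_UNI := thm_UNI a_LM1 a_SYM a_CHE a_IND a_HOC thm_HSB thm_OCB a_OEQ a_SFP

/-- sections -/
theorem a_SEC : St_SEC :=
  thm_SEC a_STE a_MWF a_MON a_INE a_UNI thm_HSB a_LMF a_OEQ thm_PRC a_SFP

end RLW
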