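import Mathlib

/-!
# RLW (MP_f7beb7_gt): reverse Loomis-Whitney inequality for intrinsic volumes, definitions

Paper: `/team-store/RLW_paper.md` (helper55).
-/

set_option autoImplicit false

open MeasureTheory Metric Set
open scoped BigOperators Pointwise RealInnerProductSpace NNReal

namespace RLW

/-- Euclidean space -/
abbrev E (n : ℕ) : Type := EuclideanSpace ℝ (Fin n)

/-- the volume of the unit ball -/
noncomputable def kap (k : ℕ) : ℝ := (volume (closedBall (0 : E k) 1)).toReal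

/-- `V 0, ..., V n` are the intrinsic volumes of `K` (Steiner's formula) -/
def IsIV {n : ℕ} (K : Set (E n)) (V : ℕ → ℝ) : Prop :=
  ∀ t : ℝ, 0 ≤ t → (volume (K + closedBall (0 : E n) t)).toReal =
    ∑ j ∈ Finset.range (n + 1), kap (n - j) * V j * t ^ (n - j)

/-- the orthogonal projection which deletes the coordinate `i` -/
noncomputable def prj {n : ℕ} (i : Fin (n + 1)) (x : E (n + 1)) : E n :=
  WithLp.toLp 2 fun j => x (i.succAbove j)

/-- insert the coordinate `s` at the place `i` -/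
noncomputable def ins {n : ℕ} (i : Fin (n + 1)) (s : ℝ) (x : E n) : E (n + 1) :=
  WithLp.toLp 2 (i.insertNth s fun j => x j)

/-- convex bodies: compact, convex, not empty -/
structure CB {n : ℕ} (K : Set (E n)) : Prop where
  cpt : IsCompact K
  cvx : Convex ℝ K
  ne : K.Nonempty

open Classical in
/-- the nearest point -/
noncomputable def npt {n : ℕ} (K : Set (E n)) (x : E n) : E n :=
  if h : ∃ y ∈ K, dist x y = infDist x K then h.choose else 0

/-- the outer unit normal: the gradient of the distance -/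
noncomputable def nu {n : ℕ} (K : Set (E n)) (x : E n) : E n :=
  (infDist x K)⁻¹ • (x - npt K x)

/-- test functions on `(0, ∞)` with their derivatives -/
structure Tst (a b : ℝ) (w w1 w2 : ℝ → ℝ) : Prop where
  a0 : 0 < a
  ab : a < b
  nn : ∀ s, 0 ≤ w s
  d1 : ∀ s, HasDerivAt w (w1 s) s
  d2 : ∀ s, HasDerivAt w1 (w2 s) s
  c2 : Continuous w2
  z : ∀ s, s ∉ Ioo a b → w s = 0 ∧ w1 s = 0 ∧ w2 s = 0

/-- Vector fields on the sphere (extended to the space) with a nonnegative derivative in the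
direction of all nonnegative symmetric matrices orthogonal to the base point. -/
structure Fld {n : ℕ} (G : E n → E n) (G' : E n → E n →L[ℝ] E n) : Prop where
  lip : ∃ C : ℝ≥0, LipschitzOnWith C G (sphere 0 1)
  der : ∀ u ∈ sphere (0 : E n) 1, HasFDerivAt G (G' u) u
  pos : ∀ u ∈ sphere (0 : E n) 1, ∀ H : E n →L[ℝ] E n, (∀ v w, ⟪H v, w⟫ = ⟪v, H w⟫) →
    (∀ v, 0 ≤ ⟪H v, v⟫) → H u = 0 → 0 ≤ ∑ j, (G' u (H (EuclideanSpace.single j 1))) j

/-- regularisations `s` of the sign and `Φ` of the absolute value; `s1` is the derivative of `s` -/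
structure Sg (η : ℝ) (s s1 Φ : ℝ → ℝ) : Prop where
  dΦ : ∀ x, HasDerivAt Φ (s x) x
  ds : ∀ x, HasDerivAt s (s1 x) x
  s1n : ∀ x, 0 ≤ s1 x
  s1z : ∀ x, η ≤ |x| → s1 x = 0
  s1b : ∃ C, ∀ x, s1 x ≤ C
  s1c : Continuous s1
  sb : ∀ x, |s x| ≤ 1
  Φn : ∀ x, 0 ≤ Φ x
  Φs : ∀ x, Φ x ≤ x * s x
  Φl : ∀ x, x * s x ≤ Φ x + η
  xs : ∀ x, x * s x ≤ |x|
  xl : ∀ x, |x| ≤ x * s x + η

/-- `d / sin d` as a function of `c = cos d` -/
noncomputable def lam (c : ℝ) : ℝ := Real.arccos c / √(1 - c ^ 2)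

/-- the derivative of `lam` -/
noncomputable def lam1 (c : ℝ) : ℝ := (c * lam c - 1) / (1 - c ^ 2)

/-- the regularised scalar product of `q` and `(|u_1|, ..., |u_n|)` -/
noncomputable def cq {n : ℕ} (Φ : ℝ → ℝ) (q : Fin n → ℝ) (u : E n) : ℝ := ∑ j, q j * Φ (u j)

/-- the vector field `u + log_u q - t`, regularised -/
noncomputable def fld {n : ℕ} (s Φ : ℝ → ℝ) (q τ : Fin n → ℝ) (u : E n) : E n :=
  WithLp.toLp 2 fun j => (1 - cq Φ q u * lam (cq Φ q u)) * u j +
    s (u j) * (lam (cq Φ q u) * q j - τ j)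

/-- the derivative of the `j`-th coordinate of `fld` at `u` in the direction `v` -/
noncomputable def fldD {n : ℕ} (s s1 Φ : ℝ → ℝ) (q τ : Fin n → ℝ) (u v : E n) (j : Fin n) : ℝ :=
  (1 - cq Φ q u * lam (cq Φ q u)) * v j +
    (-lam (cq Φ q u) - cq Φ q u * lam1 (cq Φ q u)) * (∑ k, q k * s (u k) * v k) * u j +
    s1 (u j) * v j * (lam (cq Φ q u) * q j - τ j) +
    s (u j) * (lam1 (cq Φ q u) * (∑ k, q k * s (u k) * v k) * q j)

/-- the bound for `cq` on the unit vectors with `|u j| ≤ η` -/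
noncomputable def kp {n : ℕ} (η : ℝ) (q : Fin n → ℝ) (j : Fin n) : ℝ :=
  √(∑ k, q k ^ 2 - q j ^ 2) + q j * η

/-- the conditions on the parameters -/
structure Adm {n : ℕ} (η : ℝ) (q τ : Fin n → ℝ) : Prop where
  η0 : 0 < η
  q0 : ∀ j, 0 ≤ q j
  q1 : ∑ j, q j ^ 2 < 1
  kp1 : ∀ j, kp η q j < 1
  τ0 : ∀ j, 0 ≤ τ j
  τ1 : ∀ j, τ j ≤ q j * lam (kp η q j)

/-- the volume of the parallel body -/
noncomputable def vo {n : ℕ} (K : Set (E n)) (t : ℝ) : ℝ :=
  (volume (K + closedBall (0 : E n) t)).toReal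

/-- the constant -/
noncomputable def cst (n : ℕ) : ℝ := 4 * n / Real.pi ^ 2 * Real.arcsin (1 / √n) ^ 2

end RLW
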