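import Pool.Agent.RLW.Asm2

/-!
# RLW: definitions for the final statements, and the case `m = n - 2`
-/

set_option autoImplicit false

open MeasureTheory Metric Set
open scoped BigOperators Pointwise

namespace RLW.Final

/-- the volume of the unit ball of `ℝ ^ k` -/
noncomputable def kappa (k : ℕ) : ℝ :=
  (volume (closedBall (0 : EuclideanSpace ℝ (Fin k)) 1)).toReal

/-- Steiner's formula: `V 0, ..., V n` are the intrinsic volumes of `K`. -/
def Steiner {n : ℕ} (K : Set (EuclideanSpace ℝ (Fin n))) (V : ℕ → ℝ) : Prop :=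
  ∀ t : ℝ, 0 ≤ t → (volume (K + closedBall (0 : EuclideanSpace ℝ (Fin n)) t)).toReal =
    ∑ j ∈ Finset.range (n + 1), kappa (n - j) * V j * t ^ (n - j)

open Classical in
/-- The intrinsic volumes `V j` of `K`, `j = 0, ..., n`: the coefficients in Steiner's formula. -/
noncomputable def V {n : ℕ} (K : Set (EuclideanSpace ℝ (Fin n))) : ℕ → ℝ :=
  if h : ∃ W : ℕ → ℝ, Steiner K W then h.choose else 0

/-- The orthogonal projection to the hyperplane `e_i^⊥`, identified with `ℝ ^ n` by deleting the
coordinate `i`. -/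
noncomputable def proj {n : ℕ} (i : Fin (n + 1)) (x : EuclideanSpace ℝ (Fin (n + 1))) :
    EuclideanSpace ℝ (Fin n) :=
  WithLp.toLp 2 fun j => x (i.succAbove j)

/-- The section of `K` by the hyperplane `e_i^⊥`, with the same identification. -/
def sect {n : ℕ} (i : Fin (n + 1)) (K : Set (EuclideanSpace ℝ (Fin (n + 1)))) :
    Set (EuclideanSpace ℝ (Fin n)) :=
  {y | WithLp.toLp 2 (i.insertNth (α := fun _ => ℝ) 0 fun j => y j) ∈ K}

/-- The regular coordinate cross-polytope with centre `a`: the convex hull of the points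
`a + r e_i`, `a - r e_i`. -/
def cross {n : ℕ} (a : EuclideanSpace ℝ (Fin n)) (r : ℝ) : Set (EuclideanSpace ℝ (Fin n)) :=
  convexHull ℝ {x | ∃ i, x = a + r • EuclideanSpace.single i (1 : ℝ) ∨
    x = a - r • EuclideanSpace.single i (1 : ℝ)}

/-- The constant `4 n / π ^ 2 * arcsin (1 / √n) ^ 2`. -/
noncomputable def c (n : ℕ) : ℝ := 4 * n / Real.pi ^ 2 * Real.arcsin (1 / √n) ^ 2

/-! ### the cross-polytope -/

theorem cross_eq {n : ℕ} (a : E (n + 1)) {r : ℝ} (hr : 0 < r) : cross a r = oct (n + 1) a r := by
  classical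
  have hin : ∀ i : Fin (n + 1), a + r • EuclideanSpace.single i (1 : ℝ) ∈ cross a r ∧
      a - r • EuclideanSpace.single i (1 : ℝ) ∈ cross a r := fun i =>
    ⟨subset_convexHull ℝ _ ⟨i, Or.inl rfl⟩, subset_convexHull ℝ _ ⟨i, Or.inr rfl⟩⟩
  have hcv : Convex ℝ (cross a r) := convex_convexHull ℝ _
  refine Subset.antisymm (convexHull_min ?_ ?_) ?_
  · rintro x ⟨i, rfl | rfl⟩
    · show ∑ j, |(a + r • EuclideanSpace.single i (1 : ℝ)) j - a j| ≤ r
      have h : ∀ j, |(a + r • EuclideanSpace.single i (1 : ℝ)) j - a j| =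
          if j = i then r else 0 := by
        intro j
        rw [PiLp.add_apply, PiLp.smul_apply, add_sub_cancel_left, PiLp.single_apply]
        split_ifs
        · rw [smul_eq_mul, mul_one, abs_of_pos hr]
        · rw [smul_zero, abs_zero]
      rw [Finset.sum_congr rfl fun j _ => h j, Finset.sum_ite_eq' Finset.univ]
      simp
    · show ∑ j, |(a - r • EuclideanSpace.single i (1 : ℝ)) j - a j| ≤ r
      have h : ∀ j, |(a - r • EuclideanSpace.single i (1 : ℝ)) j - a j| =
          if j = i then r else 0 := by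
        intro j
        rw [PiLp.sub_apply, PiLp.smul_apply, sub_sub_cancel_left, PiLp.single_apply, abs_neg]
        split_ifs
        · rw [smul_eq_mul, mul_one, abs_of_pos hr]
        · rw [smul_zero, abs_zero]
      rw [Finset.sum_congr rfl fun j _ => h j, Finset.sum_ite_eq' Finset.univ]
      simp
  · have h := (thm_OCB.cb (n + 1) r hr.le).cvx.translate a
    rw [thm_OCB.tr (n + 1) a r]
    exact h
  · intro x hx
    have hx' : ∑ j, |x j - a j| ≤ r := hx
    set s : ℝ := ∑ j, |x j - a j| with hs
    have hs0 : 0 ≤ s := Finset.sum_nonneg fun j _ => abs_nonneg _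
    -- the centre
    have hac : a ∈ cross a r := by
      have h1 := hcv (hin 0).1 (hin 0).2 (by norm_num : (0 : ℝ) ≤ 1 / 2)
        (by norm_num : (0 : ℝ) ≤ 1 / 2) (by norm_num)
      have h2 : (1 / 2 : ℝ) • (a + r • EuclideanSpace.single (0 : Fin (n + 1)) (1 : ℝ)) +
          (1 / 2 : ℝ) • (a - r • EuclideanSpace.single (0 : Fin (n + 1)) (1 : ℝ)) = a := by
        module
      rw [h2] at h1
      exact h1
    -- the points with the weights
    set p : Option (Fin (n + 1)) → E (n + 1) := fun o => o.elim a fun j =>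
      a + (if 0 ≤ x j - a j then r else -r) • EuclideanSpace.single j (1 : ℝ) with hp
    set w : Option (Fin (n + 1)) → ℝ := fun o => o.elim (1 - s / r) fun j => |x j - a j| / r
      with hw
    have hw0 : ∀ o ∈ (Finset.univ : Finset (Option (Fin (n + 1)))), 0 ≤ w o := by
      intro o _
      rcases o with _ | j
      · show 0 ≤ 1 - s / r
        have : s / r ≤ 1 := (div_le_one hr).2 hx'
        linarith
      · exact div_nonneg (abs_nonneg _) hr.le
    have hw1 : ∑ o, w o = 1 := by
      rw [Fintype.sum_option]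
      show 1 - s / r + ∑ j, |x j - a j| / r = 1
      rw [← Finset.sum_div]
      ring
    have hpc : ∀ o ∈ (Finset.univ : Finset (Option (Fin (n + 1)))), p o ∈ cross a r := by
      intro o _
      rcases o with _ | j
      · exact hac
      · show a + (if 0 ≤ x j - a j then r else -r) • EuclideanSpace.single j (1 : ℝ) ∈ cross a r
        split_ifs
        · exact (hin j).1
        · rw [neg_smul, ← sub_eq_add_neg]
          exact (hin j).2
    have h1 := hcv.sum_mem hw0 hw1 hpc
    have h2 : ∑ o, w o • p o = x := by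
      rw [Fintype.sum_option]
      show (1 - s / r) • a + ∑ j, (|x j - a j| / r) • (a +
        (if 0 ≤ x j - a j then r else -r) • EuclideanSpace.single j (1 : ℝ)) = x
      have h3 : ∀ j, (|x j - a j| / r) • (a +
          (if 0 ≤ x j - a j then r else -r) • EuclideanSpace.single j (1 : ℝ)) =
          (|x j - a j| / r) • a + (x j - a j) • EuclideanSpace.single j (1 : ℝ) := by
        intro j
        rw [smul_add, smul_smul]
        congr 2
        split_ifs with h
        · rw [abs_of_nonneg h, div_mul_cancel₀ _ hr.ne']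
        · rw [abs_of_neg (not_le.1 h)]
          field_simp
      rw [Finset.sum_congr rfl fun j _ => h3 j, Finset.sum_add_distrib, ← Finset.sum_smul,
        ← Finset.sum_div]
      have h4 : ∑ j, (x j - a j) • EuclideanSpace.single j (1 : ℝ) = x - a := by
        ext i
        rw [WithLp.ofLp_sum, Finset.sum_apply, Finset.sum_eq_single i]
        · rw [PiLp.smul_apply, PiLp.single_apply, if_pos rfl, smul_eq_mul, mul_one,
            PiLp.sub_apply]
        · intro j _ hj
          rw [PiLp.smul_apply, PiLp.single_apply, if_neg hj.symm, smul_zero]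
        · intro h
          exact absurd (Finset.mem_univ i) h
      rw [h4, ← hs]
      module
    rw [h2] at h1
    exact h1

/-! ### existence and the empty set -/

theorem steiner_empty {n : ℕ} {W : ℕ → ℝ} (h : Steiner (∅ : Set (E n)) W) {j : ℕ} (hj : j ≤ n) :
    W j = 0 := by
  set P : Polynomial ℝ := ∑ j ∈ Finset.range (n + 1),
    Polynomial.monomial (n - j) (kappa (n - j) * W j) with hP
  have h1 : ∀ t : ℝ, 0 ≤ t → P.eval t = 0 := by
    intro t ht
    have h2 := h t ht
    rw [empty_add, measure_empty, ENNReal.toReal_zero] at h2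
    rw [hP, Polynomial.eval_finsetSum, h2]
    exact Finset.sum_congr rfl fun j _ => Polynomial.eval_monomial
  have h2 : P = 0 := by
    refine Polynomial.eq_zero_of_infinite_isRoot P ?_
    exact (Ici_infinite (0 : ℝ)).mono fun t ht => h1 t ht
  have h3 : P.coeff (n - j) = kappa (n - j) * W j := by
    rw [hP, Polynomial.finsetSum_coeff, Finset.sum_eq_single j]
    · rw [Polynomial.coeff_monomial, if_pos rfl]
    · intro i hi hij
      have hi' : i ≤ n := Nat.lt_succ_iff.1 (Finset.mem_range.1 hi)
      rw [Polynomial.coeff_monomial, if_neg (by omega)]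
    · intro h
      exact absurd (Finset.mem_range.2 (Nat.lt_succ_iff.2 hj)) h
  rw [h2, Polynomial.coeff_zero] at h3
  have h4 : 0 < kappa (n - j) := thm_KAP.2.2.2 (n - j)
  exact (mul_eq_zero.1 h3.symm).resolve_left h4.ne'

/-- Steiner's formula for all compact convex sets. -/
theorem steiner {n : ℕ} (K : Set (E n)) (h1 : IsCompact K) (h2 : Convex ℝ K) : Steiner K (V K) := by
  have h : ∃ W : ℕ → ℝ, Steiner K W := by
    rcases K.eq_empty_or_nonempty with h3 | h3
    · refine ⟨0, fun t _ => ?_⟩
      rw [h3, empty_add, measure_empty, ENNReal.toReal_zero]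
      simp
    · exact a_STE n K ⟨h1, h2, h3⟩
  unfold V
  rw [dif_pos h]
  exact h.choose_spec

theorem c_pos (n : ℕ) : 0 < c (n + 1) := by
  unfold c
  have h : 0 < Real.arcsin (1 / √((n + 1 : ℕ) : ℝ)) := by
    rw [Real.arcsin_pos]
    positivity
  positivity

theorem compact_proj {n : ℕ} {K : Set (E (n + 1))} (h1 : IsCompact K) (i : Fin (n + 1)) :
    IsCompact (proj i '' K) := by
  rcases K.eq_empty_or_nonempty with h3 | h3
  · rw [h3, image_empty]
    exact isCompact_empty
  · refine h1.image ?_
    unfold proj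
    fun_prop

theorem convex_proj {n : ℕ} {K : Set (E (n + 1))} (h1 : IsCompact K) (h2 : Convex ℝ K)
    (i : Fin (n + 1)) : Convex ℝ (proj i '' K) := by
  rcases K.eq_empty_or_nonempty with h3 | h3
  · rw [h3, image_empty]
    exact convex_empty
  · exact (thm_PRC.cb n i K ⟨h1, h2, h3⟩).cvx

/-- the inequality for `m = n - 2` -/
theorem main_ineq {m : ℕ} (K : Set (E (m + 2))) (h1 : IsCompact K) (h2 : Convex ℝ K) :
    c (m + 2) * ∑ i, V (proj i '' K) m ^ 2 ≤ V K m ^ 2 := by
  rcases K.eq_empty_or_nonempty with h3 | h3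
  · subst h3
    have h4 : ∀ i : Fin (m + 2), V (proj i '' (∅ : Set (E (m + 2)))) m = 0 := by
      intro i
      have h5 := steiner (proj i '' (∅ : Set (E (m + 2)))) (compact_proj isCompact_empty i)
        (convex_proj isCompact_empty convex_empty i)
      rw [image_empty] at h5 ⊢
      exact steiner_empty h5 (Nat.le_succ m)
    rw [Finset.sum_eq_zero fun i _ => by rw [h4 i, sq, mul_zero], mul_zero]
    exact sq_nonneg _
  · exact a_INE (m + 1) K (V K) (fun i => V (proj i '' K)) (Nat.le_add_left 1 m) ⟨h1, h2, h3⟩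
      (steiner K h1 h2) fun i => steiner _ (compact_proj h1 i) (convex_proj h1 h2 i)

theorem cb_oct {n : ℕ} (a : E n) {r : ℝ} (hr : 0 ≤ r) : CB (oct n a r) := by
  have h := thm_OCB.cb n r hr
  rw [thm_OCB.tr n a r]
  exact ⟨h.cpt.image (continuous_const.add continuous_id), h.cvx.translate a, h.ne.image _⟩

/-- equality for the cross-polytopes, `m = n - 2` -/
theorem main_eq {m : ℕ} (a : E (m + 2)) {r : ℝ} (hr : 0 < r) :
    V (cross a r) m ^ 2 = c (m + 2) * ∑ i, V (proj i '' cross a r) m ^ 2 := by
  rw [cross_eq a hr]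
  have hK := cb_oct a hr.le
  exact a_OEQ (m + 1) a r (V (oct (m + 2) a r)) (fun i => V (proj i '' oct (m + 2) a r))
    (Nat.le_add_left 1 m) hr (steiner _ hK.cpt hK.cvx) fun i =>
      steiner _ (compact_proj hK.cpt i) (convex_proj hK.cpt hK.cvx i)

end RLW.Final
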