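import Pool.Agent.RLW.Asm3
import Pool.Agent.RLW.Final

/-!
# RLW: dimension three
-/

set_option autoImplicit false

open MeasureTheory Metric Set
open scoped BigOperators Pointwise

namespace RLW.Final

theorem sect_steiner {K : Set (E 3)} (h1 : IsCompact K) (h2 : Convex ℝ K) (i : Fin 3) :
    Steiner (sect i K) (V (sect i K)) := by
  rcases (sect i K).eq_empty_or_nonempty with h | h
  · rw [h]
    exact steiner ∅ isCompact_empty convex_empty
  · have hne : K.Nonempty := by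
      obtain ⟨y, hy⟩ := h
      exact ⟨_, hy⟩
    have h3 : CB (sc i K) := SEC_cb (n := 2) ⟨h1, h2, hne⟩ thm_PRC i h
    exact steiner _ h3.cpt h3.cvx

theorem sect_zero {K : Set (E 3)} (h1 : IsCompact K) (h2 : Convex ℝ K) (i : Fin 3)
    (h : sect i K = ∅) : V (sect i K) 1 = 0 := by
  have h3 := sect_steiner h1 h2 i
  rw [h] at h3 ⊢
  exact steiner_empty h3 (by norm_num)

theorem sect_le {K : Set (E 3)} (h1 : IsCompact K) (h2 : Convex ℝ K) (hne : K.Nonempty)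
    (i : Fin 3) : 0 ≤ V (sect i K) 1 ∧ V (sect i K) 1 ≤ V (proj i '' K) 1 :=
  SEC_le a_MWF a_MON thm_HSB thm_PRC a_SFP ⟨h1, h2, hne⟩ i
    (U := V (sect i K)) (W := V (proj i '' K)) (fun _ => sect_steiner h1 h2 i)
    (fun h => sect_zero h1 h2 i h)
    (steiner _ (compact_proj (n := 2) h1 i) (convex_proj (n := 2) h1 h2 i))

theorem chain (K : Set (E 3)) (h1 : IsCompact K) (h2 : Convex ℝ K) :
    c 3 * ∑ i, V (proj i '' K) 1 ^ 2 ≤ V K 1 ^ 2 ∧
      c 3 * ∑ i, V (sect i K) 1 ^ 2 ≤ c 3 * ∑ i, V (proj i '' K) 1 ^ 2 := by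
  refine ⟨main_ineq (m := 1) K h1 h2, mul_le_mul_of_nonneg_left ?_ (c_pos 2).le⟩
  rcases K.eq_empty_or_nonempty with h3 | h3
  · have h4 : ∀ i : Fin 3, V (sect i K) 1 = 0 := by
      intro i
      refine sect_zero h1 h2 i ?_
      rw [h3]
      rfl
    rw [Finset.sum_eq_zero fun i _ => by rw [h4 i, sq, mul_zero]]
    exact Finset.sum_nonneg fun i _ => sq_nonneg _
  · exact Finset.sum_le_sum fun i _ =>
      pow_le_pow_left₀ (sect_le h1 h2 h3 i).1 (sect_le h1 h2 h3 i).2 2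

theorem equality (K : Set (E 3)) (h1 : IsCompact K) (h2 : Convex ℝ K)
    (hint : (interior K).Nonempty) :
    (V K 1 ^ 2 = c 3 * ∑ i, V (proj i '' K) 1 ^ 2 ↔ ∃ (a : E 3) (r : ℝ), 0 < r ∧ K = cross a r) ∧
      (V K 1 ^ 2 = c 3 * ∑ i, V (sect i K) 1 ^ 2 ↔ ∃ r : ℝ, 0 < r ∧ K = cross 0 r) := by
  have hK : CB K := ⟨h1, h2, hint.mono interior_subset⟩
  constructor
  · have h := a_UNI K (V K) (fun i => V (proj i '' K)) hK hint (steiner K h1 h2) fun i =>
      steiner _ (compact_proj (n := 2) h1 i) (convex_proj (n := 2) h1 h2 i)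
    refine h.trans ⟨?_, ?_⟩
    · rintro ⟨a, r, hr, hKr⟩
      exact ⟨a, r, hr, hKr.trans (cross_eq (n := 2) a hr).symm⟩
    · rintro ⟨a, r, hr, hKr⟩
      exact ⟨a, r, hr, hKr.trans (cross_eq (n := 2) a hr)⟩
  · have h := (a_SEC K (V K) (fun i => V (sect i K)) hK (steiner K h1 h2)
      (fun i _ => sect_steiner h1 h2 i) (fun i h => sect_zero h1 h2 i h)).2 hint
    refine h.trans ⟨?_, ?_⟩
    · rintro ⟨r, hr, hKr⟩
      exact ⟨r, hr, hKr.trans (cross_eq (n := 2) 0 hr).symm⟩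
    · rintro ⟨r, hr, hKr⟩
      exact ⟨r, hr, hKr.trans (cross_eq (n := 2) 0 hr)⟩

end RLW.Final
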