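import Mathlib
import Pool.Agent.RLW.StU

/-!
# RLW [IND]: indecomposability of the cross-polytope
-/

set_option autoImplicit false

open MeasureTheory Metric Set
open scoped BigOperators Pointwise RealInnerProductSpace NNReal Topology

namespace RLW

private lemma ind_ga_add (g : Equiv.Perm (Fin 3) × (Fin 3 → Bool)) (x y : E 3) :
    ga g (x + y) = ga g x + ga g y := by
  ext i
  simp only [ga, PiLp.add_apply]
  split_ifs
  · rfl
  · ring

private lemma ind_ga_one (x : E 3) : ga (1, fun _ => true) x = x := by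
  ext i
  simp [ga]

private lemma ind_add (h_SFP : St_SFP) (h : E 3 → ℝ) (R : ℝ) (hS : SF h)
    (hR : ∀ x, sy h x = R * mx x) (x y : E 3) (hxy : mx (x + y) = mx x + mx y) :
    h (x + y) = h x + h y := by
  have h0 : ∑ g, (h (ga g x) + h (ga g y) - h (ga g (x + y))) = 0 := by
    rw [Finset.sum_sub_distrib, Finset.sum_add_distrib]
    have h1 := hR x
    have h2 := hR y
    have h3 := hR (x + y)
    unfold sy at h1 h2 h3
    rw [h1, h2, h3, hxy]
    ring
  have h1 : ∀ g ∈ (Finset.univ : Finset (Equiv.Perm (Fin 3) × (Fin 3 → Bool))),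
      0 ≤ h (ga g x) + h (ga g y) - h (ga g (x + y)) := by
    intro g _
    rw [ind_ga_add]
    have := h_SFP.sub 3 h (ga g x) (ga g y) hS
    linarith
  have h2 := (Finset.sum_eq_zero_iff_of_nonneg h1).1 h0 (1, fun _ => true) (Finset.mem_univ _)
  rw [ind_ga_one, ind_ga_one, ind_ga_one] at h2
  linarith

private lemma ind_mx_le (x y : E 3) : mx (x + y) ≤ mx x + mx y := by
  unfold mx
  simp only [PiLp.add_apply]
  refine max_le ?_ (max_le ?_ ?_)
  · exact (abs_add_le _ _).trans (add_le_add (le_max_left _ _) (le_max_left _ _))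
  · exact (abs_add_le _ _).trans (add_le_add ((le_max_left _ _).trans (le_max_right _ _))
      ((le_max_left _ _).trans (le_max_right _ _)))
  · exact (abs_add_le _ _).trans (add_le_add ((le_max_right _ _).trans (le_max_right _ _))
      ((le_max_right _ _).trans (le_max_right _ _)))

private lemma ind_mx_smul (c : ℝ) (hc : 0 ≤ c) (x : E 3) : mx (c • x) = c * mx x := by
  unfold mx
  simp only [PiLp.smul_apply, smul_eq_mul, abs_mul, abs_of_nonneg hc]
  rw [mul_max_of_nonneg _ _ hc, mul_max_of_nonneg _ _ hc]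

private lemma ind_step (h_SFP : St_SFP) (h : E 3 → ℝ) (R : ℝ) (hS : SF h)
    (hR : ∀ x, sy h x = R * mx x) (x y : E 3) (c s : ℝ) (hc : 0 ≤ c) (hx : mx x = 1)
    (hy : mx y ≤ s) (hxy : mx (c • x + y) = c + s) :
    h (c • x + y) = c * h x + h y ∧ mx y = s := by
  have h1 : mx (c • x) = c := by rw [ind_mx_smul c hc, hx, mul_one]
  have h2 := ind_mx_le (c • x) y
  rw [h1, hxy] at h2
  have h3 : mx y = s := le_antisymm hy (by linarith)
  refine ⟨?_, h3⟩
  rw [ind_add h_SFP h R hS hR (c • x) y (by rw [hxy, h1, h3]), h_SFP.hom 3 h x c hS hc]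

private lemma ind_cone (h_SFP : St_SFP) (h : E 3 → ℝ) (R : ℝ) (hS : SF h)
    (hR : ∀ x, sy h x = R * mx x) (p : ℝ → ℝ → ℝ → E 3)
    (padd : ∀ a b c a' b' c', p a b c + p a' b' c' = p (a + a') (b + b') (c + c'))
    (psm : ∀ r a b c, r • p a b c = p (r * a) (r * b) (r * c))
    (pmx : ∀ a b c, mx (p a b c) = max |a| (max |b| |c|)) (m u v : ℝ) (hm : 0 < m)
    (hu : |u| ≤ m) (hv : |v| ≤ m) :
    4 * m * h (p m u v) = (m + u) * (m + v) * h (p 1 1 1) + (m + u) * (m - v) * h (p 1 1 (-1)) +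
      (m - u) * (m + v) * h (p 1 (-1) 1) + (m - u) * (m - v) * h (p 1 (-1) (-1)) := by
  have hu1 := (abs_le.1 hu).1
  have hu2 := (abs_le.1 hu).2
  have hv1 := (abs_le.1 hv).1
  have hv2 := (abs_le.1 hv).2
  set c1 := (m + u) * (m + v) / (4 * m) with hc1
  set c2 := (m + u) * (m - v) / (4 * m) with hc2
  set c3 := (m - u) * (m + v) / (4 * m) with hc3
  set c4 := (m - u) * (m - v) / (4 * m) with hc4
  have n1 : 0 ≤ c1 := div_nonneg (mul_nonneg (by linarith) (by linarith)) (by linarith)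
  have n2 : 0 ≤ c2 := div_nonneg (mul_nonneg (by linarith) (by linarith)) (by linarith)
  have n3 : 0 ≤ c3 := div_nonneg (mul_nonneg (by linarith) (by linarith)) (by linarith)
  have n4 : 0 ≤ c4 := div_nonneg (mul_nonneg (by linarith) (by linarith)) (by linarith)
  have hsum : c1 + (c2 + (c3 + c4)) = m := by
    rw [hc1, hc2, hc3, hc4]; field_simp; ring
  have hsu : c1 + (c2 + (-c3 + -c4)) = u := by
    rw [hc1, hc2, hc3, hc4]; field_simp; ring
  have hsv : c1 + (-c2 + (c3 + -c4)) = v := by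
    rw [hc1, hc2, hc3, hc4]; field_simp; ring
  have m1 : mx (p 1 1 1) = 1 := by rw [pmx]; norm_num
  have m2 : mx (p 1 1 (-1)) = 1 := by rw [pmx]; norm_num
  have m3 : mx (p 1 (-1) 1) = 1 := by rw [pmx]; norm_num
  have m4 : mx (p 1 (-1) (-1)) = 1 := by rw [pmx]; norm_num
  have e4 : mx (c4 • p 1 (-1) (-1)) = c4 := by rw [ind_mx_smul c4 n4, m4, mul_one]
  have e3' : mx (c3 • p 1 (-1) 1) = c3 := by rw [ind_mx_smul c3 n3, m3, mul_one]
  have e2 : mx (c2 • p 1 1 (-1)) = c2 := by rw [ind_mx_smul c2 n2, m2, mul_one]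
  have l3 : mx (c3 • p 1 (-1) 1 + c4 • p 1 (-1) (-1)) ≤ c3 + c4 := by
    have := ind_mx_le (c3 • p 1 (-1) 1) (c4 • p 1 (-1) (-1))
    linarith
  have l2 : mx (c2 • p 1 1 (-1) + (c3 • p 1 (-1) 1 + c4 • p 1 (-1) (-1))) ≤ c2 + (c3 + c4) := by
    have := ind_mx_le (c2 • p 1 1 (-1)) (c3 • p 1 (-1) 1 + c4 • p 1 (-1) (-1))
    linarith
  have hp : c1 • p 1 1 1 + (c2 • p 1 1 (-1) + (c3 • p 1 (-1) 1 + c4 • p 1 (-1) (-1))) =
      p m u v := by
    rw [psm, psm, psm, psm, padd, padd, padd]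
    simp only [mul_one, mul_neg]
    rw [hsum, hsu, hsv]
  have hpm : mx (p m u v) = m := by
    rw [pmx, abs_of_pos hm]
    exact max_eq_left (max_le hu hv)
  obtain ⟨s1, t1⟩ := ind_step h_SFP h R hS hR (p 1 1 1) _ c1 _ n1 m1 l2
    (by rw [hp, hpm, hsum])
  obtain ⟨s2, t2⟩ := ind_step h_SFP h R hS hR (p 1 1 (-1)) _ c2 _ n2 m2 l3 t1
  obtain ⟨s3, -⟩ := ind_step h_SFP h R hS hR (p 1 (-1) 1) _ c3 _ n3 m3 e4.le t2
  have s4 := h_SFP.hom 3 h (p 1 (-1) (-1)) c4 hS n4
  have hfin : h (p m u v) = c1 * h (p 1 1 1) + (c2 * h (p 1 1 (-1)) + (c3 * h (p 1 (-1) 1) +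
      c4 * h (p 1 (-1) (-1)))) := by
    rw [← hp, s1, s2, s3, s4]
  rw [hfin, hc1, hc2, hc3, hc4]
  field_simp
  ring

private lemma ind_rel (h_SFP : St_SFP) (h : E 3 → ℝ) (R : ℝ) (hS : SF h)
    (hR : ∀ x, sy h x = R * mx x) (p : ℝ → ℝ → ℝ → E 3)
    (padd : ∀ a b c a' b' c', p a b c + p a' b' c' = p (a + a') (b + b') (c + c'))
    (pmx : ∀ a b c, mx (p a b c) = max |a| (max |b| |c|)) :
    h (p 1 1 1) + h (p 1 (-1) (-1)) = h (p 1 1 (-1)) + h (p 1 (-1) 1) := by
  have e1 : p 1 1 1 + p 1 (-1) (-1) = p 2 0 0 := by rw [padd]; norm_num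
  have e2 : p 1 1 (-1) + p 1 (-1) 1 = p 2 0 0 := by rw [padd]; norm_num
  have a1 := ind_add h_SFP h R hS hR (p 1 1 1) (p 1 (-1) (-1)) (by
    rw [e1, pmx, pmx, pmx]; norm_num)
  have a2 := ind_add h_SFP h R hS hR (p 1 1 (-1)) (p 1 (-1) 1) (by
    rw [e2, pmx, pmx, pmx]; norm_num)
  rw [e1] at a1
  rw [e2] at a2
  linarith

private lemma ind_e3_add (a b c a' b' c' : ℝ) :
    e3 a b c + e3 a' b' c' = e3 (a + a') (b + b') (c + c') := by
  ext i
  fin_cases i <;> simp [e3]

private lemma ind_e3_smul (r a b c : ℝ) : r • e3 a b c = e3 (r * a) (r * b) (r * c) := by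
  ext i
  fin_cases i <;> simp [e3]

private lemma ind_e3_mx (a b c : ℝ) : mx (e3 a b c) = max |a| (max |b| |c|) := by
  simp [mx, e3]

theorem thm_IND (h_SFP : St_SFP) : St_IND := by
  intro h R hS hR
  -- the six parametrisations
  have P1 := ind_cone h_SFP h R hS hR (fun a b c => e3 a b c)
    (fun a b c a' b' c' => ind_e3_add _ _ _ _ _ _) (fun r a b c => ind_e3_smul _ _ _ _)
    (fun a b c => ind_e3_mx _ _ _)
  have P2 := ind_cone h_SFP h R hS hR (fun a b c => e3 (-a) b c)
    (fun a b c a' b' c' => by rw [ind_e3_add]; congr 1; ring)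
    (fun r a b c => by rw [ind_e3_smul]; congr 1; ring)
    (fun a b c => by rw [ind_e3_mx, abs_neg])
  have P3 := ind_cone h_SFP h R hS hR (fun a b c => e3 b a c)
    (fun a b c a' b' c' => ind_e3_add _ _ _ _ _ _) (fun r a b c => ind_e3_smul _ _ _ _)
    (fun a b c => by rw [ind_e3_mx]; exact max_left_comm _ _ _)
  have P4 := ind_cone h_SFP h R hS hR (fun a b c => e3 b (-a) c)
    (fun a b c a' b' c' => by rw [ind_e3_add]; congr 1; ring)
    (fun r a b c => by rw [ind_e3_smul]; congr 1; ring)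
    (fun a b c => by rw [ind_e3_mx, abs_neg]; exact max_left_comm _ _ _)
  have P5 := ind_cone h_SFP h R hS hR (fun a b c => e3 b c a)
    (fun a b c a' b' c' => ind_e3_add _ _ _ _ _ _) (fun r a b c => ind_e3_smul _ _ _ _)
    (fun a b c => by rw [ind_e3_mx, ← max_assoc]; exact max_comm _ _)
  have P6 := ind_cone h_SFP h R hS hR (fun a b c => e3 b c (-a))
    (fun a b c a' b' c' => by rw [ind_e3_add]; congr 1; ring)
    (fun r a b c => by rw [ind_e3_smul]; congr 1; ring)
    (fun a b c => by rw [ind_e3_mx, abs_neg, ← max_assoc]; exact max_comm _ _)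
  have Q1 := ind_rel h_SFP h R hS hR (fun a b c => e3 a b c)
    (fun a b c a' b' c' => ind_e3_add _ _ _ _ _ _)
    (fun a b c => ind_e3_mx _ _ _)
  have Q2 := ind_rel h_SFP h R hS hR (fun a b c => e3 (-a) b c)
    (fun a b c a' b' c' => by rw [ind_e3_add]; congr 1; ring)
    (fun a b c => by rw [ind_e3_mx, abs_neg])
  have Q3 := ind_rel h_SFP h R hS hR (fun a b c => e3 b a c)
    (fun a b c a' b' c' => ind_e3_add _ _ _ _ _ _)
    (fun a b c => by rw [ind_e3_mx]; exact max_left_comm _ _ _)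
  have Q4 := ind_rel h_SFP h R hS hR (fun a b c => e3 b (-a) c)
    (fun a b c a' b' c' => by rw [ind_e3_add]; congr 1; ring)
    (fun a b c => by rw [ind_e3_mx, abs_neg]; exact max_left_comm _ _ _)
  have Q5 := ind_rel h_SFP h R hS hR (fun a b c => e3 b c a)
    (fun a b c a' b' c' => ind_e3_add _ _ _ _ _ _)
    (fun a b c => by rw [ind_e3_mx, ← max_assoc]; exact max_comm _ _)
  have Q6 := ind_rel h_SFP h R hS hR (fun a b c => e3 b c (-a))
    (fun a b c a' b' c' => by rw [ind_e3_add]; congr 1; ring)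
    (fun a b c => by rw [ind_e3_mx, abs_neg, ← max_assoc]; exact max_comm _ _)
  set A := h (e3 1 1 1) with hA
  set B := h (e3 1 1 (-1)) with hB
  set C := h (e3 1 (-1) 1) with hC
  set D := h (e3 1 (-1) (-1)) with hD
  set A' := h (e3 (-1) 1 1) with hA'
  set B' := h (e3 (-1) 1 (-1)) with hB'
  set C' := h (e3 (-1) (-1) 1) with hC'
  set D' := h (e3 (-1) (-1) (-1)) with hD'
  set ρ := (A + B + C + D + A' + B' + C' + D') / 8 with hρ
  set a0 := (A + B + C + D - A' - B' - C' - D') / 8 with ha0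
  set a1 := (A + B - C - D + A' + B' - C' - D') / 8 with ha1
  set a2 := (A - B + C - D + A' - B' + C' - D') / 8 with ha2
  have EA : A = ρ + a0 + a1 + a2 := by linarith
  have EB : B = ρ + a0 + a1 - a2 := by linarith
  have EC : C = ρ + a0 - a1 + a2 := by linarith
  have ED : D = ρ + a0 - a1 - a2 := by linarith
  have EA' : A' = ρ - a0 + a1 + a2 := by linarith
  have EB' : B' = ρ - a0 + a1 - a2 := by linarith
  have EC' : C' = ρ - a0 - a1 + a2 := by linarith
  have ED' : D' = ρ - a0 - a1 - a2 := by linarith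
  refine ⟨e3 a0 a1 a2, ρ, ?_⟩
  intro x
  have hin : ⟪e3 a0 a1 a2, x⟫ = a0 * x 0 + a1 * x 1 + a2 * x 2 := by
    rw [PiLp.inner_apply, Fin.sum_univ_three]
    simp [e3, mul_comm]
  have hx : x = e3 (x 0) (x 1) (x 2) := by
    ext i
    fin_cases i <;> simp [e3]
  rw [hin]
  have h0 : |x 0| ≤ mx x := le_max_left _ _
  have h1 : |x 1| ≤ mx x := (le_max_left _ _).trans (le_max_right _ _)
  have h2 : |x 2| ≤ mx x := (le_max_right _ _).trans (le_max_right _ _)
  have hmx : mx x = |x 0| ∨ mx x = |x 1| ∨ mx x = |x 2| := by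
    unfold mx
    rcases max_choice |x 0| (max |x 1| |x 2|) with h | h
    · exact Or.inl h
    · rw [h]
      exact Or.inr (max_choice _ _)
  rcases (le_trans (abs_nonneg _) h0 : 0 ≤ mx x).eq_or_lt with hz | hpos
  · have z0 : x 0 = 0 := by
      have := abs_nonneg (x 0)
      exact abs_eq_zero.1 (le_antisymm (by linarith) this)
    have z1 : x 1 = 0 := by
      have := abs_nonneg (x 1)
      exact abs_eq_zero.1 (le_antisymm (by linarith) this)
    have z2 : x 2 = 0 := by
      have := abs_nonneg (x 2)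
      exact abs_eq_zero.1 (le_antisymm (by linarith) this)
    have hx0 : x = (0 : ℝ) • x := by
      rw [zero_smul]
      ext i
      fin_cases i <;> simp [z0, z1, z2]
    have hh : h x = 0 := by
      rw [hx0, h_SFP.hom 3 h x 0 hS le_rfl, zero_mul]
    rw [hh, z0, z1, z2, ← hz]
    ring
  · generalize hmm : mx x = m at *
    have hm4 : (4 * m) ≠ 0 := by positivity
    apply mul_left_cancel₀ hm4
    rcases hmx with hmx | hmx | hmx
    · rcases abs_choice (x 0) with ha | ha
      · have hx' : x = e3 m (x 1) (x 2) := by rw [hmx, ha]; exact hx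
        have hk := P1 m (x 1) (x 2) hpos h1 h2
        rw [← hx'] at hk
        rw [hk, EA, EB, EC, ED, show x 0 = m by rw [hmx, ha]]
        ring
      · have hx' : x = e3 (-m) (x 1) (x 2) := by rw [hmx, ha, neg_neg]; exact hx
        have hk := P2 m (x 1) (x 2) hpos h1 h2
        rw [← hx'] at hk
        rw [hk, EA', EB', EC', ED', show x 0 = -m by rw [hmx, ha, neg_neg]]
        ring
    · rcases abs_choice (x 1) with ha | ha
      · have hx' : x = e3 (x 0) m (x 2) := by rw [hmx, ha]; exact hx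
        have hk := P3 m (x 0) (x 2) hpos h0 h2
        rw [← hx'] at hk
        rw [hk, EA, EB, EA', EB', show x 1 = m by rw [hmx, ha]]
        ring
      · have hx' : x = e3 (x 0) (-m) (x 2) := by rw [hmx, ha, neg_neg]; exact hx
        have hk := P4 m (x 0) (x 2) hpos h0 h2
        rw [← hx'] at hk
        rw [hk, EC, ED, EC', ED', show x 1 = -m by rw [hmx, ha, neg_neg]]
        ring
    · rcases abs_choice (x 2) with ha | ha
      · have hx' : x = e3 (x 0) (x 1) m := by rw [hmx, ha]; exact hx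
        have hk := P5 m (x 0) (x 1) hpos h0 h1
        rw [← hx'] at hk
        rw [hk, EA, EC, EA', EC', show x 2 = m by rw [hmx, ha]]
        ring
      · have hx' : x = e3 (x 0) (x 1) (-m) := by rw [hmx, ha, neg_neg]; exact hx
        have hk := P6 m (x 0) (x 1) hpos h0 h1
        rw [← hx'] at hk
        rw [hk, EB, ED, EB', ED', show x 2 = -m by rw [hmx, ha, neg_neg]]
        ring

end RLW
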