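import Pool.Agent.RLW.StB

/-!
# RLW [LP1]: Laplace transform, first form
-/

set_option autoImplicit false

open MeasureTheory Metric Set
open scoped BigOperators Pointwise RealInnerProductSpace NNReal Topology

namespace RLW

private theorem LP1_int (j : ℕ) (l : ℝ) (hl : 0 < l) :
    IntegrableOn (fun r : ℝ => r ^ j * Real.exp (-l * r)) (Ioi 0) ∧
    ∫ r in Ioi (0 : ℝ), r ^ j * Real.exp (-l * r) = j.factorial / l ^ (j + 1) := by
  constructor
  · have h1 := integrableOn_rpow_mul_exp_neg_mul_rpow (p := 1) (s := j) (b := l)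
      (by have : (0 : ℝ) ≤ j := Nat.cast_nonneg j
          linarith) one_pos hl
    refine h1.congr_fun (fun r hr => ?_) measurableSet_Ioi
    beta_reduce
    rw [Real.rpow_natCast, Real.rpow_one]
  · have h2 := Real.integral_rpow_mul_exp_neg_mul_Ioi (a := j + 1) (r := l)
      (by positivity) hl
    rw [Real.Gamma_nat_eq_factorial] at h2
    have h3 : ∫ r in Ioi (0 : ℝ), r ^ j * Real.exp (-l * r) =
        ∫ t in Ioi (0 : ℝ), t ^ ((j : ℝ) + 1 - 1) * Real.exp (-(l * t)) := by
      refine setIntegral_congr_fun measurableSet_Ioi fun t ht => ?_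
      rw [add_sub_cancel_right, Real.rpow_natCast, neg_mul]
    rw [h3, h2]
    have h4 : ((j : ℝ) + 1) = ((j + 1 : ℕ) : ℝ) := by push_cast; ring
    rw [h4, Real.rpow_natCast, one_div, inv_pow]
    ring

theorem thm_LP1 (h_WIL : St_WIL) (h_SCV : St_SCV) (h_OCB : St_OCB) : St_LP1 := by
  intro n V l hV hl
  set g : ℝ → ℝ := fun r => ∑ j ∈ Finset.range (n + 1),
    (V j * √Real.pi ^ (n - j)) * (r ^ j * Real.exp (-l * r)) with hg
  have key : ∀ r ∈ Ioi (0 : ℝ), 0 ≤ g r ∧
      ∫⁻ x : E n, ENNReal.ofReal (Real.exp (-l * r - infDist x (oc n r) ^ 2)) =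
        ENNReal.ofReal (g r) := by
    intro r hr
    have hr0 : 0 < r := hr
    have h1 : IsIV (oc n r) fun j => r ^ j * V j := by
      rw [h_OCB.sc n r hr0]
      exact h_SCV.sc n _ V r hr0 hV
    obtain ⟨h2, h3⟩ := h_WIL n (oc n r) _ (h_OCB.cb n r hr0.le) h1
    have h4 : (fun x : E n => Real.exp (-l * r - infDist x (oc n r) ^ 2)) =
        fun x => Real.exp (-l * r) * Real.exp (-infDist x (oc n r) ^ 2) := by
      funext x
      rw [← Real.exp_add]
      congr 1
    have h5 : Integrable (fun x : E n => Real.exp (-l * r - infDist x (oc n r) ^ 2)) := by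
      rw [h4]
      exact h2.const_mul _
    have h6 : ∫ x : E n, Real.exp (-l * r - infDist x (oc n r) ^ 2) = g r := by
      rw [h4, integral_const_mul, h3, Finset.mul_sum]
      refine Finset.sum_congr rfl fun j _ => ?_
      ring
    constructor
    · rw [← h6]
      exact integral_nonneg fun x => (Real.exp_pos _).le
    · rw [← h6, ofReal_integral_eq_lintegral_ofReal h5
        (Filter.Eventually.of_forall fun x => (Real.exp_pos _).le)]
  have hgi : IntegrableOn g (Ioi 0) := by
    refine integrable_finsetSum _ fun j _ => ?_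
    exact (LP1_int j l hl).1.const_mul _
  rw [setLIntegral_congr_fun measurableSet_Ioi fun r hr => (key r hr).2]
  rw [← ofReal_integral_eq_lintegral_ofReal hgi
    ((ae_restrict_iff' measurableSet_Ioi).2 (Filter.Eventually.of_forall fun r hr => (key r hr).1))]
  congr 1
  rw [hg, integral_finsetSum _ fun j _ => (LP1_int j l hl).1.const_mul _]
  refine Finset.sum_congr rfl fun j _ => ?_
  rw [integral_const_mul, (LP1_int j l hl).2]
  ring

end RLW
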