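import Pool.Agent.RLW.St

/-!
# RLW, module NPT: nearest points of a convex body
-/

set_option autoImplicit false

open MeasureTheory Metric Set
open scoped BigOperators Pointwise RealInnerProductSpace NNReal Topology

namespace RLW

private theorem NPT_spec {n : ℕ} {K : Set (E n)} (hK : CB K) (x : E n) :
    npt K x ∈ K ∧ dist x (npt K x) = infDist x K := by
  classical
  have h : ∃ y ∈ K, dist x y = infDist x K := by
    obtain ⟨y, hy, h⟩ := hK.cpt.exists_infDist_eq_dist hK.ne x
    exact ⟨y, hy, h.symm⟩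
  unfold npt
  rw [dif_pos h]
  exact h.choose_spec

private theorem NPT_var {n : ℕ} {K : Set (E n)} (hK : CB K) (x z : E n) (hz : z ∈ K) :
    ⟪x - npt K x, z - npt K x⟫ ≤ 0 := by
  obtain ⟨h1, h2⟩ := NPT_spec hK x
  refine (norm_eq_iInf_iff_real_inner_le_zero hK.cvx h1).1 ?_ z hz
  rw [← dist_eq_norm, h2, infDist_eq_iInf]
  simp only [dist_eq_norm]

theorem thm_NPT : St_NPT where
  mem _ _ x hK := (NPT_spec hK x).1
  dst _ _ x hK := by
    rw [← dist_eq_norm]
    exact (NPT_spec hK x).2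
  var _ _ x z hK hz := NPT_var hK x z hz
  lip n K x y hK := by
    have h1 := NPT_var hK x (npt K y) (NPT_spec hK y).1
    have h2 := NPT_var hK y (npt K x) (NPT_spec hK x).1
    set p := npt K x
    set q := npt K y
    have h3 : ⟪x - y, p - q⟫ ≤ ‖x - y‖ * ‖p - q‖ := real_inner_le_norm _ _
    have h4 : ‖p - q‖ ^ 2 ≤ ⟪x - y, p - q⟫ := by
      have e1 : ⟪x - p, q - p⟫ = - ⟪x - p, p - q⟫ := by
        rw [← inner_neg_right, neg_sub]
      have e2 : ⟪x - y, p - q⟫ = ⟪x - p, p - q⟫ - ⟪y - q, p - q⟫ + ‖p - q‖ ^ 2 := by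
        rw [← real_inner_self_eq_norm_sq, ← inner_sub_left, ← inner_add_left]
        congr 1
        abel
      rw [e1] at h1
      rw [e2]
      linarith
    by_cases h0 : ‖p - q‖ = 0
    · rw [h0]
      exact norm_nonneg _
    · have h5 : 0 < ‖p - q‖ := lt_of_le_of_ne (norm_nonneg _) (Ne.symm h0)
      nlinarith [h3, h4]

end RLW
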