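import Pool.Agent.RLW.St

/-!
# RLW, module TRC: the trace bounds a nonnegative form
-/

set_option autoImplicit false

open MeasureTheory Metric Set
open scoped BigOperators Pointwise RealInnerProductSpace NNReal Topology

namespace RLW

private theorem TRC_cs {n : ℕ} (H : E n →L[ℝ] E n) (hs : ∀ v w, ⟪H v, w⟫ = ⟪v, H w⟫)
    (hp : ∀ v, 0 ≤ ⟪H v, v⟫) (x y : E n) : ⟪H x, y⟫ ^ 2 ≤ ⟪H x, x⟫ * ⟪H y, y⟫ := by
  have h1 : ∀ t : ℝ, 0 ≤ ⟪H y, y⟫ * (t * t) + (2 * ⟪H x, y⟫) * t + ⟪H x, x⟫ := by
    intro t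
    have h2 := hp (x + t • y)
    have h3 : ⟪H y, x⟫ = ⟪H x, y⟫ := by
      rw [hs, real_inner_comm]
    rw [map_add, map_smul, inner_add_left, inner_add_right, inner_add_right,
      real_inner_smul_left, real_inner_smul_right, real_inner_smul_left,
      real_inner_smul_right, h3] at h2
    linarith
  have h4 := discrim_le_zero h1
  unfold discrim at h4
  nlinarith

theorem thm_TRC : St_TRC := by
  intro n H v hs hp
  have hv : v = ∑ j, v j • (EuclideanSpace.single j (1 : ℝ) : E n) := by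
    ext k
    simp [Finset.sum_apply, Pi.single_apply]
  set a : Fin n → ℝ := fun j => √⟪H (EuclideanSpace.single j 1), EuclideanSpace.single j 1⟫
    with ha
  have ha2 : ∀ j, a j ^ 2 = (H (EuclideanSpace.single j 1)) j := by
    intro j
    have h0 : a j ^ 2 = ⟪H (EuclideanSpace.single j 1), (EuclideanSpace.single j (1 : ℝ) : E n)⟫ :=
      Real.sq_sqrt (hp _)
    rw [h0, real_inner_comm, EuclideanSpace.inner_single_left]
    simp
  have h1 : ⟪H v, v⟫ = ∑ j, ∑ k, v j * v k *
      ⟪H (EuclideanSpace.single j 1), (EuclideanSpace.single k (1 : ℝ) : E n)⟫ := by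
    conv_lhs => rw [hv]
    rw [map_sum, sum_inner]
    refine Finset.sum_congr rfl fun j _ => ?_
    rw [inner_sum]
    refine Finset.sum_congr rfl fun k _ => ?_
    rw [map_smul, real_inner_smul_left, real_inner_smul_right]
    ring
  have h2 : ∀ j k, v j * v k *
      ⟪H (EuclideanSpace.single j 1), (EuclideanSpace.single k (1 : ℝ) : E n)⟫ ≤
        (|v j| * a j) * (|v k| * a k) := by
    intro j k
    have h3 := TRC_cs H hs hp (EuclideanSpace.single j 1) (EuclideanSpace.single k 1)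
    have h4 : |⟪H (EuclideanSpace.single j 1), (EuclideanSpace.single k (1 : ℝ) : E n)⟫| ≤
        a j * a k := by
      have h5 : a j * a k = √(⟪H (EuclideanSpace.single j 1),
          (EuclideanSpace.single j (1 : ℝ) : E n)⟫ *
          ⟪H (EuclideanSpace.single k 1), (EuclideanSpace.single k (1 : ℝ) : E n)⟫) :=
        (Real.sqrt_mul (hp _) _).symm
      rw [h5]
      exact Real.abs_le_sqrt h3
    refine (le_abs_self _).trans ?_
    rw [abs_mul, abs_mul]
    have h6 := mul_le_mul_of_nonneg_left h4 (mul_nonneg (abs_nonneg (v j)) (abs_nonneg (v k)))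
    refine h6.trans (le_of_eq ?_)
    ring
  calc ⟪H v, v⟫ ≤ ∑ j : Fin n, ∑ k : Fin n, ((|v j| * a j) * (|v k| * a k)) := by
        rw [h1]
        exact Finset.sum_le_sum fun j _ => Finset.sum_le_sum fun k _ => h2 j k
    _ = (∑ j, (|v j| * a j)) ^ 2 := by
        rw [sq, Finset.sum_mul_sum]
    _ ≤ (∑ j, |v j| ^ 2) * ∑ j, a j ^ 2 := Finset.sum_mul_sq_le_sq_mul_sq _ _ _
    _ = ‖v‖ ^ 2 * ∑ j, (H (EuclideanSpace.single j 1)) j := by
        rw [EuclideanSpace.norm_sq_eq]
        congr 1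
        exact Finset.sum_congr rfl fun j _ => ha2 j

end RLW
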